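import Pool.Agent.Run7.h239.Wrap
set_option autoImplicit false

/-!
The final theorems on the Euclidean plane.
-/

namespace Run7.h239.PP

open MeasureTheory Set Complex Metric
open scoped ENNReal NNReal RealInnerProductSpace

theorem isAmplitude_one : IsAmplitude (fun _ => (1 : ℂ)) := by
  refine ⟨contDiff_const, fun x => ⟨by simp, ?_, ?_⟩⟩
  · simp
  · have : fderiv ℝ (fun _ : E 2 => (1 : ℂ)) = fun _ => 0 := by
      ext1 x
      simp
    have h2 : fderiv ℝ (fderiv ℝ (fun _ : E 2 => (1 : ℂ))) x = 0 := by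
      rw [this]
      exact fderiv_const_apply _
    rw [h2]
    exact le_of_eq_of_le (@norm_zero (E 2 →L[ℝ] E 2 →L[ℝ] ℂ) _) zero_le_one

theorem chirp_meas (P : MvPolynomial (Fin 2) ℝ) : Measurable (chirp P) := by
  have h1 : chirp P = fun x => cexp ((ev P (toP x) : ℂ) * I) := by
    ext x
    rw [ev_toP]
    simp [chirp]
  rw [h1]
  have h2 : Measurable fun x : ℝ × ℝ => cexp ((ev P x : ℂ) * I) := by
    have := (ev_cont P).measurable
    fun_prop
  exact h2.comp toP.measurable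

theorem chirp_norm (P : MvPolynomial (Fin 2) ℝ) (x : E 2) : ‖chirp P x‖ = 1 := by
  unfold chirp
  rw [norm_exp_ofReal_mul_I]

theorem piece_fun_meas {a : E 2 → ℂ} (ha : IsAmplitude a) (P : MvPolynomial (Fin 2) ℝ) :
    Measurable (fun x => a x * chirp P x) :=
  ha.1.continuous.measurable.mul (chirp_meas P)

theorem piece_fun_le {a : E 2 → ℂ} (ha : IsAmplitude a) (P : MvPolynomial (Fin 2) ℝ) (x : E 2) :
    ‖a x * chirp P x‖ ≤ 1 := by
  rw [norm_mul, chirp_norm, mul_one]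
  exact (ha.2 x).1

theorem sub_Ico {R : Set (E 2)} (hR : R ⊆ ball 0 (1 / 2)) :
    toP.symm ⁻¹' R ⊆ Ico (-1 : ℝ) 1 ×ˢ Ico (-1 : ℝ) 1 := by
  intro x hx
  obtain ⟨⟨h1, h2⟩, h3, h4⟩ := ball_sub (preimage_mono hR hx)
  exact ⟨⟨by linarith, by linarith⟩, ⟨by linarith, by linarith⟩⟩

theorem rect_fin {R : Set (E 2)} (hR : R ⊆ ball 0 (1 / 2)) : volume R ≠ ∞ :=
  ne_top_of_le_ne_top measure_ball_lt_top.ne (measure_mono hR)

theorem vol_le_one {R : Set (E 2)} (hR : R ⊆ ball 0 (1 / 2)) : (volume R).toReal ≤ 1 := by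
  have h1 : volume R ≤ 1 := by
    rw [← vol_toP]
    exact (measure_mono (preimage_mono hR)).trans ball_vol
  exact ENNReal.toReal_le_of_le_ofReal (by norm_num) (by simpa using h1)

/-- **`N` disjoint pieces.** -/
theorem main1 (d : ℕ) (q : ℝ) (hq : 3 < q) : ∃ C : ℝ≥0, ∀ (N : ℕ) (U : Set (E 2))
    (R : Fin N → Set (E 2)) (P : Fin N → MvPolynomial (Fin 2) ℝ) (c : Fin N → ℂ) (f : E 2 → ℂ),
    0 < N → MeasurableSet U → U ⊆ ball 0 (1 / 2) →
    (∀ j, IsRectangle (R j) ∧ R j ⊆ U ∧ (P j).totalDegree ≤ d) →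
    (∀ i j, i ≠ j → Disjoint (R i) (R j)) →
    (∀ x ∈ U, f x = ∑ j, (R j).indicator (fun x => c j * chirp (P j) x) x) →
    eLpNorm (ext U f) (ENNReal.ofReal q) volume ≤
      C * ENNReal.ofReal ((N * (1 + Real.log N) ^ 3) ^ (1 / q)) *
        eLpNorm f (ENNReal.ofReal q) (volume.restrict U) := by
  classical
  obtain ⟨K, hK, hT⟩ := tame_piece d
  obtain ⟨C, hC0, hC⟩ := powA K hK q hq
  have hq0 : 0 < q := by linarith
  refine ⟨(C ^ (1 / q)).toNNReal, ?_⟩
  intro N U R P c f hN hU hUb hR hd hf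
  have hRm : ∀ j, MeasurableSet (R j) := fun j => rect_meas (hR j).1
  have hRb : ∀ j, R j ⊆ ball 0 (1 / 2) := fun j => (hR j).2.1.trans hUb
  have hm : ∀ j, Measurable (fun x => (1 : ℂ) * chirp (P j) x) := fun j =>
    piece_fun_meas isAmplitude_one (P j)
  have hb : ∀ j x, ‖(1 : ℂ) * chirp (P j) x‖ ≤ 1 := fun j x => piece_fun_le isAmplitude_one (P j) x
  have hf' : ∀ x ∈ U, f x = ∑ j, (R j).indicator (fun x => c j * ((1 : ℂ) * chirp (P j) x)) x := by
    intro x hx
    rw [hf x hx]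
    simp only [one_mul]
  have hext : ∀ ξ, ext U f ξ = Fs c (fun j => toP.symm ⁻¹' (R j))
      (fun j x => (1 : ℂ) * chirp (P j) (toP.symm x)) (xi3 ξ) := fun ξ =>
    ext_eq U hU R hRm (fun j => (hR j).2.1) (fun j => rect_fin (hRb j)) c _ hm hb f hf' ξ
  have hmain := hC (Fin N) c (fun j => toP.symm ⁻¹' (R j))
    (fun j x => (1 : ℂ) * chirp (P j) (toP.symm x)) (by rw [Fintype.card_fin]; exact hN)
    (fun j => hT (P j) (hR j).2.2 _ isAmplitude_one (R j) (hR j).1 (hRb j))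
    (fun j => sub_Ico (hRb j)) (fun i j hij => (hd i j hij).preimage _)
  rw [Fintype.card_fin] at hmain
  have e1 : ∫⁻ ξ, ‖ext U f ξ‖ₑ ^ q = ∫⁻ p, ‖Fs c (fun j => toP.symm ⁻¹' (R j))
      (fun j x => (1 : ℂ) * chirp (P j) (toP.symm x)) p‖ₑ ^ q := by
    simp_rw [hext]
    exact xi3_mp.lintegral_comp_emb xi3.measurableEmbedding (fun p =>
      ‖Fs c (fun j => toP.symm ⁻¹' (R j)) (fun j x => (1 : ℂ) * chirp (P j) (toP.symm x)) p‖ₑ ^ q)
  have e2 : ∑ j, ENNReal.ofReal (‖c j‖ ^ q) * volume (toP.symm ⁻¹' (R j)) ≤ ∫⁻ x in U, ‖f x‖ₑ ^ q := by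
    have h1 : ∀ x ∈ ⋃ j, R j, ∑ j, (R j).indicator (fun _ => ENNReal.ofReal (‖c j‖ ^ q)) x =
        ‖f x‖ₑ ^ q := by
      intro x hx
      obtain ⟨j, hj⟩ := mem_iUnion.1 hx
      have hne : ∀ l, l ≠ j → x ∉ R l := fun l hl h => Set.disjoint_left.1 (hd l j hl) h hj
      rw [Finset.sum_eq_single j (fun l _ hl => indicator_of_notMem (hne l hl) _)
        (fun h => absurd (Finset.mem_univ j) h), indicator_of_mem hj,
        hf x ((hR j).2.1 hj), Finset.sum_eq_single j (fun l _ hl => indicator_of_notMem (hne l hl) _)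
        (fun h => absurd (Finset.mem_univ j) h), indicator_of_mem hj, enorm_rpow _ hq0.le, norm_mul,
        chirp_norm, mul_one]
    have hUm : MeasurableSet (⋃ j, R j) := MeasurableSet.iUnion hRm
    calc ∑ j, ENNReal.ofReal (‖c j‖ ^ q) * volume (toP.symm ⁻¹' (R j))
        = ∑ j, ∫⁻ x in ⋃ j, R j, (R j).indicator (fun _ => ENNReal.ofReal (‖c j‖ ^ q)) x := by
          refine Finset.sum_congr rfl fun j _ => ?_
          rw [vol_toP, lintegral_indicator_const (hRm j), Measure.restrict_apply (hRm j),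
            inter_eq_self_of_subset_left (subset_iUnion R j)]
      _ = ∫⁻ x in ⋃ j, R j, ∑ j, (R j).indicator (fun _ => ENNReal.ofReal (‖c j‖ ^ q)) x := by
          rw [lintegral_finsetSum _ fun j _ => measurable_const.indicator (hRm j)]
      _ = ∫⁻ x in ⋃ j, R j, ‖f x‖ₑ ^ q := setLIntegral_congr_fun hUm h1
      _ ≤ ∫⁻ x in U, ‖f x‖ₑ ^ q := lintegral_mono_set (iUnion_subset fun j => (hR j).2.1)
  have e3 : eLpNorm (ext U f) (ENNReal.ofReal q) volume = (∫⁻ ξ, ‖ext U f ξ‖ₑ ^ q) ^ (1 / q) := by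
    rw [eLpNorm_eq_lintegral_rpow_enorm_toReal (by simpa using hq0) ENNReal.ofReal_ne_top,
      ENNReal.toReal_ofReal hq0.le]
  have e4 : eLpNorm f (ENNReal.ofReal q) (volume.restrict U) = (∫⁻ x in U, ‖f x‖ₑ ^ q) ^ (1 / q) := by
    rw [eLpNorm_eq_lintegral_rpow_enorm_toReal (by simpa using hq0) ENNReal.ofReal_ne_top,
      ENNReal.toReal_ofReal hq0.le]
  rw [e3, e4, e1]
  have hN1 : (1 : ℝ) ≤ N := by exact_mod_cast hN
  have hlN : 0 ≤ Real.log N := Real.log_nonneg hN1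
  have h5 := ENNReal.rpow_le_rpow (hmain.trans (mul_le_mul' le_rfl e2)) (by positivity : (0 : ℝ) ≤ 1 / q)
  refine h5.trans (le_of_eq ?_)
  rw [ENNReal.mul_rpow_of_nonneg _ _ (by positivity), ENNReal.ofReal_rpow_of_nonneg (by positivity)
    (by positivity), mul_assoc C, Real.mul_rpow hC0 (by positivity),
    ENNReal.ofReal_mul (by positivity)]
  rfl

/-- finite superpositions of chirps with smooth amplitudes on rectangles -/
def Superposition (d : ℕ) (U : Set (E 2)) (s : ℝ) (A : ℝ≥0∞) (g : E 2 → ℂ) : Prop :=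
  ∃ (N : ℕ) (R : Fin N → Set (E 2)) (P : Fin N → MvPolynomial (Fin 2) ℝ) (a : Fin N → E 2 → ℂ)
    (c : Fin N → ℂ),
    (∀ j, IsRectangle (R j) ∧ R j ⊆ U ∧ (P j).totalDegree ≤ d ∧ IsAmplitude (a j)) ∧
    (∀ x, g x = ∑ j, (R j).indicator (fun x => c j * (a j x * chirp (P j) x)) x) ∧
    ∑ j, ‖c j‖ₑ * volume (R j) ^ (1 / s) ≤ A

theorem superposition_bound (d : ℕ) (q s : ℝ) (hq : 3 < q) (hs : q / (q - 2) < s) :
    ∃ C : ℝ≥0, ∀ (U : Set (E 2)) (A : ℝ≥0∞) (g : E 2 → ℂ), MeasurableSet U → U ⊆ ball 0 (1 / 2) →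
    Superposition d U s A g →
    AEStronglyMeasurable (ext U g) volume ∧ IntegrableOn g U ∧
      eLpNorm (ext U g) (ENNReal.ofReal q) volume ≤ C * A := by
  classical
  obtain ⟨K, hK, hT⟩ := tame_piece d
  have hq0 : 0 < q := by linarith
  have hq2 : 0 < q - 2 := by linarith
  have hs0 : 0 < s := lt_trans (by positivity) hs
  have hgap : 0 < q - 2 - q / s := by
    rw [div_lt_iff₀ hq2] at hs
    rw [sub_pos, div_lt_iff₀ hs0]
    linarith
  set ε : ℝ := min ((q - 3) / 2) (q - 2 - q / s) with hε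
  have hε0 : 0 < ε := lt_min (by linarith) hgap
  have hεq : ε < q - 3 := lt_of_le_of_lt (min_le_left _ _) (by linarith)
  obtain ⟨C, hC0, hC⟩ := powB K hK q hq ε hε0 hεq
  refine ⟨(C ^ (1 / q)).toNNReal, ?_⟩
  rintro U A g hU hUb ⟨N, R, P, a, c, hR, hg, hA⟩
  have hRm : ∀ j, MeasurableSet (R j) := fun j => rect_meas (hR j).1
  have hRb : ∀ j, R j ⊆ ball 0 (1 / 2) := fun j => (hR j).2.1.trans hUb
  have hm : ∀ j, Measurable (fun x => a j x * chirp (P j) x) := fun j =>
    piece_fun_meas (hR j).2.2.2 (P j)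
  have hb : ∀ j x, ‖a j x * chirp (P j) x‖ ≤ 1 := fun j x => piece_fun_le (hR j).2.2.2 (P j) x
  have htm : ∀ j, Tame K (toP.symm ⁻¹' (R j)) (fun x => a j (toP.symm x) * chirp (P j) (toP.symm x)) :=
    fun j => hT (P j) (hR j).2.2.1 (a j) (hR j).2.2.2 (R j) (hR j).1 (hRb j)
  have hext : ext U g = fun ξ => Fs c (fun j => toP.symm ⁻¹' (R j))
      (fun j x => a j (toP.symm x) * chirp (P j) (toP.symm x)) (xi3 ξ) := by
    ext1 ξ
    exact ext_eq U hU R hRm (fun j => (hR j).2.1) (fun j => rect_fin (hRb j)) c _ hm hb g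
      (fun x _ => hg x) ξ
  have hFm : Measurable (Fs c (fun j => toP.symm ⁻¹' (R j))
      (fun j x => a j (toP.symm x) * chirp (P j) (toP.symm x))) := Fs_meas fun j => (htm j).2.1.1
  refine ⟨?_, ?_, ?_⟩
  · rw [hext]
    exact (hFm.comp xi3.measurable).aestronglyMeasurable
  · have hgfun : g = fun x => ∑ j, (R j).indicator (fun x => c j * (a j x * chirp (P j) x)) x := by
      ext1 x; exact hg x
    rw [hgfun]
    refine (integrable_finsetSum _ fun j _ => ?_).integrableOn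
    rw [integrable_indicator_iff (hRm j)]
    have hfj : IsFiniteMeasure (volume.restrict (R j)) := ⟨by
      rw [Measure.restrict_apply_univ]; exact (rect_fin (hRb j)).lt_top⟩
    refine Integrable.mono' (g := fun _ => ‖c j‖) (integrable_const _)
      ((hm j).const_mul (c j)).aestronglyMeasurable (Filter.Eventually.of_forall fun x => ?_)
    rw [norm_mul]
    exact mul_le_of_le_one_right (norm_nonneg _) (hb j x)
  · rw [hext]
    have h1 : eLpNorm (fun ξ => Fs c (fun j => toP.symm ⁻¹' (R j))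
        (fun j x => a j (toP.symm x) * chirp (P j) (toP.symm x)) (xi3 ξ)) (ENNReal.ofReal q) volume =
        eLpNorm (Fs c (fun j => toP.symm ⁻¹' (R j))
        (fun j x => a j (toP.symm x) * chirp (P j) (toP.symm x))) (ENNReal.ofReal q) volume :=
      eLpNorm_comp_measurePreserving hFm.aestronglyMeasurable xi3_mp
    rw [h1]
    have h2 : (Fs c (fun j => toP.symm ⁻¹' (R j))
        (fun j x => a j (toP.symm x) * chirp (P j) (toP.symm x))) =
        ∑ j, c j • fun p : ℝ × (ℝ × ℝ) => ∫ x in toP.symm ⁻¹' (R j),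
          (a j (toP.symm x) * chirp (P j) (toP.symm x)) * ker p.1 p.2 x := by
      ext1 p
      unfold Fs
      rw [Finset.sum_apply]
      rfl
    rw [h2]
    have hq1 : 1 ≤ ENNReal.ofReal q := by
      rw [ENNReal.one_le_ofReal]; linarith
    refine (eLpNorm_sum_le (fun j _ => ?_) hq1).trans ?_
    · exact ((piece_meas (htm j).2.1.1).const_smul (c j)).aestronglyMeasurable
    have h3 : ∀ j, eLpNorm (c j • fun p : ℝ × (ℝ × ℝ) => ∫ x in toP.symm ⁻¹' (R j),
          (a j (toP.symm x) * chirp (P j) (toP.symm x)) * ker p.1 p.2 x) (ENNReal.ofReal q) volume ≤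
        ENNReal.ofReal (C ^ (1 / q)) * (‖c j‖ₑ * volume (R j) ^ (1 / s)) := by
      intro j
      rw [eLpNorm_const_smul]
      have h4 := hC _ _ (htm j) (sub_Ico (hRb j))
      have h5 : eLpNorm (fun p : ℝ × (ℝ × ℝ) => ∫ x in toP.symm ⁻¹' (R j),
          (a j (toP.symm x) * chirp (P j) (toP.symm x)) * ker p.1 p.2 x) (ENNReal.ofReal q) volume ≤
          ENNReal.ofReal (C ^ (1 / q)) * volume (R j) ^ (1 / s) := by
        rw [eLpNorm_eq_lintegral_rpow_enorm_toReal (by simpa using hq0) ENNReal.ofReal_ne_top,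
          ENNReal.toReal_ofReal hq0.le]
        refine (ENNReal.rpow_le_rpow h4 (by positivity : (0 : ℝ) ≤ 1 / q)).trans ?_
        rw [vol_toP]
        set r := (volume (R j)).toReal with hr
        have hr0 : 0 ≤ r := ENNReal.toReal_nonneg
        have hr1 : r ≤ 1 := vol_le_one (hRb j)
        have hvr : volume (R j) = ENNReal.ofReal r := (ENNReal.ofReal_toReal (rect_fin (hRb j))).symm
        rw [hvr, ENNReal.ofReal_rpow_of_nonneg (by positivity) (by positivity),
          ENNReal.ofReal_rpow_of_nonneg hr0 (by positivity), Real.mul_rpow hC0 (by positivity),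
          ENNReal.ofReal_mul (by positivity), ← Real.rpow_mul hr0]
        refine mul_le_mul' le_rfl (ENNReal.ofReal_le_ofReal ?_)
        rcases hr0.eq_or_lt with h | h
        · have p1 : 0 < (q - 2 - ε) * (1 / q) := by
            have : 0 < q - 2 - ε := by linarith
            positivity
          rw [← h, Real.zero_rpow p1.ne']
          exact Real.rpow_nonneg le_rfl _
        · refine Real.rpow_le_rpow_of_exponent_ge h hr1 ?_
          have h6 : ε ≤ q - 2 - q / s := min_le_right _ _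
          have h7 : q / s ≤ q - 2 - ε := by linarith
          calc 1 / s = q / s * (1 / q) := by field_simp
            _ ≤ (q - 2 - ε) * (1 / q) := by gcongr
      calc ‖c j‖ₑ * _ ≤ ‖c j‖ₑ * (ENNReal.ofReal (C ^ (1 / q)) * volume (R j) ^ (1 / s)) := by gcongr
        _ = _ := by ring
    refine (Finset.sum_le_sum fun j _ => h3 j).trans ?_
    rw [← Finset.mul_sum]
    exact mul_le_mul' le_rfl hA

/-- **The closed hull of the chirps.** -/
theorem main2 (d : ℕ) (q s : ℝ) (hq : 3 < q) (hs : q / (q - 2) < s) :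
    ∃ C : ℝ≥0, ∀ (U : Set (E 2)) (A : ℝ≥0∞) (f : E 2 → ℂ), MeasurableSet U → U ⊆ ball 0 (1 / 2) →
    IntegrableOn f U →
    (∀ ε : ℝ, 0 < ε → ∃ g, Superposition d U s A g ∧ ∫⁻ x in U, ‖f x - g x‖ₑ ≤ ENNReal.ofReal ε) →
    eLpNorm (ext U f) (ENNReal.ofReal q) volume ≤ C * A := by
  obtain ⟨C, hC⟩ := superposition_bound d q s hq hs
  refine ⟨C, ?_⟩
  intro U A f hU hUb hfi happ
  have hpos : ∀ n : ℕ, (0 : ℝ) < 1 / (n + 1) := fun n => by positivity
  choose g hg1 hg2 using fun n : ℕ => happ (1 / (n + 1)) (hpos n)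
  have hgb := fun n => hC U A (g n) hU hUb (hg1 n)
  have hkm : ∀ ξ : E 3, Measurable fun x : E 2 => Complex.exp (-((⟪Phi x, ξ⟫ : ℝ) : ℂ) * I) := by
    intro ξ
    have h4 : Measurable fun x : E 2 => ker (xi3 ξ).1 (xi3 ξ).2 (toP x) := by
      have : Measurable fun x : ℝ × ℝ => ker (xi3 ξ).1 (xi3 ξ).2 x := by unfold ker; fun_prop
      exact this.comp toP.measurable
    have h5 : (fun x : E 2 => Complex.exp (-((⟪Phi x, ξ⟫ : ℝ) : ℂ) * I)) =
        fun x => ker (xi3 ξ).1 (xi3 ξ).2 (toP x) := by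
      ext x; rw [exp_ker]
    rw [h5]
    exact h4
  have hkn : ∀ (ξ : E 3) (x : E 2), ‖Complex.exp (-((⟪Phi x, ξ⟫ : ℝ) : ℂ) * I)‖ = 1 := by
    intro ξ x
    rw [exp_ker, norm_ker]
  have hint : ∀ (ξ : E 3) (h : E 2 → ℂ), IntegrableOn h U →
      IntegrableOn (fun x => Complex.exp (-((⟪Phi x, ξ⟫ : ℝ) : ℂ) * I) * h x) U := by
    intro ξ h hh
    refine hh.norm.mono' ((hkm ξ).aestronglyMeasurable.mul hh.aestronglyMeasurable)
      (Filter.Eventually.of_forall fun x => ?_)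
    rw [norm_mul, hkn, one_mul]
  have hlim : ∀ ξ, Filter.Tendsto (fun n => ext U (g n) ξ) Filter.atTop (nhds (ext U f ξ)) := by
    intro ξ
    rw [tendsto_iff_norm_sub_tendsto_zero]
    have h0 : Filter.Tendsto (fun n : ℕ => (1 : ℝ) / (n + 1)) Filter.atTop (nhds 0) :=
      tendsto_one_div_add_atTop_nhds_zero_nat
    refine squeeze_zero (fun n => norm_nonneg _) (fun n => ?_) h0
    have h1 : ext U (g n) ξ - ext U f ξ =
        -∫ x in U, Complex.exp (-((⟪Phi x, ξ⟫ : ℝ) : ℂ) * I) * (f x - g n x) := by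
      unfold ext
      rw [← integral_sub (hint ξ _ (hgb n).2.1) (hint ξ _ hfi), ← integral_neg]
      refine integral_congr_ae (Filter.Eventually.of_forall fun x => ?_)
      simp only
      ring
    rw [h1, norm_neg]
    have h2 : ‖∫ x in U, Complex.exp (-((⟪Phi x, ξ⟫ : ℝ) : ℂ) * I) * (f x - g n x)‖ₑ ≤
        ENNReal.ofReal (1 / (n + 1)) := by
      refine (enorm_integral_le_lintegral_enorm _).trans (le_trans (le_of_eq ?_) (hg2 n))
      refine lintegral_congr fun x => ?_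
      rw [enorm_mul, ← ofReal_norm (Complex.exp _), hkn, ENNReal.ofReal_one, one_mul]
    rw [← ofReal_norm, ENNReal.ofReal_le_ofReal_iff (hpos n).le] at h2
    exact h2
  refine (Lp.eLpNorm_lim_le_liminf_eLpNorm (fun n => (hgb n).1) _
    (Filter.Eventually.of_forall hlim)).trans ?_
  refine Filter.liminf_le_of_frequently_le' (Filter.Frequently.of_forall fun n => (hgb n).2.2)

/-- **Level sets.** -/
theorem main3 (d : ℕ) : ∃ C : ℝ≥0, ∀ (U : Set (E 2)) (R : Set (E 2)) (P : MvPolynomial (Fin 2) ℝ)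
    (a : E 2 → ℂ) (lam : ℝ), MeasurableSet U → U ⊆ ball 0 (1 / 2) → IsRectangle R → R ⊆ U →
    P.totalDegree ≤ d → IsAmplitude a → 0 < lam → lam ≤ 1 →
    volume {ξ | lam < ‖ext U (R.indicator fun x => a x * chirp P x) ξ‖} ≤
      C * ENNReal.ofReal ((1 + Real.log (1 / lam)) ^ 3 / lam ^ 3) * volume R := by
  classical
  obtain ⟨K, hK, hT⟩ := tame_piece d
  obtain ⟨C, hC0, hC⟩ := levelN K hK
  refine ⟨(C * (1 + Real.log 8) ^ 3).toNNReal, ?_⟩
  intro U R P a lam hU hUb hR hRU hP ha hlam hlam1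
  have hRm : MeasurableSet R := rect_meas hR
  have hRb : R ⊆ ball 0 (1 / 2) := hRU.trans hUb
  have htm := hT P hP a ha R hR hRb
  have hext : ∀ ξ, ext U (R.indicator fun x => a x * chirp P x) ξ =
      Fs (ι := Unit) (fun _ => 1) (fun _ => toP.symm ⁻¹' R)
        (fun _ x => a (toP.symm x) * chirp P (toP.symm x)) (xi3 ξ) := by
    intro ξ
    refine ext_eq (ι := Unit) U hU (fun _ => R) (fun _ => hRm) (fun _ => hRU) (fun _ => rect_fin hRb)
      (fun _ => 1) (fun _ x => a x * chirp P x) (fun _ => piece_fun_meas ha P)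
      (fun _ x => piece_fun_le ha P x) _ (fun x _ => ?_) ξ
    simp
  have h1 := hC Unit (fun _ => 1) (fun _ => toP.symm ⁻¹' R)
    (fun _ x => a (toP.symm x) * chirp P (toP.symm x)) (by simp) (fun _ => htm)
    (fun _ => sub_Ico hRb) (fun i j hij => absurd (Subsingleton.elim i j) hij) lam hlam
  simp only [Fintype.card_unit, Finset.univ_unique, Finset.sum_singleton, norm_one,
    Nat.cast_one, mul_one] at h1
  have hset : {ξ | lam < ‖ext U (R.indicator fun x => a x * chirp P x) ξ‖} =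
      xi3 ⁻¹' {p | lam < ‖Fs (ι := Unit) (fun _ => 1) (fun _ => toP.symm ⁻¹' R)
        (fun _ x => a (toP.symm x) * chirp P (toP.symm x)) p‖} := by
    ext ξ
    simp only [mem_ofPred_eq, mem_preimage, hext ξ]
  rw [hset, xi3_mp.measure_preimage_emb xi3.measurableEmbedding]
  refine h1.trans ?_
  rw [vol_toP, ← mul_assoc]
  refine mul_le_mul' ?_ le_rfl
  have hlv0 := lv_nonneg 1 le_rfl 1 lam hlam
  have hl : 0 ≤ Real.log (1 / lam) := Real.log_nonneg (by rw [le_div_iff₀ hlam]; linarith)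
  have hl8 : 0 ≤ Real.log 8 := Real.log_nonneg (by norm_num)
  have hCn : (((C * (1 + Real.log 8) ^ 3).toNNReal : ℝ≥0) : ℝ≥0∞) =
      ENNReal.ofReal (C * (1 + Real.log 8) ^ 3) := rfl
  rw [hCn, ← ENNReal.ofReal_mul (by positivity), ← ENNReal.ofReal_mul (by positivity)]
  refine ENNReal.ofReal_le_ofReal ?_
  have h8 : lam < 8 * 1 := by linarith
  unfold lv
  rw [if_pos h8]
  have e : (8 : ℝ) * (1 : ℕ) * 1 / lam = 8 * (1 / lam) := by push_cast; ring
  rw [e, Real.log_mul (by norm_num) (by positivity)]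
  have h9 : 1 + (Real.log 8 + Real.log (1 / lam)) ≤ (1 + Real.log 8) * (1 + Real.log (1 / lam)) := by
    nlinarith [mul_nonneg hl8 hl]
  calc C / lam ^ 3 * (1 ^ 3 * (1 + (Real.log 8 + Real.log (1 / lam))) ^ 3)
      ≤ C / lam ^ 3 * (1 ^ 3 * ((1 + Real.log 8) * (1 + Real.log (1 / lam))) ^ 3) := by gcongr
    _ = _ := by ring

end Run7.h239.PP
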