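import Pool.Agent.Run7.h239.BVb
set_option autoImplicit false

/-!
Bounded variation amplitudes and `C^m` phases: the final theorem.
-/

namespace Run7.h239.PP

open MeasureTheory Set Complex Metric
open scoped ENNReal NNReal RealInnerProductSpace

theorem local_polys (m : ℕ) (φ : E 2 → ℝ) (M : ℝ) (hM : 0 ≤ M) (hφ : ContDiff ℝ ((m : ℕ) + 1 : ℕ) φ)
    (hD : ∀ x, ‖iteratedFDeriv ℝ (m + 1) φ x‖ ≤ M ^ (m + 1)) (k0 : ℕ) (hk0 : M ≤ 2 ^ k0) :
    ∃ P : ℤ × ℤ → MvPolynomial (Fin 2) ℝ, (∀ i, (P i).totalDegree ≤ m + 1) ∧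
      ∀ i, ∀ x ∈ cube k0 i, ∀ y ∈ cube k0 i,
        |(φ (toP.symm x) - ev (P i) x) - (φ (toP.symm y) - ev (P i) y)| ≤
          2 * 4 ^ m * 2 ^ k0 * (|x.1 - y.1| + |x.2 - y.2|) := by
  have hδ : (0 : ℝ) ≤ (1 / 2) ^ k0 := by positivity
  choose P h1 _ h3 using fun i : ℤ × ℤ => approx m φ (M ^ (m + 1)) hφ (by positivity) hD
    (cpt k0 i).1 (cpt k0 i).2 ((1 / 2) ^ k0) hδ
  refine ⟨P, h1, ?_⟩
  intro i x hx y hy
  have hk : (0 : ℝ) < 2 ^ k0 := by positivity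
  have e : ((1 / 2 : ℝ)) ^ k0 = 1 / 2 ^ k0 := by rw [one_div, one_div, inv_pow]
  have hmem : ∀ z ∈ cube k0 i, z.1 ∈ Icc ((cpt k0 i).1 - (1 / 2) ^ k0) ((cpt k0 i).1 + (1 / 2) ^ k0) ∧
      z.2 ∈ Icc ((cpt k0 i).2 - (1 / 2) ^ k0) ((cpt k0 i).2 + (1 / 2) ^ k0) := by
    intro z hz
    rw [cube_eq] at hz
    obtain ⟨⟨a1, a2⟩, a3, a4⟩ := hz
    unfold cpt
    rw [e]
    simp only
    have h5 : (0 : ℝ) < 1 / 2 ^ k0 := by positivity
    rw [add_div] at a2 a4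
    refine ⟨⟨by linarith, by linarith⟩, ⟨by linarith, by linarith⟩⟩
  have hx' := hmem x hx
  have hy' := hmem y hy
  have h := h3 i x.1 hx'.1 x.2 hx'.2 y.1 hy'.1 y.2 hy'.2
  rw [toP_symm_eq, toP_symm_eq]
  refine h.trans ?_
  have h6 : M ^ (m + 1) * ((1 / 2 : ℝ) ^ k0) ^ m ≤ 2 ^ k0 := by
    have h7 : M * (1 / 2) ^ k0 ≤ 1 := by
      calc M * (1 / 2) ^ k0 ≤ 2 ^ k0 * (1 / 2) ^ k0 := by gcongr
        _ = 1 := by rw [← mul_pow]; norm_num
    have h8 : (1 / 2 : ℝ) ^ k0 * 2 ^ k0 = 1 := by rw [← mul_pow]; norm_num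
    calc M ^ (m + 1) * ((1 / 2 : ℝ) ^ k0) ^ m
        = M ^ (m + 1) * ((1 / 2 : ℝ) ^ k0) ^ m * ((1 / 2 : ℝ) ^ k0 * 2 ^ k0) := by rw [h8, mul_one]
      _ = (M * (1 / 2) ^ k0) ^ (m + 1) * 2 ^ k0 := by rw [mul_pow]; ring
      _ ≤ 1 * 2 ^ k0 := by
          gcongr
          exact pow_le_one₀ (by positivity) h7
      _ = 2 ^ k0 := one_mul _
  have h9 : 0 ≤ |x.1 - y.1| + |x.2 - y.2| := by positivity
  calc 2 * 4 ^ m * M ^ (m + 1) * ((1 / 2) ^ k0) ^ m * (|x.1 - y.1| + |x.2 - y.2|)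
      = 2 * 4 ^ m * (M ^ (m + 1) * ((1 / 2) ^ k0) ^ m) * (|x.1 - y.1| + |x.2 - y.2|) := by ring
    _ ≤ 2 * 4 ^ m * 2 ^ k0 * (|x.1 - y.1| + |x.2 - y.2|) := by gcongr

theorem norm_exp_sub (s t : ℝ) : ‖cexp (I * s) - cexp (I * t)‖ ≤ |s - t| := by
  have h1 : cexp (I * s) - cexp (I * t) = cexp (I * t) * (cexp (I * ((s - t : ℝ) : ℂ)) - 1) := by
    rw [mul_sub, ← Complex.exp_add, mul_one]
    congr 2
    push_cast
    ring
  rw [h1, norm_mul, mul_comm I, norm_exp_ofReal_mul_I, one_mul]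
  have h2 := Real.norm_exp_I_mul_ofReal_sub_one_le (x := s - t)
  rwa [Real.norm_eq_abs] at h2

theorem toP_symm_add (x h : ℝ × ℝ) : toP.symm (x + h) = toP.symm x + toP.symm h := by
  rw [toP_symm_eq, toP_symm_eq, toP_symm_eq]
  unfold pt
  simp only [Prod.fst_add, Prod.snd_add, add_smul]
  abel

theorem norm_toP_symm (h : ℝ × ℝ) : ‖toP.symm h‖ ≤ |h.1| + |h.2| := by
  rw [toP_symm_eq]
  have := norm_pt_sub h.1 h.2 0 0
  have e : pt 0 0 = 0 := by simp [pt]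
  rwa [e, sub_zero, sub_zero, sub_zero] at this

/-- the function without the polynomial part of its phase -/
noncomputable def bb (a : E 2 → ℂ) (φ : E 2 → ℝ) (P : ℤ × ℤ → MvPolynomial (Fin 2) ℝ) (k0 : ℕ)
    (x : ℝ × ℝ) : ℂ :=
  a (toP.symm x) * cexp (I * ((φ (toP.symm x) - ev (P (idx k0 x)) x : ℝ) : ℂ))

theorem bb_meas {a : E 2 → ℂ} (ha : Measurable a) {φ : E 2 → ℝ} (hφ : Continuous φ)
    (P : ℤ × ℤ → MvPolynomial (Fin 2) ℝ) (k0 : ℕ) : Measurable (bb a φ P k0) := by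
  unfold bb
  have h1 := ev_idx_meas P k0
  have h2 : Measurable fun x => φ (toP.symm x) := hφ.measurable.comp toP.symm.measurable
  have h3 : Measurable fun x => a (toP.symm x) := ha.comp toP.symm.measurable
  fun_prop

theorem bb_le {a : E 2 → ℂ} (ha1 : ∀ x, ‖a x‖ ≤ 1) (φ : E 2 → ℝ)
    (P : ℤ × ℤ → MvPolynomial (Fin 2) ℝ) (k0 : ℕ) (x : ℝ × ℝ) : ‖bb a φ P k0 x‖ ≤ 1 := by
  unfold bb
  rw [norm_mul, mul_comm I, norm_exp_ofReal_mul_I, mul_one]
  exact ha1 _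

theorem bb_chp (a : E 2 → ℂ) (φ : E 2 → ℝ) (P : ℤ × ℤ → MvPolynomial (Fin 2) ℝ) (k0 : ℕ)
    (x : ℝ × ℝ) : bb a φ P k0 x * chp P k0 x = a (toP.symm x) * cexp ((φ (toP.symm x) : ℂ) * I) := by
  unfold bb chp
  rw [mul_assoc, ← Complex.exp_add]
  congr 2
  push_cast
  ring

/-- bounded variation in the `L^p` sense -/
def VarLe (p V : ℝ) (a : E 2 → ℂ) : Prop :=
  ∀ h : E 2, ∫⁻ x, ‖a (x + h) - a x‖ₑ ^ p ≤ ENNReal.ofReal (V * ‖h‖)

theorem bb_var (m : ℕ) (p : ℝ) (hp : 1 ≤ p) {a : E 2 → ℂ} (ha : Measurable a) (ha1 : ∀ x, ‖a x‖ ≤ 1)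
    {φ : E 2 → ℝ} (P : ℤ × ℤ → MvPolynomial (Fin 2) ℝ) (k0 : ℕ)
    (hP : ∀ i, ∀ x ∈ cube k0 i, ∀ y ∈ cube k0 i,
        |(φ (toP.symm x) - ev (P i) x) - (φ (toP.symm y) - ev (P i) y)| ≤
          2 * 4 ^ m * 2 ^ k0 * (|x.1 - y.1| + |x.2 - y.2|)) (V W : ℝ) (hV0 : 0 ≤ V) (hVW : V ≤ W)
    (hkW : (2 : ℝ) ^ k0 ≤ 2 * W) (hV : VarLe p V a) (n : ℕ) :
    Var (bb a φ P k0) p (k0 + n) (2 ^ (p - 1) * (2 + 8 * (4 ^ (m + 1)) ^ p) * W) := by
  have hp0 : 0 < p := by linarith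
  intro h hh1 hh2
  set k := k0 + n with hk
  have hkk : k0 ≤ k := by omega
  set A : ℝ := 4 ^ (m + 1) with hA
  have hA0 : 0 < A := by positivity
  set τ : ℝ := A * (2 ^ k0 * (1 / 2) ^ k) with hτ
  have hτ0 : 0 ≤ τ := by positivity
  have hhalf : (0 : ℝ) < (1 / 2) ^ k := by positivity
  have hms : MeasurableSet {x : ℝ × ℝ | idx k (x + h) = idx k x} :=
    measurableSet_eq_fun ((measurable_idx k).comp (measurable_id.add_const h)) (measurable_idx k)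
  have hpt : ∀ x ∈ Sq ∩ {x | idx k (x + h) = idx k x}, ‖bb a φ P k0 x - bb a φ P k0 (x + h)‖ₑ ^ p ≤
      2 ^ (p - 1) * (‖a (toP.symm x + toP.symm h) - a (toP.symm x)‖ₑ ^ p + ENNReal.ofReal (τ ^ p)) := by
    rintro x ⟨-, hx⟩
    have hi : idx k0 (x + h) = idx k0 x := idx_mono hkk hx
    have h1 : ‖bb a φ P k0 x - bb a φ P k0 (x + h)‖ ≤
        ‖a (toP.symm x + toP.symm h) - a (toP.symm x)‖ + τ := by
      unfold bb
      rw [hi, toP_symm_add]
      have h2 := hP (idx k0 x) x rfl (x + h) hi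
      rw [toP_symm_add] at h2
      set s : ℝ := φ (toP.symm x) - ev (P (idx k0 x)) x with hs
      set t : ℝ := φ (toP.symm x + toP.symm h) - ev (P (idx k0 x)) (x + h) with ht
      have h3 : |s - t| ≤ τ := by
        refine h2.trans ?_
        have e1 : x.1 - (x + h).1 = -h.1 := by rw [Prod.fst_add]; ring
        have e2 : x.2 - (x + h).2 = -h.2 := by rw [Prod.snd_add]; ring
        rw [e1, e2, abs_neg, abs_neg]
        calc 2 * 4 ^ m * 2 ^ k0 * (|h.1| + |h.2|)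
            ≤ 2 * 4 ^ m * 2 ^ k0 * ((1 / 2) ^ k + (1 / 2) ^ k) := by gcongr
          _ = τ := by rw [hτ, hA]; ring
      have e3 : a (toP.symm x) * cexp (I * (s : ℂ)) -
          a (toP.symm x + toP.symm h) * cexp (I * (t : ℂ)) =
          -(a (toP.symm x + toP.symm h) - a (toP.symm x)) * cexp (I * (t : ℂ)) +
            a (toP.symm x) * (cexp (I * (s : ℂ)) - cexp (I * (t : ℂ))) := by ring
      rw [e3]
      refine (norm_add_le _ _).trans (add_le_add ?_ ?_)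
      · rw [norm_mul, norm_neg, mul_comm I, norm_exp_ofReal_mul_I, mul_one]
      · rw [norm_mul]
        calc ‖a (toP.symm x)‖ * ‖cexp (I * (s : ℂ)) - cexp (I * (t : ℂ))‖ ≤ 1 * τ := by
              gcongr
              · exact ha1 _
              · exact (norm_exp_sub s t).trans h3
          _ = τ := one_mul _
    have h4 : ‖bb a φ P k0 x - bb a φ P k0 (x + h)‖ₑ ≤
        ‖a (toP.symm x + toP.symm h) - a (toP.symm x)‖ₑ + ENNReal.ofReal τ := by
      rw [← ofReal_norm, ← ofReal_norm, ← ENNReal.ofReal_add (norm_nonneg _) hτ0]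
      exact ENNReal.ofReal_le_ofReal h1
    refine (ENNReal.rpow_le_rpow h4 hp0.le).trans ?_
    refine (ENNReal.rpow_add_le_mul_rpow_add_rpow _ _ hp).trans (le_of_eq ?_)
    rw [ENNReal.ofReal_rpow_of_nonneg hτ0 hp0.le]
  have hsm : MeasurableSet (Sq ∩ {x | idx k (x + h) = idx k x}) := measurableSet_Sq.inter hms
  have hdm : Measurable fun x => ‖a (toP.symm x + toP.symm h) - a (toP.symm x)‖ₑ ^ p := by
    have h1 : Measurable fun x => a (toP.symm x + toP.symm h) :=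
      ha.comp (toP.symm.measurable.add_const _)
    have h2 : Measurable fun x => a (toP.symm x) := ha.comp toP.symm.measurable
    exact (h1.sub h2).enorm.pow_const p
  have hI : ∫⁻ x : ℝ × ℝ, ‖a (toP.symm x + toP.symm h) - a (toP.symm x)‖ₑ ^ p ≤
      ENNReal.ofReal (V * (2 * (1 / 2) ^ k)) := by
    have h1 := (toP_mp.symm toP).lintegral_comp_emb toP.symm.measurableEmbedding
      (fun y => ‖a (y + toP.symm h) - a y‖ₑ ^ p)
    rw [h1]
    refine (hV (toP.symm h)).trans (ENNReal.ofReal_le_ofReal ?_)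
    have h2 := norm_toP_symm h
    gcongr
    linarith
  have hτp : τ ^ p ≤ A ^ p * (2 ^ k0 * (1 / 2) ^ k) := by
    rw [hτ, Real.mul_rpow hA0.le (by positivity)]
    gcongr
    have h1 : (2 : ℝ) ^ k0 * (1 / 2) ^ k ≤ 1 := by
      calc (2 : ℝ) ^ k0 * (1 / 2) ^ k ≤ 2 ^ k * (1 / 2) ^ k := by
            gcongr
            norm_num
        _ = 1 := by rw [← mul_pow]; norm_num
    calc ((2 : ℝ) ^ k0 * (1 / 2) ^ k) ^ p ≤ ((2 : ℝ) ^ k0 * (1 / 2) ^ k) ^ (1 : ℝ) :=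
          Real.rpow_le_rpow_of_exponent_ge (by positivity) h1 hp
      _ = _ := Real.rpow_one _
  calc ∫⁻ x in Sq ∩ {x | idx k (x + h) = idx k x}, ‖bb a φ P k0 x - bb a φ P k0 (x + h)‖ₑ ^ p
      ≤ ∫⁻ x in Sq ∩ {x | idx k (x + h) = idx k x},
        2 ^ (p - 1) * (‖a (toP.symm x + toP.symm h) - a (toP.symm x)‖ₑ ^ p + ENNReal.ofReal (τ ^ p)) :=
        setLIntegral_mono' hsm hpt
    _ ≤ ∫⁻ x in Sq,
        2 ^ (p - 1) * (‖a (toP.symm x + toP.symm h) - a (toP.symm x)‖ₑ ^ p + ENNReal.ofReal (τ ^ p)) :=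
        lintegral_mono_set inter_subset_left
    _ = 2 ^ (p - 1) * ((∫⁻ x in Sq, ‖a (toP.symm x + toP.symm h) - a (toP.symm x)‖ₑ ^ p) +
        ENNReal.ofReal (τ ^ p) * volume Sq) := by
        rw [lintegral_const_mul _ (hdm.add_const _), lintegral_add_right _ measurable_const,
          setLIntegral_const]
    _ ≤ 2 ^ (p - 1) * (ENNReal.ofReal (V * (2 * (1 / 2) ^ k)) + ENNReal.ofReal (τ ^ p) * volume Sq) := by
        gcongr
        exact (setLIntegral_le_lintegral _ _).trans hI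
    _ ≤ ENNReal.ofReal (2 ^ (p - 1) * (2 + 8 * A ^ p) * W * (1 / 2) ^ k) := by
        have h2 : (2 : ℝ≥0∞) ^ (p - 1) = ENNReal.ofReal (2 ^ (p - 1)) := by
          rw [← ENNReal.ofReal_rpow_of_pos (by norm_num)]
          norm_num
        have h4 : volume Sq = ENNReal.ofReal 4 := by rw [volume_Sq]; norm_num
        rw [h2, h4, ← ENNReal.ofReal_mul (by positivity), ← ENNReal.ofReal_add (by positivity)
          (by positivity), ← ENNReal.ofReal_mul (by positivity)]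
        refine ENNReal.ofReal_le_ofReal ?_
        have hW0 : 0 ≤ W := hV0.trans hVW
        calc 2 ^ (p - 1) * (V * (2 * (1 / 2) ^ k) + τ ^ p * 4)
            ≤ 2 ^ (p - 1) * (W * (2 * (1 / 2) ^ k) + (A ^ p * ((2 * W) * (1 / 2) ^ k)) * 4) := by
              gcongr
              refine hτp.trans ?_
              gcongr
          _ = _ := by ring

/-- the extension operator as an integral over the root square -/
theorem ext_full (U : Set (E 2)) (hU : U ⊆ ball 0 (1 / 2)) (f : E 2 → ℂ) (hf : ∀ x ∉ U, f x = 0)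
    (ξ : E 3) : ext U f ξ = ∫ x in Sq, f (toP.symm x) * ker (xi3 ξ).1 (xi3 ξ).2 x := by
  unfold ext
  rw [setIntegral_eq_integral_of_forall_compl_eq_zero (fun x hx => by rw [hf x hx, mul_zero])]
  have h1 := (toP_mp.symm toP).integral_comp toP.symm.measurableEmbedding
    (fun y : E 2 => Complex.exp (-((⟪Phi y, ξ⟫ : ℝ) : ℂ) * I) * f y)
  rw [← h1]
  symm
  rw [setIntegral_eq_integral_of_forall_compl_eq_zero]
  · refine integral_congr_ae (Filter.Eventually.of_forall fun x => ?_)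
    simp only
    rw [exp_ker, MeasurableEquiv.apply_symm_apply, mul_comm]
  · intro x hx
    rw [hf _ (fun h => hx ?_), zero_mul]
    obtain ⟨⟨h1, h2⟩, h3, h4⟩ := ball_sub (show x ∈ toP.symm ⁻¹' (ball 0 (1 / 2)) from hU h)
    exact ⟨⟨by linarith, by linarith⟩, ⟨by linarith, by linarith⟩⟩

/-- **The extension inequality for `C^m` phases and amplitudes of bounded `p`-variation.** -/
theorem mainBV (m : ℕ) (hm : 1 ≤ m) (q p ε : ℝ) (hq : 3 < q) (hp : 1 ≤ p) (hpq : 2 * p < q)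
    (hε : 0 < ε) :
    ∃ C : ℝ≥0, ∀ (U : Set (E 2)) (a : E 2 → ℂ) (φ : E 2 → ℝ) (V M : ℝ), MeasurableSet U →
    U ⊆ ball 0 (1 / 2) → Measurable a → (∀ x, ‖a x‖ ≤ 1) → (∀ x ∉ U, a x = 0) → 0 ≤ V →
    VarLe p V a → 0 ≤ M → ContDiff ℝ m φ → (∀ x, ‖iteratedFDeriv ℝ m φ x‖ ≤ M ^ m) →
    eLpNorm (ext U fun x => a x * Complex.exp ((φ x : ℂ) * I)) (ENNReal.ofReal q) volume ≤
      C * ENNReal.ofReal ((1 + V + M) ^ (2 / q + ε)) := by
  obtain ⟨m', rfl⟩ : ∃ m', m = m' + 1 := ⟨m - 1, by omega⟩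
  have hq0 : 0 < q := by linarith
  set s : ℝ := max (3 / 2) p with hs
  have hs1 : 3 / 2 ≤ s := le_max_left _ _
  have hps : p ≤ s := le_max_right _ _
  have hs2 : 2 * s < q := by
    rcases max_cases (3 / 2 : ℝ) p with ⟨h, _⟩ | ⟨h, _⟩
    · rw [hs, h]; linarith
    · rw [hs, h]; linarith
  have hden : 0 < s + 2 * p := by linarith
  set ε' : ℝ := min ((q - 2 * s) / (s + 2 * p)) (ε * q / 2) with hε'
  have hε'0 : 0 < ε' := lt_min (div_pos (by linarith) hden) (by positivity)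
  have h1 : ε' * (s + 2 * p) ≤ q - 2 * s := by
    have : ε' ≤ (q - 2 * s) / (s + 2 * p) := min_le_left _ _
    rwa [le_div_iff₀ hden] at this
  have h2 : (2 + 2 * ε') / q ≤ 2 / q + ε := by
    have : ε' ≤ ε * q / 2 := min_le_right _ _
    rw [add_div]
    gcongr
    rw [div_le_iff₀ hq0]
    linarith
  set C1 : ℝ := 2 ^ (p - 1) * (2 + 8 * (4 ^ (m' + 1)) ^ p) with hC1
  have hC1' : 1 ≤ C1 := by
    have h3 : (1 : ℝ) ≤ 2 ^ (p - 1) := Real.one_le_rpow (by norm_num) (by linarith)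
    have h4 : (0 : ℝ) ≤ (4 ^ (m' + 1)) ^ p := by positivity
    rw [hC1]
    nlinarith
  obtain ⟨C, hC0, hC⟩ := sums_bound (max (m' + 1) 2) (le_max_right _ _) s ε' q p hs1 hps hp hε'0
    (by linarith) (by linarith) C1 hC1'
  refine ⟨C.toNNReal, ?_⟩
  intro U a φ V M hU hUb ha ha1 ha0 hV0 hV hM hφ hD
  set W : ℝ := 1 + V + M with hW
  have hW1 : 1 ≤ W := by rw [hW]; linarith
  -- the coarse generation
  obtain ⟨k0, hk0, hk0'⟩ : ∃ k0 : ℕ, W ≤ 2 ^ k0 ∧ (2 : ℝ) ^ k0 ≤ 2 * W := by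
    have hex : ∃ k : ℕ, W ≤ 2 ^ k := by
      obtain ⟨k, hk⟩ := pow_unbounded_of_one_lt W (by norm_num : (1 : ℝ) < 2)
      exact ⟨k, hk.le⟩
    classical
    refine ⟨Nat.find hex, Nat.find_spec hex, ?_⟩
    rcases Nat.eq_zero_or_pos (Nat.find hex) with h | h
    · rw [h]; norm_num; linarith
    · have h3 := Nat.find_min hex (m := Nat.find hex - 1) (by omega)
      push Not at h3
      have h4 : (2 : ℝ) ^ (Nat.find hex) = 2 * 2 ^ (Nat.find hex - 1) := by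
        rw [← pow_succ']; congr 1; omega
      rw [h4]
      linarith
  have hMk : M ≤ 2 ^ k0 := le_trans (by rw [hW]; linarith) hk0
  obtain ⟨P, hP1, hP2⟩ := local_polys m' φ M hM hφ hD k0 hMk
  have hφc : Continuous φ := hφ.continuous
  have hbm := bb_meas ha hφc P k0
  have hb1 := bb_le ha1 φ P k0
  have hvar : ∀ n, Var (bb a φ P k0) p (k0 + n) (C1 * W) := fun n =>
    bb_var m' p hp ha ha1 P k0 hP2 V W hV0 (by rw [hW]; linarith) hk0' hV n
  have hsb := hC P (fun i => (hP1 i).trans (le_max_left _ _)) k0 W hW1 hk0 hk0' (bb a φ P k0) hbm hb1 hvar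
  -- the limit
  have hlim : ∀ ξ : E 3, Filter.Tendsto
      (fun n : ℕ => FF P k0 (k0 + n) (avg (bb a φ P k0) (k0 + n)) (xi3 ξ)) Filter.atTop
      (nhds (ext U (fun x => a x * Complex.exp ((φ x : ℂ) * I)) ξ)) := by
    intro ξ
    have h3 := FF_lim P k0 hbm hb1 p hp (C1 * W) (by positivity) hvar (xi3 ξ)
    have h4 : ext U (fun x => a x * Complex.exp ((φ x : ℂ) * I)) ξ =
        ∫ x in Sq, bb a φ P k0 x * (chp P k0 x * ker (xi3 ξ).1 (xi3 ξ).2 x) := by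
      rw [ext_full U hUb _ (fun x hx => by rw [ha0 x hx, zero_mul])]
      refine integral_congr_ae (Filter.Eventually.of_forall fun x => ?_)
      simp only
      rw [← mul_assoc, bb_chp]
    rw [h4]
    exact h3
  have hFm : ∀ n : ℕ, Measurable (FF P k0 (k0 + n) (avg (bb a φ P k0) (k0 + n))) := fun n =>
    FF_meas P (by omega) _
  refine (Lp.eLpNorm_lim_le_liminf_eLpNorm
    (f := fun n ξ => FF P k0 (k0 + n) (avg (bb a φ P k0) (k0 + n)) (xi3 ξ))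
    (fun n => ((hFm n).comp xi3.measurable).aestronglyMeasurable) _
    (Filter.Eventually.of_forall hlim)).trans ?_
  refine Filter.liminf_le_of_frequently_le' (Filter.Frequently.of_forall fun n => ?_)
  have h5 : eLpNorm (fun ξ => FF P k0 (k0 + n) (avg (bb a φ P k0) (k0 + n)) (xi3 ξ))
      (ENNReal.ofReal q) volume = eLpNorm (FF P k0 (k0 + n) (avg (bb a φ P k0) (k0 + n)))
      (ENNReal.ofReal q) volume := eLpNorm_comp_measurePreserving (hFm n).aestronglyMeasurable xi3_mp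
  rw [h5]
  refine (hsb n).trans ?_
  rw [ENNReal.ofReal_mul hC0]
  refine mul_le_mul' le_rfl (ENNReal.ofReal_le_ofReal ?_)
  exact Real.rpow_le_rpow_of_exponent_le hW1 h2

end Run7.h239.PP
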