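import Mathlib
import Pool.Agent.H023R3.KakSet
set_option autoImplicit false

namespace Pool.Agent.Run7.h239.BD

open MeasureTheory Set Metric Filter Topology
open scoped ENNReal NNReal RealInnerProductSpace

abbrev E2 := EuclideanSpace ℝ (Fin 2)

/-- rotation by a right angle -/
noncomputable def J (e : E2) : E2 := !₂[-e 1, e 0]

@[fun_prop]
lemma continuous_J : Continuous J := by
  unfold J
  fun_prop

/-- the points of `K` on the line `{x · J e = s}`, in the parameter `τ = x · e` -/
def sec (K : Set E2) (e : E2) (s : ℝ) : Set ℝ := {τ | s • J e + τ • e ∈ K}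

lemma isClosed_sec {K : Set E2} (hK : IsClosed K) (e : E2) (s : ℝ) : IsClosed (sec K e s) :=
  hK.preimage (f := fun τ : ℝ => s • J e + τ • e) (by fun_prop)

lemma isOpen_sec {K : Set E2} (hK : IsOpen K) (e : E2) (s : ℝ) : IsOpen (sec K e s) :=
  hK.preimage (f := fun τ : ℝ => s • J e + τ • e) (by fun_prop)

lemma closed_lam {K : Set E2} (hK : IsClosed K) (k : ℤ) (lam : ℝ≥0∞) :
    IsClosed {x : E2 × ℝ | lam ≤ volume (sec K x.1 x.2 ∩ Icc (k : ℝ) (k + 1))} := by
  apply IsSeqClosed.isClosed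
  intro u x hu hx
  set A : ℕ → Set ℝ := fun n => sec K (u n).1 (u n).2 ∩ Icc (k : ℝ) (k + 1) with hAdef
  have hA : ∀ n, MeasurableSet (A n) := fun n =>
    (isClosed_sec hK _ _).measurableSet.inter measurableSet_Icc
  set B : ℕ → Set ℝ := fun N => ⋃ n : ℕ, ⋃ (_ : N ≤ n), A n with hBdef
  have hBm : ∀ N, MeasurableSet (B N) := fun N =>
    MeasurableSet.iUnion fun n => MeasurableSet.iUnion fun _ => hA n
  have hBanti : Antitone B := by
    intro N M hNM τ hτ
    simp only [hBdef, mem_iUnion] at hτ ⊢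
    obtain ⟨n, hn, h⟩ := hτ
    exact ⟨n, hNM.trans hn, h⟩
  have hBfin : volume (B 0) ≠ ∞ := by
    refine ((measure_mono ?_).trans_lt (measure_Icc_lt_top (a := (k : ℝ)) (b := k + 1))).ne
    intro τ hτ
    simp only [hBdef, mem_iUnion] at hτ
    obtain ⟨n, hn, h⟩ := hτ
    exact h.2
  have hlim := tendsto_measure_iInter_atTop (μ := volume)
    (fun N => (hBm N).nullMeasurableSet) hBanti ⟨0, hBfin⟩
  have hle : ∀ N, lam ≤ volume (B N) := fun N => (hu N).trans (measure_mono (by
    intro τ hτ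
    simp only [hBdef, mem_iUnion]
    exact ⟨N, le_rfl, hτ⟩))
  have h1 : lam ≤ volume (⋂ N, B N) := ge_of_tendsto' hlim hle
  refine h1.trans (measure_mono ?_)
  intro τ hτ
  have hfreq : ∃ᶠ n in atTop, τ ∈ A n := by
    rw [frequently_atTop]
    intro N
    have h := mem_iInter.1 hτ N
    simp only [hBdef, mem_iUnion] at h
    obtain ⟨n, hn, h⟩ := h
    exact ⟨n, hn, h⟩
  refine ⟨?_, ?_⟩
  · have ht : Tendsto (fun n => (u n).2 • J (u n).1 + τ • (u n).1) atTop
        (𝓝 (x.2 • J x.1 + τ • x.1)) :=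
      ((by fun_prop : Continuous (fun y : E2 × ℝ => y.2 • J y.1 + τ • y.1)).tendsto x).comp hx
    exact hK.mem_of_frequently_of_tendsto (hfreq.mono fun n hn => hn.1) ht
  · obtain ⟨n, hn⟩ := hfreq.exists
    exact hn.2

lemma norm_J (e : E2) : ‖J e‖ = ‖e‖ := by
  simp [J, EuclideanSpace.norm_eq, Fin.sum_univ_two, add_comm]

lemma inner_J_self (e : E2) : inner ℝ (J e) e = 0 := by
  simp [J, PiLp.inner_apply, Fin.sum_univ_two]
  ring

lemma reducible_any (a : E2 → E2) (ha : Measurable a) : Agent.H742R2.Kk.Reducible 2 a := by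
  refine ⟨ha, LinearIsometryEquiv.refl ℝ _, fun θ => ?_⟩
  set v : E2 := a (!₂[Real.cos θ, Real.sin θ]) with hv
  refine ⟨-v 0 * Real.sin θ + v 1 * Real.cos θ, fun _ => 0, measurable_const, ?_⟩
  intro e he he0
  have he1 : e 0 = 1 := by
    have h := he
    rw [EuclideanSpace.norm_eq] at h
    simp at h
    rcases h with h | h
    · exact h
    · linarith
  refine ⟨v 0 * Real.cos θ + v 1 * Real.sin θ, ?_⟩
  have h1 : Agent.H742R2.Kk.emb θ 0 e = !₂[Real.cos θ, Real.sin θ] := by
    ext i
    fin_cases i <;> simp [Agent.H742R2.Kk.emb, Agent.H742R2.Kk.ins, he1]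
  have h2 := Real.sin_sq_add_cos_sq θ
  simp only [LinearIsometryEquiv.coe_refl, id]
  rw [h1, ← hv]
  ext i
  fin_cases i
  · simp [Agent.H742R2.Kk.emb, Agent.H742R2.Kk.ins, he1]
    linear_combination (-(v 0)) * h2
  · simp [Agent.H742R2.Kk.emb, Agent.H742R2.Kk.ins, he1]
    linear_combination (-(v 1)) * h2

lemma kak {K : Set E2} (hK : IsCompact K) (hdim : dimH K < 2) (k : ℤ) {lam : ℝ}
    (hlam : 0 < lam) :
    (volume : Measure E2).toSphere {e : sphere (0 : E2) 1 | ∃ s : ℝ,
      ENNReal.ofReal lam ≤ volume (sec K e s ∩ Icc (k : ℝ) (k + 1))} = 0 := by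
  by_contra hne
  have hpos := pos_iff_ne_zero.2 hne
  obtain ⟨R, hR⟩ : ∃ R, ∀ x ∈ K, ‖x‖ ≤ R := hK.isBounded.exists_norm_le
  set C : Set (E2 × ℝ) := {x : E2 × ℝ | ENNReal.ofReal lam ≤
    volume (sec K x.1 x.2 ∩ Icc (k : ℝ) (k + 1))} ∩ (sphere 0 1 ×ˢ Icc (-R) R) with hCdef
  have hC : IsCompact C :=
    ((isCompact_sphere (0 : E2) 1).prod isCompact_Icc).inter_left
      (closed_lam hK.isClosed k _)
  have hs : ∀ (e : E2) (s : ℝ), ‖e‖ = 1 →
      ENNReal.ofReal lam ≤ volume (sec K e s ∩ Icc (k : ℝ) (k + 1)) → (e, s) ∈ C := by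
    intro e s he h
    have hne : (sec K e s ∩ Icc (k : ℝ) (k + 1)).Nonempty := by
      apply nonempty_of_measure_ne_zero (μ := volume)
      exact (lt_of_lt_of_le (ENNReal.ofReal_pos.2 hlam) h).ne'
    obtain ⟨τ, hτ, -⟩ := hne
    have h1 := hR _ hτ
    have h2 : |s| ≤ R := by
      have h3 : inner ℝ (s • J e + τ • e) (J e) = s := by
        rw [inner_add_left, inner_smul_left, inner_smul_left, real_inner_comm (J e) e,
          inner_J_self, real_inner_self_eq_norm_sq, norm_J, he]
        simp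
      have h4 := abs_real_inner_le_norm (s • J e + τ • e) (J e)
      rw [h3, norm_J, he, mul_one] at h4
      exact h4.trans h1
    exact ⟨h, by simpa using he, abs_le.1 h2⟩
  set sel : E2 → ℝ := fun e => sInf {s | (e, s) ∈ C} with hseldef
  have hmem : ∀ e, (∃ s, (e, s) ∈ C) → (e, sel e) ∈ C := by
    intro e he
    have hcl : IsCompact {s | (e, s) ∈ C} := by
      have : IsClosed {s : ℝ | (e, s) ∈ C} :=
        hC.isClosed.preimage (f := fun s : ℝ => (e, s)) (by fun_prop)
      exact (isCompact_Icc (a := -R) (b := R)).of_isClosed_subset this (fun s hs => hs.2.2)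
    exact hcl.sInf_mem he
  have hselm : Measurable sel := by
    apply measurable_of_Iic
    intro c
    have hEq : sel ⁻¹' Iic c = Prod.fst '' (C ∩ (univ ×ˢ Iic c)) ∪
        ((Prod.fst '' C)ᶜ ∩ {_e | 0 ≤ c}) := by
      ext e
      simp only [mem_preimage, mem_Iic, mem_union, mem_image, mem_inter_iff, mem_prod, mem_univ,
        true_and, mem_compl_iff, mem_ofPred_eq]
      by_cases he : ∃ s, (e, s) ∈ C
      · constructor
        · intro h
          exact Or.inl ⟨(e, sel e), ⟨hmem e he, h⟩, rfl⟩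
        · rintro (⟨⟨e', s⟩, ⟨h1, h2⟩, h3⟩ | ⟨h1, h2⟩)
          · simp only at h3 h2
            subst h3
            refine le_trans (csInf_le ?_ h1) h2
            exact ⟨-R, fun s hs => hs.2.2.1⟩
          · exfalso
            obtain ⟨s, hs⟩ := he
            exact h1 ⟨(e, s), hs, rfl⟩
      · have hempty : {s | (e, s) ∈ C} = ∅ := by
          ext s
          simp only [mem_ofPred_eq, mem_empty_iff_false, iff_false]
          exact fun h => he ⟨s, h⟩
        have h0 : sel e = 0 := by rw [hseldef]; simp only [hempty, Real.sInf_empty]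
        rw [h0]
        constructor
        · intro h
          refine Or.inr ⟨?_, h⟩
          rintro ⟨⟨e', s⟩, h1, h2⟩
          simp only at h2
          subst h2
          exact he ⟨s, h1⟩
        · rintro (⟨⟨e', s⟩, ⟨h1, h2⟩, h3⟩ | ⟨h1, h2⟩)
          · simp only at h3
            subst h3
            exact absurd ⟨s, h1⟩ he
          · exact h2
    rw [hEq]
    exact ((hC.inter_right (isClosed_univ.prod isClosed_Iic)).image
      continuous_fst).isClosed.measurableSet.union
      ((hC.image continuous_fst).isClosed.measurableSet.compl.inter (MeasurableSet.const _))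
  have hred := reducible_any (fun e => sel e • J e) (hselm.smul continuous_J.measurable)
  have h := Pool.Agent.H023R3.KS.dim_eq_aux 1 (fun e => sel e • J e) _ K hred hlam (fun e he => ?_)
    hpos
  · rw [h] at hdim
    norm_num at hdim
  · obtain ⟨s, hs'⟩ := he
    have hen : ‖(e : E2)‖ = 1 := by simp
    have h1 := hmem (e : E2) ⟨s, hs _ _ hen hs'⟩
    refine ⟨k, ?_⟩
    have h2 : Pool.Agent.H023R3.KS.hts (fun e => sel e • J e) K (e : E2) = sec K e (sel e) := by
      ext u
      simp only [Pool.Agent.H023R3.KS.hts, sec, mem_ofPred_eq, inner_smul_left, inner_J_self]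
      simp
    rw [h2]
    exact h1.1

lemma ae_null {K : Set E2} (hK : IsClosed K) (hdim : dimH K < 2) :
    ∀ᵐ e : sphere (0 : E2) 1 ∂(volume : Measure E2).toSphere, ∀ s : ℝ,
      volume (sec K (e : E2) s) = 0 := by
  have h : ∀ (N : ℕ) (k : ℤ) (n : ℕ), ∀ᵐ e : sphere (0 : E2) 1 ∂(volume : Measure E2).toSphere,
      ∀ s : ℝ, volume (sec (K ∩ closedBall 0 N) (e : E2) s ∩ Icc (k : ℝ) (k + 1)) <
        ENNReal.ofReal (1 / (n + 1)) := by
    intro N k n
    have h := kak (K := K ∩ closedBall 0 N) ((isCompact_closedBall 0 (N : ℝ)).inter_left hK)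
      (lt_of_le_of_lt (dimH_mono inter_subset_left) hdim) k (lam := 1 / (n + 1)) (by positivity)
    rw [ae_iff]
    refine measure_mono_null ?_ h
    intro e he
    simp only [mem_ofPred_eq, not_forall, not_lt] at he ⊢
    exact he
  filter_upwards [ae_all_iff.2 fun N => ae_all_iff.2 fun k => ae_all_iff.2 fun n => h N k n]
    with e he s
  have hsub : sec K e s ⊆ ⋃ N : ℕ, ⋃ k : ℤ,
      sec (K ∩ closedBall 0 N) e s ∩ Icc (k : ℝ) (k + 1) := by
    intro τ hτ
    simp only [mem_iUnion]
    obtain ⟨N, hN⟩ := exists_nat_ge ‖s • J (e : E2) + τ • (e : E2)‖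
    exact ⟨N, ⌊τ⌋, ⟨hτ, by simpa using hN⟩, Int.floor_le τ, (Int.lt_floor_add_one τ).le⟩
  refine measure_mono_null hsub (measure_iUnion_null fun N => measure_iUnion_null fun k => ?_)
  have ht : Tendsto (fun n : ℕ => ENNReal.ofReal (1 / ((n : ℝ) + 1))) atTop
      (𝓝 (ENNReal.ofReal 0)) :=
    ENNReal.tendsto_ofReal tendsto_one_div_add_atTop_nhds_zero_nat
  have h0 := ge_of_tendsto' ht (fun n => (he N k n s).le)
  simpa using h0


/-- the line `{x | x · θ = p}` -/
def line (θ : E2) (p : ℝ) : Set E2 := {x | inner ℝ x θ = p}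

/-- `E` is a limit of bounded sets whose boundary has Hausdorff dimension less than `2`, uniformly over
the lines of most directions: for every `ε > 0` there is a bounded set `F` with `dim_H ∂F < 2` such that
the directions `e` for which some line `L` parallel to `e` has `H¹(L ∩ (E ∆ F)) > ε` form a set of
(outer) measure at most `ε`. -/
def Approximable (E : Set E2) : Prop :=
  ∀ ε : ℝ, 0 < ε → ∃ F : Set E2, Bornology.IsBounded F ∧ dimH (frontier F) < 2 ∧
    (volume : Measure E2).toSphere {e : sphere (0 : E2) 1 | ∃ p : ℝ,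
      ENNReal.ofReal ε < μH[1] (line (J e) p ∩ symmDiff E F)} ≤ ENNReal.ofReal ε

lemma approximable_of_uniform {E : Set E2} (h : ∀ ε : ℝ, 0 < ε → ∃ F : Set E2,
    Bornology.IsBounded F ∧ dimH (frontier F) < 2 ∧
    ∀ (θ : E2) (p : ℝ), ‖θ‖ = 1 → μH[1] (line θ p ∩ symmDiff E F) ≤ ENNReal.ofReal ε) :
    Approximable E := by
  intro ε hε
  obtain ⟨F, h1, h2, h3⟩ := h ε hε
  refine ⟨F, h1, h2, ?_⟩
  have h4 : {e : sphere (0 : E2) 1 | ∃ p : ℝ,
      ENNReal.ofReal ε < μH[1] (line (J e) p ∩ symmDiff E F)} = ∅ := by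
    ext e
    simp only [mem_ofPred_eq, mem_empty_iff_false, iff_false, not_exists, not_lt]
    exact fun p => h3 _ p (by rw [norm_J]; simp)
  rw [h4, measure_empty]
  exact zero_le

lemma sq_add (e : E2) (he : ‖e‖ = 1) : e 0 ^ 2 + e 1 ^ 2 = 1 := by
  have h := EuclideanSpace.real_norm_sq_eq e
  rw [he] at h
  simpa [Fin.sum_univ_two] using h.symm

lemma decomp (e x : E2) (he : ‖e‖ = 1) :
    (inner ℝ x (J e) : ℝ) • J e + (inner ℝ x e : ℝ) • e = x := by
  have h := sq_add e he
  ext i
  fin_cases i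
  · simp [J, PiLp.inner_apply, Fin.sum_univ_two]
    linear_combination (x 0) * h
  · simp [J, PiLp.inner_apply, Fin.sum_univ_two]
    linear_combination (x 1) * h

lemma inner_J (e : E2) (he : ‖e‖ = 1) (s τ : ℝ) : inner ℝ (s • J e + τ • e) (J e) = s := by
  rw [inner_add_left, inner_smul_left, inner_smul_left, real_inner_comm (J e) e,
    inner_J_self, real_inner_self_eq_norm_sq, norm_J, he]
  simp

lemma inner_e (e : E2) (he : ‖e‖ = 1) (s τ : ℝ) : inner ℝ (s • J e + τ • e) e = τ := by
  rw [inner_add_left, inner_smul_left, inner_smul_left,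
    inner_J_self, real_inner_self_eq_norm_sq, he]
  simp

lemma line_eq (e : E2) (he : ‖e‖ = 1) (p : ℝ) (F : Set E2) :
    line (J e) p ∩ F = (fun τ : ℝ => p • J e + τ • e) '' (sec F e p) := by
  ext x
  constructor
  · rintro ⟨h1, h2⟩
    have h3 := decomp e x he
    simp only [line, mem_ofPred_eq] at h1
    rw [h1] at h3
    refine ⟨inner ℝ x e, ?_, h3⟩
    show p • J e + (inner ℝ x e : ℝ) • e ∈ F
    rw [h3]
    exact h2
  · rintro ⟨τ, h1, rfl⟩
    exact ⟨inner_J e he p τ, h1⟩

lemma muH_line (e : E2) (he : ‖e‖ = 1) (p : ℝ) (F : Set E2) :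
    μH[1] (line (J e) p ∩ F) = volume (sec F e p) := by
  have hiso : Isometry (fun τ : ℝ => p • J e + τ • e) :=
    Isometry.of_dist_eq fun a b => by simp [dist_eq_norm, ← sub_smul, norm_smul, he]
  rw [line_eq e he, hiso.hausdorffMeasure_image (Or.inl zero_le_one), hausdorffMeasure_real]

lemma sec_subset {F : Set E2} {R : ℝ} (hR : ∀ x ∈ F, ‖x‖ ≤ R) (e : E2) (he : ‖e‖ = 1) (p : ℝ) :
    sec F e p ⊆ Icc (-R) R := by
  intro τ hτ
  have h1 := hR _ hτ
  have h4 := abs_real_inner_le_norm (p • J e + τ • e) e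
  rw [inner_e e he, he, mul_one] at h4
  exact abs_le.1 (h4.trans h1)

lemma sec_empty {F : Set E2} {R : ℝ} (hR : ∀ x ∈ F, ‖x‖ ≤ R) (e : E2) (he : ‖e‖ = 1) (p : ℝ)
    (hp : R < |p|) : sec F e p = ∅ := by
  ext τ
  simp only [mem_empty_iff_false, iff_false]
  intro hτ
  have h1 := hR _ hτ
  have h4 := abs_real_inner_le_norm (p • J e + τ • e) (J e)
  rw [inner_J e he, norm_J, he, mul_one] at h4
  linarith

lemma volume_sec_interior {F : Set E2} {e : E2}
    (hnull : ∀ s, volume (sec (frontier F) e s) = 0) (p : ℝ) :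
    volume (sec F e p) = volume (sec (interior F) e p) := by
  apply le_antisymm
  · have hsub : sec F e p ⊆ sec (interior F) e p ∪ sec (frontier F) e p := by
      intro τ hτ
      by_cases h : p • J e + τ • e ∈ interior F
      · exact Or.inl h
      · exact Or.inr ⟨subset_closure hτ, h⟩
    refine (measure_mono hsub).trans ((measure_union_le _ _).trans ?_)
    rw [hnull p, add_zero]
  · exact measure_mono fun τ (hτ : p • J e + τ • e ∈ interior F) =>
      (interior_subset hτ : p • J e + τ • e ∈ F)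

lemma cont_sec {F : Set E2} {R : ℝ} (hR : ∀ x ∈ F, ‖x‖ ≤ R) {e : E2} (he : ‖e‖ = 1)
    (hnull : ∀ s, volume (sec (frontier F) e s) = 0) :
    Continuous fun p => volume (sec F e p) := by
  have h0 : (fun p => volume (sec F e p)) = fun p => volume (sec (interior F) e p) :=
    funext fun p => volume_sec_interior hnull p
  rw [h0, continuous_iff_continuousAt]
  intro p0
  refine tendsto_measure_of_ae_tendsto_indicator (B := Icc (-R) R) (𝓝 p0)
    (isOpen_sec isOpen_interior _ _).measurableSet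
    (fun p => (isOpen_sec isOpen_interior _ _).measurableSet) measurableSet_Icc
    measure_Icc_lt_top.ne
    (Eventually.of_forall fun p => sec_subset (fun x hx => hR x (interior_subset hx)) e he p) ?_
  filter_upwards [compl_mem_ae_iff.2 (hnull p0)] with τ hτ
  have hc : Tendsto (fun p : ℝ => p • J e + τ • e) (𝓝 p0) (𝓝 (p0 • J e + τ • e)) :=
    Continuous.tendsto (by fun_prop) p0
  by_cases hi : p0 • J e + τ • e ∈ interior F
  · filter_upwards [hc (isOpen_interior.mem_nhds hi)] with p hp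
    exact ⟨fun _ => hi, fun _ => hp⟩
  · have hcl : p0 • J e + τ • e ∉ closure F := fun h => hτ ⟨h, hi⟩
    filter_upwards [hc (isClosed_closure.isOpen_compl.mem_nhds hcl)] with p hp
    exact ⟨fun h => absurd (subset_closure (interior_subset h)) hp, fun h => absurd h hi⟩

lemma main_e {E : Set E2} {e : E2} (he : ‖e‖ = 1) (F : ℕ → Set E2)
    (hb : ∀ n, Bornology.IsBounded (F n))
    (hnull : ∀ n s, volume (sec (frontier (F n)) e s) = 0)
    (c : ℕ → ℝ) (hpos : ∀ n, 0 ≤ c n) (hc0 : ∀ ε : ℝ, 0 < ε → ∃ n, c n < ε)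
    (hclose : ∀ n p, volume (sec (symmDiff E (F n)) e p) ≤ ENNReal.ofReal (c n)) :
    (∀ p, volume (sec E e p) < ∞) ∧ Continuous (fun p => (volume (sec E e p)).toReal) ∧
      ∀ ε : ℝ, 0 < ε → ∃ p, (volume (sec E e p)).toReal ≤ ε := by
  choose R hR using fun n => (hb n).exists_norm_le
  have hup : ∀ n p, volume (sec E e p) ≤
      volume (sec (F n) e p) + ENNReal.ofReal (c n) := by
    intro n p
    have hsub : sec E e p ⊆ sec (F n) e p ∪ sec (symmDiff E (F n)) e p := by
      intro τ hτ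
      by_cases h : p • J e + τ • e ∈ F n
      · exact Or.inl h
      · exact Or.inr (Or.inl ⟨hτ, h⟩)
    refine (measure_mono hsub).trans ((measure_union_le _ _).trans ?_)
    gcongr
    exact hclose n p
  have hlo : ∀ n p, volume (sec (F n) e p) ≤
      volume (sec E e p) + ENNReal.ofReal (c n) := by
    intro n p
    have hsub : sec (F n) e p ⊆ sec E e p ∪ sec (symmDiff E (F n)) e p := by
      intro τ hτ
      by_cases h : p • J e + τ • e ∈ E
      · exact Or.inl h
      · exact Or.inr (Or.inr ⟨hτ, h⟩)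
    refine (measure_mono hsub).trans ((measure_union_le _ _).trans ?_)
    gcongr
    exact hclose n p
  have hfinn : ∀ n p, volume (sec (F n) e p) < ∞ := fun n p =>
    (measure_mono (sec_subset (hR n) e he p)).trans_lt measure_Icc_lt_top
  have hfin : ∀ p, volume (sec E e p) < ∞ := fun p =>
    (hup 0 p).trans_lt (ENNReal.add_lt_top.2 ⟨hfinn 0 p, ENNReal.ofReal_lt_top⟩)
  have hup' : ∀ n p, (volume (sec E e p)).toReal ≤
      (volume (sec (F n) e p)).toReal + c n := by
    intro n p
    have h := ENNReal.toReal_mono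
      (ENNReal.add_lt_top.2 ⟨hfinn n p, ENNReal.ofReal_lt_top⟩).ne (hup n p)
    rwa [ENNReal.toReal_add (hfinn n p).ne ENNReal.ofReal_ne_top,
      ENNReal.toReal_ofReal (hpos n)] at h
  have hlo' : ∀ n p, (volume (sec (F n) e p)).toReal ≤
      (volume (sec E e p)).toReal + c n := by
    intro n p
    have h := ENNReal.toReal_mono
      (ENNReal.add_lt_top.2 ⟨hfin p, ENNReal.ofReal_lt_top⟩).ne (hlo n p)
    rwa [ENNReal.toReal_add (hfin p).ne ENNReal.ofReal_ne_top,
      ENNReal.toReal_ofReal (hpos n)] at h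
  refine ⟨hfin, ?_, ?_⟩
  · apply continuous_of_uniform_approx_of_continuous
    intro u hu
    obtain ⟨ε, hε, hu'⟩ := Metric.mem_uniformity_dist.1 hu
    obtain ⟨n, hn⟩ := hc0 ε hε
    refine ⟨fun p => (volume (sec (F n) e p)).toReal, ?_, ?_⟩
    · have hc := cont_sec (hR n) he (hnull n)
      rw [continuous_iff_continuousAt] at hc ⊢
      intro p
      exact (ENNReal.tendsto_toReal (hfinn n p).ne).comp (hc p)
    · intro p
      apply hu'
      rw [Real.dist_eq]
      have h1 := hup' n p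
      have h2 := hlo' n p
      exact lt_of_le_of_lt (abs_sub_le_iff.2 ⟨by linarith, by linarith⟩) hn
  · intro ε hε
    obtain ⟨n, hn⟩ := hc0 ε hε
    refine ⟨|R n| + 1, ?_⟩
    have h1 := hup' n (|R n| + 1)
    rw [sec_empty (hR n) e he (|R n| + 1)
      (by rw [abs_of_pos (by positivity)]; linarith [le_abs_self (R n)])] at h1
    simp only [measure_empty, ENNReal.toReal_zero, zero_add] at h1
    linarith


/-- rotated coordinates -/
noncomputable def T (e : E2) (he : ‖e‖ = 1) : E2 →ₗᵢ[ℝ] E2 where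
  toFun z := z 0 • J e + z 1 • e
  map_add' z w := by
    simp only [PiLp.add_apply]
    module
  map_smul' c z := by
    simp only [PiLp.smul_apply, smul_eq_mul, RingHom.id_apply]
    module
  norm_map' z := by
    rw [← sq_eq_sq₀ (norm_nonneg _) (norm_nonneg _)]
    have h := sq_add e he
    have h1 := EuclideanSpace.real_norm_sq_eq (n := Fin 2)
    rw [h1, h1]
    simp [Fin.sum_univ_two, J]
    linear_combination (z 0 ^ 2 + z 1 ^ 2) * h

lemma volume_eq_lintegral {E : Set E2} (hE : MeasurableSet E) (e : E2) (he : ‖e‖ = 1) :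
    volume E = ∫⁻ p : ℝ, volume (sec E e p) := by
  have h1 := ((T e he).toLinearIsometryEquiv rfl).measurePreserving
  have h2 := PiLp.volume_preserving_toLp (Fin 2)
  have h3 := (MeasureTheory.volume_preserving_finTwoArrow ℝ).symm
  have hmp : MeasurePreserving (fun q : ℝ × ℝ => q.1 • J e + q.2 • e)
      (volume : Measure (ℝ × ℝ)) (volume : Measure E2) := h1.comp (h2.comp h3)
  have h4 := hmp.measure_preimage hE.nullMeasurableSet
  rw [← h4, Measure.volume_eq_prod, Measure.prod_apply (hmp.measurable hE)]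
  rfl

lemma mu_line_le_diam (θ : E2) (hθ : ‖θ‖ = 1) (p : ℝ) (F : Set E2) :
    μH[1] (line θ p ∩ F) ≤ ediam F := by
  set e : E2 := !₂[θ 1, -θ 0] with hedef
  have hJ : J e = θ := by
    ext i
    fin_cases i <;> simp [J, hedef]
  have he : ‖e‖ = 1 := by rw [← norm_J, hJ, hθ]
  have hiso : Isometry (fun τ : ℝ => p • J e + τ • e) :=
    Isometry.of_dist_eq fun a b => by simp [dist_eq_norm, ← sub_smul, norm_smul, he]
  rw [← hJ, muH_line e he]
  refine (Real.volume_le_diam _).trans ?_
  rw [← hiso.ediam_image]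
  apply ediam_mono
  rintro x ⟨τ, hτ, rfl⟩
  exact hτ

lemma frontier_union_sub (s t : Set E2) : frontier (s ∪ t) ⊆ frontier s ∪ frontier t :=
  (frontier_union_subset s t).trans (union_subset_union inter_subset_left inter_subset_right)

lemma frontier_diff_sub (s t : Set E2) : frontier (s \ t) ⊆ frontier s ∪ frontier t := by
  rw [sdiff_eq]
  refine (frontier_inter_subset s tᶜ).trans ?_
  rw [frontier_compl]
  exact union_subset_union inter_subset_left inter_subset_right

lemma dimH_lt_of_sub {s t u : Set E2} (h : s ⊆ t ∪ u) (ht : dimH t < 2) (hu : dimH u < 2) :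
    dimH s < 2 :=
  (dimH_mono h).trans_lt (by rw [dimH_union]; exact max_lt ht hu)

lemma fin_union (F : ℕ → Set E2) (hb : ∀ n, Bornology.IsBounded (F n))
    (hd : ∀ n, dimH (frontier (F n)) < 2) (N : ℕ) :
    Bornology.IsBounded (⋃ n ∈ Finset.range N, F n) ∧
      dimH (frontier (⋃ n ∈ Finset.range N, F n)) < 2 := by
  induction N with
  | zero => simp
  | succ N ih =>
    rw [Finset.range_add_one, Finset.set_biUnion_insert]
    exact ⟨(hb N).union ih.1, dimH_lt_of_sub (frontier_union_sub _ _) (hd N) ih.2⟩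

lemma approx_series (F₀ : Set E2) (hb₀ : Bornology.IsBounded F₀) (hd₀ : dimH (frontier F₀) < 2)
    (F : ℕ → Set E2) (hd : ∀ n, dimH (frontier (F n)) < 2) (hs : ∑' n, ediam (F n) ≠ ∞) :
    Approximable (F₀ \ ⋃ n, F n) ∧ Approximable (F₀ ∪ ⋃ n, F n) := by
  have hb : ∀ n, Bornology.IsBounded (F n) := fun n =>
    isBounded_iff_ediam_ne_top.2 (ne_top_of_le_ne_top hs (ENNReal.le_tsum n))
  have key : ∀ ε : ℝ, 0 < ε → ∃ N : ℕ, ∀ (A : Set E2), A ⊆ (⋃ k, F (k + N)) →
      ∀ (θ : E2) (p : ℝ), ‖θ‖ = 1 → μH[1] (line θ p ∩ A) ≤ ENNReal.ofReal ε := by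
    intro ε hε
    obtain ⟨N, hN⟩ := ((ENNReal.tendsto_sum_nat_add _ hs).eventually
      (Iic_mem_nhds (ENNReal.ofReal_pos.2 hε))).exists
    refine ⟨N, fun A hA θ p hθ => ?_⟩
    calc μH[1] (line θ p ∩ A) ≤ μH[1] (⋃ k, line θ p ∩ F (k + N)) := by
          apply measure_mono
          rw [← inter_iUnion]
          exact inter_subset_inter_right _ hA
      _ ≤ ∑' k, μH[1] (line θ p ∩ F (k + N)) := measure_iUnion_le _
      _ ≤ ∑' k, ediam (F (k + N)) := ENNReal.tsum_le_tsum fun k => mu_line_le_diam θ hθ p _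
      _ ≤ ENNReal.ofReal ε := hN
  have hmem : ∀ (N : ℕ) (x : E2), x ∉ (⋃ n ∈ Finset.range N, F n) → x ∈ (⋃ n, F n) →
      x ∈ ⋃ k, F (k + N) := by
    intro N x h1 h2
    obtain ⟨n, hn⟩ := mem_iUnion.1 h2
    have hnN : N ≤ n := by
      by_contra hlt
      push Not at hlt
      exact h1 (mem_biUnion (Finset.mem_coe.2 (Finset.mem_range.2 hlt)) hn)
    refine mem_iUnion.2 ⟨n - N, ?_⟩
    rwa [Nat.sub_add_cancel hnN]
  have hsub : ∀ (N : ℕ), (⋃ n ∈ Finset.range N, F n) ⊆ ⋃ n, F n := fun N =>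
    iUnion₂_subset fun n _ => subset_iUnion F n
  constructor
  · refine approximable_of_uniform fun ε hε => ?_
    obtain ⟨N, hN⟩ := key ε hε
    obtain ⟨h1, h2⟩ := fin_union F hb hd N
    refine ⟨F₀ \ ⋃ n ∈ Finset.range N, F n, hb₀.subset sdiff_subset,
      dimH_lt_of_sub (frontier_diff_sub _ _) hd₀ h2, hN _ ?_⟩
    rintro x (⟨⟨h3, h4⟩, h5⟩ | ⟨⟨h3, h4⟩, h5⟩)
    · exact absurd ⟨h3, fun h => h4 (hsub N h)⟩ h5
    · apply hmem N x h4
      by_contra h6
      exact h5 ⟨h3, h6⟩
  · refine approximable_of_uniform fun ε hε => ?_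
    obtain ⟨N, hN⟩ := key ε hε
    obtain ⟨h1, h2⟩ := fin_union F hb hd N
    refine ⟨F₀ ∪ ⋃ n ∈ Finset.range N, F n, hb₀.union h1,
      dimH_lt_of_sub (frontier_union_sub _ _) hd₀ h2, hN _ ?_⟩
    rintro x (⟨h3, h5⟩ | ⟨h3, h5⟩)
    · rcases h3 with h3 | h3
      · exact absurd (Or.inl h3) h5
      · exact hmem N x (fun h => h5 (Or.inr h)) h3
    · rcases h3 with h3 | h3
      · exact absurd (Or.inl h3) h5
      · exact absurd (Or.inr (hsub N h3)) h5

/-- **Theorem.** Let `E` be a measurable set of positive area in the plane which is a limit, uniformly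
over all lines, of bounded sets whose boundary has Hausdorff dimension less than `2`. Then there is
`δ > 0` such that for almost every direction `e` the length of the intersection of `E` with a line parallel
to `e` is finite, depends continuously on the line, and takes every value `t ∈ (0, δ)`. In particular
Croft's question Q1 has a positive answer for `E`. -/
theorem main (E : Set E2) (hE : NullMeasurableSet E volume) (hvol : 0 < volume E) (happ : Approximable E) :
    ∃ δ : ℝ, 0 < δ ∧
      (∀ᵐ e : sphere (0 : E2) 1 ∂(volume : Measure E2).toSphere,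
        (∀ p : ℝ, μH[1] (line (J e) p ∩ E) < ∞) ∧
        Continuous (fun p : ℝ => (μH[1] (line (J e) p ∩ E)).toReal) ∧
        ∀ t ∈ Ioo 0 δ, ∃ p : ℝ, μH[1] (line (J e) p ∩ E) = ENNReal.ofReal t) ∧
      ∀ t ∈ Ioo 0 δ, ∃ (θ : E2) (p : ℝ), ‖θ‖ = 1 ∧ μH[1] (line θ p ∩ E) = ENNReal.ofReal t := by
  choose F hb hdim hclose using fun n : ℕ =>
    happ ((1 / 2 : ℝ) ^ n) (by positivity)
  have hbc : ∀ᵐ e : sphere (0 : E2) 1 ∂(volume : Measure E2).toSphere, ∀ᶠ n : ℕ in atTop,
      e ∉ {e : sphere (0 : E2) 1 | ∃ p : ℝ,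
        ENNReal.ofReal ((1 / 2 : ℝ) ^ n) < μH[1] (line (J e) p ∩ symmDiff E (F n))} := by
    apply ae_eventually_notMem
    apply ne_top_of_le_ne_top _ (ENNReal.tsum_le_tsum hclose)
    rw [← ENNReal.ofReal_tsum_of_nonneg (fun n => by positivity) summable_geometric_two]
    exact ENNReal.ofReal_ne_top
  -- a Borel subset of full measure
  obtain ⟨E', hsubE, hE', hae⟩ := hE.exists_measurable_subset_ae_eq
  have hvol' : 0 < volume E' := by rw [measure_congr hae]; exact hvol
  -- a ball which meets `E'` in positive measure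
  obtain ⟨N, hN⟩ : ∃ N : ℕ, 0 < volume (E' ∩ closedBall 0 N) := by
    by_contra hcon
    push Not at hcon
    have hsub : E' ⊆ ⋃ N : ℕ, E' ∩ closedBall 0 (N : ℝ) := by
      intro x hx
      obtain ⟨N, hN⟩ := exists_nat_ge ‖x‖
      exact mem_iUnion.2 ⟨N, hx, by simpa using hN⟩
    exact hvol'.ne' (measure_mono_null hsub (measure_iUnion_null fun N => le_antisymm (hcon N)
      zero_le))
  set R : ℝ := (N : ℝ) + 1 with hRdef
  have hR : 0 < R := by positivity
  set v : ℝ≥0∞ := volume (E' ∩ closedBall 0 (N : ℝ)) with hvdef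
  have hvfin : v < ∞ := (measure_mono inter_subset_right).trans_lt measure_closedBall_lt_top
  have hv : 0 < v.toReal := ENNReal.toReal_pos hN.ne' hvfin.ne
  have hEN : MeasurableSet (E' ∩ closedBall 0 (N : ℝ)) := hE'.inter measurableSet_closedBall
  refine ⟨v.toReal / (2 * R), by positivity, ?_⟩
  have hmain : ∀ᵐ e : sphere (0 : E2) 1 ∂(volume : Measure E2).toSphere,
        (∀ p : ℝ, μH[1] (line (J e) p ∩ E) < ∞) ∧
        Continuous (fun p : ℝ => (μH[1] (line (J e) p ∩ E)).toReal) ∧
        ∀ t ∈ Ioo 0 (v.toReal / (2 * R)), ∃ p : ℝ, μH[1] (line (J e) p ∩ E) = ENNReal.ofReal t := by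
    filter_upwards [hbc, ae_all_iff.2 fun n => ae_null (isClosed_frontier (s := F n)) (hdim n)]
      with e hev hnull
    have he : ‖(e : E2)‖ = 1 := by simp
    obtain ⟨n₀, hn₀⟩ := eventually_atTop.1 hev
    obtain ⟨h1, h2, h3⟩ := main_e (E := E) he (fun n => F (n + n₀)) (fun n => hb _)
      (fun n => hnull _) (fun n => (1 / 2 : ℝ) ^ (n + n₀)) (fun n => by positivity)
      (fun ε hε => by
        obtain ⟨n, hn⟩ := exists_pow_lt_of_lt_one hε (by norm_num : (1 / 2 : ℝ) < 1)
        refine ⟨n, lt_of_le_of_lt ?_ hn⟩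
        exact pow_le_pow_of_le_one (by norm_num) (by norm_num) (Nat.le_add_right _ _))
      (fun n p => by
        rw [← muH_line (e : E2) he p]
        have h := hn₀ (n + n₀) (Nat.le_add_left _ _)
        simp only [not_exists, not_lt] at h
        exact h p)
    have h4 : ∀ p : ℝ, μH[1] (line (J e) p ∩ E) = volume (sec E e p) := fun p =>
      muH_line (e : E2) he p E
    simp only [h4]
    refine ⟨h1, h2, fun t ht => ?_⟩
    have h5 : ∃ p, t ≤ (volume (sec E e p)).toReal := by
      by_contra hcon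
      push Not at hcon
      have h6 : ∀ p, volume (sec (E' ∩ closedBall 0 (N : ℝ)) e p) ≤
          (Icc (-R) R).indicator (fun _ => ENNReal.ofReal t) p := by
        intro p
        by_cases hp : p ∈ Icc (-R) R
        · rw [indicator_of_mem hp]
          refine (measure_mono (fun τ (hτ : p • J (e : E2) + τ • (e : E2) ∈
            E' ∩ closedBall 0 (N : ℝ)) =>
              (hsubE hτ.1 : p • J (e : E2) + τ • (e : E2) ∈ E))).trans ?_
          exact (ENNReal.le_ofReal_iff_toReal_le (h1 p).ne ht.1.le).2 (hcon p).le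
        · rw [indicator_of_notMem hp, sec_empty (R := N) (fun x hx => by simpa using hx.2) e he p ?_]
          · simp
          · by_contra hcon'
            push Not at hcon'
            have h7 := abs_le.1 hcon'
            exact hp ⟨by linarith [h7.1], by linarith [h7.2]⟩
      have h8 : v ≤ ENNReal.ofReal t * ENNReal.ofReal (2 * R) := by
        rw [hvdef, volume_eq_lintegral hEN e he]
        refine (lintegral_mono h6).trans ?_
        rw [lintegral_indicator measurableSet_Icc, lintegral_const, Measure.restrict_apply_univ,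
          Real.volume_Icc]
        ring_nf
        exact le_rfl
      have h9 := ENNReal.toReal_mono (ENNReal.mul_lt_top ENNReal.ofReal_lt_top
        ENNReal.ofReal_lt_top).ne h8
      rw [ENNReal.toReal_mul, ENNReal.toReal_ofReal ht.1.le,
        ENNReal.toReal_ofReal (by positivity)] at h9
      have h10 := (lt_div_iff₀ (by positivity)).1 ht.2
      linarith
    obtain ⟨p, hp⟩ := mem_range_of_exists_le_of_exists_ge h2 (h3 t ht.1) h5
    refine ⟨p, ?_⟩
    rw [← hp, ENNReal.ofReal_toReal (h1 p).ne]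
  refine ⟨hmain, ?_⟩
  have : NeZero (volume : Measure E2).toSphere := ⟨Measure.toSphere_ne_zero _⟩
  obtain ⟨e, he⟩ := hmain.exists
  intro t ht
  obtain ⟨p, hp⟩ := he.2.2 t ht
  exact ⟨J e, p, by rw [norm_J]; simp, hp⟩

end Pool.Agent.Run7.h239.BD
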