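import Mathlib
set_option autoImplicit false

namespace Pool.Agent.Run7.h239.DL

open MeasureTheory Set Filter Topology
open scoped ENNReal

abbrev P := ℝ × ℝ

noncomputable def chi (A : Set P) : P → ℝ≥0∞ := A.indicator 1

lemma meas_chi {A : Set P} (hA : MeasurableSet A) : Measurable (chi A) :=
  measurable_one.indicator hA

/-- length of the projection of the section of `A` with slope `m` and intercept `c` -/
noncomputable def f (A : Set P) (m c : ℝ) : ℝ≥0∞ := ∫⁻ x : ℝ, chi A (x, m * x + c)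

/-- autocorrelation -/
noncomputable def R (A : Set P) (u v : ℝ) : ℝ≥0∞ := ∫⁻ z : P, chi A z * chi A (z + (u, v))

noncomputable def W (m : ℝ) : ℝ := (1 + m ^ 2)⁻¹

lemma W_pos (m : ℝ) : 0 < W m := by unfold W; positivity

@[fun_prop]
lemma meas_W : Measurable W := by unfold W; fun_prop

lemma meas_f {A : Set P} (hA : MeasurableSet A) : Measurable (fun q : P => f A q.1 q.2) := by
  unfold f
  exact Measurable.lintegral_prod_right' (f := fun z : P × ℝ => chi A (z.2, z.1.1 * z.2 + z.1.2))
    ((meas_chi hA).comp (by fun_prop))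

lemma meas_f' {A : Set P} (hA : MeasurableSet A) {α : Type*} [MeasurableSpace α] {g h : α → ℝ}
    (hg : Measurable g) (hh : Measurable h) : Measurable (fun a => f A (g a) (h a)) :=
  (meas_f hA).comp (hg.prodMk hh)

lemma meas_R {A : Set P} (hA : MeasurableSet A) : Measurable (fun q : P => R A q.1 q.2) := by
  unfold R
  exact Measurable.lintegral_prod_right'
    (f := fun z : P × P => chi A z.2 * chi A (z.2 + (z.1.1, z.1.2)))
    (((meas_chi hA).comp (by fun_prop)).mul ((meas_chi hA).comp (by fun_prop)))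

lemma meas_R' {A : Set P} (hA : MeasurableSet A) {α : Type*} [MeasurableSpace α] {g h : α → ℝ}
    (hg : Measurable g) (hh : Measurable h) : Measurable (fun a => R A (g a) (h a)) :=
  (meas_R hA).comp (hg.prodMk hh)

lemma R_le {A : Set P} (hA : MeasurableSet A) (u v : ℝ) : R A u v ≤ volume A := by
  unfold R
  calc ∫⁻ z : P, chi A z * chi A (z + (u, v)) ≤ ∫⁻ z : P, chi A z := by
        apply lintegral_mono
        intro z
        refine (mul_le_mul_right (?_ : chi A (z + (u, v)) ≤ 1) _).trans (by rw [mul_one])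
        unfold chi
        exact indicator_le_self' (by simp) _
    _ = volume A := by
        unfold chi
        exact lintegral_indicator_one hA

lemma q_eq {A : Set P} (hA : MeasurableSet A) (m s : ℝ) :
    ∫⁻ c, f A m c * f A m (c + s) = ∫⁻ u, R A u (m * u + s) := by
  have hχ := meas_chi hA
  calc ∫⁻ c, f A m c * f A m (c + s)
      = ∫⁻ c, ∫⁻ x, chi A (x, m * x + c) * f A m (c + s) := by
        congr 1; ext c
        have hm : Measurable (fun x : ℝ => chi A (x, m * x + c)) := hχ.comp (by fun_prop)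
        rw [lintegral_mul_const _ hm]
        rfl
    _ = ∫⁻ x, ∫⁻ c, chi A (x, m * x + c) * f A m (c + s) := by
        apply lintegral_lintegral_swap
        apply Measurable.aemeasurable
        exact (hχ.comp (by fun_prop)).mul (meas_f' hA (by fun_prop) (by fun_prop))
    _ = ∫⁻ x, ∫⁻ c, chi A (x, c) * f A m (c - m * x + s) := by
        congr 1; ext x
        rw [← lintegral_sub_right_eq_self (fun c => chi A (x, m * x + c) * f A m (c + s)) (m * x)]
        congr 1; ext c
        congr 3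
        ring
    _ = ∫⁻ x, ∫⁻ c, ∫⁻ u, chi A (x, c) * chi A (x + u, c + (m * u + s)) := by
        congr 1; ext x
        congr 1; ext c
        have hm : Measurable (fun u : ℝ => chi A (x + u, c + (m * u + s))) :=
          hχ.comp (by fun_prop)
        rw [lintegral_const_mul _ hm]
        congr 1
        unfold f
        rw [← lintegral_add_left_eq_self (fun y => chi A (y, m * y + (c - m * x + s))) x]
        congr 1; ext u
        congr 2
        ring
    _ = ∫⁻ z : P, ∫⁻ u, chi A z * chi A (z + (u, m * u + s)) := by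
        rw [Measure.volume_eq_prod, lintegral_prod]
        · rfl
        · apply Measurable.aemeasurable
          exact Measurable.lintegral_prod_right'
            (f := fun z : P × ℝ => chi A z.1 * chi A (z.1 + (z.2, m * z.2 + s)))
            ((hχ.comp (by fun_prop)).mul (hχ.comp (by fun_prop)))
    _ = ∫⁻ u, ∫⁻ z : P, chi A z * chi A (z + (u, m * u + s)) := by
        apply lintegral_lintegral_swap
        apply Measurable.aemeasurable
        exact (hχ.comp (by fun_prop)).mul (hχ.comp (by fun_prop))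

noncomputable def Q (A : Set P) (s : ℝ) : ℝ≥0∞ :=
  ∫⁻ m, ENNReal.ofReal (W m) * ∫⁻ c, f A m c * f A m (c + s)

lemma Q_eq {A : Set P} (hA : MeasurableSet A) (s : ℝ) :
    Q A s = ∫⁻ u, ∫⁻ m, ENNReal.ofReal (W (m - s / u)) * R A u (m * u) := by
  unfold Q
  calc ∫⁻ m, ENNReal.ofReal (W m) * ∫⁻ c, f A m c * f A m (c + s)
      = ∫⁻ m, ∫⁻ u, ENNReal.ofReal (W m) * R A u (m * u + s) := by
        congr 1; ext m
        rw [q_eq hA, lintegral_const_mul _ (meas_R' hA (by fun_prop) (by fun_prop))]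
    _ = ∫⁻ u, ∫⁻ m, ENNReal.ofReal (W m) * R A u (m * u + s) := by
        apply lintegral_lintegral_swap
        apply Measurable.aemeasurable
        exact (by fun_prop : Measurable fun z : ℝ × ℝ => ENNReal.ofReal (W z.1)).mul
          (meas_R' hA (by fun_prop) (by fun_prop))
    _ = ∫⁻ u, ∫⁻ m, ENNReal.ofReal (W (m - s / u)) * R A u (m * u) := by
        apply lintegral_congr_ae
        have h0 : ∀ᵐ u : ℝ, u ≠ 0 := by
          rw [ae_iff]
          simp
        filter_upwards [h0] with u hu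
        rw [← lintegral_sub_right_eq_self (fun m => ENNReal.ofReal (W m) * R A u (m * u + s))
          (s / u)]
        congr 1; ext m
        congr 2
        field_simp
        ring

lemma Q_symm {A : Set P} (s : ℝ) : Q A (-s) = Q A s := by
  unfold Q
  congr 1; ext m
  congr 1
  rw [← lintegral_add_right_eq_self (fun c => f A m c * f A m (c + -s)) s]
  congr 1; ext c
  rw [mul_comm, add_neg_cancel_right]

lemma Q_scale {A : Set P} (hA : MeasurableSet A) {t : ℝ} (ht : 0 < t) (σ : ℝ) :
    Q A (t * σ) = ENNReal.ofReal t * ∫⁻ q : P, ENNReal.ofReal (W (q.2 - σ / q.1)) *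
      R A (t * q.1) (q.2 * (t * q.1)) := by
  rw [Q_eq hA]
  set G : ℝ → ℝ≥0∞ := fun u => ∫⁻ m, ENNReal.ofReal (W (m - t * σ / u)) * R A u (m * u) with hG
  have hGm : Measurable G := by
    exact Measurable.lintegral_prod_right'
      (f := fun z : ℝ × ℝ => ENNReal.ofReal (W (z.2 - t * σ / z.1)) * R A z.1 (z.2 * z.1))
      ((by fun_prop : Measurable fun z : ℝ × ℝ => ENNReal.ofReal (W (z.2 - t * σ / z.1))).mul
          (meas_R' hA (by fun_prop) (by fun_prop)))
  have h1 : ∫⁻ s, G (t * s) = ENNReal.ofReal |t⁻¹| * ∫⁻ u, G u := by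
    calc ∫⁻ s, G (t * s) = ∫⁻ u, G u ∂(Measure.map (t * ·) volume) :=
          (lintegral_map hGm (by fun_prop)).symm
      _ = ENNReal.ofReal |t⁻¹| * ∫⁻ u, G u := by
          rw [Real.map_volume_mul_left ht.ne', lintegral_smul_measure]
          rfl
  have h2 : ∫⁻ q : P, ENNReal.ofReal (W (q.2 - σ / q.1)) * R A (t * q.1) (q.2 * (t * q.1)) =
      ∫⁻ s, G (t * s) := by
    rw [Measure.volume_eq_prod, lintegral_prod]
    · congr 1; ext s
      simp only [hG]
      congr 1; ext m
      rw [mul_div_mul_left _ _ ht.ne']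
    · apply Measurable.aemeasurable
      exact (by fun_prop : Measurable fun z : ℝ × ℝ => ENNReal.ofReal (W (z.2 - σ / z.1))).mul
          (meas_R' hA (by fun_prop) (by fun_prop))
  rw [h2, h1, ← mul_assoc, ← ENNReal.ofReal_mul ht.le, abs_of_pos (inv_pos.2 ht),
    mul_inv_cancel₀ ht.ne']
  simp


lemma lint_W : ∫⁻ m, ENNReal.ofReal (W m) < ∞ := by
  have h : Integrable W := integrable_inv_one_add_sq
  rw [← ofReal_integral_eq_lintegral_ofReal h (Eventually.of_forall fun m => (W_pos m).le)]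
  exact ENNReal.ofReal_lt_top

lemma lint_R {A : Set P} (hA : MeasurableSet A) :
    ∫⁻ u, ∫⁻ v, R A u v = volume A * volume A := by
  have hχ := meas_chi hA
  have h1 : ∫⁻ u, ∫⁻ v, R A u v = ∫⁻ w : P, ∫⁻ z : P, chi A z * chi A (z + w) := by
    rw [Measure.volume_eq_prod, lintegral_prod]
    · rfl
    · apply Measurable.aemeasurable
      exact Measurable.lintegral_prod_right'
        (f := fun z : P × P => chi A z.2 * chi A (z.2 + z.1))
        ((hχ.comp (by fun_prop)).mul (hχ.comp (by fun_prop)))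
  rw [h1, lintegral_lintegral_swap]
  · have h2 : ∀ z : P, ∫⁻ w : P, chi A z * chi A (z + w) = chi A z * volume A := by
      intro z
      have hm : Measurable (fun w : P => chi A (z + w)) := hχ.comp (by fun_prop)
      rw [lintegral_const_mul _ hm, lintegral_add_left_eq_self (fun w => chi A w) z]
      congr 1
      exact lintegral_indicator_one hA
    simp only [h2]
    rw [lintegral_mul_const _ hχ]
    congr 1
    exact lintegral_indicator_one hA
  · apply Measurable.aemeasurable
    exact (hχ.comp (by fun_prop)).mul (hχ.comp (by fun_prop))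

lemma Q_zero_lt {A : Set P} (hA : MeasurableSet A) (hfin : volume A < ∞) : Q A 0 < ∞ := by
  rw [Q_eq hA]
  have hb : ∀ u : ℝ, u ≠ 0 → ∫⁻ m, ENNReal.ofReal (W (m - 0 / u)) * R A u (m * u) ≤
      (Icc (-1 : ℝ) 1).indicator (fun _ => (∫⁻ m, ENNReal.ofReal (W m)) * volume A) u +
        ∫⁻ v, R A u v := by
    intro u hu
    have hRm : Measurable (fun v => R A u v) := meas_R' hA (by fun_prop) (by fun_prop)
    by_cases h : u ∈ Icc (-1 : ℝ) 1
    · rw [indicator_of_mem h]
      refine le_add_right ?_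
      rw [← lintegral_mul_const _ (by fun_prop)]
      apply lintegral_mono
      intro m
      simp only [zero_div, sub_zero]
      gcongr
      exact R_le hA _ _
    · rw [indicator_of_notMem h, zero_add]
      have hu1 : 1 ≤ |u| := by
        by_contra hlt
        push Not at hlt
        exact h (abs_le.1 hlt.le)
      calc ∫⁻ m, ENNReal.ofReal (W (m - 0 / u)) * R A u (m * u) ≤ ∫⁻ m, R A u (m * u) := by
            apply lintegral_mono
            intro m
            refine (mul_le_mul_left (?_ : ENNReal.ofReal (W (m - 0 / u)) ≤ 1) _).trans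
              (by rw [one_mul])
            rw [ENNReal.ofReal_le_one]
            unfold W
            apply inv_le_one_of_one_le₀
            nlinarith [sq_nonneg (m - 0 / u)]
        _ = ∫⁻ v, R A u v ∂(Measure.map (· * u) volume) :=
            (lintegral_map hRm (by fun_prop)).symm
        _ = ENNReal.ofReal |u⁻¹| * ∫⁻ v, R A u v := by
            rw [Real.map_volume_mul_right hu, lintegral_smul_measure]
            rfl
        _ ≤ 1 * ∫⁻ v, R A u v := by
            gcongr
            rw [ENNReal.ofReal_le_one, abs_inv]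
            exact inv_le_one_of_one_le₀ hu1
        _ = _ := one_mul _
  have h0 : ∀ᵐ u : ℝ, u ≠ 0 := by
    rw [ae_iff]
    simp
  refine (lintegral_mono_ae (h0.mono hb)).trans_lt ?_
  rw [lintegral_add_left (measurable_const.indicator measurableSet_Icc),
    lintegral_indicator measurableSet_Icc, lintegral_const, lint_R hA, Measure.restrict_apply_univ]
  refine ENNReal.add_lt_top.2 ⟨ENNReal.mul_lt_top (ENNReal.mul_lt_top lint_W hfin)
    measure_Icc_lt_top, ENNReal.mul_lt_top hfin hfin⟩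

lemma two_mul_le (x y : ℝ≥0∞) : 2 * (x * y) ≤ x * x + y * y := by
  by_cases hx : x = ∞
  · subst hx; simp
  by_cases hy : y = ∞
  · subst hy; simp
  lift x to NNReal using hx
  lift y to NNReal using hy
  norm_cast
  have h := two_mul_le_add_sq (x : ℝ) (y : ℝ)
  rw [← NNReal.coe_le_coe]
  push_cast
  nlinarith

lemma Q_le {A : Set P} (hA : MeasurableSet A) (s : ℝ) : Q A s ≤ Q A 0 := by
  unfold Q
  apply lintegral_mono
  intro m
  simp only
  refine mul_le_mul_right ?_ _
  have hfm : Measurable (fun c => f A m c) := meas_f' hA (by fun_prop) (by fun_prop)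
  have h1 : 2 * ∫⁻ c, f A m c * f A m (c + s) ≤ 2 * ∫⁻ c, f A m c * f A m (c + 0) := by
    rw [← lintegral_const_mul' _ _ (by simp)]
    calc ∫⁻ c, 2 * (f A m c * f A m (c + s))
        ≤ ∫⁻ c, (f A m c * f A m c + f A m (c + s) * f A m (c + s)) :=
          lintegral_mono fun c => two_mul_le _ _
      _ = (∫⁻ c, f A m c * f A m c) + ∫⁻ c, f A m (c + s) * f A m (c + s) :=
          lintegral_add_left (hfm.mul hfm) _
      _ = (∫⁻ c, f A m c * f A m c) + ∫⁻ c, f A m c * f A m c := by
          rw [lintegral_add_right_eq_self (fun c => f A m c * f A m c) s]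
      _ = 2 * ∫⁻ c, f A m c * f A m (c + 0) := by simp only [add_zero]; rw [two_mul]
  exact (ENNReal.mul_le_mul_iff_right (two_ne_zero) (by simp)).1 h1


noncomputable def D2 (τ m : ℝ) : ℝ := 2 * W m - W (m - τ) - W (m + τ)

lemma D2_bound (τ m : ℝ) (hτ : |τ| ≤ 1) : |D2 τ m| ≤ 54 * τ ^ 2 * W m := by
  have hτ2 : τ ^ 2 ≤ 1 := by
    have h := abs_le.1 hτ
    nlinarith [h.1, h.2]
  have ha : 0 < 1 + m ^ 2 := by positivity
  have hb : 0 < 1 + (m - τ) ^ 2 := by positivity
  have hc : 0 < 1 + (m + τ) ^ 2 := by positivity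
  have h1 : D2 τ m = 2 * τ ^ 2 * (1 - 3 * m ^ 2 + τ ^ 2) /
      ((1 + m ^ 2) * ((1 + (m - τ) ^ 2) * (1 + (m + τ) ^ 2))) := by
    unfold D2 W
    field_simp
    ring
  have hb' : (1 + m ^ 2) / 3 ≤ 1 + (m - τ) ^ 2 := by nlinarith [sq_nonneg (m - 3 / 2 * τ)]
  have hc' : (1 + m ^ 2) / 3 ≤ 1 + (m + τ) ^ 2 := by nlinarith [sq_nonneg (m + 3 / 2 * τ)]
  have hP : (1 + m ^ 2) / 3 * ((1 + m ^ 2) / 3) ≤ (1 + (m - τ) ^ 2) * (1 + (m + τ) ^ 2) :=
    mul_le_mul hb' hc' (by positivity) hb.le
  have hP2 : (1 + m ^ 2) / 9 ≤ (1 + (m - τ) ^ 2) * (1 + (m + τ) ^ 2) := by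
    nlinarith [sq_nonneg m]
  rw [h1, abs_div, abs_of_pos (a := (1 + m ^ 2) * ((1 + (m - τ) ^ 2) * (1 + (m + τ) ^ 2)))
    (by positivity), div_le_iff₀ (by positivity), abs_mul, abs_of_nonneg (a := 2 * τ ^ 2)
    (by positivity)]
  have h2 : |1 - 3 * m ^ 2 + τ ^ 2| ≤ 3 * (1 + m ^ 2) := by
    rw [abs_le]
    constructor <;> nlinarith [sq_nonneg m, sq_nonneg τ]
  have h3 : 54 * τ ^ 2 * W m * ((1 + m ^ 2) * ((1 + (m - τ) ^ 2) * (1 + (m + τ) ^ 2))) =
      54 * τ ^ 2 * ((1 + (m - τ) ^ 2) * (1 + (m + τ) ^ 2)) := by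
    unfold W
    field_simp
  rw [h3]
  calc 2 * τ ^ 2 * |1 - 3 * m ^ 2 + τ ^ 2| ≤ 2 * τ ^ 2 * (3 * (1 + m ^ 2)) := by gcongr
    _ = 54 * τ ^ 2 * ((1 + m ^ 2) / 9) := by ring
    _ ≤ _ := by gcongr

lemma int_W : Integrable W := integrable_inv_one_add_sq

lemma int_D2 (τ : ℝ) : Integrable (D2 τ) := by
  unfold D2
  exact ((int_W.const_mul 2).sub (int_W.comp_sub_right τ)).sub (int_W.comp_add_right τ)

lemma integral_D2 (τ : ℝ) : ∫ m, D2 τ m = 0 := by
  unfold D2
  have h1 : Integrable (fun m => 2 * W m) := int_W.const_mul 2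
  have h2 : Integrable (fun m => W (m - τ)) := int_W.comp_sub_right τ
  have h3 : Integrable (fun m => W (m + τ)) := int_W.comp_add_right τ
  have h12 : Integrable (fun m => 2 * W m - W (m - τ)) := h1.sub h2
  rw [integral_sub h12 h3, integral_sub h1 h2, integral_const_mul,
    integral_sub_right_eq_self W τ, integral_add_right_eq_self W τ]
  ring

lemma norm_D2 (s : ℝ) : ∫ m, ‖D2 (1 / s) m‖ ≤ 108 * Real.pi * (1 + s ^ 2)⁻¹ := by
  have hπ : ∫ m, W m = Real.pi := integral_univ_inv_one_add_sq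
  have g1 : Integrable (fun m => 2 * W m) := int_W.const_mul 2
  have g2 : Integrable (fun m => W (m - 1 / s)) := int_W.comp_sub_right _
  have g3 : Integrable (fun m => W (m + 1 / s)) := int_W.comp_add_right _
  have g12 : Integrable (fun m => 2 * W m + W (m - 1 / s)) := g1.add g2
  have g123 : Integrable (fun m => 2 * W m + W (m - 1 / s) + W (m + 1 / s)) := g12.add g3
  by_cases hs : |s| ≤ 1
  · have h1 : ∫ m, ‖D2 (1 / s) m‖ ≤ 4 * Real.pi := by
      calc ∫ m, ‖D2 (1 / s) m‖ ≤ ∫ m, (2 * W m + W (m - 1 / s) + W (m + 1 / s)) := by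
            apply integral_mono (int_D2 _).norm g123
            intro m
            simp only [Real.norm_eq_abs]
            unfold D2
            rw [abs_le]
            have h1 := W_pos m
            have h2 := W_pos (m - 1 / s)
            have h3 := W_pos (m + 1 / s)
            constructor <;> linarith
        _ = 4 * Real.pi := by
            rw [integral_add g12 g3, integral_add g1 g2, integral_const_mul, integral_sub_right_eq_self W, integral_add_right_eq_self W, hπ]
            ring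
    refine h1.trans ?_
    have hs2 : s ^ 2 ≤ 1 := by
      have h := abs_le.1 hs
      nlinarith [h.1, h.2]
    have h2 : (1 / 2 : ℝ) ≤ (1 + s ^ 2)⁻¹ := by
      rw [one_div]
      apply inv_anti₀ (by positivity)
      linarith
    nlinarith [Real.pi_pos]
  · push Not at hs
    have hs0 : s ≠ 0 := by
      rintro rfl
      simp at hs
      linarith
    have hs2 : 1 ≤ s ^ 2 := by
      rw [← sq_abs]
      nlinarith
    have hτ : |1 / s| ≤ 1 := by
      rw [abs_div, abs_one]
      rw [div_le_one (by positivity)]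
      exact hs.le
    calc ∫ m, ‖D2 (1 / s) m‖ ≤ ∫ m, 54 * (1 / s) ^ 2 * W m := by
          apply integral_mono (int_D2 _).norm (int_W.const_mul _)
          intro m
          exact D2_bound _ _ hτ
      _ = 54 * (1 / s) ^ 2 * Real.pi := by rw [integral_const_mul, hπ]
      _ ≤ 108 * Real.pi * (1 + s ^ 2)⁻¹ := by
          have h3 : (1 / s) ^ 2 ≤ 2 * (1 + s ^ 2)⁻¹ := by
            rw [one_div, inv_pow, ← div_eq_mul_inv, ← one_div, div_le_div_iff₀ (by positivity)
              (by positivity)]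
            linarith
          nlinarith [Real.pi_pos]

noncomputable def Dl (q : P) : ℝ := D2 (1 / q.1) q.2

lemma meas_Dl : Measurable Dl := by
  unfold Dl D2
  fun_prop

lemma int_Dl : Integrable Dl := by
  rw [Measure.volume_eq_prod, integrable_prod_iff meas_Dl.aestronglyMeasurable]
  refine ⟨Eventually.of_forall fun s => int_D2 (1 / s), ?_⟩
  apply Integrable.mono' (g := fun s : ℝ => 108 * Real.pi * (1 + s ^ 2)⁻¹)
    (integrable_inv_one_add_sq.const_mul _)
  · have h : StronglyMeasurable (fun q : ℝ × ℝ => ‖Dl q‖) := meas_Dl.norm.stronglyMeasurable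
    exact h.integral_prod_right'.aestronglyMeasurable
  · refine Eventually.of_forall fun s => ?_
    rw [Real.norm_eq_abs, abs_of_nonneg (integral_nonneg fun m => norm_nonneg _)]
    exact norm_D2 s

lemma integral_Dl : ∫ q, Dl q = 0 := by
  have h := int_Dl
  rw [Measure.volume_eq_prod] at h ⊢
  rw [integral_prod _ h]
  simp only [Dl, integral_D2, integral_zero]


noncomputable def F (σ : ℝ) (q : P) : ℝ := W (q.2 - σ / q.1)

noncomputable def Pt (A : Set P) (t : ℝ) (q : P) : ℝ≥0∞ := R A (t * q.1) (q.2 * (t * q.1))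

lemma meas_Pt {A : Set P} (hA : MeasurableSet A) (t : ℝ) : Measurable (Pt A t) := by
  unfold Pt
  exact meas_R' hA (by fun_prop) (by fun_prop)

lemma Pt_lt {A : Set P} (hA : MeasurableSet A) (hfin : volume A < ∞) (t : ℝ) (q : P) :
    Pt A t q < ∞ := (R_le hA _ _).trans_lt hfin

lemma int_FP {A : Set P} (hA : MeasurableSet A) (hfin : volume A < ∞) {t : ℝ} (ht : 0 < t)
    (σ : ℝ) : Integrable (fun q => F σ q * (Pt A t q).toReal) ∧
      ∫ q, F σ q * (Pt A t q).toReal = (Q A (t * σ)).toReal / t := by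
  set h : P → ℝ≥0∞ := fun q => ENNReal.ofReal (F σ q) * Pt A t q with hh
  have hhr : (fun q => F σ q * (Pt A t q).toReal) = fun q => (h q).toReal := by
    ext q
    simp only [hh, ENNReal.toReal_mul]
    rw [ENNReal.toReal_ofReal (show 0 ≤ F σ q from (W_pos _).le)]
  have hm : Measurable h := by
    have h1 : Measurable (fun q : P => ENNReal.ofReal (F σ q)) := by unfold F; fun_prop
    exact h1.mul (meas_Pt hA t)
  have hQ : Q A (t * σ) = ENNReal.ofReal t * ∫⁻ q, h q := Q_scale hA ht σ
  have hQfin : Q A (t * σ) < ∞ := (Q_le hA _).trans_lt (Q_zero_lt hA hfin)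
  have hfin' : ∫⁻ q, h q ≠ ∞ := by
    intro hcon
    rw [hcon, ENNReal.mul_top (ENNReal.ofReal_pos.2 ht).ne'] at hQ
    exact hQfin.ne hQ
  rw [hhr]
  refine ⟨integrable_toReal_of_lintegral_ne_top hm.aemeasurable hfin', ?_⟩
  rw [integral_toReal hm.aemeasurable (Eventually.of_forall fun q =>
    ENNReal.mul_lt_top ENNReal.ofReal_lt_top (Pt_lt hA hfin t q)), hQ, ENNReal.toReal_mul,
    ENNReal.toReal_ofReal ht.le]
  field_simp

lemma R_eq {A : Set P} (hA : MeasurableSet A) (ζ : P) :
    R A ζ.1 ζ.2 = volume (A ∩ (fun z => z + ζ) ⁻¹' A) := by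
  unfold R chi
  rw [← lintegral_indicator_one (hA.inter (hA.preimage (by fun_prop)))]
  congr 1; ext z
  by_cases h1 : z ∈ A <;> by_cases h2 : z + ζ ∈ A <;> simp [h1, h2]

lemma R_tendsto {A : Set P} (hA : MeasurableSet A) (hfin : volume A < ∞) :
    Tendsto (fun ζ : P => (R A ζ.1 ζ.2).toReal) (𝓝 0) (𝓝 (volume A).toReal) := by
  have hc : Continuous (fun p : P × P => p.2 + p.1) := by fun_prop
  have hcur : Continuous (ContinuousMap.curry ⟨fun p : P × P => p.2 + p.1, hc⟩) :=
    ContinuousMap.continuous _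
  have h := tendsto_measure_symmDiff_preimage_nhds_zero (μ := (volume : Measure P))
    (ν := (volume : Measure P)) (s := A) (hcur.tendsto 0)
    (Eventually.of_forall fun ζ => measurePreserving_add_right volume ζ)
    (measurePreserving_add_right volume 0) hA.nullMeasurableSet hfin.ne
  have h1 : Tendsto (fun ζ : P => (volume A).toReal -
      (volume (symmDiff ((fun z => z + ζ) ⁻¹' A) A)).toReal) (𝓝 0)
      (𝓝 ((volume A).toReal - 0)) := by
    refine tendsto_const_nhds.sub ?_
    have h2 := (ENNReal.tendsto_toReal ENNReal.zero_ne_top).comp h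
    simp only [ENNReal.toReal_zero] at h2
    refine h2.congr fun ζ => ?_
    simp only [Function.comp]
    congr 3
    ext z
    simp [ContinuousMap.curry]
  rw [sub_zero] at h1
  refine tendsto_of_tendsto_of_tendsto_of_le_of_le h1 tendsto_const_nhds ?_ ?_
  · intro ζ
    simp only
    have h3 : volume A ≤ R A ζ.1 ζ.2 + volume (symmDiff ((fun z => z + ζ) ⁻¹' A) A) := by
      rw [R_eq hA]
      refine (measure_mono ?_).trans (measure_union_le _ _)
      intro z hz
      by_cases h4 : z + ζ ∈ A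
      · exact Or.inl ⟨hz, h4⟩
      · exact Or.inr (Or.inr ⟨hz, h4⟩)
    have h5 : volume (symmDiff ((fun z => z + ζ) ⁻¹' A) A) < ∞ := by
      refine (measure_mono symmDiff_le_sup).trans_lt ?_
      refine (measure_union_le _ _).trans_lt (ENNReal.add_lt_top.2 ⟨?_, hfin⟩)
      rw [measure_preimage_add_right]
      exact hfin
    have h6 : R A ζ.1 ζ.2 < ∞ := (R_le hA _ _).trans_lt hfin
    have h7 := ENNReal.toReal_mono (ENNReal.add_lt_top.2 ⟨h6, h5⟩).ne h3
    rw [ENNReal.toReal_add h6.ne h5.ne] at h7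
    linarith
  · intro ζ
    exact ENNReal.toReal_mono hfin.ne (R_le hA _ _)

lemma lim {A : Set P} (hA : MeasurableSet A) (hfin : volume A < ∞) :
    Tendsto (fun t : ℝ => (2 * (Q A 0).toReal - 2 * (Q A t).toReal) / t) (𝓝[>] 0) (𝓝 0) := by
  have h1 : Tendsto (fun t : ℝ => ∫ q, Dl q * (Pt A t q).toReal) (𝓝[>] 0)
      (𝓝 (∫ q, Dl q * (volume A).toReal)) := by
    apply tendsto_integral_filter_of_dominated_convergence (fun q => |Dl q| * (volume A).toReal)
    · exact Eventually.of_forall fun t =>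
        (meas_Dl.mul (meas_Pt hA t).ennreal_toReal).aestronglyMeasurable
    · refine Eventually.of_forall fun t => Eventually.of_forall fun q => ?_
      rw [norm_mul, Real.norm_eq_abs, Real.norm_eq_abs, abs_of_nonneg ENNReal.toReal_nonneg]
      exact mul_le_mul_of_nonneg_left (ENNReal.toReal_mono hfin.ne (R_le hA _ _)) (abs_nonneg _)
    · exact int_Dl.abs.mul_const _
    · refine Eventually.of_forall fun q => ?_
      refine tendsto_const_nhds.mul ?_
      have h2 : Tendsto (fun t : ℝ => ((t * q.1, q.2 * (t * q.1)) : P)) (𝓝[>] 0) (𝓝 0) := by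
        have h3 : Continuous (fun t : ℝ => ((t * q.1, q.2 * (t * q.1)) : P)) := by fun_prop
        have h4 := h3.tendsto 0
        simp only [zero_mul, mul_zero] at h4
        exact h4.mono_left nhdsWithin_le_nhds
      have h5 := (R_tendsto hA hfin).comp h2
      refine h5.congr fun t => ?_
      simp only [Function.comp, Pt]
  rw [integral_mul_const, integral_Dl, zero_mul] at h1
  refine h1.congr' ?_
  filter_upwards [self_mem_nhdsWithin] with t ht
  have ht' : (0 : ℝ) < t := ht
  obtain ⟨i0, e0⟩ := int_FP hA hfin ht' 0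
  obtain ⟨i1, e1⟩ := int_FP hA hfin ht' 1
  obtain ⟨i2, e2⟩ := int_FP hA hfin ht' (-1)
  have h5 : (fun q => Dl q * (Pt A t q).toReal) = fun q =>
      2 * (F 0 q * (Pt A t q).toReal) - F 1 q * (Pt A t q).toReal -
        F (-1) q * (Pt A t q).toReal := by
    ext q
    have h6 : Dl q = 2 * F 0 q - F 1 q - F (-1) q := by
      unfold Dl D2 F
      rw [zero_div, sub_zero, neg_div, sub_neg_eq_add]
    rw [h6]
    ring
  have j0 : Integrable (fun q => 2 * (F 0 q * (Pt A t q).toReal)) := i0.const_mul 2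
  have j01 : Integrable (fun q => 2 * (F 0 q * (Pt A t q).toReal) - F 1 q * (Pt A t q).toReal) :=
    j0.sub i1
  rw [h5, integral_sub j01 i2, integral_sub j0 i1, integral_const_mul, e0, e1, e2, mul_zero,
    mul_one, mul_neg, mul_one, Q_symm]
  ring


lemma gap_pt {x y a b : ℝ} (hx : x ≤ a) (hy : b ≤ y) (hab : a ≤ b) :
    2 * (x * y) + (b - a) ^ 2 ≤ x * x + y * y := by
  nlinarith

lemma gap_enn {x y : ℝ≥0∞} {a b : ℝ} (ha : 0 ≤ a) (hab : a ≤ b) (hx : x ≤ ENNReal.ofReal a)
    (hy : ENNReal.ofReal b ≤ y) :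
    2 * (x * y) + ENNReal.ofReal ((b - a) ^ 2) ≤ x * x + y * y := by
  by_cases hyt : y = ∞
  · subst hyt
    simp
  have hxt : x ≠ ∞ := ne_top_of_le_ne_top ENNReal.ofReal_ne_top hx
  have hx' : x.toReal ≤ a := ENNReal.toReal_le_of_le_ofReal ha hx
  have hy' : b ≤ y.toReal := (ENNReal.ofReal_le_iff_le_toReal hyt).1 hy
  have h := gap_pt hx' hy' hab
  rw [← ENNReal.ofReal_toReal hxt, ← ENNReal.ofReal_toReal hyt,
    ← ENNReal.ofReal_mul ENNReal.toReal_nonneg, ← ENNReal.ofReal_mul ENNReal.toReal_nonneg,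
    ← ENNReal.ofReal_mul ENNReal.toReal_nonneg]
  have h2 : (2 : ℝ≥0∞) = ENNReal.ofReal 2 := by simp
  rw [h2, ← ENNReal.ofReal_mul (by norm_num), ← ENNReal.ofReal_add (by positivity) (by positivity),
    ← ENNReal.ofReal_add (by positivity) (by positivity)]
  exact ENNReal.ofReal_le_ofReal h

/-- superlevel set of `f A m` -/
def S (A : Set P) (b : ℝ) (m : ℝ) : Set ℝ := {c | ENNReal.ofReal b ≤ f A m c}

noncomputable def phi (A : Set P) (b : ℝ) (m t : ℝ) : ℝ≥0∞ :=
  volume (symmDiff (S A b m) ((fun c => c + t) ⁻¹' (S A b m)))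

lemma meas_S {A : Set P} (hA : MeasurableSet A) (b m : ℝ) : MeasurableSet (S A b m) :=
  measurableSet_le measurable_const (meas_f' hA (by fun_prop) (by fun_prop))

lemma q_gap {A : Set P} (hA : MeasurableSet A) {a b m t : ℝ} (ha : 0 ≤ a) (hab : a ≤ b)
    (hgap : ∀ᵐ c, ¬ (ENNReal.ofReal a < f A m c ∧ f A m c < ENNReal.ofReal b)) :
    2 * (∫⁻ c, f A m c * f A m (c + t)) + ENNReal.ofReal ((b - a) ^ 2) * phi A b m t ≤
      2 * ∫⁻ c, f A m c * f A m (c + 0) := by
  have hfm : Measurable (fun c => f A m c) := meas_f' hA (by fun_prop) (by fun_prop)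
  have hfm' : Measurable (fun c => f A m (c + t)) := meas_f' hA (by fun_prop) (by fun_prop)
  have hgap' : ∀ᵐ c, ¬ (ENNReal.ofReal a < f A m (c + t) ∧ f A m (c + t) < ENNReal.ofReal b) :=
    (measurePreserving_add_right volume t).quasiMeasurePreserving.ae hgap
  have hS := meas_S hA b m
  have hSt : MeasurableSet ((fun c => c + t) ⁻¹' (S A b m)) := hS.preimage (by fun_prop)
  have hsd := hS.symmDiff hSt
  have hphi : phi A b m t = ∫⁻ c, (symmDiff (S A b m) ((fun c => c + t) ⁻¹' (S A b m))).indicator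
      1 c := (lintegral_indicator_one hsd).symm
  have hmm : Measurable (fun c => 2 * (f A m c * f A m (c + t))) := (hfm.mul hfm').const_mul 2
  rw [hphi, ← lintegral_const_mul' _ _ (by simp), ← lintegral_const_mul' _ _ (by simp),
    ← lintegral_add_left hmm]
  calc ∫⁻ c, (2 * (f A m c * f A m (c + t)) + ENNReal.ofReal ((b - a) ^ 2) *
        (symmDiff (S A b m) ((fun c => c + t) ⁻¹' (S A b m))).indicator 1 c)
      ≤ ∫⁻ c, (f A m c * f A m c + f A m (c + t) * f A m (c + t)) := by
        apply lintegral_mono_ae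
        filter_upwards [hgap, hgap'] with c h1 h2
        by_cases hc : c ∈ symmDiff (S A b m) ((fun c => c + t) ⁻¹' (S A b m))
        · rw [indicator_of_mem hc]
          simp only [Pi.one_apply, mul_one]
          rcases hc with ⟨h3, h4⟩ | ⟨h3, h4⟩
          · have h5 : f A m (c + t) < ENNReal.ofReal b := not_le.1 h4
            have h6 : f A m (c + t) ≤ ENNReal.ofReal a := by
              by_contra h7
              exact h2 ⟨not_le.1 h7, h5⟩
            have h8 := gap_enn ha hab h6 (h3 : ENNReal.ofReal b ≤ f A m c)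
            rw [mul_comm (f A m c) (f A m (c + t)), add_comm (f A m c * f A m c)]
            exact h8
          · have h5 : f A m c < ENNReal.ofReal b := not_le.1 h4
            have h6 : f A m c ≤ ENNReal.ofReal a := by
              by_contra h7
              exact h1 ⟨not_le.1 h7, h5⟩
            exact gap_enn ha hab h6 (h3 : ENNReal.ofReal b ≤ f A m (c + t))
        · rw [indicator_of_notMem hc, mul_zero, add_zero]
          exact two_mul_le _ _
    _ = (∫⁻ c, f A m c * f A m c) + ∫⁻ c, f A m (c + t) * f A m (c + t) :=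
        lintegral_add_left (hfm.mul hfm) _
    _ = (∫⁻ c, f A m c * f A m c) + ∫⁻ c, f A m c * f A m c := by
        rw [lintegral_add_right_eq_self (fun c => f A m c * f A m c) t]
    _ = 2 * ∫⁻ c, f A m c * f A m (c + 0) := by simp only [add_zero]; rw [two_mul]
    _ = _ := by rw [← lintegral_const_mul' _ _ (by simp)]

lemma phi_sub {A : Set P} (b m t : ℝ) (n : ℕ) :
    phi A b m (n * t) ≤ n * phi A b m t := by
  induction n with
  | zero => simp [phi]
  | succ n ih =>
    have h1 : phi A b m ((n + 1 : ℕ) * t) ≤ phi A b m (n * t) + phi A b m t := by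
      unfold phi
      refine (measure_symmDiff_le _ ((fun c => c + n * t) ⁻¹' (S A b m)) _).trans ?_
      refine add_le_add le_rfl (le_of_eq ?_)
      have h2 : symmDiff ((fun c => c + n * t) ⁻¹' (S A b m))
          ((fun c => c + ((n + 1 : ℕ) : ℝ) * t) ⁻¹' (S A b m)) =
          (fun c => c + n * t) ⁻¹' (symmDiff (S A b m) ((fun c => c + t) ⁻¹' (S A b m))) := by
        rw [preimage_symmDiff]
        congr 1
        ext c
        simp only [mem_preimage]
        rw [show c + ((n + 1 : ℕ) : ℝ) * t = c + n * t + t by push_cast; ring]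
      rw [h2, measure_preimage_add_right]
    refine h1.trans ?_
    push_cast
    rw [add_mul, one_mul]
    gcongr


lemma meas_phi {A : Set P} (hA : MeasurableSet A) {b : ℝ → ℝ} (hb : Measurable b) (t : ℝ) :
    Measurable (fun m => phi A (b m) m t) := by
  have h1 : MeasurableSet {q : ℝ × ℝ | ENNReal.ofReal (b q.1) ≤ f A q.1 q.2} :=
    measurableSet_le (by fun_prop) (meas_f hA)
  have h2 : MeasurableSet {q : ℝ × ℝ | ENNReal.ofReal (b q.1) ≤ f A q.1 (q.2 + t)} :=
    measurableSet_le (by fun_prop) (meas_f' hA (by fun_prop) (by fun_prop))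
  exact measurable_measure_prodMk_left (ν := (volume : Measure ℝ)) (h1.symmDiff h2)

/-- the weighted integral of `phi` -/
noncomputable def Phi (A : Set P) (b : ℝ → ℝ) (d t : ℝ) : ℝ≥0∞ :=
  ∫⁻ m, ENNReal.ofReal (W m) * (ENNReal.ofReal (d ^ 2 * W m) * phi A (b m) m t)

lemma Phi_le {A : Set P} (hA : MeasurableSet A) {a b t : ℝ} (ha : 0 ≤ a) (hab : a ≤ b)
    (hgap : ∀ᵐ m : ℝ, ∀ᵐ c : ℝ, ¬ (ENNReal.ofReal (a * √(W m)) < f A m c ∧
      f A m c < ENNReal.ofReal (b * √(W m)))) :
    2 * Q A t + Phi A (fun m => b * √(W m)) (b - a) t ≤ 2 * Q A 0 := by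
  unfold Q Phi
  have hmeas : Measurable (fun m => ENNReal.ofReal (W m) * ∫⁻ c, f A m c * f A m (c + t)) := by
    have h1 : Measurable (fun m => ∫⁻ c, f A m c * f A m (c + t)) :=
      Measurable.lintegral_prod_right' (f := fun z : ℝ × ℝ => f A z.1 z.2 * f A z.1 (z.2 + t))
        ((meas_f hA).mul (meas_f' hA (by fun_prop) (by fun_prop)))
    exact (by fun_prop : Measurable fun m => ENNReal.ofReal (W m)).mul h1
  have hmeas2 : Measurable (fun m => 2 * (ENNReal.ofReal (W m) *
      ∫⁻ c, f A m c * f A m (c + t))) := hmeas.const_mul 2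
  rw [← lintegral_const_mul' _ _ (by simp), ← lintegral_const_mul' _ _ (by simp),
    ← lintegral_add_left hmeas2]
  apply lintegral_mono_ae
  filter_upwards [hgap] with m hm
  have h := q_gap hA (a := a * √(W m)) (b := b * √(W m)) (m := m) (t := t) (by positivity)
    (by gcongr) hm
  have hsq : (b * √(W m) - a * √(W m)) ^ 2 = (b - a) ^ 2 * W m := by
    rw [← sub_mul, mul_pow, Real.sq_sqrt (W_pos m).le]
  rw [hsq] at h
  calc 2 * (ENNReal.ofReal (W m) * ∫⁻ c, f A m c * f A m (c + t)) +
        ENNReal.ofReal (W m) * (ENNReal.ofReal ((b - a) ^ 2 * W m) * phi A (b * √(W m)) m t)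
      = ENNReal.ofReal (W m) * (2 * (∫⁻ c, f A m c * f A m (c + t)) +
        ENNReal.ofReal ((b - a) ^ 2 * W m) * phi A (b * √(W m)) m t) := by ring
    _ ≤ ENNReal.ofReal (W m) * (2 * ∫⁻ c, f A m c * f A m (c + 0)) := by gcongr
    _ = 2 * (ENNReal.ofReal (W m) * ∫⁻ c, f A m c * f A m (c + 0)) := by ring

lemma Phi_sub {A : Set P} {b : ℝ → ℝ} (d t : ℝ)
    (n : ℕ) : Phi A b d (n * t) ≤ n * Phi A b d t := by
  unfold Phi
  rw [← lintegral_const_mul' _ _ (by simp)]
  apply lintegral_mono
  intro m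
  simp only
  calc ENNReal.ofReal (W m) * (ENNReal.ofReal (d ^ 2 * W m) * phi A (b m) m (n * t))
      ≤ ENNReal.ofReal (W m) * (ENNReal.ofReal (d ^ 2 * W m) * (n * phi A (b m) m t)) := by
        gcongr
        exact phi_sub _ _ _ _
    _ = _ := by ring

lemma Phi_zero {A : Set P} (hA : MeasurableSet A) (hfin : volume A < ∞) {a b : ℝ} (ha : 0 ≤ a)
    (hab : a ≤ b)
    (hgap : ∀ᵐ m : ℝ, ∀ᵐ c : ℝ, ¬ (ENNReal.ofReal (a * √(W m)) < f A m c ∧
      f A m c < ENNReal.ofReal (b * √(W m)))) :
    Phi A (fun m => b * √(W m)) (b - a) 1 = 0 := by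
  have h1 : ∀ n : ℕ, 0 < n → (Phi A (fun m => b * √(W m)) (b - a) 1) ≤
      ENNReal.ofReal ((2 * (Q A 0).toReal - 2 * (Q A (1 / n)).toReal) / (1 / n)) := by
    intro n hn
    have hn' : (0 : ℝ) < n := by exact_mod_cast hn
    have h2 := Phi_sub (A := A) (b := fun m => b * √(W m)) (b - a) (1 / n) n
    rw [mul_one_div_cancel hn'.ne'] at h2
    have h3 := Phi_le hA (t := 1 / n) ha hab hgap
    have hQ0 : Q A 0 < ∞ := Q_zero_lt hA hfin
    have hQ : Q A (1 / n) < ∞ := (Q_le hA _).trans_lt hQ0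
    have hPhi : Phi A (fun m => b * √(W m)) (b - a) (1 / n) < ∞ := by
      refine (le_add_self.trans h3).trans_lt (ENNReal.mul_lt_top (by simp) hQ0)
    have h4 := ENNReal.toReal_mono (ENNReal.mul_lt_top (by simp) hQ0).ne h3
    rw [ENNReal.toReal_add (ENNReal.mul_lt_top (by simp) hQ).ne hPhi.ne, ENNReal.toReal_mul,
      ENNReal.toReal_mul] at h4
    simp only [ENNReal.toReal_ofNat] at h4
    refine h2.trans ?_
    rw [← ENNReal.ofReal_toReal hPhi.ne]
    have h5 : (n : ℝ≥0∞) = ENNReal.ofReal n := by simp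
    rw [h5, ← ENNReal.ofReal_mul hn'.le]
    apply ENNReal.ofReal_le_ofReal
    rw [div_div_eq_mul_div, div_one, mul_comm]
    gcongr
    linarith
  have h2 : Tendsto (fun n : ℕ => ENNReal.ofReal ((2 * (Q A 0).toReal -
      2 * (Q A (1 / n)).toReal) / (1 / n))) atTop (𝓝 (ENNReal.ofReal 0)) := by
    apply ENNReal.tendsto_ofReal
    have h3 : Tendsto (fun n : ℕ => (1 / (n : ℝ))) atTop (𝓝[>] 0) := by
      apply tendsto_nhdsWithin_iff.2
      refine ⟨tendsto_one_div_atTop_nhds_zero_nat, ?_⟩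
      filter_upwards [eventually_gt_atTop 0] with n hn
      have : (0 : ℝ) < n := by exact_mod_cast hn
      exact (by positivity : (0 : ℝ) < 1 / n)
    exact (lim hA hfin).comp h3
  have h3 := ge_of_tendsto h2 (by
    filter_upwards [eventually_gt_atTop 0] with n hn
    exact h1 n hn)
  simpa using h3

/-- a set of finite measure which is invariant under a translation is null -/
lemma null_of_inv {S : Set ℝ} (hS : MeasurableSet S) (hfin : volume S < ∞)
    (hinv : volume (symmDiff S ((fun c => c + 1) ⁻¹' S)) = 0) : volume S = 0 := by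
  have hae : S =ᵐ[volume] ((fun c => c + 1) ⁻¹' S) := measure_symmDiff_eq_zero_iff.1 hinv
  set v : ℤ → ℝ≥0∞ := fun k => volume (S ∩ Ico (k : ℝ) (k + 1)) with hv
  have hstep : ∀ k : ℤ, v k = v (k + 1) := by
    intro k
    have h1 : v k = volume (((fun c => c + 1) ⁻¹' S) ∩ Ico (k : ℝ) (k + 1)) :=
      measure_congr (hae.inter (ae_eq_refl _))
    have h2 : ((fun c : ℝ => c + 1) ⁻¹' S) ∩ Ico (k : ℝ) (k + 1) =
        (fun c => c + 1) ⁻¹' (S ∩ Ico ((k + 1 : ℤ) : ℝ) ((k + 1 : ℤ) + 1)) := by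
      ext c
      simp only [mem_inter_iff, mem_preimage, mem_Ico]
      push_cast
      constructor
      · rintro ⟨h1, h2, h3⟩
        exact ⟨h1, by linarith, by linarith⟩
      · rintro ⟨h1, h2, h3⟩
        exact ⟨h1, by linarith, by linarith⟩
    rw [h1, h2, measure_preimage_add_right]
  have hall : ∀ k : ℤ, v k = v 0 := by
    intro k
    induction k using Int.induction_on with
    | zero => rfl
    | succ k ih => rw [← hstep, ih]
    | pred k ih => rw [hstep, sub_add_cancel, ih]
  have hcov : S = ⋃ k : ℤ, S ∩ Ico (k : ℝ) (k + 1) := by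
    rw [← inter_iUnion, iUnion_Ico_intCast, inter_univ]
  have hsum : volume S = ∑' k : ℤ, v k := by
    conv_lhs => rw [hcov]
    rw [measure_iUnion]
    · intro i j hij
      exact (pairwise_disjoint_Ico_intCast ℝ hij).mono inter_subset_right inter_subset_right
    · intro k
      exact hS.inter measurableSet_Ico
  simp only [hall] at hsum
  by_cases h0 : v 0 = 0
  · rw [hsum, h0]; simp
  · rw [ENNReal.tsum_const_eq_top_of_ne_zero h0] at hsum
    exact absurd hsum hfin.ne


lemma lint_f {A : Set P} (hA : MeasurableSet A) (m : ℝ) : ∫⁻ c, f A m c = volume A := by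
  have hχ := meas_chi hA
  unfold f
  rw [lintegral_lintegral_swap]
  · calc ∫⁻ x, ∫⁻ c, chi A (x, m * x + c) = ∫⁻ x, ∫⁻ c, chi A (x, c) := by
          congr 1; ext x
          rw [lintegral_add_left_eq_self (fun c => chi A (x, c)) (m * x)]
      _ = ∫⁻ z : P, chi A z := by
          rw [Measure.volume_eq_prod, lintegral_prod _ hχ.aemeasurable]
      _ = volume A := lintegral_indicator_one hA
  · exact (hχ.comp (by fun_prop)).aemeasurable

lemma f_mono {A B : Set P} (h : A ⊆ B) (m c : ℝ) : f A m c ≤ f B m c :=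
  lintegral_mono fun _ => indicator_le_indicator_of_subset h (fun _ => zero_le) _

lemma ae_small {A : Set P} (hA : MeasurableSet A) (hfin : volume A < ∞) {a b : ℝ} (ha : 0 ≤ a)
    (hab : a < b)
    (hgap : ∀ᵐ m : ℝ, ∀ᵐ c : ℝ, ¬ (ENNReal.ofReal (a * √(W m)) < f A m c ∧
      f A m c < ENNReal.ofReal (b * √(W m)))) :
    ∀ᵐ m : ℝ, ∀ᵐ c : ℝ, f A m c ≤ ENNReal.ofReal (a * √(W m)) := by
  have hb : Measurable (fun m => b * √(W m)) := by fun_prop
  have h0 := Phi_zero hA hfin ha hab.le hgap
  unfold Phi at h0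
  rw [lintegral_eq_zero_iff (by
    exact (by fun_prop : Measurable fun m => ENNReal.ofReal (W m)).mul
      ((by fun_prop : Measurable fun m => ENNReal.ofReal ((b - a) ^ 2 * W m)).mul
        (meas_phi hA hb 1)))] at h0
  filter_upwards [h0, hgap] with m hm hg
  have hW := W_pos m
  have hba : 0 < b - a := by linarith
  have hb0 : 0 < b := by linarith
  have hphi : phi A (b * √(W m)) m 1 = 0 := by
    simp only [Pi.zero_apply, mul_eq_zero, ENNReal.ofReal_eq_zero] at hm
    rcases hm with h | h | h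
    · exact absurd h (not_le.2 hW)
    · exact absurd h (not_le.2 (by positivity))
    · exact h
  have hS := meas_S hA (b * √(W m)) m
  have hSfin : volume (S A (b * √(W m)) m) < ∞ := by
    have h1 := mul_meas_ge_le_lintegral (μ := (volume : Measure ℝ))
      (meas_f' hA (measurable_const (a := m)) measurable_id) (ENNReal.ofReal (b * √(W m)))
    simp only [id] at h1
    rw [lint_f hA] at h1
    by_contra hcon
    push Not at hcon
    have h2 : volume {c | ENNReal.ofReal (b * √(W m)) ≤ f A m c} = ∞ := top_le_iff.1 hcon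
    rw [h2, ENNReal.mul_top (ENNReal.ofReal_pos.2 (by positivity)).ne'] at h1
    exact absurd (h1.trans_lt hfin) (lt_irrefl _)
  have hnull := null_of_inv hS hSfin hphi
  filter_upwards [hg, compl_mem_ae_iff.2 hnull] with c h1 h2
  by_contra h3
  exact h1 ⟨not_le.1 h3, not_le.1 h2⟩

theorem dense {A : Set P} (hA : MeasurableSet A) (h0 : 0 < volume A) (hfin : volume A < ∞) :
    ∃ δ : ℝ, 0 < δ ∧ ∀ a b : ℝ, 0 ≤ a → a < b → b ≤ δ →
      ¬ ∀ᵐ m : ℝ, ∀ᵐ c : ℝ, ¬ (ENNReal.ofReal (a * √(W m)) < f A m c ∧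
        f A m c < ENNReal.ofReal (b * √(W m))) := by
  obtain ⟨N, hN⟩ : ∃ N : ℕ, 0 < volume (A ∩ (Icc (-(N : ℝ)) N ×ˢ Icc (-(N : ℝ)) N)) := by
    by_contra hcon
    push Not at hcon
    have hsub : A ⊆ ⋃ N : ℕ, A ∩ (Icc (-(N : ℝ)) N ×ˢ Icc (-(N : ℝ)) N) := by
      intro x hx
      obtain ⟨N, hN⟩ := exists_nat_ge (max |x.1| |x.2|)
      have h1 := abs_le.1 ((le_max_left _ _).trans hN)
      have h2 := abs_le.1 ((le_max_right _ _).trans hN)
      exact mem_iUnion.2 ⟨N, hx, ⟨h1.1, h1.2⟩, ⟨h2.1, h2.2⟩⟩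
    exact h0.ne' (measure_mono_null hsub (measure_iUnion_null fun N => le_antisymm (hcon N)
      zero_le))
  set B : Set P := A ∩ (Icc (-(N : ℝ)) N ×ˢ Icc (-(N : ℝ)) N) with hB
  have hBm : MeasurableSet B := hA.inter (measurableSet_Icc.prod measurableSet_Icc)
  have hBfin : volume B < ∞ := (measure_mono inter_subset_left).trans_lt hfin
  have hv : 0 < (volume B).toReal := ENNReal.toReal_pos hN.ne' hBfin.ne
  refine ⟨(volume B).toReal / (4 * N + 1), by positivity, fun a b ha hab hb hgap => ?_⟩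
  have h1 := ae_small hA hfin ha hab hgap
  have h2 : ∃ m : ℝ, m ∈ Ioo (0 : ℝ) 1 ∧ ∀ᵐ c : ℝ, f A m c ≤ ENNReal.ofReal (a * √(W m)) := by
    have h3 : ∃ᵐ m : ℝ, m ∈ Ioo (0 : ℝ) 1 := by
      rw [frequently_ae_iff]
      have : volume {a : ℝ | a ∈ Ioo (0 : ℝ) 1} = 1 := by
        rw [show {a : ℝ | a ∈ Ioo (0 : ℝ) 1} = Ioo 0 1 from rfl]
        simp
      rw [this]
      exact one_ne_zero
    obtain ⟨m, hm1, hm2⟩ := (h3.and_eventually h1).exists
    exact ⟨m, hm1, hm2⟩
  obtain ⟨m, hm, hc⟩ := h2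
  have h4 : ∀ᵐ c : ℝ, f B m c ≤
      (Icc (-(2 * N : ℝ)) (2 * N)).indicator (fun _ => ENNReal.ofReal a) c := by
    filter_upwards [hc] with c hc
    by_cases h : c ∈ Icc (-(2 * N : ℝ)) (2 * N)
    · rw [indicator_of_mem h]
      refine (f_mono inter_subset_left m c).trans (hc.trans (ENNReal.ofReal_le_ofReal ?_))
      have h5 : √(W m) ≤ 1 := by
        rw [Real.sqrt_le_one]
        unfold W
        apply inv_le_one_of_one_le₀
        nlinarith [sq_nonneg m]
      calc a * √(W m) ≤ a * 1 := by gcongr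
        _ = a := mul_one a
    · rw [indicator_of_notMem h]
      have h6 : ∀ x : ℝ, chi B (x, m * x + c) = 0 := by
        intro x
        unfold chi
        apply indicator_of_notMem
        rintro ⟨-, ⟨h7, h8⟩, ⟨h9, h10⟩⟩
        simp only at h7 h8 h9 h10
        apply h
        have hN0 : (0 : ℝ) ≤ N := Nat.cast_nonneg N
        constructor
        · nlinarith [hm.1, hm.2]
        · nlinarith [hm.1, hm.2]
      unfold f
      simp [h6]
  have h5 := lintegral_mono_ae h4
  rw [lint_f hBm, lintegral_indicator measurableSet_Icc, lintegral_const,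
    Measure.restrict_apply_univ, Real.volume_Icc, ← ENNReal.ofReal_mul ha] at h5
  have hN0 : (0 : ℝ) ≤ N := Nat.cast_nonneg N
  have h6 := ENNReal.toReal_le_of_le_ofReal (mul_nonneg ha (by linarith)) h5
  have h7 : a < (volume B).toReal / (4 * N + 1) := lt_of_lt_of_le hab hb
  rw [lt_div_iff₀ (by positivity)] at h7
  nlinarith


abbrev E2 := EuclideanSpace ℝ (Fin 2)

/-- the line `y = m x + c` -/
def gline (m c : ℝ) : Set E2 := {x | x 1 = m * x 0 + c}

def toP (E : Set E2) : Set P := {q | (!₂[q.1, q.2] : E2) ∈ E}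

lemma mp : MeasurePreserving (fun q : ℝ × ℝ => (!₂[q.1, q.2] : E2)) volume volume :=
  (PiLp.volume_preserving_toLp (Fin 2)).comp (MeasureTheory.volume_preserving_finTwoArrow ℝ).symm

lemma muH_gline {E : Set E2} (hE : MeasurableSet E) (m c : ℝ) :
    μH[1] (gline m c ∩ E) = ENNReal.ofReal √(1 + m ^ 2) * f (toP E) m c := by
  set k : ℝ := √(1 + m ^ 2) with hk
  have hk0 : 0 < k := Real.sqrt_pos.2 (by positivity)
  have hksq : k ^ 2 = 1 + m ^ 2 := Real.sq_sqrt (by positivity)
  have hiso : Isometry (fun τ : ℝ => (!₂[k⁻¹ * τ, m * (k⁻¹ * τ) + c] : E2)) := by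
    apply Isometry.of_dist_eq
    intro a b
    rw [EuclideanSpace.dist_eq, Real.dist_eq, ← Real.sqrt_sq_eq_abs]
    congr 1
    simp only [Fin.sum_univ_two, Real.dist_eq, sq_abs]
    simp
    field_simp
    rw [hksq]
    ring
  have himg : gline m c ∩ E = (fun τ : ℝ => (!₂[k⁻¹ * τ, m * (k⁻¹ * τ) + c] : E2)) ''
      ((k⁻¹ * ·) ⁻¹' {x | (x, m * x + c) ∈ toP E}) := by
    ext x
    constructor
    · rintro ⟨h1, h2⟩
      have h3 : (!₂[k⁻¹ * (k * x 0), m * (k⁻¹ * (k * x 0)) + c] : E2) = x := by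
        rw [← mul_assoc, inv_mul_cancel₀ hk0.ne', one_mul]
        ext i
        fin_cases i
        · simp
        · simpa using (h1 : x 1 = m * x 0 + c).symm
      refine ⟨k * x 0, ?_, h3⟩
      show (!₂[k⁻¹ * (k * x 0), m * (k⁻¹ * (k * x 0)) + c] : E2) ∈ E
      rw [h3]
      exact h2
    · rintro ⟨τ, h1, rfl⟩
      refine ⟨?_, h1⟩
      simp [gline]
  have hP : MeasurableSet (toP E) := hE.preimage mp.measurable
  rw [himg, hiso.hausdorffMeasure_image (Or.inl zero_le_one), hausdorffMeasure_real,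
    Real.volume_preimage_mul_left (inv_pos.2 hk0).ne', inv_inv, abs_of_pos hk0]
  congr 1
  have hm : MeasurableSet {x : ℝ | (x, m * x + c) ∈ toP E} := hP.preimage (by fun_prop)
  rw [← lintegral_indicator_one hm]
  rfl

theorem main_borel {E : Set E2} (hE : MeasurableSet E) (h0 : 0 < volume E) (hfin : volume E < ∞) :
    ∃ δ : ℝ, 0 < δ ∧ ∀ a b : ℝ, 0 ≤ a → a < b → b ≤ δ →
      0 < volume {q : ℝ × ℝ | ENNReal.ofReal a < μH[1] (gline q.1 q.2 ∩ E) ∧
        μH[1] (gline q.1 q.2 ∩ E) < ENNReal.ofReal b} := by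
  have hP : MeasurableSet (toP E) := hE.preimage mp.measurable
  have hvol : volume (toP E) = volume E := mp.measure_preimage hE.nullMeasurableSet
  obtain ⟨δ, hδ, h⟩ := dense hP (by rw [hvol]; exact h0) (by rw [hvol]; exact hfin)
  refine ⟨δ, hδ, fun a b ha hab hb => ?_⟩
  have h1 := h a b ha hab hb
  rw [pos_iff_ne_zero]
  intro hcon
  apply h1
  have h2 : ∀ᵐ q : ℝ × ℝ, ¬ (ENNReal.ofReal a < μH[1] (gline q.1 q.2 ∩ E) ∧
        μH[1] (gline q.1 q.2 ∩ E) < ENNReal.ofReal b) := by
    rw [ae_iff]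
    simpa only [not_not] using hcon
  rw [Measure.volume_eq_prod] at h2
  have h3 := Measure.ae_ae_of_ae_prod h2
  filter_upwards [h3] with m hm
  filter_upwards [hm] with c hc
  simp only at hc
  rw [muH_gline hE] at hc
  have hk0 : 0 < √(1 + m ^ 2) := Real.sqrt_pos.2 (by positivity)
  have hkW : ∀ x : ℝ, ENNReal.ofReal x = ENNReal.ofReal √(1 + m ^ 2) *
      ENNReal.ofReal (x * √(W m)) := by
    intro x
    rw [← ENNReal.ofReal_mul hk0.le]
    congr 1
    unfold W
    rw [Real.sqrt_inv]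
    field_simp
  rw [hkW a, hkW b, ENNReal.mul_lt_mul_iff_right (ENNReal.ofReal_pos.2 hk0).ne'
    ENNReal.ofReal_ne_top, ENNReal.mul_lt_mul_iff_right (ENNReal.ofReal_pos.2 hk0).ne'
    ENNReal.ofReal_ne_top] at hc
  exact hc


theorem main {E : Set E2} (hE : NullMeasurableSet E volume) (h0 : 0 < volume E)
    (hfin : volume E < ∞) :
    ∃ δ : ℝ, 0 < δ ∧ ∀ a b : ℝ, 0 ≤ a → a < b → b ≤ δ →
      0 < volume {q : ℝ × ℝ | ENNReal.ofReal a < μH[1] (gline q.1 q.2 ∩ E) ∧
        μH[1] (gline q.1 q.2 ∩ E) < ENNReal.ofReal b} := by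
  obtain ⟨E', hsub, hE', hae⟩ := hE.exists_measurable_subset_ae_eq
  have hvol : volume E' = volume E := measure_congr hae
  obtain ⟨δ, hδ, h⟩ := main_borel hE' (by rw [hvol]; exact h0) (by rw [hvol]; exact hfin)
  -- the difference is contained in a Borel null set
  have hnull : volume (E \ E') = 0 := (ae_le_set.1 hae.symm.le)
  set N : Set E2 := toMeasurable volume (E \ E') with hN
  have hNm : MeasurableSet N := measurableSet_toMeasurable _ _
  have hN0 : volume N = 0 := by rw [hN, measure_toMeasurable]; exact hnull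
  have hNP : MeasurableSet (toP N) := hNm.preimage mp.measurable
  have hNP0 : volume (toP N) = 0 := (mp.measure_preimage hNm.nullMeasurableSet).trans hN0
  have h1 : ∀ᵐ q : ℝ × ℝ, μH[1] (gline q.1 q.2 ∩ N) = 0 := by
    have hmeas : MeasurableSet {q : ℝ × ℝ | μH[1] (gline q.1 q.2 ∩ N) = 0} := by
      simp only [muH_gline hNm]
      exact measurableSet_eq_fun
        ((by fun_prop : Measurable fun q : ℝ × ℝ => ENNReal.ofReal √(1 + q.1 ^ 2)).mul
          (meas_f hNP)) measurable_const
    rw [Measure.volume_eq_prod, Measure.ae_prod_iff_ae_ae hmeas]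
    refine Eventually.of_forall fun m => ?_
    have h2 : ∫⁻ c, f (toP N) m c = 0 := (lint_f hNP m).trans hNP0
    have hm : Measurable (fun c => f (toP N) m c) := meas_f' hNP (by fun_prop) (by fun_prop)
    rw [lintegral_eq_zero_iff hm] at h2
    filter_upwards [h2] with c hc
    rw [muH_gline hNm]
    simp only [Pi.zero_apply] at hc
    rw [hc, mul_zero]
  have h2 : ∀ᵐ q : ℝ × ℝ, μH[1] (gline q.1 q.2 ∩ E) = μH[1] (gline q.1 q.2 ∩ E') := by
    filter_upwards [h1] with q hq
    apply le_antisymm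
    · have h3 : gline q.1 q.2 ∩ E ⊆ (gline q.1 q.2 ∩ E') ∪ (gline q.1 q.2 ∩ N) := by
        rintro x ⟨hx1, hx2⟩
        by_cases hx3 : x ∈ E'
        · exact Or.inl ⟨hx1, hx3⟩
        · exact Or.inr ⟨hx1, subset_toMeasurable _ _ ⟨hx2, hx3⟩⟩
      refine (measure_mono h3).trans ((measure_union_le _ _).trans ?_)
      rw [hq, add_zero]
    · exact measure_mono (inter_subset_inter_right _ hsub)
  refine ⟨δ, hδ, fun a b ha hab hb => ?_⟩
  refine (h a b ha hab hb).trans_le (le_of_eq (measure_congr ?_))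
  filter_upwards [h2] with q hq
  apply propext
  show (_ ∧ _) ↔ (_ ∧ _)
  rw [hq]

end Pool.Agent.Run7.h239.DL
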