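import Pool.Agent.Run7.h239.Cell2
set_option autoImplicit false

/-!
Area inequalities for polynomials, and the elementary integrals.
-/

namespace Run7.h239.PP

open MeasureTheory Set
open scoped ENNReal

/-- area inequality in one variable -/
theorem area1 (p : Polynomial ℝ) {D : ℕ} (hp : p.natDegree ≤ D) {s : Set ℝ} (hs : MeasurableSet s)
    {W : ℝ → ℝ≥0∞} (hW : Measurable W) :
    ∫⁻ x in s, W (p.eval x) * ENNReal.ofReal |p.derivative.eval x| ≤ D * ∫⁻ u, W u := by
  set φ' : ℝ → ℝ →L[ℝ] ℝ := fun x => p.derivative.eval x • ContinuousLinearMap.id ℝ ℝ with hφ'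
  have hdet : ∀ x, (φ' x).det = p.derivative.eval x := by
    intro x
    rw [hφ', ContinuousLinearMap.det]
    simp
  have hd : ∀ x, HasFDerivAt (fun x => p.eval x) (φ' x) x := by
    intro x
    have := (p.hasDerivAt x).hasFDerivAt
    refine this.congr_fderiv ?_
    ext
    simp [hφ']
  have hm : Measurable φ' := by
    have : Continuous φ' := by
      rw [hφ']
      exact (Polynomial.continuous _).smul continuous_const
    exact this.measurable
  have key := Pool.Agent.H803R2.Kak.lintegral_comp_det_le (volume : Measure ℝ) (s := s) (N := D)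
    (φ := fun x => p.eval x) (φ' := φ') hs (fun x _ => hd x) hm ?_ hW
  · simp only [hdet] at key
    exact key
  · refine Filter.Eventually.of_forall fun y => ?_
    simp only [hdet]
    by_cases hne : ∃ x, p.derivative.eval x ≠ 0
    · obtain ⟨x₀, hx₀⟩ := hne
      have hq : p - Polynomial.C y ≠ 0 := by
        intro h
        have : p.derivative = 0 := by
          have h2 : p = Polynomial.C y := sub_eq_zero.1 h
          rw [h2]; simp
        exact hx₀ (by rw [this]; simp)
      have hsub : {x | x ∈ s ∧ p.eval x = y ∧ p.derivative.eval x ≠ 0} ⊆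
          ((p - Polynomial.C y).roots.toFinset : Set ℝ) := by
        rintro x ⟨_, hx, _⟩
        simp only [Finset.mem_coe, Multiset.mem_toFinset]
        rw [Polynomial.mem_roots hq, Polynomial.IsRoot.def]
        simp [hx]
      refine (encard_le_encard hsub).trans ?_
      rw [encard_coe_eq_coe_finsetCard]
      have h1 : (p - Polynomial.C y).roots.toFinset.card ≤ D := by
        refine (Multiset.toFinset_card_le _).trans ((Polynomial.card_roots' _).trans ?_)
        refine le_trans ?_ hp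
        rw [Polynomial.natDegree_sub_C]
      exact_mod_cast h1
    · push Not at hne
      have : {x | x ∈ s ∧ p.eval x = y ∧ p.derivative.eval x ≠ 0} = ∅ := by
        ext x
        simp [hne x]
      rw [this]
      simp

/-- the point of `ℝ × ℝ` with the coordinates of a vector of the Euclidean plane -/
noncomputable def toP : EuclideanSpace ℝ (Fin 2) ≃ᵐ ℝ × ℝ :=
  (MeasurableEquiv.toLp 2 (Fin 2 → ℝ)).symm.trans MeasurableEquiv.finTwoArrow

theorem toP_apply (v : EuclideanSpace ℝ (Fin 2)) : toP v = (v 0, v 1) := rfl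

theorem toP_mp : MeasurePreserving toP := by
  have h1 := EuclideanSpace.volume_preserving_symm_measurableEquiv_toLp (Fin 2)
  have h2 := volume_preserving_finTwoArrow ℝ
  exact h2.comp h1

open MvPolynomial in
theorem ev_mem_Pol (p : MvPolynomial (Fin 2) ℝ) {k : ℕ} (hp : p.totalDegree ≤ k) :
    (fun v : EuclideanSpace ℝ (Fin 2) => ev p (v 0, v 1)) ∈ Pool.Agent.H803R2.Kak.Pol 2 k := by
  have h : (fun v : EuclideanSpace ℝ (Fin 2) => ev p (v 0, v 1)) = ∑ m ∈ p.support,
      MvPolynomial.coeff m p • ∏ i : Fin 2, (fun v : EuclideanSpace ℝ (Fin 2) => v i) ^ (m i) := by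
    ext v
    unfold ev
    rw [MvPolynomial.eval_eq']
    simp [Finset.sum_apply, Fin.prod_univ_two]
  rw [h]
  apply Submodule.sum_mem
  intro m hm
  apply Submodule.smul_mem
  rw [Fin.prod_univ_two]
  have h1 := Pool.Agent.H803R2.Kak.pow_mem_Pol
    (Pool.Agent.H803R2.Kak.coord_mem_Pol (d := 2) (0 : Fin 2) (le_refl 1)) (m 0)
  have h2 := Pool.Agent.H803R2.Kak.pow_mem_Pol
    (Pool.Agent.H803R2.Kak.coord_mem_Pol (d := 2) (1 : Fin 2) (le_refl 1)) (m 1)
  refine Pool.Agent.H803R2.Kak.Pol_mono ?_ (Pool.Agent.H803R2.Kak.mul_mem_Pol h1 h2)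
  have h3 : m 0 + m 1 = m.sum fun _ e => e := by
    rw [Finsupp.sum_fintype _ _ (fun _ => rfl), Fin.sum_univ_two]
  have h4 := MvPolynomial.le_totalDegree hm
  omega

/-- generic fibres of the gradient -/
theorem grad_fibre (P : MvPolynomial (Fin 2) ℝ) {D : ℕ} (hD : 1 ≤ D) (hP : P.totalDegree ≤ D) :
    ∀ᵐ y : ℝ × ℝ, {x | (g1 P x, g2 P x) = y}.encard ≤ ((((1 + 2 * D) ^ 2) ^ 2 : ℕ) : ℕ∞) := by
  set Q : EuclideanSpace ℝ (Fin 2) → EuclideanSpace ℝ (Fin 2) :=
    fun v => toP.symm (g1 P (toP v), g2 P (toP v)) with hQ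
  have h0 : ∀ v, toP (Q v) = (g1 P (toP v), g2 P (toP v)) := fun v => by simp [hQ]
  have h := Pool.Agent.H803R2.Kak.ae_fibre_le (d := 2) (by norm_num) D hD Q ?_
  · have hmp : MeasurePreserving toP.symm := toP_mp.symm toP
    have h2 := hmp.quasiMeasurePreserving.ae h
    filter_upwards [h2] with y hy
    have hinj : {x | (g1 P x, g2 P x) = y} ⊆ toP '' {v | Q v = toP.symm y} := by
      intro x hx
      refine ⟨toP.symm x, ?_, by simp⟩
      simp only [mem_ofPred_eq] at hx ⊢
      rw [hQ]
      simp only [MeasurableEquiv.apply_symm_apply]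
      rw [hx]
    exact (encard_le_encard hinj).trans ((encard_image_le _ _).trans hy)
  · intro j
    have h1 : ∀ v, Q v 0 = g1 P (v 0, v 1) := by
      intro v
      have := congrArg Prod.fst (h0 v)
      exact this
    have h2 : ∀ v, Q v 1 = g2 P (v 0, v 1) := by
      intro v
      have := congrArg Prod.snd (h0 v)
      exact this
    obtain rfl | rfl : j = 0 ∨ j = 1 := by fin_cases j <;> simp
    · simp only [h1]
      exact ev_mem_Pol _ ((totalDegree_pderiv_le P 0).trans hP)
    · simp only [h2]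
      exact ev_mem_Pol _ ((totalDegree_pderiv_le P 1).trans hP)

/-- the determinant of a Hessian -/
noncomputable def dt (H : Fin 3 → ℝ × ℝ → ℝ) (x : ℝ × ℝ) : ℝ := H 0 x * H 2 x - H 1 x ^ 2

theorem dt_cont {H : Fin 3 → ℝ × ℝ → ℝ} (hH : ∀ a, Continuous (H a)) : Continuous (dt H) := by
  unfold dt
  have := hH 0
  have := hH 1
  have := hH 2
  fun_prop

/-- area inequality for the gradient -/
theorem area2 (P : MvPolynomial (Fin 2) ℝ) {D : ℕ} (hD : 1 ≤ D) (hP : P.totalDegree ≤ D)
    {s : Set (ℝ × ℝ)} (hs : MeasurableSet s) {W : ℝ × ℝ → ℝ≥0∞} (hW : Measurable W) :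
    ∫⁻ x in s, W (g1 P x, g2 P x) * ENNReal.ofReal |dt (hes P) x| ≤
      ((((1 + 2 * D) ^ 2) ^ 2 : ℕ) : ℝ≥0∞) * ∫⁻ u, W u := by
  set φ' : ℝ × ℝ → (ℝ × ℝ) →L[ℝ] (ℝ × ℝ) := fun x =>
    hes P 0 x • (ContinuousLinearMap.fst ℝ ℝ ℝ).prod (0 : ℝ × ℝ →L[ℝ] ℝ) +
    hes P 1 x • (ContinuousLinearMap.snd ℝ ℝ ℝ).prod (ContinuousLinearMap.fst ℝ ℝ ℝ) +
    hes P 2 x • (0 : ℝ × ℝ →L[ℝ] ℝ).prod (ContinuousLinearMap.snd ℝ ℝ ℝ)
    with hφ'
  have hdet : ∀ x, (φ' x).det = dt (hes P) x := by
    intro x
    rw [ContinuousLinearMap.det, ← LinearMap.det_toMatrix (Module.Basis.finTwoProd ℝ),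
      Matrix.det_fin_two]
    simp [LinearMap.toMatrix_apply, hφ', dt, pow_two]
  have hd : ∀ x, HasFDerivAt (fun x => (g1 P x, g2 P x)) (φ' x) x := by
    intro x
    have a1 := ev_fderiv (MvPolynomial.pderiv 0 P) x
    have a2 := ev_fderiv (MvPolynomial.pderiv 1 P) x
    rw [pderiv_comm' P 0 1] at a2
    refine (a1.prodMk a2).congr_fderiv ?_
    ext <;> simp [hφ', hes]
  have hm : Measurable φ' := by
    have : Continuous φ' := by
      have c0 := hes_cont P 0
      have c1 := hes_cont P 1
      have c2 := hes_cont P 2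
      rw [hφ']
      exact ((c0.smul continuous_const).add (c1.smul continuous_const)).add
        (c2.smul continuous_const)
    exact this.measurable
  have key := Pool.Agent.H803R2.Kak.lintegral_comp_det_le (volume : Measure (ℝ × ℝ)) (s := s)
    (N := ((1 + 2 * D) ^ 2) ^ 2)
    (φ := fun x => (g1 P x, g2 P x)) (φ' := φ') hs (fun x _ => hd x) hm ?_ hW
  · simp only [hdet] at key
    exact key
  · filter_upwards [grad_fibre P hD hP] with y hy
    refine le_trans (encard_le_encard ?_) hy
    rintro x ⟨_, hx, _⟩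
    exact hx

/-- the elementary integral -/
theorem lintW (a M : ℝ) (ha : 0 < a) (hM : 0 ≤ M) :
    ∫⁻ u in Icc (-M) M, ENNReal.ofReal (1 / (1 + |u| / a)) ≤
      ENNReal.ofReal (2 * a * Real.log (1 + M / a)) := by
  have hpos : ∀ u : ℝ, 0 < 1 + |u| / a := fun u => by positivity
  have hc : Continuous fun u : ℝ => 1 / (1 + |u| / a) :=
    continuous_const.div (by fun_prop) fun u => (hpos u).ne'
  have h1 : ∫⁻ u in Icc 0 M, ENNReal.ofReal (1 / (1 + |u| / a)) ≤
      ENNReal.ofReal (a * Real.log (1 + M / a)) := by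
    rw [← ofReal_integral_eq_lintegral_ofReal hc.integrableOn_Icc
      (Filter.Eventually.of_forall fun u => (div_pos one_pos (hpos u)).le),
      integral_Icc_eq_integral_Ioc, ← intervalIntegral.integral_of_le hM]
    refine ENNReal.ofReal_le_ofReal (le_of_eq ?_)
    have hder : ∀ u ∈ uIcc 0 M, HasDerivAt (fun u => a * Real.log (1 + u / a))
        (1 / (1 + |u| / a)) u := by
      intro u hu
      rw [uIcc_of_le hM] at hu
      have h0 : 0 < 1 + u / a := by have := hu.1; positivity
      have h2 : HasDerivAt (fun u => 1 + u / a) (1 / a) u := by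
        simpa using ((hasDerivAt_id' u).div_const a).const_add 1
      have := (h2.log h0.ne').const_mul a
      refine this.congr_deriv ?_
      rw [abs_of_nonneg hu.1]
      field_simp
    rw [intervalIntegral.integral_eq_sub_of_hasDerivAt hder (hc.intervalIntegrable _ _)]
    simp
  have h2 : ∫⁻ u in Icc (-M) 0, ENNReal.ofReal (1 / (1 + |u| / a)) ≤
      ENNReal.ofReal (a * Real.log (1 + M / a)) := by
    refine le_trans (le_of_eq ?_) h1
    have hneg := (Measure.measurePreserving_neg (volume : Measure ℝ))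
    have := hneg.setLIntegral_comp_preimage (s := Icc 0 M) (f := fun u =>
      ENNReal.ofReal (1 / (1 + |u| / a))) measurableSet_Icc (by fun_prop)
    rw [← this]
    have e : (Neg.neg : ℝ → ℝ) ⁻¹' Icc 0 M = Icc (-M) 0 := by
      ext u; simp
    rw [e]
    simp
  have hsub : Icc (-M) M ⊆ Icc (-M) 0 ∪ Icc 0 M := by
    intro u hu
    rcases le_total u 0 with h | h
    · exact Or.inl ⟨hu.1, h⟩
    · exact Or.inr ⟨h, hu.2⟩
  calc ∫⁻ u in Icc (-M) M, ENNReal.ofReal (1 / (1 + |u| / a))
      ≤ ∫⁻ u in Icc (-M) 0 ∪ Icc 0 M, ENNReal.ofReal (1 / (1 + |u| / a)) :=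
        lintegral_mono_set hsub
    _ ≤ _ := lintegral_union_le _ _ _
    _ ≤ ENNReal.ofReal (a * Real.log (1 + M / a)) + ENNReal.ofReal (a * Real.log (1 + M / a)) :=
        add_le_add h2 h1
    _ = _ := by
        have : 0 ≤ Real.log (1 + M / a) := Real.log_nonneg (by
          have : 0 ≤ M / a := by positivity
          linarith)
        rw [← ENNReal.ofReal_add (by positivity) (by positivity)]
        congr 1
        ring

end Run7.h239.PP
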