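import Pool.Agent.Run7.h239.NonC
set_option autoImplicit false

/-!
Dyadic averages and functions of bounded variation.
-/

namespace Run7.h239.PP

open MeasureTheory Set Complex
open scoped ENNReal NNReal

/-- indices of the dyadic squares of side `2⁻ᵏ` in the root square -/
noncomputable def Ik (k : ℕ) : Finset (ℤ × ℤ) :=
  Finset.Ico (-(2 ^ k : ℤ)) (2 ^ k) ×ˢ Finset.Ico (-(2 ^ k : ℤ)) (2 ^ k)

theorem mem_Ik {k : ℕ} {x : ℝ × ℝ} : idx k x ∈ Ik k ↔ x ∈ Sq := by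
  have hk : (0 : ℝ) < 2 ^ k := by positivity
  have h : ∀ t : ℝ, (-(2 ^ k : ℤ) ≤ ⌊2 ^ k * t⌋ ∧ ⌊2 ^ k * t⌋ < 2 ^ k) ↔ (-1 ≤ t ∧ t < 1) := by
    intro t
    rw [Int.le_floor, Int.floor_lt]
    push_cast
    constructor
    · rintro ⟨h1, h2⟩
      constructor <;> nlinarith
    · rintro ⟨h1, h2⟩
      constructor <;> nlinarith
  unfold Ik idx Sq
  rw [Finset.mem_product, Finset.mem_Ico, Finset.mem_Ico, mem_prod, mem_Ico, mem_Ico]
  simp only
  rw [h, h]

theorem card_Ik (k : ℕ) : (Ik k).card = 4 ^ (k + 1) := by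
  unfold Ik
  rw [Finset.card_product, Int.card_Ico]
  have : ((2 : ℤ) ^ k - -(2 ^ k : ℤ)).toNat = 2 ^ (k + 1) := by
    have : (2 : ℤ) ^ k - -(2 ^ k : ℤ) = ((2 ^ (k + 1) : ℕ) : ℤ) := by push_cast; ring
    rw [this, Int.toNat_natCast]
  rw [this, ← mul_pow]
  norm_num

theorem cube_nonempty (k : ℕ) (i : ℤ × ℤ) : ((i.1 : ℝ) / 2 ^ k, (i.2 : ℝ) / 2 ^ k) ∈ cube k i := by
  have hk : (0 : ℝ) < 2 ^ k := by positivity
  rw [mem_cube]
  have h : ∀ n : ℤ, (2 : ℝ) ^ k * ((n : ℝ) / 2 ^ k) = n := fun n => by field_simp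
  simp only [h]
  constructor <;> constructor <;> linarith

/-- the corner of the square -/
noncomputable def cpt (k : ℕ) (i : ℤ × ℤ) : ℝ × ℝ := ((i.1 : ℝ) / 2 ^ k, (i.2 : ℝ) / 2 ^ k)

theorem idx_cpt (k : ℕ) (i : ℤ × ℤ) : idx k (cpt k i) = i := cube_nonempty k i

theorem idx_mono {j k : ℕ} (hjk : j ≤ k) {x y : ℝ × ℝ} (h : idx k x = idx k y) : idx j x = idx j y := by
  induction k, hjk using Nat.le_induction with
  | base => exact h
  | succ k _ ih =>
    apply ih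
    rw [idx_par, idx_par k y, h]

theorem cube_sub_Sq {k : ℕ} {i : ℤ × ℤ} (hi : i ∈ Ik k) : cube k i ⊆ Sq := by
  intro x hx
  rw [← mem_Ik (k := k)]
  have : idx k x = i := hx
  rw [this]
  exact hi

theorem disj_cubes (k : ℕ) : Pairwise (Function.onFun Disjoint (cube k)) := by
  intro i j hij
  refine Set.disjoint_left.2 ?_
  rintro x h1 h2
  exact hij (h1.symm.trans h2)

theorem union_cubes (k : ℕ) : ⋃ i ∈ Ik k, cube k i = Sq := by
  ext x
  simp only [mem_iUnion]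
  constructor
  · rintro ⟨i, hi, hx⟩
    exact cube_sub_Sq hi hx
  · intro hx
    exact ⟨idx k x, mem_Ik.2 hx, rfl⟩

theorem lsum_cubes (k : ℕ) (f : ℝ × ℝ → ℝ≥0∞) :
    ∑ i ∈ Ik k, ∫⁻ x in cube k i, f x = ∫⁻ x in Sq, f x := by
  rw [← union_cubes k, lintegral_biUnion_finset ((disj_cubes k).set_pairwise _)
    (fun i _ => measurableSet_cube k i)]

theorem sum_cubes (k : ℕ) (c : ℤ × ℤ → ℂ) (w : ℝ × ℝ → ℂ) (hw : IntegrableOn w Sq) :
    ∑ i ∈ Ik k, c i * ∫ x in cube k i, w x = ∫ x in Sq, c (idx k x) * w x := by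
  rw [← union_cubes k, integral_biUnion_finset _ (fun i _ => measurableSet_cube k i)
    ((disj_cubes k).set_pairwise _)]
  · refine Finset.sum_congr rfl fun i _ => ?_
    rw [← integral_const_mul]
    refine setIntegral_congr_fun (measurableSet_cube k i) fun x hx => ?_
    have : idx k x = i := hx
    simp only [this]
  · intro i hi
    have h1 : IntegrableOn (fun x => c i * w x) (cube k i) :=
      (hw.mono_set (cube_sub_Sq hi)).const_mul _
    refine h1.congr_fun (fun x hx => ?_) (measurableSet_cube k i)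
    have : idx k x = i := hx
    simp only [this]

/-- Jensen's inequality -/
theorem jens {α : Type*} [MeasurableSpace α] (μ : Measure α) (p : ℝ) (hp : 1 ≤ p) {f : α → ℝ≥0∞}
    (hf : AEMeasurable f μ) : (∫⁻ x, f x ∂μ) ^ p ≤ (μ univ) ^ (p - 1) * ∫⁻ x, f x ^ p ∂μ := by
  rcases hp.eq_or_lt with h | h
  · rw [← h]; simp
  · have hpq : p.HolderConjugate (p / (p - 1)) := Real.HolderConjugate.conjExponent h
    have hp0 : 0 < p := by linarith
    have hp1 : 0 < p - 1 := by linarith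
    have h1 := ENNReal.lintegral_mul_le_Lp_mul_Lq μ hpq hf (aemeasurable_const (b := (1 : ℝ≥0∞)))
    simp only [Pi.mul_apply, mul_one, ENNReal.one_rpow, lintegral_const, one_mul] at h1
    refine (ENNReal.rpow_le_rpow h1 hp0.le).trans (le_of_eq ?_)
    rw [ENNReal.mul_rpow_of_nonneg _ _ hp0.le, ← ENNReal.rpow_mul, ← ENNReal.rpow_mul, mul_comm]
    congr 2
    · field_simp
    · rw [one_div, inv_mul_cancel₀ hp0.ne', ENNReal.rpow_one]

/-- averages over dyadic squares -/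
noncomputable def avg (b : ℝ × ℝ → ℂ) (k : ℕ) (i : ℤ × ℤ) : ℂ := (4 : ℂ) ^ k * ∫ x in cube k i, b x

theorem vol_cube_fin (k : ℕ) (i : ℤ × ℤ) : volume (cube k i) ≠ ∞ := by
  rw [volume_cube]; exact ENNReal.ofReal_ne_top

theorem bint {b : ℝ × ℝ → ℂ} (hb : Measurable b) (hb1 : ∀ x, ‖b x‖ ≤ 1) {S : Set (ℝ × ℝ)}
    (hS : volume S ≠ ∞) : IntegrableOn b S := by
  have : IsFiniteMeasure (volume.restrict S) := ⟨by
    rw [Measure.restrict_apply_univ]; exact hS.lt_top⟩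
  exact Integrable.mono' (g := fun _ => (1 : ℝ)) (integrable_const _) hb.aestronglyMeasurable
    (Filter.Eventually.of_forall hb1)

theorem vol_cube_real (k : ℕ) (i : ℤ × ℤ) : (volume.real (cube k i)) = (1 / 4) ^ k := by
  rw [Measure.real, volume_cube, ENNReal.toReal_ofReal (by positivity)]

theorem avg_le {b : ℝ × ℝ → ℂ} (hb1 : ∀ x, ‖b x‖ ≤ 1) (k : ℕ) (i : ℤ × ℤ) : ‖avg b k i‖ ≤ 1 := by
  unfold avg
  have h := norm_setIntegral_le_of_norm_le_const (μ := volume) (s := cube k i) (C := 1) (f := b)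
    (vol_cube_fin k i).lt_top (fun x _ => hb1 x)
  rw [vol_cube_real, one_mul] at h
  rw [norm_mul, norm_pow]
  calc ‖(4 : ℂ)‖ ^ k * ‖∫ x in cube k i, b x‖ ≤ ‖(4 : ℂ)‖ ^ k * (1 / 4) ^ k := by gcongr
    _ = 1 := by
      rw [← mul_pow]
      norm_num

/-- deviation of the average from a constant -/
theorem avg_dev {b : ℝ × ℝ → ℂ} (hb : Measurable b) (hb1 : ∀ x, ‖b x‖ ≤ 1) (p : ℝ) (hp : 1 ≤ p)
    (k : ℕ) (i : ℤ × ℤ) (z : ℂ) :
    ‖avg b k i - z‖ₑ ^ p ≤ ENNReal.ofReal (4 ^ k) * ∫⁻ x in cube k i, ‖b x - z‖ₑ ^ p := by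
  have hp0 : 0 < p := by linarith
  have h1 : avg b k i - z = (4 : ℂ) ^ k * ∫ x in cube k i, (b x - z) := by
    unfold avg
    have hi : IntegrableOn (fun _ : ℝ × ℝ => z) (cube k i) := integrableOn_const (vol_cube_fin k i)
    rw [integral_sub (bint hb hb1 (vol_cube_fin k i)) hi, setIntegral_const, vol_cube_real, mul_sub]
    congr 1
    rw [Complex.real_smul]
    push_cast
    rw [← mul_assoc, ← mul_pow]
    norm_num
  have h2 : ‖avg b k i - z‖ₑ ≤ ENNReal.ofReal (4 ^ k) * ∫⁻ x in cube k i, ‖b x - z‖ₑ := by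
    rw [h1, enorm_mul]
    refine mul_le_mul' (le_of_eq ?_) (enorm_integral_le_lintegral_enorm _)
    rw [← ofReal_norm, norm_pow]
    norm_num
  have h3 := jens (volume.restrict (cube k i)) p hp (f := fun x => ‖b x - z‖ₑ)
    (hb.sub measurable_const).enorm.aemeasurable
  rw [Measure.restrict_apply_univ, volume_cube] at h3
  calc ‖avg b k i - z‖ₑ ^ p ≤ (ENNReal.ofReal (4 ^ k) * ∫⁻ x in cube k i, ‖b x - z‖ₑ) ^ p :=
        ENNReal.rpow_le_rpow h2 hp0.le
    _ = ENNReal.ofReal (4 ^ k) ^ p * (∫⁻ x in cube k i, ‖b x - z‖ₑ) ^ p :=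
        ENNReal.mul_rpow_of_nonneg _ _ hp0.le
    _ ≤ ENNReal.ofReal (4 ^ k) ^ p * (ENNReal.ofReal ((1 / 4) ^ k) ^ (p - 1) *
        ∫⁻ x in cube k i, ‖b x - z‖ₑ ^ p) := by gcongr
    _ = _ := by
        rw [← mul_assoc]
        congr 1
        rw [ENNReal.ofReal_rpow_of_pos (by positivity), ENNReal.ofReal_rpow_of_pos (by positivity),
          ← ENNReal.ofReal_mul (by positivity)]
        congr 1
        have h4 : (0 : ℝ) < 4 ^ k := by positivity
        have h5 : ((1 / 4 : ℝ)) ^ k = (4 ^ k)⁻¹ := by rw [one_div, inv_pow]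
        rw [h5, Real.inv_rpow h4.le, ← Real.rpow_neg h4.le, ← Real.rpow_add h4]
        have : p + -(p - 1) = 1 := by ring
        rw [this, Real.rpow_one]

/-- variation at scale `2⁻ᵏ` inside the dyadic squares -/
def Var (b : ℝ × ℝ → ℂ) (p : ℝ) (k : ℕ) (G : ℝ) : Prop :=
  ∀ h : ℝ × ℝ, |h.1| < (1 / 2) ^ k → |h.2| < (1 / 2) ^ k →
    ∫⁻ x in Sq ∩ {x | idx k (x + h) = idx k x}, ‖b x - b (x + h)‖ₑ ^ p ≤
      ENNReal.ofReal (G * (1 / 2) ^ k)

theorem dev_le {b : ℝ × ℝ → ℂ} (hb : Measurable b) (hb1 : ∀ x, ‖b x‖ ≤ 1) (p : ℝ) (hp : 1 ≤ p)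
    (k : ℕ) (x : ℝ × ℝ) : ‖b x - avg b k (idx k x)‖ₑ ^ p ≤
      ENNReal.ofReal (4 ^ k) * ∫⁻ y in cube k (idx k x), ‖b x - b y‖ₑ ^ p := by
  have h := avg_dev hb hb1 p hp k (idx k x) (b x)
  rw [← enorm_neg, neg_sub] at h
  refine h.trans (le_of_eq ?_)
  congr 1
  refine lintegral_congr fun y => ?_
  rw [← enorm_neg, neg_sub]

theorem osc {b : ℝ × ℝ → ℂ} (hb : Measurable b) (hb1 : ∀ x, ‖b x‖ ≤ 1) (p : ℝ) (hp : 1 ≤ p)
    (k : ℕ) (G : ℝ) (hG : 0 ≤ G) (hV : Var b p k G) :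
    ∫⁻ x in Sq, ‖b x - avg b k (idx k x)‖ₑ ^ p ≤ ENNReal.ofReal (4 * G * (1 / 2) ^ k) := by
  have hp0 : 0 < p := by linarith
  set bx : Set (ℝ × ℝ) := Ioo (-(1 / 2 : ℝ) ^ k) ((1 / 2) ^ k) ×ˢ Ioo (-(1 / 2 : ℝ) ^ k) ((1 / 2) ^ k)
    with hbx
  have hbxm : MeasurableSet bx := measurableSet_Ioo.prod measurableSet_Ioo
  set D : ℝ × ℝ → ℝ × ℝ → ℝ≥0∞ := fun x h => bx.indicator (fun h =>
    {x : ℝ × ℝ | idx k (x + h) = idx k x}.indicator (fun x => ‖b x - b (x + h)‖ₑ ^ p) x) h with hD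
  have hmS : MeasurableSet {q : (ℝ × ℝ) × (ℝ × ℝ) | idx k (q.1 + q.2) = idx k q.1} :=
    measurableSet_eq_fun ((measurable_idx k).comp (measurable_fst.add measurable_snd))
      ((measurable_idx k).comp measurable_fst)
  have hDm : Measurable (fun q : (ℝ × ℝ) × (ℝ × ℝ) => D q.1 q.2) := by
    have h1 : Measurable (fun q : (ℝ × ℝ) × (ℝ × ℝ) => ‖b q.1 - b (q.1 + q.2)‖ₑ ^ p) :=
      ((hb.comp measurable_fst).sub (hb.comp (measurable_fst.add measurable_snd))).enorm.pow_const p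
    have h2 : (fun q : (ℝ × ℝ) × (ℝ × ℝ) => D q.1 q.2) =
        (({q : (ℝ × ℝ) × (ℝ × ℝ) | idx k (q.1 + q.2) = idx k q.1} ∩ (Prod.snd ⁻¹' bx)).indicator
          (fun q => ‖b q.1 - b (q.1 + q.2)‖ₑ ^ p)) := by
      funext q
      rw [hD]
      simp only
      by_cases hq1 : q.2 ∈ bx
      · rw [indicator_of_mem hq1]
        by_cases hq2 : idx k (q.1 + q.2) = idx k q.1
        · have hq3 : q ∈ {q : (ℝ × ℝ) × (ℝ × ℝ) | idx k (q.1 + q.2) = idx k q.1} ∩ (Prod.snd ⁻¹' bx) :=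
            ⟨hq2, hq1⟩
          rw [indicator_of_mem (s := {x : ℝ × ℝ | idx k (x + q.2) = idx k x}) hq2,
            indicator_of_mem hq3]
        · have hq3 : q ∉ {q : (ℝ × ℝ) × (ℝ × ℝ) | idx k (q.1 + q.2) = idx k q.1} ∩ (Prod.snd ⁻¹' bx) :=
            fun h => hq2 h.1
          rw [indicator_of_notMem (s := {x : ℝ × ℝ | idx k (x + q.2) = idx k x}) hq2,
            indicator_of_notMem hq3]
      · have hq3 : q ∉ {q : (ℝ × ℝ) × (ℝ × ℝ) | idx k (q.1 + q.2) = idx k q.1} ∩ (Prod.snd ⁻¹' bx) :=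
          fun h => hq1 h.2
        rw [indicator_of_notMem hq1, indicator_of_notMem hq3]
    rw [h2]
    exact h1.indicator (hmS.inter (measurable_snd hbxm))
  have hpt : ∀ x, ‖b x - avg b k (idx k x)‖ₑ ^ p ≤ ENNReal.ofReal (4 ^ k) * ∫⁻ h, D x h := by
    intro x
    refine (dev_le hb hb1 p hp k x).trans (mul_le_mul' le_rfl ?_)
    rw [← lintegral_indicator (measurableSet_cube k _), ← lintegral_add_left_eq_self _ x]
    refine lintegral_mono fun h => ?_
    by_cases hh : x + h ∈ cube k (idx k x)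
    · rw [indicator_of_mem hh]
      have hi : idx k (x + h) = idx k x := hh
      have hb : h ∈ bx := by
        have hk : (0 : ℝ) < 2 ^ k := by positivity
        have hx : x ∈ cube k (idx k x) := rfl
        rw [mem_cube] at hh hx
        obtain ⟨⟨a1, a2⟩, a3, a4⟩ := hh
        obtain ⟨⟨c1, c2⟩, c3, c4⟩ := hx
        simp only [Prod.fst_add, Prod.snd_add] at a1 a2 a3 a4
        have e : ((1 / 2 : ℝ)) ^ k = 1 / 2 ^ k := by rw [one_div, one_div, inv_pow]
        rw [hbx, e]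
        refine ⟨⟨?_, ?_⟩, ?_, ?_⟩
        · rw [neg_lt, ← sub_pos]
          have : 0 < 2 ^ k * (1 / 2 ^ k - -h.1) := by
            have : (2 : ℝ) ^ k * (1 / 2 ^ k - -h.1) = 1 + 2 ^ k * h.1 := by field_simp; ring
            rw [this]; nlinarith
          exact pos_of_mul_pos_right this hk.le
        · rw [← sub_pos]
          have : 0 < 2 ^ k * (1 / 2 ^ k - h.1) := by
            have : (2 : ℝ) ^ k * (1 / 2 ^ k - h.1) = 1 - 2 ^ k * h.1 := by field_simp
            rw [this]; nlinarith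
          exact pos_of_mul_pos_right this hk.le
        · rw [neg_lt, ← sub_pos]
          have : 0 < 2 ^ k * (1 / 2 ^ k - -h.2) := by
            have : (2 : ℝ) ^ k * (1 / 2 ^ k - -h.2) = 1 + 2 ^ k * h.2 := by field_simp; ring
            rw [this]; nlinarith
          exact pos_of_mul_pos_right this hk.le
        · rw [← sub_pos]
          have : 0 < 2 ^ k * (1 / 2 ^ k - h.2) := by
            have : (2 : ℝ) ^ k * (1 / 2 ^ k - h.2) = 1 - 2 ^ k * h.2 := by field_simp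
            rw [this]; nlinarith
          exact pos_of_mul_pos_right this hk.le
      rw [hD]
      simp only
      rw [indicator_of_mem hb, indicator_of_mem (s := {x : ℝ × ℝ | idx k (x + h) = idx k x}) hi]
    · rw [indicator_of_notMem hh]
      exact zero_le
  calc ∫⁻ x in Sq, ‖b x - avg b k (idx k x)‖ₑ ^ p
      ≤ ∫⁻ x in Sq, ENNReal.ofReal (4 ^ k) * ∫⁻ h, D x h := lintegral_mono fun x => hpt x
    _ = ENNReal.ofReal (4 ^ k) * ∫⁻ x in Sq, ∫⁻ h, D x h := by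
        rw [lintegral_const_mul _ hDm.lintegral_prod_right']
    _ = ENNReal.ofReal (4 ^ k) * ∫⁻ h, ∫⁻ x in Sq, D x h := by
        rw [lintegral_lintegral_swap hDm.aemeasurable]
    _ ≤ ENNReal.ofReal (4 ^ k) * ∫⁻ h, bx.indicator (fun _ => ENNReal.ofReal (G * (1 / 2) ^ k)) h := by
        gcongr with h
        rw [hD]
        simp only
        by_cases hh : h ∈ bx
        · simp_rw [indicator_of_mem hh]
          have hms : MeasurableSet {x : ℝ × ℝ | idx k (x + h) = idx k x} :=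
            measurableSet_eq_fun ((measurable_idx k).comp (measurable_id.add_const h)) (measurable_idx k)
          rw [lintegral_indicator hms, Measure.restrict_restrict hms, inter_comm]
          exact hV h (abs_lt.2 hh.1) (abs_lt.2 hh.2)
        · simp_rw [indicator_of_notMem hh]
          simp
    _ = ENNReal.ofReal (4 ^ k) * (ENNReal.ofReal (G * (1 / 2) ^ k) * volume bx) := by
        rw [lintegral_indicator_const hbxm]
    _ = _ := by
        have hv : volume bx = ENNReal.ofReal (4 * (1 / 4) ^ k) := by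
          rw [hbx, Measure.volume_eq_prod, Measure.prod_prod, Real.volume_Ioo,
            ← ENNReal.ofReal_mul (by
              have : (0 : ℝ) ≤ (1 / 2) ^ k := by positivity
              linarith)]
          congr 1
          have : ((1 / 4 : ℝ)) ^ k = (1 / 2) ^ k * (1 / 2) ^ k := by rw [← mul_pow]; norm_num
          rw [this]
          ring
        rw [hv, ← ENNReal.ofReal_mul (by positivity), ← ENNReal.ofReal_mul (by positivity)]
        congr 1
        have : (4 : ℝ) ^ k * (1 / 4) ^ k = 1 := by rw [← mul_pow]; norm_num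
        calc (4 : ℝ) ^ k * (G * (1 / 2) ^ k * (4 * (1 / 4) ^ k))
            = 4 * G * (1 / 2) ^ k * ((4 : ℝ) ^ k * (1 / 4) ^ k) := by ring
          _ = _ := by rw [this, mul_one]

/-- the Haar coefficients -/
noncomputable def hc (b : ℝ × ℝ → ℂ) (k : ℕ) (i : ℤ × ℤ) : ℂ := avg b (k + 1) i - avg b k (par i)

theorem hc_le {b : ℝ × ℝ → ℂ} (hb1 : ∀ x, ‖b x‖ ≤ 1) (k : ℕ) (i : ℤ × ℤ) : ‖hc b k i‖ ≤ 2 := by
  unfold hc
  refine (norm_sub_le _ _).trans ?_
  linarith [avg_le hb1 (k + 1) i, avg_le hb1 k (par i)]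

theorem hc_sum {b : ℝ × ℝ → ℂ} (hb : Measurable b) (hb1 : ∀ x, ‖b x‖ ≤ 1) (p : ℝ) (hp : 1 ≤ p)
    (k : ℕ) (G : ℝ) (hG : 0 ≤ G) (hV : Var b p k G) :
    ∑ i ∈ Ik (k + 1), ‖hc b k i‖ ^ p ≤ 16 * G * 2 ^ k := by
  have hp0 : 0 < p := by linarith
  have h1 : ∑ i ∈ Ik (k + 1), ‖hc b k i‖ₑ ^ p ≤ ENNReal.ofReal (16 * G * 2 ^ k) := by
    calc ∑ i ∈ Ik (k + 1), ‖hc b k i‖ₑ ^ p
        ≤ ∑ i ∈ Ik (k + 1), ENNReal.ofReal (4 ^ (k + 1)) *
          ∫⁻ x in cube (k + 1) i, ‖b x - avg b k (idx k x)‖ₑ ^ p := by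
          refine Finset.sum_le_sum fun i _ => ?_
          refine (avg_dev hb hb1 p hp (k + 1) i (avg b k (par i))).trans (le_of_eq ?_)
          congr 1
          refine setLIntegral_congr_fun (measurableSet_cube _ i) fun x hx => ?_
          have hx' : idx (k + 1) x = i := hx
          rw [idx_par, hx']
      _ = ENNReal.ofReal (4 ^ (k + 1)) * ∫⁻ x in Sq, ‖b x - avg b k (idx k x)‖ₑ ^ p := by
          rw [← Finset.mul_sum, lsum_cubes]
      _ ≤ ENNReal.ofReal (4 ^ (k + 1)) * ENNReal.ofReal (4 * G * (1 / 2) ^ k) := by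
          gcongr
          exact osc hb hb1 p hp k G hG hV
      _ = _ := by
          rw [← ENNReal.ofReal_mul (by positivity)]
          congr 1
          have : (4 : ℝ) ^ k * (1 / 2) ^ k = 2 ^ k := by rw [← mul_pow]; norm_num
          calc (4 : ℝ) ^ (k + 1) * (4 * G * (1 / 2) ^ k) = 16 * G * (4 ^ k * (1 / 2) ^ k) := by ring
            _ = _ := by rw [this]
  have h2 : ∑ i ∈ Ik (k + 1), ‖hc b k i‖ₑ ^ p = ENNReal.ofReal (∑ i ∈ Ik (k + 1), ‖hc b k i‖ ^ p) := by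
    rw [ENNReal.ofReal_sum_of_nonneg (fun i _ => by positivity)]
    refine Finset.sum_congr rfl fun i _ => ?_
    rw [← ofReal_norm, ENNReal.ofReal_rpow_of_nonneg (norm_nonneg _) hp0.le]
  rw [h2, ENNReal.ofReal_le_ofReal_iff (by positivity)] at h1
  exact h1

end Run7.h239.PP
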