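import Pool.Agent.Run7.h239.LqB
set_option autoImplicit false

/-!
Disjoint pieces of equal measure: level sets and `L^q` bounds in terms of `ℓ^s` norms of the coefficients.
-/

namespace Run7.h239.PP

open MeasureTheory Set Complex
open scoped ENNReal

/-- level sets for disjoint pieces of equal measure -/
theorem levelS (K : ℝ) (hK : 1 ≤ K) (s ε : ℝ) (hs : 3 / 2 ≤ s) (hε : 0 < ε) :
    ∃ C : ℝ, 0 ≤ C ∧ ∀ (ι : Type) [Fintype ι] (c : ι → ℂ)
    (R : ι → Set (ℝ × ℝ)) (u : ι → ℝ × ℝ → ℂ) (v : ℝ),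
    (∀ j, Tame K (R j) (u j)) → (∀ j, R j ⊆ Ico (-1 : ℝ) 1 ×ˢ Ico (-1 : ℝ) 1) →
    Pairwise (Function.onFun Disjoint R) → 0 ≤ v → (∀ j, volume (R j) = ENNReal.ofReal v) →
    ∀ lam : ℝ, 0 < lam →
    volume {p | lam < ‖Fs c R u p‖} ≤
      ENNReal.ofReal (C * v * (∑ j, ‖c j‖ ^ s) ^ (2 + ε) * lam ^ (-((2 + ε) * s))) := by
  classical
  obtain ⟨A, hA1, hA⟩ := exists_A K
  have hA0 : 0 < A := by linarith
  have hK0 : 0 < K := by linarith
  set E : ℝ := (1 + 3 / ε) ^ 3 with hE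
  have hE0 : 0 ≤ E := by positivity
  refine ⟨16 * (2 * Real.pi) ^ 2 * K * A * E * 8 ^ ((2 + ε) * s - 2), by positivity, ?_⟩
  intro ι _ c R u v hT hsub hd hv0 hvol lam hlam
  have hSv : volume (Ico (-1 : ℝ) 1 ×ˢ Ico (-1 : ℝ) 1) = 4 := by
    rw [Measure.volume_eq_prod, Measure.prod_prod, Real.volume_Ico,
      ← ENNReal.ofReal_mul (by norm_num)]
    norm_num
  have hfin : ∀ j, volume (R j) ≠ ∞ := fun j =>
    ne_top_of_le_ne_top (by rw [hSv]; norm_num) (measure_mono (hsub j))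
  set T : ℝ := ∑ j, ‖c j‖ ^ s with hTdef
  have hT0 : 0 ≤ T := Finset.sum_nonneg fun j _ => Real.rpow_nonneg (norm_nonneg _) _
  -- big and small pieces
  set c' : ι → ℂ := fun j => if lam < 8 * ‖c j‖ then c j else 0 with hc'
  set w : ι → ℝ := fun j => if lam < 8 * ‖c j‖ then ‖c j‖ ^ (3 / 2 : ℝ) else 0 with hw
  have hw0 : ∀ j, 0 ≤ w j := by
    intro j
    rw [hw]
    simp only
    split_ifs
    · positivity
    · exact le_rfl
  set S : ℝ := ∑ j, w j with hS
  have hS0 : 0 ≤ S := Finset.sum_nonneg fun j _ => hw0 j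
  have hwS : ∀ j, w j ≤ S := fun j => Finset.single_le_sum (fun j _ => hw0 j) (Finset.mem_univ j)
  set V : ι → ℝ := fun j => 8 * S / (lam * ‖c j‖ ^ (1 / 2 : ℝ)) with hV
  set μ : ι → ℝ := fun j => if lam < 8 * ‖c j‖ then A * V j * (1 + Real.log (V j)) ^ 3 else 1 with hμ
  have hcpos : ∀ j, lam < 8 * ‖c j‖ → 0 < ‖c j‖ := by
    intro j hj
    nlinarith
  have hSpos : ∀ j, lam < 8 * ‖c j‖ → 0 < S := by
    intro j hj
    refine lt_of_lt_of_le ?_ (hwS j)
    rw [hw]
    simp only [if_pos hj]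
    exact Real.rpow_pos_of_pos (hcpos j hj) _
  have hV1 : ∀ j, lam < 8 * ‖c j‖ → 1 ≤ V j := by
    intro j hj
    have hc0 := hcpos j hj
    have h1 : ‖c j‖ ^ (3 / 2 : ℝ) ≤ S := by
      have := hwS j
      rw [hw] at this
      simpa only [if_pos hj] using this
    have h2 : ‖c j‖ ^ (3 / 2 : ℝ) = ‖c j‖ * ‖c j‖ ^ (1 / 2 : ℝ) := by
      have : (3 / 2 : ℝ) = 1 + 1 / 2 := by norm_num
      rw [this, Real.rpow_add hc0, Real.rpow_one]
    have h3 : 0 < ‖c j‖ ^ (1 / 2 : ℝ) := Real.rpow_pos_of_pos hc0 _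
    rw [hV]
    simp only
    rw [le_div_iff₀ (by positivity), one_mul]
    calc lam * ‖c j‖ ^ (1 / 2 : ℝ) ≤ (8 * ‖c j‖) * ‖c j‖ ^ (1 / 2 : ℝ) := by gcongr
      _ = 8 * ‖c j‖ ^ (3 / 2 : ℝ) := by rw [h2]; ring
      _ ≤ 8 * S := by gcongr
  have hL1 : ∀ j, lam < 8 * ‖c j‖ → 1 ≤ 1 + Real.log (V j) := by
    intro j hj
    have := Real.log_nonneg (hV1 j hj)
    linarith
  have hμ1 : ∀ j, 1 ≤ μ j := by
    intro j
    rw [hμ]
    simp only
    split_ifs with hj
    · have h1 := hV1 j hj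
      have h2 := hL1 j hj
      have h3 : 1 ≤ (1 + Real.log (V j)) ^ 3 := one_le_pow₀ h2
      calc (1 : ℝ) = 1 * 1 * 1 := by ring
        _ ≤ A * V j * (1 + Real.log (V j)) ^ 3 := by gcongr
    · exact le_rfl
  have hsum : ∑ j, ‖c' j‖ * (K * (1 + Real.log (μ j)) ^ 3 / μ j) ≤ lam / 2 / 2 := by
    have hone : ∀ j, ‖c' j‖ * (K * (1 + Real.log (μ j)) ^ 3 / μ j) ≤ lam / 4 * (w j / S) := by
      intro j
      by_cases hj : lam < 8 * ‖c j‖
      · have h1 := hV1 j hj
        have h2 := hL1 j hj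
        have hv0 : 0 < V j := by linarith
        have hL0 : 0 < 1 + Real.log (V j) := by linarith
        have hlA : 0 ≤ Real.log A := Real.log_nonneg hA1
        have hc0 : 0 < ‖c j‖ := hcpos j hj
        have hSp := hSpos j hj
        rw [hc', hμ, hw]
        simp only [if_pos hj]
        set L := 1 + Real.log (V j) with hL
        have h3 : 1 + Real.log (A * V j * L ^ 3) ≤ (4 + Real.log A) * L := by
          rw [Real.log_mul (by positivity) (by positivity), Real.log_mul (by positivity) (by positivity),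
            Real.log_pow]
          have h4 : Real.log L ≤ L := (Real.log_le_sub_one_of_pos hL0).trans (by linarith)
          have h5 : Real.log A ≤ Real.log A * L := by nlinarith
          push_cast
          linarith
        have h30 : 0 ≤ 1 + Real.log (A * V j * L ^ 3) := by
          have h6 := hμ1 j
          rw [hμ] at h6
          simp only [if_pos hj] at h6
          have := Real.log_nonneg h6
          linarith
        have h7 : (1 + Real.log (A * V j * L ^ 3)) ^ 3 ≤ ((4 + Real.log A) * L) ^ 3 := by gcongr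
        have hr0 : 0 < ‖c j‖ ^ (1 / 2 : ℝ) := Real.rpow_pos_of_pos hc0 _
        have h32 : ‖c j‖ ^ (3 / 2 : ℝ) = ‖c j‖ * ‖c j‖ ^ (1 / 2 : ℝ) := by
          have : (3 / 2 : ℝ) = 1 + 1 / 2 := by norm_num
          rw [this, Real.rpow_add hc0, Real.rpow_one]
        have hVeq : 1 / V j = lam * ‖c j‖ ^ (1 / 2 : ℝ) / (8 * S) := by
          rw [hV]
          simp only [one_div_div]
        calc ‖c j‖ * (K * (1 + Real.log (A * V j * L ^ 3)) ^ 3 / (A * V j * L ^ 3))
            ≤ ‖c j‖ * (K * ((4 + Real.log A) * L) ^ 3 / (A * V j * L ^ 3)) := by gcongr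
          _ = (K * (4 + Real.log A) ^ 3) * (‖c j‖ / A * (1 / V j)) := by
              field_simp
          _ ≤ (2 * A) * (‖c j‖ / A * (1 / V j)) := by gcongr
          _ = lam / 4 * (‖c j‖ ^ (3 / 2 : ℝ) / S) := by
              rw [hVeq, h32]
              field_simp
              ring
      · rw [hc', hw]
        simp only [if_neg hj]
        rw [norm_zero, zero_mul, zero_div, mul_zero]
    calc ∑ j, ‖c' j‖ * (K * (1 + Real.log (μ j)) ^ 3 / μ j) ≤ ∑ j, lam / 4 * (w j / S) :=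
          Finset.sum_le_sum fun j _ => hone j
      _ = lam / 4 * (S / S) := by
          rw [← Finset.mul_sum, ← Finset.sum_div]
      _ ≤ lam / 4 * 1 := by
          have := div_self_le_one S
          gcongr
      _ = lam / 2 / 2 := by ring
  have hlevel := level K c' R u hT hfin hd μ hμ1 (lam / 2) (by positivity) hsum
  -- the small pieces do not matter
  have hsmall : ∀ p, ‖Fs c R u p - Fs c' R u p‖ ≤ lam / 2 := by
    intro p
    have e : Fs c R u p - Fs c' R u p =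
        ∑ j, (c j - c' j) * ∫ x in R j, u j x * ker p.1 p.2 x := by
      unfold Fs
      rw [← Finset.sum_sub_distrib]
      refine Finset.sum_congr rfl fun j _ => ?_
      ring
    rw [e]
    have h1 : ∀ j, ‖∫ x in R j, u j x * ker p.1 p.2 x‖ ≤ (volume (R j)).toReal := by
      intro j
      have := norm_setIntegral_le_of_norm_le_const (μ := volume) (s := R j) (C := 1)
        (f := fun x => u j x * ker p.1 p.2 x) (hfin j).lt_top
        (fun x _ => norm_hker (hT j).2.1.2 _ _ x)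
      simpa [Measure.real] using this
    have h2 : ∀ j, ‖c j - c' j‖ ≤ lam / 8 := by
      intro j
      rw [hc']
      simp only
      split_ifs with hj
      · simp; positivity
      · push Not at hj
        simp
        linarith
    have h3 : ∑ j, (volume (R j)).toReal ≤ 4 := by
      rw [← ENNReal.toReal_sum fun j _ => hfin j]
      have h4 : ∑ j, volume (R j) ≤ 4 := by
        have := tsum_meas_le_meas_iUnion_of_disjoint₀ (volume : Measure (ℝ × ℝ)) (As := R)
          (fun j => ((hT j).1).nullMeasurableSet) (fun i j hij => (hd hij).aedisjoint)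
        rw [tsum_fintype] at this
        refine this.trans ((measure_mono (iUnion_subset hsub)).trans hSv.le)
      exact ENNReal.toReal_le_of_le_ofReal (by norm_num) (by simpa using h4)
    calc ‖∑ j, (c j - c' j) * ∫ x in R j, u j x * ker p.1 p.2 x‖
        ≤ ∑ j, ‖(c j - c' j) * ∫ x in R j, u j x * ker p.1 p.2 x‖ := norm_sum_le _ _
      _ ≤ ∑ j, lam / 8 * (volume (R j)).toReal := by
          refine Finset.sum_le_sum fun j _ => ?_
          rw [norm_mul]
          exact mul_le_mul (h2 j) (h1 j) (norm_nonneg _) (by positivity)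
      _ = lam / 8 * ∑ j, (volume (R j)).toReal := by rw [Finset.mul_sum]
      _ ≤ lam / 8 * 4 := by gcongr
      _ = lam / 2 := by ring
  have hsubset : {p | lam < ‖Fs c R u p‖} ⊆ {p | lam / 2 < ‖Fs c' R u p‖} := by
    intro p hp
    simp only [mem_ofPred_eq] at hp ⊢
    have h1 := hsmall p
    have h2 : ‖Fs c R u p‖ ≤ ‖Fs c R u p - Fs c' R u p‖ + ‖Fs c' R u p‖ := by
      have := norm_add_le (Fs c R u p - Fs c' R u p) (Fs c' R u p)
      simpa using this
    linarith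
  refine (measure_mono hsubset).trans (hlevel.trans ?_)
  -- the final count
  set l8 : ℝ := lam / 8 with hl8
  have hl80 : 0 < l8 := by positivity
  set X : ι → ℝ := fun j => if lam < 8 * ‖c j‖ then ‖c j‖ ^ (3 / 2 - ε / 2 : ℝ) else 0 with hX
  have hX0 : ∀ j, 0 ≤ X j := by
    intro j
    rw [hX]
    simp only
    split_ifs
    · positivity
    · exact le_rfl
  have hST : S ≤ T * l8 ^ (3 / 2 - s) := by
    rw [hS, hTdef, Finset.sum_mul]
    refine Finset.sum_le_sum fun j _ => ?_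
    rw [hw]
    simp only
    split_ifs with hj
    · have hc0 := hcpos j hj
      have h1 : ‖c j‖ ^ (3 / 2 : ℝ) = ‖c j‖ ^ s * ‖c j‖ ^ (3 / 2 - s) := by
        rw [← Real.rpow_add hc0]; congr 1; ring
      rw [h1]
      gcongr ?_ * ?_
      exact Real.rpow_le_rpow_of_nonpos hl80 (by rw [hl8]; linarith) (by linarith)
    · positivity
  have hXT : ∑ j, X j ≤ T * l8 ^ (3 / 2 - ε / 2 - s) := by
    rw [hTdef, Finset.sum_mul]
    refine Finset.sum_le_sum fun j _ => ?_
    rw [hX]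
    simp only
    split_ifs with hj
    · have hc0 := hcpos j hj
      have h1 : ‖c j‖ ^ (3 / 2 - ε / 2 : ℝ) = ‖c j‖ ^ s * ‖c j‖ ^ (3 / 2 - ε / 2 - s) := by
        rw [← Real.rpow_add hc0]; congr 1; ring
      rw [h1]
      gcongr ?_ * ?_
      exact Real.rpow_le_rpow_of_nonpos hl80 (by rw [hl8]; linarith) (by linarith)
    · positivity
  have hterm : ∀ j, ENNReal.ofReal (‖c' j‖ ^ 2) * (ENNReal.ofReal (K * μ j) * volume (R j)) ≤
      ENNReal.ofReal (K * A * E * v * ((S / l8) ^ (1 + ε) * X j)) := by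
    intro j
    rw [hvol, ← ENNReal.ofReal_mul (mul_nonneg hK0.le (by linarith [hμ1 j])),
      ← ENNReal.ofReal_mul (by positivity)]
    refine ENNReal.ofReal_le_ofReal ?_
    by_cases hj : lam < 8 * ‖c j‖
    · have hc0 := hcpos j hj
      have hSp := hSpos j hj
      have hV1j := hV1 j hj
      have hVp : 0 < V j := by linarith
      rw [hc', hμ, hX]
      simp only [if_pos hj]
      have h1 := log_bound ε hε (V j) hV1j
      have h2 : V j = S / l8 * ‖c j‖ ^ (-(1 / 2) : ℝ) := by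
        rw [hV, hl8, Real.rpow_neg hc0.le]
        simp only
        field_simp
      have h3 : V j * V j ^ ε = (S / l8) ^ (1 + ε) * ‖c j‖ ^ (-(1 / 2) * (1 + ε) : ℝ) := by
        rw [show V j * V j ^ ε = V j ^ (1 + ε) by rw [Real.rpow_add hVp, Real.rpow_one]]
        rw [h2, Real.mul_rpow (by positivity) (by positivity), ← Real.rpow_mul hc0.le]
      have h4 : ‖c j‖ ^ 2 * ‖c j‖ ^ (-(1 / 2) * (1 + ε) : ℝ) = ‖c j‖ ^ (3 / 2 - ε / 2 : ℝ) := by
        rw [← Real.rpow_natCast, ← Real.rpow_add hc0]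
        congr 1
        push_cast
        ring
      calc ‖c j‖ ^ 2 * (K * (A * V j * (1 + Real.log (V j)) ^ 3) * v)
          ≤ ‖c j‖ ^ 2 * (K * (A * V j * (E * V j ^ ε)) * v) := by gcongr
        _ = K * A * E * v * (‖c j‖ ^ 2 * (V j * V j ^ ε)) := by ring
        _ = K * A * E * v * ((S / l8) ^ (1 + ε) * (‖c j‖ ^ 2 * ‖c j‖ ^ (-(1 / 2) * (1 + ε) : ℝ))) := by
            rw [h3]; ring
        _ = _ := by rw [h4]
    · rw [hc', hX]
      simp only [if_neg hj]
      rw [norm_zero]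
      simp
  have hsumE : ∑ j, ENNReal.ofReal (‖c' j‖ ^ 2) * (ENNReal.ofReal (K * μ j) * volume (R j)) ≤
      ENNReal.ofReal (K * A * E * v * ((S / l8) ^ (1 + ε) * ∑ j, X j)) := by
    refine (Finset.sum_le_sum fun j _ => hterm j).trans (le_of_eq ?_)
    rw [← ENNReal.ofReal_sum_of_nonneg]
    · congr 1
      rw [← Finset.mul_sum, ← Finset.mul_sum]
    · intro j _
      have := hX0 j
      positivity
  refine (mul_le_mul' le_rfl hsumE).trans ?_
  rw [← ENNReal.ofReal_mul (by positivity)]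
  refine ENNReal.ofReal_le_ofReal ?_
  have hXs0 : 0 ≤ ∑ j, X j := Finset.sum_nonneg fun j _ => hX0 j
  have h10 : (S / l8) ^ (1 + ε) ≤ T ^ (1 + ε) * l8 ^ ((1 / 2 - s) * (1 + ε)) := by
    have h1 : S / l8 ≤ T * l8 ^ (1 / 2 - s) := by
      rw [div_le_iff₀ hl80, mul_assoc]
      have : l8 ^ (1 / 2 - s) * l8 = l8 ^ (3 / 2 - s) := by
        nth_rewrite 2 [← Real.rpow_one l8]
        rw [← Real.rpow_add hl80]; congr 1; ring
      rw [this]
      exact hST
    refine (Real.rpow_le_rpow (by positivity) h1 (by positivity)).trans (le_of_eq ?_)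
    rw [Real.mul_rpow hT0 (by positivity), ← Real.rpow_mul hl80.le]
  have h11 : T ^ (1 + ε) * T = T ^ (2 + ε) := by
    rcases hT0.eq_or_lt with h | h
    · rw [← h, Real.zero_rpow (by positivity), Real.zero_rpow (by positivity), zero_mul]
    · nth_rewrite 2 [← Real.rpow_one T]
      rw [← Real.rpow_add h]; congr 1; ring
  have h12 : l8 ^ ((1 / 2 - s) * (1 + ε)) * l8 ^ (3 / 2 - ε / 2 - s) = l8 ^ (2 - (2 + ε) * s) := by
    rw [← Real.rpow_add hl80]; congr 1; ring
  have h13 : l8 ^ (2 - (2 + ε) * s) = lam ^ 2 * lam ^ (-((2 + ε) * s)) * 8 ^ ((2 + ε) * s - 2) := by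
    rw [hl8, Real.div_rpow hlam.le (by norm_num)]
    have e1 : lam ^ (2 - (2 + ε) * s) = lam ^ 2 * lam ^ (-((2 + ε) * s)) := by
      rw [← Real.rpow_natCast, ← Real.rpow_add hlam]
      congr 1
    have e2 : (8 : ℝ) ^ ((2 + ε) * s - 2) = ((8 : ℝ) ^ (2 - (2 + ε) * s))⁻¹ := by
      rw [← Real.rpow_neg (by norm_num)]; congr 1; ring
    rw [e1, e2]
    rfl
  calc 4 * (2 * Real.pi) ^ 2 / (lam / 2) ^ 2 * (K * A * E * v * ((S / l8) ^ (1 + ε) * ∑ j, X j))
      ≤ 4 * (2 * Real.pi) ^ 2 / (lam / 2) ^ 2 * (K * A * E * v *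
        ((T ^ (1 + ε) * l8 ^ ((1 / 2 - s) * (1 + ε))) * (T * l8 ^ (3 / 2 - ε / 2 - s)))) := by
        gcongr
    _ = 4 * (2 * Real.pi) ^ 2 / (lam / 2) ^ 2 * (K * A * E * v *
        ((T ^ (1 + ε) * T) * (l8 ^ ((1 / 2 - s) * (1 + ε)) * l8 ^ (3 / 2 - ε / 2 - s)))) := by ring
    _ = _ := by
        rw [h11, h12, h13]
        field_simp
        ring

/-- `L^q` bound for disjoint pieces of equal measure -/
theorem powS (K : ℝ) (hK : 1 ≤ K) (s ε q : ℝ) (hs : 3 / 2 ≤ s) (hε : 0 < ε) (hq : (2 + ε) * s < q) :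
    ∃ C : ℝ, 0 ≤ C ∧ ∀ (ι : Type) [Fintype ι] (c : ι → ℂ)
    (R : ι → Set (ℝ × ℝ)) (u : ι → ℝ × ℝ → ℂ) (v Lam : ℝ),
    (∀ j, Tame K (R j) (u j)) → (∀ j, R j ⊆ Ico (-1 : ℝ) 1 ×ˢ Ico (-1 : ℝ) 1) →
    Pairwise (Function.onFun Disjoint R) → 0 ≤ v → (∀ j, volume (R j) = ENNReal.ofReal v) →
    0 ≤ Lam → (∀ p, ‖Fs c R u p‖ ≤ Lam) →
    ∫⁻ p, ‖Fs c R u p‖ₑ ^ q ≤
      ENNReal.ofReal (C * v * (∑ j, ‖c j‖ ^ s) ^ (2 + ε) * Lam ^ (q - (2 + ε) * s)) := by
  obtain ⟨C, hC0, hC⟩ := levelS K hK s ε hs hε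
  set η : ℝ := q - (2 + ε) * s with hη
  have hη0 : 0 < η := by rw [hη]; linarith
  have hq0 : 0 < q := lt_trans (by positivity) hq
  refine ⟨q * C / η, by positivity, ?_⟩
  intro ι _ c R u v Lam hT hsub hd hv0 hvol hLam0 hLam
  set T : ℝ := ∑ j, ‖c j‖ ^ s with hTdef
  have hT0 : 0 ≤ T := Finset.sum_nonneg fun j _ => Real.rpow_nonneg (norm_nonneg _) _
  have hFm : Measurable (Fs c R u) := Fs_meas fun j => (hT j).2.1.1
  have e1 : ∫⁻ p, ‖Fs c R u p‖ₑ ^ q = ∫⁻ p, ENNReal.ofReal (‖Fs c R u p‖ ^ q) :=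
    lintegral_congr fun p => enorm_rpow _ hq0.le
  rw [e1, lintegral_rpow_eq_lintegral_meas_lt_mul _ (Filter.Eventually.of_forall fun p => norm_nonneg _)
    hFm.norm.aemeasurable hq0]
  have hpt : ∀ t ∈ Ioi (0 : ℝ), volume {p | t < ‖Fs c R u p‖} * ENNReal.ofReal (t ^ (q - 1)) ≤
      (Ioc 0 Lam).indicator (fun t => ENNReal.ofReal (C * v * T ^ (2 + ε)) *
        ENNReal.ofReal (t ^ (η - 1))) t := by
    intro t ht
    have ht0 : 0 < t := ht
    by_cases htr : t < Lam
    · rw [indicator_of_mem (s := Ioc 0 Lam) ⟨ht0, htr.le⟩]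
      refine (mul_le_mul' (hC ι c R u v hT hsub hd hv0 hvol t ht0) le_rfl).trans (le_of_eq ?_)
      rw [← ENNReal.ofReal_mul (by positivity), ← ENNReal.ofReal_mul (by positivity)]
      congr 1
      have e3 : t ^ (-((2 + ε) * s)) * t ^ (q - 1) = t ^ (η - 1) := by
        rw [← Real.rpow_add ht0]
        congr 1
        rw [hη]
        ring
      rw [mul_assoc, e3]
    · have h0 : {p | t < ‖Fs c R u p‖} = ∅ := by
        ext p
        simp only [mem_ofPred_eq, mem_empty_iff_false, iff_false, not_lt]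
        exact (hLam p).trans (not_lt.1 htr)
      rw [h0]
      simp
  refine (mul_le_mul' le_rfl (setLIntegral_mono' measurableSet_Ioi hpt)).trans ?_
  rw [lintegral_indicator measurableSet_Ioc, Measure.restrict_restrict measurableSet_Ioc]
  have h5 : Ioc (0 : ℝ) Lam ∩ Ioi 0 = Ioc 0 Lam := by
    ext t; simp only [mem_inter_iff, mem_Ioc, mem_Ioi]; tauto
  rw [h5, lintegral_const_mul _ (by fun_prop), rpow_int _ _ hLam0 hη0,
    ← ENNReal.ofReal_mul (by positivity), ← ENNReal.ofReal_mul (by positivity)]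
  refine ENNReal.ofReal_le_ofReal (le_of_eq ?_)
  ring

end Run7.h239.PP
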