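import Pool.Agent.Run7.h239.Wrap
import Pool.Agent.Run7.h239.SLev
import Pool.Agent.Run7.h239.Dy
set_option autoImplicit false

/-!
The extension operator on dyadic step functions times piecewise polynomial chirps.
-/

namespace Run7.h239.PP

open MeasureTheory Set Complex
open scoped ENNReal NNReal

/-- the chirp with a polynomial phase on each square of side `2^{-k0}` -/
noncomputable def chp (P : ℤ × ℤ → MvPolynomial (Fin 2) ℝ) (k0 : ℕ) (x : ℝ × ℝ) : ℂ :=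
  cexp (I * (ev (P (idx k0 x)) x : ℂ))

theorem ev_idx_meas (P : ℤ × ℤ → MvPolynomial (Fin 2) ℝ) (k0 : ℕ) :
    Measurable (fun x => ev (P (idx k0 x)) x) := by
  intro s hs
  have h1 : (fun x => ev (P (idx k0 x)) x) ⁻¹' s = ⋃ i : ℤ × ℤ, cube k0 i ∩ (ev (P i)) ⁻¹' s := by
    ext x
    simp only [mem_preimage, mem_iUnion, mem_inter_iff]
    constructor
    · intro h
      exact ⟨idx k0 x, rfl, h⟩
    · rintro ⟨i, hi, h⟩
      have : idx k0 x = i := hi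
      rw [this]
      exact h
  rw [h1]
  exact MeasurableSet.iUnion fun i => (measurableSet_cube k0 i).inter ((ev_cont (P i)).measurable hs)

theorem chp_meas (P : ℤ × ℤ → MvPolynomial (Fin 2) ℝ) (k0 : ℕ) : Measurable (chp P k0) := by
  unfold chp
  have := ev_idx_meas P k0
  fun_prop

theorem chp_norm (P : ℤ × ℤ → MvPolynomial (Fin 2) ℝ) (k0 : ℕ) (x : ℝ × ℝ) : ‖chp P k0 x‖ = 1 := by
  unfold chp
  rw [mul_comm I, norm_exp_ofReal_mul_I]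

theorem ker_meas (t : ℝ) (ξ : ℝ × ℝ) : Measurable (fun x => ker t ξ x) := by
  unfold ker
  fun_prop

theorem vol_Sq_ne : volume Sq ≠ ∞ := by rw [volume_Sq]; norm_num

theorem isAmp_one : IsAmp (fun _ : ℝ × ℝ => (1 : ℂ)) := by
  refine ⟨fun _ => 0, fun _ => 0, fun _ => 0, ?_⟩
  constructor
  · exact continuous_const
  · exact continuous_const
  · exact continuous_const
  · exact continuous_const
  · intro x y; exact hasDerivAt_const _ _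
  · intro x y; exact hasDerivAt_const _ _
  · intro x y; exact hasDerivAt_const _ _
  · intro p; simp
  · intro p; simp
  · intro p; simp
  · intro p; simp

/-- the functions on the pieces -/
noncomputable def upc (P : ℤ × ℤ → MvPolynomial (Fin 2) ℝ) (k0 k : ℕ) (i : ℤ × ℤ) (x : ℝ × ℝ) : ℂ :=
  (1 : ℂ) * cexp (I * (ev (P (idx k0 (cpt k i))) x : ℂ))

theorem Fs_eq (P : ℤ × ℤ → MvPolynomial (Fin 2) ℝ) {k0 k : ℕ} (hk : k0 ≤ k) (c : ℤ × ℤ → ℂ)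
    (p : ℝ × (ℝ × ℝ)) :
    Fs (ι := Ik k) (fun j => c j) (fun j => cube k j) (fun j => upc P k0 k j) p =
      ∫ x in Sq, c (idx k x) * (chp P k0 x * ker p.1 p.2 x) := by
  have hw : IntegrableOn (fun x => chp P k0 x * ker p.1 p.2 x) Sq := by
    refine bint ((chp_meas P k0).mul (ker_meas _ _)) (fun x => ?_) vol_Sq_ne
    rw [Pi.mul_apply, norm_mul, chp_norm, norm_ker, mul_one]
  rw [← sum_cubes k c _ hw, ← Finset.sum_coe_sort (Ik k)]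
  unfold Fs
  refine Finset.sum_congr rfl fun j _ => ?_
  congr 1
  refine setIntegral_congr_fun (measurableSet_cube k j) fun x hx => ?_
  have h1 : idx k x = idx k (cpt k j) := by rw [idx_cpt]; exact hx
  have h2 := idx_mono hk h1
  simp only [upc, chp, one_mul, h2]

theorem Fs_norm {ι : Type*} [Fintype ι] (c : ι → ℂ) (R : ι → Set (ℝ × ℝ)) (u : ι → ℝ × ℝ → ℂ)
    (hu : ∀ j x, ‖u j x‖ ≤ 1) (v : ℝ) (hv : 0 ≤ v) (hvol : ∀ j, volume (R j) = ENNReal.ofReal v)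
    (p : ℝ × (ℝ × ℝ)) : ‖Fs c R u p‖ ≤ v * ∑ j, ‖c j‖ := by
  unfold Fs
  refine (norm_sum_le _ _).trans ?_
  rw [Finset.mul_sum]
  refine Finset.sum_le_sum fun j _ => ?_
  rw [norm_mul, mul_comm v]
  gcongr
  have := norm_setIntegral_le_of_norm_le_const (μ := volume) (s := R j) (C := 1)
    (f := fun x => u j x * ker p.1 p.2 x) (by rw [hvol]; exact ENNReal.ofReal_lt_top)
    (fun x _ => norm_hker (hu j) _ _ x)
  rw [Measure.real, hvol, ENNReal.toReal_ofReal hv, one_mul] at this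
  exact this

/-- the extension operator on a step function times the chirp -/
noncomputable def FF (P : ℤ × ℤ → MvPolynomial (Fin 2) ℝ) (k0 k : ℕ) (c : ℤ × ℤ → ℂ)
    (p : ℝ × (ℝ × ℝ)) : ℂ := ∫ x in Sq, c (idx k x) * (chp P k0 x * ker p.1 p.2 x)

theorem FF_meas (P : ℤ × ℤ → MvPolynomial (Fin 2) ℝ) {k0 k : ℕ} (hk : k0 ≤ k) (c : ℤ × ℤ → ℂ) :
    Measurable (FF P k0 k c) := by
  have h : FF P k0 k c = Fs (ι := Ik k) (fun j => c j) (fun j => cube k j) (fun j => upc P k0 k j) := by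
    funext p
    rw [Fs_eq P hk c p]
    rfl
  rw [h]
  refine Fs_meas fun j => ?_
  unfold upc
  have := (ev_cont (P (idx k0 (cpt k j)))).measurable
  fun_prop

/-- **One generation.** -/
theorem block (D : ℕ) (hD : 2 ≤ D) (s ε q : ℝ) (hs : 3 / 2 ≤ s) (hε : 0 < ε) (hq : (2 + ε) * s < q) :
    ∃ C : ℝ, 0 ≤ C ∧ ∀ (P : ℤ × ℤ → MvPolynomial (Fin 2) ℝ), (∀ i, (P i).totalDegree ≤ D) →
    ∀ (k0 k : ℕ), k0 ≤ k → ∀ c : ℤ × ℤ → ℂ,
    ∫⁻ p, ‖FF P k0 k c p‖ₑ ^ q ≤ ENNReal.ofReal (C * (1 / 4) ^ k * (∑ i ∈ Ik k, ‖c i‖ ^ s) ^ (2 + ε) *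
      ((1 / 4) ^ k * ∑ i ∈ Ik k, ‖c i‖) ^ (q - (2 + ε) * s)) := by
  obtain ⟨K, hK, hT⟩ := tame_rect D hD
  obtain ⟨C, hC0, hC⟩ := powS K hK s ε q hs hε hq
  refine ⟨C, hC0, ?_⟩
  intro P hP k0 k hk c
  have hub : ∀ (j : Ik k) x, ‖upc P k0 k j x‖ ≤ 1 := by
    intro j x
    unfold upc
    rw [one_mul, mul_comm I, norm_exp_ofReal_mul_I]
  have hv0 : (0 : ℝ) ≤ (1 / 4) ^ k := by positivity
  have h := hC (Ik k) (fun j => c j) (fun j => cube k j) (fun j => upc P k0 k j) ((1 / 4) ^ k)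
    ((1 / 4) ^ k * ∑ j : Ik k, ‖c j‖) ?_ (fun j => cube_sub_Sq j.2) ?_ hv0
    (fun j => volume_cube k j) (mul_nonneg hv0 (Finset.sum_nonneg fun _ _ => norm_nonneg _))
    (Fs_norm _ _ _ hub _ hv0 fun j => volume_cube k j)
  · have e1 : ∑ j : Ik k, ‖c j‖ = ∑ i ∈ Ik k, ‖c i‖ := Finset.sum_coe_sort (Ik k) fun i => ‖c i‖
    have e2 : ∑ j : Ik k, ‖c j‖ ^ s = ∑ i ∈ Ik k, ‖c i‖ ^ s :=
      Finset.sum_coe_sort (Ik k) fun i => ‖c i‖ ^ s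
    rw [e1, e2] at h
    have e3 : ∀ p, FF P k0 k c p =
        Fs (ι := Ik k) (fun j => c j) (fun j => cube k j) (fun j => upc P k0 k j) p := by
      intro p
      rw [Fs_eq P hk c p]
      rfl
    simp_rw [e3]
    exact h
  · intro j
    have h1 := hT (P (idx k0 (cpt k j))) (hP _) _ isAmp_one
      (Ico (((j : ℤ × ℤ).1 : ℝ) / 2 ^ k) (((j : ℤ × ℤ).1 + 1) / 2 ^ k))
      (Ico (((j : ℤ × ℤ).2 : ℝ) / 2 ^ k) (((j : ℤ × ℤ).2 + 1) / 2 ^ k)) ordConnected_Ico ordConnected_Ico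
      (by rw [← cube_eq]; exact cube_sub_Sq j.2)
    rw [← cube_eq] at h1
    exact h1
  · intro i j hij
    exact disj_cubes k (fun h => hij (Subtype.ext h))

/-- the coarse generation -/
theorem coarse (D : ℕ) (hD : 2 ≤ D) (s ε q : ℝ) (hs : 3 / 2 ≤ s) (hε : 0 < ε) (hq : (2 + ε) * s < q) :
    ∃ C : ℝ, 0 ≤ C ∧ ∀ (P : ℤ × ℤ → MvPolynomial (Fin 2) ℝ), (∀ i, (P i).totalDegree ≤ D) →
    ∀ (k0 : ℕ) (W : ℝ), 1 ≤ W → (2 : ℝ) ^ k0 ≤ 2 * W → ∀ b : ℝ × ℝ → ℂ, (∀ x, ‖b x‖ ≤ 1) →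
    ∫⁻ p, ‖FF P k0 k0 (avg b k0) p‖ₑ ^ q ≤ ENNReal.ofReal (C * W ^ (2 + 2 * ε)) := by
  obtain ⟨C, hC0, hC⟩ := block D hD s ε q hs hε hq
  have hη : 0 < q - (2 + ε) * s := by linarith
  refine ⟨C * 4 ^ (2 + ε) * 2 ^ (2 + 2 * ε) * 4 ^ (q - (2 + ε) * s), by positivity, ?_⟩
  intro P hP k0 W hW hk0 b hb1
  refine (hC P hP k0 k0 le_rfl (avg b k0)).trans (ENNReal.ofReal_le_ofReal ?_)
  have hs0 : 0 < s := by linarith
  have h4 : (0 : ℝ) < 4 ^ k0 := by positivity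
  have h1 : ∑ i ∈ Ik k0, ‖avg b k0 i‖ ^ s ≤ 4 * 4 ^ k0 := by
    calc ∑ i ∈ Ik k0, ‖avg b k0 i‖ ^ s ≤ ∑ _i ∈ Ik k0, (1 : ℝ) :=
          Finset.sum_le_sum fun i _ => Real.rpow_le_one (norm_nonneg _) (avg_le hb1 _ _) hs0.le
      _ = 4 * 4 ^ k0 := by
          rw [Finset.sum_const, card_Ik, nsmul_eq_mul, mul_one]
          push_cast
          ring
  have h2 : ∑ i ∈ Ik k0, ‖avg b k0 i‖ ≤ 4 * 4 ^ k0 := by
    calc ∑ i ∈ Ik k0, ‖avg b k0 i‖ ≤ ∑ _i ∈ Ik k0, (1 : ℝ) :=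
          Finset.sum_le_sum fun i _ => avg_le hb1 _ _
      _ = 4 * 4 ^ k0 := by
          rw [Finset.sum_const, card_Ik, nsmul_eq_mul, mul_one]
          push_cast
          ring
  have h3 : ((1 / 4 : ℝ)) ^ k0 * 4 ^ k0 = 1 := by rw [← mul_pow]; norm_num
  have h5 : (1 / 4 : ℝ) ^ k0 * ∑ i ∈ Ik k0, ‖avg b k0 i‖ ≤ 4 := by
    calc (1 / 4 : ℝ) ^ k0 * ∑ i ∈ Ik k0, ‖avg b k0 i‖ ≤ (1 / 4 : ℝ) ^ k0 * (4 * 4 ^ k0) := by gcongr
      _ = 4 * ((1 / 4 : ℝ) ^ k0 * 4 ^ k0) := by ring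
      _ = 4 := by rw [h3, mul_one]
  have h6 : (1 / 4 : ℝ) ^ k0 * (4 ^ k0) ^ (2 + ε) ≤ 2 ^ (2 + 2 * ε) * W ^ (2 + 2 * ε) := by
    have e1 : ((4 : ℝ) ^ k0) ^ (2 + ε) = 4 ^ k0 * (4 ^ k0) ^ (1 + ε) := by
      have : 2 + ε = 1 + (1 + ε) := by ring
      rw [this, Real.rpow_add h4, Real.rpow_one]
    have e2 : ((4 : ℝ) ^ k0) ^ (1 + ε) = ((2 : ℝ) ^ k0) ^ (2 + 2 * ε) := by
      have h7 : (4 : ℝ) ^ k0 = ((2 : ℝ) ^ k0) ^ (2 : ℝ) := by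
        rw [Real.rpow_two, ← pow_mul, mul_comm, pow_mul]; norm_num
      rw [h7, ← Real.rpow_mul (by positivity)]
      congr 1
      ring
    rw [e1, ← mul_assoc, h3, one_mul, e2, ← Real.mul_rpow (by norm_num) (by linarith)]
    exact Real.rpow_le_rpow (by positivity) hk0 (by positivity)
  calc C * (1 / 4) ^ k0 * (∑ i ∈ Ik k0, ‖avg b k0 i‖ ^ s) ^ (2 + ε) *
      ((1 / 4) ^ k0 * ∑ i ∈ Ik k0, ‖avg b k0 i‖) ^ (q - (2 + ε) * s)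
      ≤ C * (1 / 4) ^ k0 * (4 * 4 ^ k0) ^ (2 + ε) * 4 ^ (q - (2 + ε) * s) := by
        gcongr
    _ = C * 4 ^ (2 + ε) * ((1 / 4 : ℝ) ^ k0 * (4 ^ k0) ^ (2 + ε)) * 4 ^ (q - (2 + ε) * s) := by
        rw [Real.mul_rpow (by norm_num) (by positivity)]; ring
    _ ≤ C * 4 ^ (2 + ε) * (2 ^ (2 + 2 * ε) * W ^ (2 + 2 * ε)) * 4 ^ (q - (2 + ε) * s) := by gcongr
    _ = _ := by ring

/-- the fine generations -/
theorem fine (D : ℕ) (hD : 2 ≤ D) (s ε q p : ℝ) (hs : 3 / 2 ≤ s) (hps : p ≤ s) (hp : 1 ≤ p) (hε : 0 < ε)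
    (hq : (2 + ε) * s + 2 * ε * p ≤ q) (C1 : ℝ) (hC1 : 1 ≤ C1) :
    ∃ C : ℝ, 0 ≤ C ∧ ∀ (P : ℤ × ℤ → MvPolynomial (Fin 2) ℝ), (∀ i, (P i).totalDegree ≤ D) →
    ∀ (k0 : ℕ) (W : ℝ), 1 ≤ W → W ≤ (2 : ℝ) ^ k0 → (2 : ℝ) ^ k0 ≤ 2 * W →
    ∀ b : ℝ × ℝ → ℂ, Measurable b → (∀ x, ‖b x‖ ≤ 1) → ∀ n : ℕ, Var b p (k0 + n) (C1 * W) →
    ∫⁻ z, ‖FF P k0 (k0 + n + 1) (hc b (k0 + n)) z‖ₑ ^ q ≤
      ENNReal.ofReal (C * W ^ (2 + 2 * ε) * ((1 / 2) ^ ε) ^ n) := by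
  have hp0 : 0 < p := by linarith
  have hs0 : 0 < s := by linarith
  have hqq : (2 + ε) * s < q := by
    have : 0 < 2 * ε * p := by positivity
    linarith
  obtain ⟨C, hC0, hC⟩ := block D hD s ε q hs hε hqq
  set η : ℝ := q - (2 + ε) * s with hη
  have hη0 : 0 < η := by rw [hη]; linarith
  have hηp : 2 * ε ≤ η / p := by
    rw [le_div_iff₀ hp0, hη]; linarith
  refine ⟨C * (2 ^ s * 16) ^ (2 + ε) * 4 ^ η * C1 ^ 2 * (2 * C1) ^ ε * C1 ^ (η / p), by positivity, ?_⟩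
  intro P hP k0 W hW hWk hkW b hb hb1 n hV
  set k : ℕ := k0 + n with hk
  set G : ℝ := C1 * W with hG
  have hG0 : 0 < G := by positivity
  refine (hC P hP k0 (k + 1) (by omega) (hc b k)).trans (ENNReal.ofReal_le_ofReal ?_)
  have hsum := hc_sum hb hb1 p hp k G hG0.le hV
  have h2k : (0 : ℝ) < 2 ^ k := by positivity
  -- the `ℓ^s` norm
  have h1 : ∑ i ∈ Ik (k + 1), ‖hc b k i‖ ^ s ≤ 2 ^ s * 16 * (G * 2 ^ k) := by
    calc ∑ i ∈ Ik (k + 1), ‖hc b k i‖ ^ s ≤ ∑ i ∈ Ik (k + 1), 2 ^ s * ‖hc b k i‖ ^ p := by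
          refine Finset.sum_le_sum fun i _ => ?_
          have hle := hc_le hb1 k i
          rcases (norm_nonneg (hc b k i)).eq_or_lt with h | h
          · rw [← h, Real.zero_rpow hs0.ne', Real.zero_rpow hp0.ne', mul_zero]
          · have e : ‖hc b k i‖ ^ s = ‖hc b k i‖ ^ (s - p) * ‖hc b k i‖ ^ p := by
              rw [← Real.rpow_add h]; congr 1; ring
            rw [e]
            gcongr
            calc ‖hc b k i‖ ^ (s - p) ≤ 2 ^ (s - p) :=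
                  Real.rpow_le_rpow (norm_nonneg _) hle (by linarith)
              _ ≤ 2 ^ s := Real.rpow_le_rpow_of_exponent_le (by norm_num) (by linarith)
      _ = 2 ^ s * ∑ i ∈ Ik (k + 1), ‖hc b k i‖ ^ p := by rw [Finset.mul_sum]
      _ ≤ 2 ^ s * (16 * G * 2 ^ k) := by gcongr
      _ = _ := by ring
  -- the `ℓ¹` norm
  have h2 : (1 / 4 : ℝ) ^ (k + 1) * ∑ i ∈ Ik (k + 1), ‖hc b k i‖ ≤ 4 * (G * (1 / 2) ^ k) ^ (1 / p) := by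
    have h3 := Real.arith_mean_le_rpow_mean (Ik (k + 1)) (fun _ => (1 / 4 : ℝ) ^ (k + 2))
      (fun i => ‖hc b k i‖) (fun _ _ => by positivity) (by
        rw [Finset.sum_const, card_Ik, nsmul_eq_mul]
        push_cast
        rw [← mul_pow]
        norm_num) (fun _ _ => norm_nonneg _) hp
    rw [← Finset.mul_sum, ← Finset.mul_sum] at h3
    have h4 : (1 / 4 : ℝ) ^ (k + 2) * ∑ i ∈ Ik (k + 1), ‖hc b k i‖ ^ p ≤ G * (1 / 2) ^ k := by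
      calc (1 / 4 : ℝ) ^ (k + 2) * ∑ i ∈ Ik (k + 1), ‖hc b k i‖ ^ p
          ≤ (1 / 4 : ℝ) ^ (k + 2) * (16 * G * 2 ^ k) := by gcongr
        _ = G * ((1 / 4) ^ k * 2 ^ k) := by ring
        _ = G * (1 / 2) ^ k := by
            rw [← mul_pow]; norm_num
    calc (1 / 4 : ℝ) ^ (k + 1) * ∑ i ∈ Ik (k + 1), ‖hc b k i‖
        = 4 * ((1 / 4 : ℝ) ^ (k + 2) * ∑ i ∈ Ik (k + 1), ‖hc b k i‖) := by ring
      _ ≤ 4 * ((1 / 4 : ℝ) ^ (k + 2) * ∑ i ∈ Ik (k + 1), ‖hc b k i‖ ^ p) ^ (1 / p) := by gcongr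
      _ ≤ 4 * (G * (1 / 2) ^ k) ^ (1 / p) := by gcongr
  -- the two parameters
  have h5 : G * 2 ^ k ≤ (2 * C1) * W ^ (2 : ℝ) * 2 ^ n := by
    rw [hk, pow_add, Real.rpow_two, hG]
    calc C1 * W * (2 ^ k0 * 2 ^ n) ≤ C1 * W * ((2 * W) * 2 ^ n) := by gcongr
      _ = _ := by ring
  have h6 : G * (1 / 2) ^ k ≤ C1 * (1 / 2) ^ n := by
    have h7 : W * (1 / 2) ^ k0 ≤ 1 := by
      calc W * (1 / 2) ^ k0 ≤ 2 ^ k0 * (1 / 2) ^ k0 := by gcongr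
        _ = 1 := by rw [← mul_pow]; norm_num
    rw [hk, pow_add, hG]
    calc C1 * W * ((1 / 2) ^ k0 * (1 / 2) ^ n) = C1 * (W * (1 / 2) ^ k0) * (1 / 2) ^ n := by ring
      _ ≤ C1 * 1 * (1 / 2) ^ n := by gcongr
      _ = _ := by ring
  have hGk : 0 < G * 2 ^ k := by positivity
  have h8 : (1 / 4 : ℝ) ^ (k + 1) * (G * 2 ^ k) ^ (2 + ε) ≤
      G ^ 2 * ((2 * C1) ^ ε * W ^ (2 * ε) * (2 ^ n) ^ ε) := by
    have e1 : (G * 2 ^ k) ^ (2 + ε) = (G * 2 ^ k) ^ 2 * (G * 2 ^ k) ^ ε := by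
      rw [Real.rpow_add hGk, Real.rpow_two]
    have e2 : (1 / 4 : ℝ) ^ (k + 1) * (G * 2 ^ k) ^ 2 = 1 / 4 * G ^ 2 := by
      have : (1 / 4 : ℝ) ^ k * (2 ^ k) ^ 2 = 1 := by
        rw [← pow_mul, mul_comm k 2, pow_mul, ← mul_pow]; norm_num
      calc (1 / 4 : ℝ) ^ (k + 1) * (G * 2 ^ k) ^ 2 = 1 / 4 * G ^ 2 * ((1 / 4 : ℝ) ^ k * (2 ^ k) ^ 2) := by
            ring
        _ = _ := by rw [this, mul_one]
    have e3 : (G * 2 ^ k) ^ ε ≤ (2 * C1) ^ ε * W ^ (2 * ε) * (2 ^ n) ^ ε := by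
      refine (Real.rpow_le_rpow hGk.le h5 hε.le).trans (le_of_eq ?_)
      rw [Real.mul_rpow (by positivity) (by positivity), Real.mul_rpow (by positivity) (by positivity),
        ← Real.rpow_mul (by linarith)]
    calc (1 / 4 : ℝ) ^ (k + 1) * (G * 2 ^ k) ^ (2 + ε)
        = ((1 / 4 : ℝ) ^ (k + 1) * (G * 2 ^ k) ^ 2) * (G * 2 ^ k) ^ ε := by rw [e1]; ring
      _ = 1 / 4 * G ^ 2 * (G * 2 ^ k) ^ ε := by rw [e2]
      _ ≤ 1 * G ^ 2 * ((2 * C1) ^ ε * W ^ (2 * ε) * (2 ^ n) ^ ε) := by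
          gcongr
          norm_num
      _ = _ := by ring
  have h9 : ((G * (1 / 2) ^ k) ^ (1 / p)) ^ η ≤ C1 ^ (η / p) * ((1 / 2) ^ n) ^ (2 * ε) := by
    rw [← Real.rpow_mul (by positivity)]
    have e1 : 1 / p * η = η / p := by ring
    rw [e1]
    calc (G * (1 / 2) ^ k) ^ (η / p) ≤ (C1 * (1 / 2) ^ n) ^ (η / p) :=
          Real.rpow_le_rpow (by positivity) h6 (by positivity)
      _ = C1 ^ (η / p) * ((1 / 2) ^ n) ^ (η / p) := Real.mul_rpow (by positivity) (by positivity)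
      _ ≤ C1 ^ (η / p) * ((1 / 2) ^ n) ^ (2 * ε) := by
          gcongr ?_ * ?_
          refine Real.rpow_le_rpow_of_exponent_ge (by positivity) ?_ hηp
          exact pow_le_one₀ (by norm_num) (by norm_num)
  have h10 : ((2 : ℝ) ^ n) ^ ε * ((1 / 2) ^ n) ^ (2 * ε) = ((1 / 2) ^ ε) ^ n := by
    have e1 : ((1 / 2 : ℝ) ^ n) ^ (2 * ε) = ((1 / 2) ^ n) ^ ε * ((1 / 2) ^ n) ^ ε := by
      rw [two_mul, Real.rpow_add (by positivity)]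
    have e2 : ((2 : ℝ) ^ n) ^ ε * ((1 / 2) ^ n) ^ ε = 1 := by
      rw [← Real.mul_rpow (by positivity) (by positivity), ← mul_pow]
      norm_num
    have e3 : ((1 / 2 : ℝ) ^ n) ^ ε = ((1 / 2) ^ ε) ^ n := by
      rw [← Real.rpow_natCast, ← Real.rpow_natCast, ← Real.rpow_mul (by norm_num),
        ← Real.rpow_mul (by norm_num), mul_comm]
    rw [e1, ← mul_assoc, e2, one_mul, e3]
  calc C * (1 / 4) ^ (k + 1) * (∑ i ∈ Ik (k + 1), ‖hc b k i‖ ^ s) ^ (2 + ε) *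
      ((1 / 4) ^ (k + 1) * ∑ i ∈ Ik (k + 1), ‖hc b k i‖) ^ η
      ≤ C * (1 / 4) ^ (k + 1) * (2 ^ s * 16 * (G * 2 ^ k)) ^ (2 + ε) *
        (4 * (G * (1 / 2) ^ k) ^ (1 / p)) ^ η := by
        gcongr
    _ = C * (2 ^ s * 16) ^ (2 + ε) * 4 ^ η * ((1 / 4 : ℝ) ^ (k + 1) * (G * 2 ^ k) ^ (2 + ε)) *
        ((G * (1 / 2) ^ k) ^ (1 / p)) ^ η := by
        rw [Real.mul_rpow (by positivity) (by positivity), Real.mul_rpow (x := 4) (by positivity)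
          (by positivity)]
        ring
    _ ≤ C * (2 ^ s * 16) ^ (2 + ε) * 4 ^ η * (G ^ 2 * ((2 * C1) ^ ε * W ^ (2 * ε) * (2 ^ n) ^ ε)) *
        (C1 ^ (η / p) * ((1 / 2) ^ n) ^ (2 * ε)) := by
        gcongr
    _ = C * (2 ^ s * 16) ^ (2 + ε) * 4 ^ η * C1 ^ 2 * (2 * C1) ^ ε * C1 ^ (η / p) *
        (W ^ 2 * W ^ (2 * ε)) * ((2 ^ n) ^ ε * ((1 / 2) ^ n) ^ (2 * ε)) := by
        rw [hG]; ring
    _ = _ := by
        rw [h10]
        congr 2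
        rw [Real.rpow_add (by linarith), Real.rpow_two]

end Run7.h239.PP
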