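import Pool.Agent.Run7.h239.Wrap
set_option autoImplicit false

/-!
Local approximation of `C^m` functions of two variables by polynomials, with control of the gradient.
-/

namespace Run7.h239.PP

open MeasureTheory Set Complex Metric
open scoped ENNReal NNReal RealInnerProductSpace

section alg

open MvPolynomial

theorem aeval_deg (f : Fin 2 → MvPolynomial (Fin 2) ℝ) (hf : ∀ i, (f i).totalDegree ≤ 1)
    (P : MvPolynomial (Fin 2) ℝ) : (aeval f P).totalDegree ≤ P.totalDegree := by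
  rw [aeval_def, eval₂_eq']
  refine totalDegree_finsetSum_le fun m hm => ?_
  refine (totalDegree_mul _ _).trans ?_
  rw [MvPolynomial.algebraMap_eq, totalDegree_C, zero_add, Fin.prod_univ_two]
  refine (totalDegree_mul _ _).trans ?_
  have h1 := (totalDegree_pow (f 0) (m 0)).trans (Nat.mul_le_mul_left _ (hf 0))
  have h2 := (totalDegree_pow (f 1) (m 1)).trans (Nat.mul_le_mul_left _ (hf 1))
  have h3 : m 0 + m 1 = m.sum fun _ e => e := by
    rw [Finsupp.sum_fintype _ _ (fun _ => rfl), Fin.sum_univ_two]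
  have h4 := le_totalDegree hm
  omega

/-- the polynomial with its first variable frozen -/
noncomputable def fz (x0 : ℝ) (P : MvPolynomial (Fin 2) ℝ) : MvPolynomial (Fin 2) ℝ :=
  aeval (![C x0, X 1] : Fin 2 → MvPolynomial (Fin 2) ℝ) P

theorem fz_deg (x0 : ℝ) (P : MvPolynomial (Fin 2) ℝ) : (fz x0 P).totalDegree ≤ P.totalDegree := by
  refine aeval_deg _ (fun i => ?_) P
  obtain rfl | rfl : i = 0 ∨ i = 1 := by fin_cases i <;> simp
  · simp
  · simp

theorem ev_fz (x0 : ℝ) (P : MvPolynomial (Fin 2) ℝ) (x y : ℝ) : ev (fz x0 P) (x, y) = ev P (x0, y) := by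
  unfold fz ev
  induction P using MvPolynomial.induction_on with
  | C a => simp
  | add P Q hP hQ => simp only [map_add, hP, hQ]
  | mul_X P i hP =>
    simp only [map_mul, hP, aeval_X, eval_X]
    obtain rfl | rfl : i = 0 ∨ i = 1 := by fin_cases i <;> simp
    · simp
    · simp

/-- antiderivatives of polynomials -/
theorem antideriv (i : Fin 2) (P : MvPolynomial (Fin 2) ℝ) : ∃ A : MvPolynomial (Fin 2) ℝ,
    A.totalDegree ≤ P.totalDegree + 1 ∧ pderiv i A = P := by
  classical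
  refine ⟨∑ m ∈ P.support, monomial (m + Finsupp.single i 1) (coeff m P / ((m i : ℝ) + 1)), ?_, ?_⟩
  · refine totalDegree_finsetSum_le fun m hm => ?_
    refine (totalDegree_monomial_le _ _).trans ?_
    have h3 : ((m + Finsupp.single i 1).sum fun _ => id) = (m.sum fun _ e => e) + 1 := by
      have : (m + Finsupp.single i 1).degree = m.degree + 1 := by
        rw [map_add, Finsupp.degree_single]
      exact this
    have h4 := le_totalDegree hm
    omega
  · rw [map_sum]
    conv_rhs => rw [P.as_sum]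
    refine Finset.sum_congr rfl fun m _ => ?_
    rw [pderiv_monomial]
    have h1 : m + Finsupp.single i 1 - Finsupp.single i 1 = m := by
      ext j; simp
    have h2 : coeff m P / ((m i : ℝ) + 1) * (((m + Finsupp.single i 1 : Fin 2 →₀ ℕ) i : ℕ) : ℝ) =
        coeff m P := by
      have : (((m + Finsupp.single i 1 : Fin 2 →₀ ℕ) i : ℕ) : ℝ) = (m i : ℝ) + 1 := by
        simp
      rw [this]
      have h3 : ((m i : ℝ) + 1) ≠ 0 := by positivity
      field_simp
    rw [h1, h2]

end alg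

/-- first basis vector -/
noncomputable def b0 : E 2 := EuclideanSpace.single 0 (1 : ℝ)
/-- second basis vector -/
noncomputable def b1 : E 2 := EuclideanSpace.single 1 (1 : ℝ)

/-- the point with given coordinates -/
noncomputable def pt (x y : ℝ) : E 2 := x • b0 + y • b1

theorem norm_b0 : ‖b0‖ = 1 := by simp [b0]
theorem norm_b1 : ‖b1‖ = 1 := by simp [b1]

theorem toP_symm_eq (x : ℝ × ℝ) : toP.symm x = pt x.1 x.2 := by
  ext i
  obtain rfl | rfl : i = 0 ∨ i = 1 := by fin_cases i <;> simp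
  · rw [toP_symm0]
    simp [pt, b0, b1]
  · rw [toP_symm1]
    simp [pt, b0, b1]

theorem norm_pt_sub (x y x' y' : ℝ) : ‖pt x y - pt x' y'‖ ≤ |x - x'| + |y - y'| := by
  have : pt x y - pt x' y' = (x - x') • b0 + (y - y') • b1 := by
    unfold pt
    rw [sub_smul, sub_smul]
    abel
  rw [this]
  refine (norm_add_le _ _).trans ?_
  rw [norm_smul, norm_smul, norm_b0, norm_b1, mul_one, mul_one, Real.norm_eq_abs, Real.norm_eq_abs]

theorem deriv_pt0 {φ : E 2 → ℝ} (hφ : Differentiable ℝ φ) (x y : ℝ) :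
    HasDerivAt (fun s => φ (pt s y)) (fderiv ℝ φ (pt x y) b0) x := by
  have h1 : HasDerivAt (fun s => pt s y) b0 x := by
    unfold pt
    have := ((hasDerivAt_id' x).smul_const b0).add_const (y • b1)
    simpa using this
  exact (hφ _).hasFDerivAt.comp_hasDerivAt x h1

theorem deriv_pt1 {φ : E 2 → ℝ} (hφ : Differentiable ℝ φ) (x y : ℝ) :
    HasDerivAt (fun s => φ (pt x s)) (fderiv ℝ φ (pt x y) b1) y := by
  have h1 : HasDerivAt (fun s => pt x s) b1 y := by
    unfold pt
    have := ((hasDerivAt_id' y).smul_const b1).const_add (x • b0)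
    simpa using this
  exact (hφ _).hasFDerivAt.comp_hasDerivAt y h1

/-- mean value inequality on an interval -/
theorem mvt {F F' : ℝ → ℝ} (h : ∀ s, HasDerivAt F (F' s) s) {x0 δ B : ℝ}
    (hB : ∀ s ∈ Icc (x0 - δ) (x0 + δ), |F' s| ≤ B) {x y : ℝ} (hx : x ∈ Icc (x0 - δ) (x0 + δ))
    (hy : y ∈ Icc (x0 - δ) (x0 + δ)) : |F x - F y| ≤ B * |x - y| := by
  have := Convex.norm_image_sub_le_of_norm_hasDerivWithin_le (f := F) (f' := F') (C := B)
    (s := Icc (x0 - δ) (x0 + δ)) (x := y) (y := x) (fun s _ => (h s).hasDerivWithinAt)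
    (fun s hs => by rw [Real.norm_eq_abs]; exact hB s hs) (convex_Icc _ _) hy hx
  simpa only [Real.norm_eq_abs] using this

/-- **Local polynomial approximation.** -/
theorem approx (m : ℕ) : ∀ (φ : E 2 → ℝ) (L : ℝ), ContDiff ℝ ((m : ℕ) + 1 : ℕ) φ → 0 ≤ L →
    (∀ x, ‖iteratedFDeriv ℝ (m + 1) φ x‖ ≤ L) → ∀ x0 y0 δ : ℝ, 0 ≤ δ →
    ∃ P : MvPolynomial (Fin 2) ℝ, P.totalDegree ≤ m + 1 ∧
      (∀ x ∈ Icc (x0 - δ) (x0 + δ), ∀ y ∈ Icc (y0 - δ) (y0 + δ),
        |φ (pt x y) - ev P (x, y)| ≤ 2 * 4 ^ m * L * δ ^ (m + 1)) ∧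
      (∀ x ∈ Icc (x0 - δ) (x0 + δ), ∀ y ∈ Icc (y0 - δ) (y0 + δ),
        ∀ x' ∈ Icc (x0 - δ) (x0 + δ), ∀ y' ∈ Icc (y0 - δ) (y0 + δ),
        |(φ (pt x y) - ev P (x, y)) - (φ (pt x' y') - ev P (x', y'))| ≤
          2 * 4 ^ m * L * δ ^ m * (|x - x'| + |y - y'|)) := by
  induction m with
  | zero =>
    intro φ L hφ hL hD x0 y0 δ hδ
    have hdiff : Differentiable ℝ φ := hφ.differentiable (by norm_num)
    have hlip : ∀ p q : E 2, |φ p - φ q| ≤ L * ‖p - q‖ := by
      intro p q
      have := Convex.norm_image_sub_le_of_norm_fderiv_le (𝕜 := ℝ) (f := φ) (C := L)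
        (s := univ) (x := q) (y := p) (fun z _ => hdiff z) (fun z _ => by
          have h := hD z
          rwa [zero_add, norm_iteratedFDeriv_one] at h) convex_univ (mem_univ _) (mem_univ _)
      simpa only [Real.norm_eq_abs] using this
    have hlip2 : ∀ x y x' y' : ℝ, |φ (pt x y) - φ (pt x' y')| ≤ L * (|x - x'| + |y - y'|) :=
      fun x y x' y' => (hlip _ _).trans (by gcongr; exact norm_pt_sub _ _ _ _)
    have hev : ∀ z, ev (MvPolynomial.C (φ (pt x0 y0))) z = φ (pt x0 y0) := fun z => ev_C _ z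
    refine ⟨MvPolynomial.C (φ (pt x0 y0)), by simp, ?_, ?_⟩
    · intro x hx y hy
      rw [hev]
      refine (hlip2 _ _ _ _).trans ?_
      have h1 : |x - x0| ≤ δ := abs_le.2 ⟨by linarith [hx.1], by linarith [hx.2]⟩
      have h2 : |y - y0| ≤ δ := abs_le.2 ⟨by linarith [hy.1], by linarith [hy.2]⟩
      calc L * (|x - x0| + |y - y0|) ≤ L * (δ + δ) := by gcongr
        _ = 2 * 4 ^ 0 * L * δ ^ (0 + 1) := by ring
    · intro x hx y hy x' hx' y' hy'
      rw [hev, hev]
      have e : (φ (pt x y) - φ (pt x0 y0)) - (φ (pt x' y') - φ (pt x0 y0)) =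
          φ (pt x y) - φ (pt x' y') := by ring
      rw [e]
      refine (hlip2 _ _ _ _).trans ?_
      have : 0 ≤ |x - x'| + |y - y'| := by positivity
      nlinarith [mul_nonneg hL this]
  | succ m ih =>
    intro φ L hφ hL hD x0 y0 δ hδ
    have hdiff : Differentiable ℝ φ := hφ.differentiable (by
      have h : (m + 1 + 1 : ℕ) ≠ 0 := Nat.succ_ne_zero _
      exact_mod_cast h)
    have hφ' : ContDiff ℝ ((m : ℕ) + 1 : ℕ) (fderiv ℝ φ) := by
      refine hφ.fderiv_right ?_
      push_cast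
      exact le_rfl
    have hc : ∀ b : E 2, ContDiff ℝ ((m : ℕ) + 1 : ℕ) (fun x => fderiv ℝ φ x b) :=
      fun b => hφ'.clm_apply contDiff_const
    have hbd : ∀ b : E 2, ‖b‖ = 1 → ∀ x, ‖iteratedFDeriv ℝ (m + 1) (fun x => fderiv ℝ φ x b) x‖ ≤ L := by
      intro b hb x
      refine (norm_iteratedFDeriv_clm_apply_const (hφ'.contDiffAt) (by exact_mod_cast le_rfl)).trans ?_
      rw [hb, one_mul, norm_iteratedFDeriv_fderiv]
      exact hD x
    obtain ⟨P1, hP1, hs1, hl1⟩ := ih _ L (hc b0) hL (hbd b0 norm_b0) x0 y0 δ hδ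
    obtain ⟨P2, hP2, hs2, hl2⟩ := ih _ L (hc b1) hL (hbd b1 norm_b1) x0 y0 δ hδ
    obtain ⟨A, hA, hA'⟩ := antideriv 0 P1
    obtain ⟨B, hB, hB'⟩ := antideriv 1 P2
    have hAd : ∀ x y, HasDerivAt (fun s => ev A (s, y)) (ev P1 (x, y)) x := by
      intro x y
      have := ev_dx A x y
      rwa [hA'] at this
    have hBd : ∀ x y, HasDerivAt (fun s => ev B (x, s)) (ev P2 (x, y)) y := by
      intro x y
      have := ev_dy B x y
      rwa [hB'] at this
    set T : MvPolynomial (Fin 2) ℝ := MvPolynomial.C (φ (pt x0 y0)) + (A - fz x0 A) +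
      (fz x0 B - MvPolynomial.C (ev B (x0, y0))) with hT
    have hTev : ∀ x y, ev T (x, y) = φ (pt x0 y0) + (ev A (x, y) - ev A (x0, y)) +
        (ev B (x0, y) - ev B (x0, y0)) := by
      intro x y
      rw [hT, ev_add, ev_add, ev_sub, ev_sub, ev_C, ev_C, ev_fz, ev_fz]
    set Cm : ℝ := 2 * 4 ^ m with hCm
    have hCm0 : 0 ≤ Cm := by positivity
    have hx0 : x0 ∈ Icc (x0 - δ) (x0 + δ) := ⟨by linarith, by linarith⟩
    have hy0 : y0 ∈ Icc (y0 - δ) (y0 + δ) := ⟨by linarith, by linarith⟩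
    set g : ℝ → ℝ → ℝ := fun x y => φ (pt x y) - ev T (x, y) with hg
    -- Lipschitz in `x`
    have lipx : ∀ x ∈ Icc (x0 - δ) (x0 + δ), ∀ x' ∈ Icc (x0 - δ) (x0 + δ),
        ∀ y ∈ Icc (y0 - δ) (y0 + δ), |g x y - g x' y| ≤ Cm * L * δ ^ (m + 1) * |x - x'| := by
      intro x hx x' hx' y hy
      have h := mvt (F := fun s => φ (pt s y) - ev A (s, y))
        (F' := fun s => fderiv ℝ φ (pt s y) b0 - ev P1 (s, y))
        (fun s => (deriv_pt0 hdiff s y).sub (hAd s y)) (x0 := x0) (δ := δ)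
        (B := Cm * L * δ ^ (m + 1)) (fun s hs => hs1 s hs y hy) hx hx'
      have e : g x y - g x' y = (φ (pt x y) - ev A (x, y)) - (φ (pt x' y) - ev A (x', y)) := by
        rw [hg]
        simp only [hTev]
        ring
      rw [e]
      exact h
    -- Lipschitz in `y`
    have lipy : ∀ x ∈ Icc (x0 - δ) (x0 + δ), ∀ y ∈ Icc (y0 - δ) (y0 + δ),
        ∀ y' ∈ Icc (y0 - δ) (y0 + δ), |g x y - g x y'| ≤ 2 * (Cm * L * δ ^ (m + 1)) * |y - y'| := by
      intro x hx y hy y' hy'
      have h1 := mvt (F := fun s => (φ (pt s y) - ev A (s, y)) - (φ (pt s y') - ev A (s, y')))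
        (F' := fun s => (fderiv ℝ φ (pt s y) b0 - ev P1 (s, y)) -
          (fderiv ℝ φ (pt s y') b0 - ev P1 (s, y')))
        (fun s => ((deriv_pt0 hdiff s y).sub (hAd s y)).sub
          ((deriv_pt0 hdiff s y').sub (hAd s y'))) (x0 := x0) (δ := δ)
        (B := Cm * L * δ ^ m * |y - y'|) (fun s hs => by
          have := hl1 s hs y hy s hs y' hy'
          simpa using this) hx hx0
      have h2 := mvt (F := fun s => φ (pt x0 s) - ev B (x0, s))
        (F' := fun s => fderiv ℝ φ (pt x0 s) b1 - ev P2 (x0, s))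
        (fun s => (deriv_pt1 hdiff x0 s).sub (hBd x0 s)) (x0 := y0) (δ := δ)
        (B := Cm * L * δ ^ (m + 1)) (fun s hs => hs2 x0 hx0 s hs) hy hy'
      have e : g x y - g x y' = (((φ (pt x y) - ev A (x, y)) - (φ (pt x y') - ev A (x, y'))) -
          ((φ (pt x0 y) - ev A (x0, y)) - (φ (pt x0 y') - ev A (x0, y')))) +
          ((φ (pt x0 y) - ev B (x0, y)) - (φ (pt x0 y') - ev B (x0, y'))) := by
        rw [hg]
        simp only [hTev]
        ring
      rw [e]
      refine (abs_add_le _ _).trans ?_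
      have h3 : |x - x0| ≤ δ := abs_le.2 ⟨by linarith [hx.1], by linarith [hx.2]⟩
      have h4 : Cm * L * δ ^ m * |y - y'| * |x - x0| ≤ Cm * L * δ ^ (m + 1) * |y - y'| := by
        calc Cm * L * δ ^ m * |y - y'| * |x - x0| ≤ Cm * L * δ ^ m * |y - y'| * δ := by gcongr
          _ = _ := by ring
      calc _ ≤ Cm * L * δ ^ m * |y - y'| * |x - x0| + Cm * L * δ ^ (m + 1) * |y - y'| :=
            add_le_add h1 h2
        _ ≤ _ := by linarith
    have lip : ∀ x ∈ Icc (x0 - δ) (x0 + δ), ∀ y ∈ Icc (y0 - δ) (y0 + δ),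
        ∀ x' ∈ Icc (x0 - δ) (x0 + δ), ∀ y' ∈ Icc (y0 - δ) (y0 + δ),
        |g x y - g x' y'| ≤ 2 * (Cm * L * δ ^ (m + 1)) * (|x - x'| + |y - y'|) := by
      intro x hx y hy x' hx' y' hy'
      have e : g x y - g x' y' = (g x y - g x' y) + (g x' y - g x' y') := by ring
      rw [e]
      refine (abs_add_le _ _).trans ?_
      have h1 := lipx x hx x' hx' y hy
      have h2 := lipy x' hx' y hy y' hy'
      have h3 : 0 ≤ Cm * L * δ ^ (m + 1) * |x - x'| := by positivity
      calc _ ≤ Cm * L * δ ^ (m + 1) * |x - x'| + 2 * (Cm * L * δ ^ (m + 1)) * |y - y'| :=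
            add_le_add h1 h2
        _ ≤ _ := by linarith
    refine ⟨T, ?_, ?_, ?_⟩
    · rw [hT]
      have hc0 : ∀ r : ℝ, (MvPolynomial.C r : MvPolynomial (Fin 2) ℝ).totalDegree ≤ m + 1 + 1 := by
        intro r; simp
      have hAf := (fz_deg x0 A)
      have hBf := (fz_deg x0 B)
      refine (MvPolynomial.totalDegree_add _ _).trans (max_le ?_ ?_)
      · refine (MvPolynomial.totalDegree_add _ _).trans (max_le (hc0 _) ?_)
        refine (MvPolynomial.totalDegree_sub _ _).trans (max_le ?_ ?_)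
        · omega
        · omega
      · refine (MvPolynomial.totalDegree_sub _ _).trans (max_le ?_ (hc0 _))
        omega
    · intro x hx y hy
      have hg0 : g x0 y0 = 0 := by
        rw [hg]
        simp only [hTev]
        ring
      have h1 := lip x hx y hy x0 hx0 y0 hy0
      rw [hg0, sub_zero] at h1
      refine h1.trans ?_
      have h3 : |x - x0| ≤ δ := abs_le.2 ⟨by linarith [hx.1], by linarith [hx.2]⟩
      have h4 : |y - y0| ≤ δ := abs_le.2 ⟨by linarith [hy.1], by linarith [hy.2]⟩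
      calc 2 * (Cm * L * δ ^ (m + 1)) * (|x - x0| + |y - y0|)
          ≤ 2 * (Cm * L * δ ^ (m + 1)) * (δ + δ) := by gcongr
        _ = _ := by rw [hCm]; ring
    · intro x hx y hy x' hx' y' hy'
      refine (lip x hx y hy x' hx' y' hy').trans ?_
      have h5 : 0 ≤ Cm * L * δ ^ (m + 1) * (|x - x'| + |y - y'|) := by positivity
      have e : 2 * 4 ^ (m + 1) * L * δ ^ (m + 1) * (|x - x'| + |y - y'|) =
          4 * (Cm * L * δ ^ (m + 1) * (|x - x'| + |y - y'|)) := by rw [hCm]; ring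
      rw [e]
      linarith

end Run7.h239.PP
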