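import Pool.Agent.Run7.h239.BVa
import Pool.Agent.Run7.h239.Tay
set_option autoImplicit false

/-!
Bounded variation amplitudes and `C^m` phases.
-/

namespace Run7.h239.PP

open MeasureTheory Set Complex Metric
open scoped ENNReal NNReal RealInnerProductSpace

theorem avg_idx_meas (c : ℤ × ℤ → ℂ) (k : ℕ) : Measurable (fun x => c (idx k x)) := by
  intro s hs
  have h1 : (fun x => c (idx k x)) ⁻¹' s = ⋃ i : ℤ × ℤ, cube k i ∩ {_x | c i ∈ s} := by
    ext x
    simp only [mem_preimage, mem_iUnion, mem_inter_iff, mem_ofPred_eq]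
    constructor
    · intro h
      exact ⟨idx k x, rfl, h⟩
    · rintro ⟨i, hi, h⟩
      have : idx k x = i := hi
      rw [this]
      exact h
  rw [h1]
  exact MeasurableSet.iUnion fun i => (measurableSet_cube k i).inter (MeasurableSet.const _)

theorem ck_meas (P : ℤ × ℤ → MvPolynomial (Fin 2) ℝ) (k0 : ℕ) (p : ℝ × (ℝ × ℝ)) :
    Measurable (fun x => chp P k0 x * ker p.1 p.2 x) := (chp_meas P k0).mul (ker_meas _ _)

theorem ck_norm (P : ℤ × ℤ → MvPolynomial (Fin 2) ℝ) (k0 : ℕ) (p : ℝ × (ℝ × ℝ)) (x : ℝ × ℝ) :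
    ‖chp P k0 x * ker p.1 p.2 x‖ = 1 := by
  rw [norm_mul, chp_norm, norm_ker, mul_one]

theorem FF_int (P : ℤ × ℤ → MvPolynomial (Fin 2) ℝ) (k0 : ℕ) (p : ℝ × (ℝ × ℝ)) {g : ℝ × ℝ → ℂ}
    (hg : Measurable g) (hg1 : ∀ x, ‖g x‖ ≤ 1) :
    IntegrableOn (fun x => g x * (chp P k0 x * ker p.1 p.2 x)) Sq := by
  refine bint (hg.mul (ck_meas P k0 p)) (fun x => ?_) vol_Sq_ne
  rw [Pi.mul_apply, norm_mul, ck_norm, mul_one]
  exact hg1 x

theorem FF_step (P : ℤ × ℤ → MvPolynomial (Fin 2) ℝ) (k0 k : ℕ) {b : ℝ × ℝ → ℂ}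
    (hb1 : ∀ x, ‖b x‖ ≤ 1) (p : ℝ × (ℝ × ℝ)) :
    FF P k0 (k + 1) (avg b (k + 1)) p = FF P k0 k (avg b k) p + FF P k0 (k + 1) (hc b k) p := by
  have h1 := FF_int P k0 p (avg_idx_meas (avg b (k + 1)) (k + 1)) (fun x => avg_le hb1 _ _)
  have h2 := FF_int P k0 p (avg_idx_meas (avg b k) k) (fun x => avg_le hb1 _ _)
  have h3 : FF P k0 (k + 1) (hc b k) p = ∫ x in Sq,
      (avg b (k + 1) (idx (k + 1) x) * (chp P k0 x * ker p.1 p.2 x) -
        avg b k (idx k x) * (chp P k0 x * ker p.1 p.2 x)) := by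
    unfold FF
    refine setIntegral_congr_fun measurableSet_Sq fun x _ => ?_
    simp only [hc]
    rw [idx_par k x]
    ring
  rw [h3, integral_sub h1 h2]
  unfold FF
  ring

/-- all the partial sums are bounded -/
theorem sums_bound (D : ℕ) (hD : 2 ≤ D) (s ε q p : ℝ) (hs : 3 / 2 ≤ s) (hps : p ≤ s) (hp : 1 ≤ p)
    (hε : 0 < ε) (hq : (2 + ε) * s + 2 * ε * p ≤ q) (hq1 : 1 ≤ q) (C1 : ℝ) (hC1 : 1 ≤ C1) :
    ∃ C : ℝ, 0 ≤ C ∧ ∀ (P : ℤ × ℤ → MvPolynomial (Fin 2) ℝ), (∀ i, (P i).totalDegree ≤ D) →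
    ∀ (k0 : ℕ) (W : ℝ), 1 ≤ W → W ≤ (2 : ℝ) ^ k0 → (2 : ℝ) ^ k0 ≤ 2 * W →
    ∀ b : ℝ × ℝ → ℂ, Measurable b → (∀ x, ‖b x‖ ≤ 1) → (∀ n : ℕ, Var b p (k0 + n) (C1 * W)) →
    ∀ n : ℕ, eLpNorm (FF P k0 (k0 + n) (avg b (k0 + n))) (ENNReal.ofReal q) volume ≤
      ENNReal.ofReal (C * W ^ ((2 + 2 * ε) / q)) := by
  have hp0 : 0 < p := by linarith
  have hq0 : 0 < q := by linarith
  have hqq : (2 + ε) * s < q := by
    have : 0 < 2 * ε * p := by positivity
    linarith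
  obtain ⟨A, hA0, hA⟩ := coarse D hD s ε q hs hε hqq
  obtain ⟨B, hB0, hB⟩ := fine D hD s ε q p hs hps hp hε hq C1 hC1
  set r : ℝ := ((1 / 2 : ℝ) ^ ε) ^ (1 / q) with hr
  have hr0 : 0 < r := by positivity
  have hr1 : r < 1 := by
    rw [hr]
    refine Real.rpow_lt_one (by positivity) ?_ (by positivity)
    exact Real.rpow_lt_one (by norm_num) (by norm_num) hε
  refine ⟨A ^ (1 / q) + B ^ (1 / q) * (1 - r)⁻¹, ?_, ?_⟩
  · have : 0 < 1 - r := by linarith
    positivity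
  intro P hP k0 W hW hWk hkW b hb hb1 hV
  have hW0 : 0 < W := by linarith
  set X : ℝ := W ^ ((2 + 2 * ε) / q) with hX
  have hX0 : 0 < X := by positivity
  have hXq : (W ^ (2 + 2 * ε)) ^ (1 / q) = X := by
    rw [← Real.rpow_mul hW0.le, hX]; congr 1; ring
  have heL : ∀ (g : ℝ × (ℝ × ℝ) → ℂ) (Y : ℝ), 0 ≤ Y → ∫⁻ z, ‖g z‖ₑ ^ q ≤ ENNReal.ofReal Y →
      eLpNorm g (ENNReal.ofReal q) volume ≤ ENNReal.ofReal (Y ^ (1 / q)) := by
    intro g Y hY h
    rw [eLpNorm_eq_lintegral_rpow_enorm_toReal (by simpa using hq0) ENNReal.ofReal_ne_top,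
      ENNReal.toReal_ofReal hq0.le]
    refine (ENNReal.rpow_le_rpow h (by positivity : (0 : ℝ) ≤ 1 / q)).trans (le_of_eq ?_)
    rw [ENNReal.ofReal_rpow_of_nonneg hY (by positivity)]
  have hcoarse : eLpNorm (FF P k0 k0 (avg b k0)) (ENNReal.ofReal q) volume ≤
      ENNReal.ofReal (A ^ (1 / q) * X) := by
    refine (heL _ _ (by positivity) (hA P hP k0 W hW hkW b hb1)).trans (le_of_eq ?_)
    rw [Real.mul_rpow hA0 (by positivity), hXq]
  have hfine : ∀ n, eLpNorm (FF P k0 (k0 + n + 1) (hc b (k0 + n))) (ENNReal.ofReal q) volume ≤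
      ENNReal.ofReal (B ^ (1 / q) * X * r ^ n) := by
    intro n
    refine (heL _ _ (by positivity) (hB P hP k0 W hW hWk hkW b hb hb1 n (hV n))).trans (le_of_eq ?_)
    have hy : ∀ y : ℝ, 0 < y → (y ^ n) ^ (1 / q) = (y ^ (1 / q)) ^ n := by
      intro y hy
      rw [← Real.rpow_natCast, ← Real.rpow_natCast, ← Real.rpow_mul hy.le, ← Real.rpow_mul hy.le,
        mul_comm]
    rw [Real.mul_rpow (by positivity) (by positivity), Real.mul_rpow hB0 (by positivity), hXq, hr,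
      hy _ (by positivity)]
  have hind : ∀ n : ℕ, eLpNorm (FF P k0 (k0 + n) (avg b (k0 + n))) (ENNReal.ofReal q) volume ≤
      ENNReal.ofReal (A ^ (1 / q) * X + B ^ (1 / q) * X * ∑ l ∈ Finset.range n, r ^ l) := by
    intro n
    induction n with
    | zero => simpa using hcoarse
    | succ n ih =>
      have e : FF P k0 (k0 + (n + 1)) (avg b (k0 + (n + 1))) =
          FF P k0 (k0 + n) (avg b (k0 + n)) + FF P k0 (k0 + n + 1) (hc b (k0 + n)) := by
        funext z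
        exact FF_step P k0 (k0 + n) hb1 z
      rw [e]
      refine (eLpNorm_add_le (FF_meas P (by omega) _).aestronglyMeasurable
        (FF_meas P (by omega) _).aestronglyMeasurable (by
          rw [ENNReal.one_le_ofReal]; exact hq1)).trans ?_
      refine (add_le_add ih (hfine n)).trans (le_of_eq ?_)
      have hs0 : 0 ≤ ∑ l ∈ Finset.range n, r ^ l := Finset.sum_nonneg fun _ _ => by positivity
      rw [← ENNReal.ofReal_add (by positivity) (by positivity), Finset.sum_range_succ]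
      congr 1
      ring
  intro n
  refine (hind n).trans (ENNReal.ofReal_le_ofReal ?_)
  have hgeo : ∑ l ∈ Finset.range n, r ^ l ≤ (1 - r)⁻¹ :=
    (Summable.sum_le_tsum _ (fun _ _ => by positivity) (summable_geometric_of_lt_one hr0.le hr1)).trans
      (le_of_eq (tsum_geometric_of_lt_one hr0.le hr1))
  calc A ^ (1 / q) * X + B ^ (1 / q) * X * ∑ l ∈ Finset.range n, r ^ l
      ≤ A ^ (1 / q) * X + B ^ (1 / q) * X * (1 - r)⁻¹ := by gcongr
    _ = _ := by ring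

/-- convergence of the step functions -/
theorem FF_lim (P : ℤ × ℤ → MvPolynomial (Fin 2) ℝ) (k0 : ℕ) {b : ℝ × ℝ → ℂ} (hb : Measurable b)
    (hb1 : ∀ x, ‖b x‖ ≤ 1) (p : ℝ) (hp : 1 ≤ p) (G : ℝ) (hG : 0 ≤ G) (hV : ∀ n : ℕ, Var b p (k0 + n) G)
    (z : ℝ × (ℝ × ℝ)) :
    Filter.Tendsto (fun n : ℕ => FF P k0 (k0 + n) (avg b (k0 + n)) z) Filter.atTop
      (nhds (∫ x in Sq, b x * (chp P k0 x * ker z.1 z.2 x))) := by
  have hp0 : 0 < p := by linarith
  rw [tendsto_iff_norm_sub_tendsto_zero]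
  have hbound : ∀ n : ℕ, ‖FF P k0 (k0 + n) (avg b (k0 + n)) z -
      ∫ x in Sq, b x * (chp P k0 x * ker z.1 z.2 x)‖ ≤
        (4 ^ (p - 1) * (4 * G * (1 / 2) ^ (k0 + n))) ^ (1 / p) := by
    intro n
    set k := k0 + n with hk
    have h1 := FF_int P k0 z hb hb1
    have h2 := FF_int P k0 z (avg_idx_meas (avg b k) k) (fun x => avg_le hb1 _ _)
    have h3 : FF P k0 k (avg b k) z - ∫ x in Sq, b x * (chp P k0 x * ker z.1 z.2 x) =
        -∫ x in Sq, (b x - avg b k (idx k x)) * (chp P k0 x * ker z.1 z.2 x) := by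
      unfold FF
      rw [← integral_sub h2 h1, ← integral_neg]
      refine integral_congr_ae (Filter.Eventually.of_forall fun x => ?_)
      simp only
      ring
    have h4 : ‖∫ x in Sq, (b x - avg b k (idx k x)) * (chp P k0 x * ker z.1 z.2 x)‖ₑ ≤
        ∫⁻ x in Sq, ‖b x - avg b k (idx k x)‖ₑ := by
      refine (enorm_integral_le_lintegral_enorm _).trans (le_of_eq (lintegral_congr fun x => ?_))
      rw [enorm_mul, ← ofReal_norm (chp P k0 x * _), ck_norm, ENNReal.ofReal_one, mul_one]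
    have hdm : Measurable (fun x => ‖b x - avg b k (idx k x)‖ₑ) :=
      (hb.sub (avg_idx_meas (avg b k) k)).enorm
    have h5 := jens (volume.restrict Sq) p hp hdm.aemeasurable
    rw [Measure.restrict_apply_univ, volume_Sq] at h5
    have h6 := osc hb hb1 p hp k G hG (hV n)
    have h7 : ‖FF P k0 k (avg b k) z - ∫ x in Sq, b x * (chp P k0 x * ker z.1 z.2 x)‖ₑ ^ p ≤
        ENNReal.ofReal (4 ^ (p - 1) * (4 * G * (1 / 2) ^ k)) := by
      rw [h3, enorm_neg]
      refine (ENNReal.rpow_le_rpow h4 hp0.le).trans (h5.trans ?_)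
      rw [ENNReal.ofReal_mul (by positivity)]
      refine mul_le_mul' (le_of_eq ?_) h6
      rw [← ENNReal.ofReal_rpow_of_pos (by norm_num)]
      congr 1
      norm_num
    rw [← ofReal_norm, ENNReal.ofReal_rpow_of_nonneg (norm_nonneg _) hp0.le,
      ENNReal.ofReal_le_ofReal_iff (by positivity)] at h7
    have h8 := Real.rpow_le_rpow (by positivity) h7 (by positivity : (0 : ℝ) ≤ 1 / p)
    rwa [← Real.rpow_mul (norm_nonneg _), mul_one_div_cancel hp0.ne', Real.rpow_one] at h8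
  have hto : Filter.Tendsto (fun n : ℕ => (4 ^ (p - 1) * (4 * G * (1 / 2) ^ (k0 + n))) ^ (1 / p))
      Filter.atTop (nhds (0 : ℝ)) := by
    have h1 : Filter.Tendsto (fun n : ℕ => (4 : ℝ) ^ (p - 1) * (4 * G * (1 / 2) ^ (k0 + n)))
        Filter.atTop (nhds 0) := by
      have h2 : Filter.Tendsto (fun n : ℕ => (1 / 2 : ℝ) ^ n) Filter.atTop (nhds 0) :=
        tendsto_pow_atTop_nhds_zero_of_lt_one (by norm_num) (by norm_num)
      have h3 := h2.const_mul ((4 : ℝ) ^ (p - 1) * (4 * G * (1 / 2) ^ k0))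
      rw [mul_zero] at h3
      refine h3.congr fun n => ?_
      rw [pow_add]
      ring
    have h4 := h1.rpow_const (p := 1 / p) (Or.inr (by positivity))
    rwa [Real.zero_rpow (by positivity)] at h4
  exact squeeze_zero (fun n => norm_nonneg _) hbound hto

end Run7.h239.PP
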