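import Pool.Agent.Run7.h239.Grid
set_option autoImplicit false

/-!
The oscillatory integral over the part of a good dyadic square in a rectangle.
-/

namespace Run7.h239.PP

open MeasureTheory Set Complex
open scoped ENNReal

/-- primitive of the character -/
theorem char_int (A r a b : ℝ) (hr : 0 < r) (hab : a ≤ b) (hb : b ≤ a + r) :
    ‖∫ u in a..b, cexp (I * ((A * u : ℝ) : ℂ))‖ ≤ 3 * r / (1 + r * |A|) := by
  have h1 : ‖∫ u in a..b, cexp (I * ((A * u : ℝ) : ℂ))‖ ≤ r := by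
    have := intervalIntegral.norm_integral_le_of_norm_le_const (a := a) (b := b) (C := 1)
      (f := fun u : ℝ => cexp (I * ((A * u : ℝ) : ℂ))) (fun u _ => by
        rw [mul_comm, norm_exp_ofReal_mul_I])
    rw [one_mul, abs_of_nonneg (by linarith)] at this
    linarith
  have hden : 0 < 1 + r * |A| := by positivity
  by_cases hA : r * |A| ≤ 2
  · rw [le_div_iff₀ hden]
    nlinarith
  · push Not at hA
    have hA0 : A ≠ 0 := by
      rintro rfl
      simp at hA
      linarith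
    have hA' : 0 < |A| := abs_pos.2 hA0
    have e : ∫ u in a..b, cexp (I * ((A * u : ℝ) : ℂ)) =
        (cexp (I * A * b) - cexp (I * A * a)) / (I * A) := by
      have h0 : (I * A : ℂ) ≠ 0 := mul_ne_zero I_ne_zero (by exact_mod_cast hA0)
      have := integral_exp_mul_complex (a := a) (b := b) h0
      rw [← this]
      refine intervalIntegral.integral_congr fun u _ => ?_
      congr 1
      push_cast
      ring
    have h2 : ‖∫ u in a..b, cexp (I * ((A * u : ℝ) : ℂ))‖ ≤ 2 / |A| := by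
      rw [e, norm_div, norm_mul, norm_I, one_mul, norm_real, Real.norm_eq_abs]
      gcongr
      refine (norm_sub_le _ _).trans ?_
      have e1 : ∀ c : ℝ, ‖cexp (I * A * c)‖ = 1 := by
        intro c
        have : (I * A * c : ℂ) = ((A * c : ℝ) : ℂ) * I := by push_cast; ring
        rw [this, norm_exp_ofReal_mul_I]
      rw [e1, e1]
      norm_num
    refine h2.trans ?_
    rw [div_le_div_iff₀ hA' hden]
    nlinarith

/-- one integration by parts -/
theorem osc1 (A r a b : ℝ) (hr : 0 < r) (hab : a ≤ b) (hb : b ≤ a + r) (G G' : ℝ → ℂ)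
    (hG : ∀ x, HasDerivAt G (G' x) x) (hc : Continuous G') (g0 g1 : ℝ)
    (h0 : ∀ x ∈ Icc a b, ‖G x‖ ≤ g0) (h1 : ∀ x ∈ Icc a b, ‖G' x‖ ≤ g1) :
    ‖∫ x in a..b, cexp (I * ((A * x : ℝ) : ℂ)) * G x‖ ≤
      3 * r / (1 + r * |A|) * (g0 + r * g1) := by
  set κ := 3 * r / (1 + r * |A|) with hκ
  have hκ0 : 0 ≤ κ := by positivity
  have hec : Continuous fun u : ℝ => cexp (I * ((A * u : ℝ) : ℂ)) := by fun_prop
  set K : ℝ → ℂ := fun x => ∫ u in a..x, cexp (I * ((A * u : ℝ) : ℂ)) with hK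
  have hKd : ∀ x, HasDerivAt K (cexp (I * ((A * x : ℝ) : ℂ))) x := by
    intro x
    exact intervalIntegral.integral_hasDerivAt_right (hec.intervalIntegrable _ _)
      (hec.stronglyMeasurableAtFilter _ _) hec.continuousAt
  have hKb : ∀ x ∈ Icc a b, ‖K x‖ ≤ κ := by
    intro x hx
    exact char_int A r a x hr hx.1 (by linarith [hx.2])
  have hKa : K a = 0 := by simp [hK]
  have hparts := intervalIntegral.integral_mul_deriv_eq_deriv_mul (a := a) (b := b) (u := G)
    (v := K) (u' := G') (v' := fun x => cexp (I * ((A * x : ℝ) : ℂ)))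
    (fun x _ => hG x) (fun x _ => hKd x) (hc.intervalIntegrable _ _) (hec.intervalIntegrable _ _)
  have e1 : ∫ x in a..b, cexp (I * ((A * x : ℝ) : ℂ)) * G x =
      ∫ x in a..b, G x * cexp (I * ((A * x : ℝ) : ℂ)) := by
    refine intervalIntegral.integral_congr fun x _ => ?_
    ring
  rw [e1, hparts, hKa, mul_zero, sub_zero]
  have hg1 : 0 ≤ g1 := (norm_nonneg _).trans (h1 a ⟨le_rfl, hab⟩)
  have b1 : ‖G b * K b‖ ≤ g0 * κ := by
    rw [norm_mul]
    exact mul_le_mul (h0 b ⟨hab, le_rfl⟩) (hKb b ⟨hab, le_rfl⟩) (norm_nonneg _)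
      ((norm_nonneg _).trans (h0 b ⟨hab, le_rfl⟩))
  have b2 : ‖∫ x in a..b, G' x * K x‖ ≤ g1 * κ * |b - a| := by
    refine intervalIntegral.norm_integral_le_of_norm_le_const fun x hx => ?_
    rw [uIoc_of_le hab] at hx
    rw [norm_mul]
    exact mul_le_mul (h1 x ⟨hx.1.le, hx.2⟩) (hKb x ⟨hx.1.le, hx.2⟩) (norm_nonneg _) hg1
  rw [abs_of_nonneg (by linarith)] at b2
  calc ‖G b * K b - ∫ x in a..b, G' x * K x‖ ≤ ‖G b * K b‖ + ‖∫ x in a..b, G' x * K x‖ :=
        norm_sub_le _ _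
    _ ≤ g0 * κ + g1 * κ * (b - a) := add_le_add b1 b2
    _ ≤ g0 * κ + g1 * κ * r := by
        have : b - a ≤ r := by linarith
        gcongr
    _ = κ * (g0 + r * g1) := by ring

/-- integration by parts in both variables -/
theorem osc2 (A B r : ℝ) (hr : 0 < r) (a b c d : ℝ) (hab : a ≤ b) (hb : b ≤ a + r)
    (hcd : c ≤ d) (hd : d ≤ c + r) (g gx gy gxy : ℝ × ℝ → ℂ) (hg : Continuous g)
    (hgx : Continuous gx) (hgy : Continuous gy) (hgxy : Continuous gxy)
    (dx : ∀ x y, HasDerivAt (fun s => g (s, y)) (gx (x, y)) x)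
    (dy : ∀ x y, HasDerivAt (fun s => g (x, s)) (gy (x, y)) y)
    (dxy : ∀ x y, HasDerivAt (fun s => gx (x, s)) (gxy (x, y)) y)
    (b0 : ∀ x ∈ Icc a b, ∀ y ∈ Icc c d, ‖g (x, y)‖ ≤ 1)
    (bx : ∀ x ∈ Icc a b, ∀ y ∈ Icc c d, ‖gx (x, y)‖ ≤ 3 / r)
    (byy : ∀ x ∈ Icc a b, ∀ y ∈ Icc c d, ‖gy (x, y)‖ ≤ 3 / r)
    (bxy : ∀ x ∈ Icc a b, ∀ y ∈ Icc c d, ‖gxy (x, y)‖ ≤ 10 / r ^ 2) :
    ‖∫ x in a..b, cexp (I * ((A * x : ℝ) : ℂ)) *
      ∫ y in c..d, cexp (I * ((B * y : ℝ) : ℂ)) * g (x, y)‖ ≤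
      153 * r ^ 2 / ((1 + r * |A|) * (1 + r * |B|)) := by
  set κA := 3 * r / (1 + r * |A|) with hκA
  set κB := 3 * r / (1 + r * |B|) with hκB
  have hκA0 : 0 ≤ κA := by positivity
  have hκB0 : 0 ≤ κB := by positivity
  set F : ℝ → ℂ := fun x => ∫ y in c..d, cexp (I * ((B * y : ℝ) : ℂ)) * g (x, y) with hF
  set F' : ℝ → ℂ := fun x => ∫ y in c..d, cexp (I * ((B * y : ℝ) : ℂ)) * gx (x, y) with hF'
  have hFd : ∀ x, HasDerivAt F (F' x) x := by
    intro x
    have hcomp : IsCompact (Icc (x - 1) (x + 1) ×ˢ Icc c d) := isCompact_Icc.prod isCompact_Icc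
    obtain ⟨M, hM⟩ := hcomp.bddAbove_image (f := fun p : ℝ × ℝ => ‖gx p‖) hgx.norm.continuousOn
    have := intervalIntegral.hasDerivAt_integral_of_dominated_loc_of_deriv_le (μ := volume)
      (F := fun x y => cexp (I * ((B * y : ℝ) : ℂ)) * g (x, y))
      (F' := fun x y => cexp (I * ((B * y : ℝ) : ℂ)) * gx (x, y)) (a := c) (b := d) (x₀ := x)
      (s := Icc (x - 1) (x + 1)) (bound := fun _ => M)
      (Icc_mem_nhds (by linarith) (by linarith)) ?_ ?_ ?_ ?_ ?_ ?_
    · exact this.2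
    · refine Filter.Eventually.of_forall fun x => ?_
      exact (Continuous.aestronglyMeasurable (by fun_prop))
    · exact Continuous.intervalIntegrable (by fun_prop) _ _
    · exact (Continuous.aestronglyMeasurable (by fun_prop))
    · refine Filter.Eventually.of_forall fun y hy x' hx' => ?_
      rw [uIoc_of_le hcd] at hy
      rw [norm_mul, mul_comm I, norm_exp_ofReal_mul_I, one_mul]
      exact hM ⟨(x', y), ⟨hx', hy.1.le, hy.2⟩, rfl⟩
    · exact intervalIntegrable_const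
    · refine Filter.Eventually.of_forall fun y _ x' _ => ?_
      exact (dx x' y).const_mul _
  have hFc : Continuous F' := by
    have : Continuous (Function.uncurry fun x y => cexp (I * ((B * y : ℝ) : ℂ)) * gx (x, y)) := by
      simp only [Function.uncurry_def]
      fun_prop
    exact intervalIntegral.continuous_parametric_intervalIntegral_of_continuous' this c d
  have hb0 : ∀ x ∈ Icc a b, ‖F x‖ ≤ κB * 4 := by
    intro x hx
    have := osc1 B r c d hr hcd hd (fun y => g (x, y)) (fun y => gy (x, y)) (fun y => dy x y)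
      (by fun_prop) 1 (3 / r) (fun y hy => b0 x hx y hy) (fun y hy => byy x hx y hy)
    have e : (1 : ℝ) + r * (3 / r) = 4 := by field_simp; norm_num
    rw [e] at this
    exact this
  have hb1 : ∀ x ∈ Icc a b, ‖F' x‖ ≤ κB * (13 / r) := by
    intro x hx
    have := osc1 B r c d hr hcd hd (fun y => gx (x, y)) (fun y => gxy (x, y)) (fun y => dxy x y)
      (by fun_prop) (3 / r) (10 / r ^ 2) (fun y hy => bx x hx y hy) (fun y hy => bxy x hx y hy)
    have e : (3 : ℝ) / r + r * (10 / r ^ 2) = 13 / r := by field_simp; norm_num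
    rw [e] at this
    exact this
  have := osc1 A r a b hr hab hb F F' hFd hFc _ _ hb0 hb1
  refine this.trans (le_of_eq ?_)
  rw [hκB]
  field_simp
  ring

/-- a bounded interval is almost everywhere of the form `(a, b]` -/
theorem ordc {S : Set ℝ} (hS : S.OrdConnected) {m M : ℝ} (hmM : m ≤ M) (hsub : S ⊆ Icc m M) :
    ∃ a b, m ≤ a ∧ a ≤ b ∧ b ≤ M ∧ S =ᵐ[volume] Ioc a b := by
  rcases S.eq_empty_or_nonempty with rfl | hne
  · exact ⟨m, m, le_rfl, le_rfl, hmM, by simp⟩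
  have hbb : BddBelow S := ⟨m, fun x hx => (hsub hx).1⟩
  have hba : BddAbove S := ⟨M, fun x hx => (hsub hx).2⟩
  have h1 : Ioo (sInf S) (sSup S) ⊆ S := by
    intro x hx
    obtain ⟨y, hy, hyx⟩ := exists_lt_of_csInf_lt hne hx.1
    obtain ⟨z, hz, hxz⟩ := exists_lt_of_lt_csSup hne hx.2
    exact hS.out hy hz ⟨hyx.le, hxz.le⟩
  have h2 : S ⊆ Icc (sInf S) (sSup S) := fun x hx => ⟨csInf_le hbb hx, le_csSup hba hx⟩
  obtain ⟨x, hx⟩ := hne
  refine ⟨sInf S, sSup S, le_csInf ⟨x, hx⟩ fun y hy => (hsub hy).1,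
    (csInf_le hbb hx).trans (le_csSup hba hx), csSup_le ⟨x, hx⟩ fun y hy => (hsub hy).2, ?_⟩
  refine Filter.EventuallyLE.antisymm ?_ ?_
  · exact h2.eventuallyLE.trans Ioc_ae_eq_Icc.symm.le
  · exact Ioo_ae_eq_Ioc.symm.le.trans h1.eventuallyLE

end Run7.h239.PP
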