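import Pool.Agent.Run7.h239.Grid
import Pool.Agent.H803R2.KakFub
import Pool.Agent.H803R2.KakFibre
set_option autoImplicit false

/-!
Polynomials in two variables as functions on the plane: derivatives, slices, fibres of the gradient.
-/

namespace Run7.h239.PP

open MeasureTheory Set
open scoped ENNReal

open MvPolynomial in
/-- evaluation of a polynomial in two variables at a point of `ℝ × ℝ` -/
noncomputable def ev (P : MvPolynomial (Fin 2) ℝ) (x : ℝ × ℝ) : ℝ := eval ![x.1, x.2] P

section basic

open MvPolynomial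

theorem ev_add (P Q : MvPolynomial (Fin 2) ℝ) (x : ℝ × ℝ) : ev (P + Q) x = ev P x + ev Q x := by
  simp [ev]

theorem ev_mul (P Q : MvPolynomial (Fin 2) ℝ) (x : ℝ × ℝ) : ev (P * Q) x = ev P x * ev Q x := by
  simp [ev]

theorem ev_sub (P Q : MvPolynomial (Fin 2) ℝ) (x : ℝ × ℝ) : ev (P - Q) x = ev P x - ev Q x := by
  simp [ev]

theorem ev_C (a : ℝ) (x : ℝ × ℝ) : ev (C a) x = a := by simp [ev]

theorem ev_X0 (x : ℝ × ℝ) : ev (X 0) x = x.1 := by simp [ev]

theorem ev_X1 (x : ℝ × ℝ) : ev (X 1) x = x.2 := by simp [ev]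

theorem ev_cont (P : MvPolynomial (Fin 2) ℝ) : Continuous (ev P) := by
  unfold ev
  refine (MvPolynomial.continuous_eval P).comp ?_
  refine continuous_pi fun i => ?_
  fin_cases i
  · exact continuous_fst
  · exact continuous_snd

theorem ev_fderiv (P : MvPolynomial (Fin 2) ℝ) (x : ℝ × ℝ) :
    HasFDerivAt (ev P) (ev (pderiv 0 P) x • ContinuousLinearMap.fst ℝ ℝ ℝ +
      ev (pderiv 1 P) x • ContinuousLinearMap.snd ℝ ℝ ℝ) x := by
  induction P using MvPolynomial.induction_on with
  | C a =>
    have h : ev (C a) = fun _ => a := by ext y; exact ev_C a y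
    rw [h]
    simp only [pderiv_C]
    have h0 : ev 0 x = 0 := by simp [ev]
    rw [h0, zero_smul, zero_smul, add_zero]
    exact hasFDerivAt_const a x
  | add P Q hP hQ =>
    have h : ev (P + Q) = fun y => ev P y + ev Q y := by ext y; exact ev_add P Q y
    rw [h]
    have := hP.add hQ
    refine this.congr_fderiv ?_
    ext <;> simp [ev_add]
  | mul_X P i hP =>
    have h : ev (P * X i) = fun y => ev P y * ev (X i) y := by ext y; exact ev_mul P _ y
    rw [h]
    fin_cases i
    · have hX : HasFDerivAt (fun y : ℝ × ℝ => ev (X 0) y) (ContinuousLinearMap.fst ℝ ℝ ℝ) x := by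
        have : (fun y : ℝ × ℝ => ev (X 0) y) = Prod.fst := by ext y; exact ev_X0 y
        rw [this]
        exact hasFDerivAt_fst
      refine (hP.mul hX).congr_fderiv ?_
      ext
      · simp [ev_add, ev_mul, ev_X0]
        try ring
      · simp [ev_add, ev_mul, ev_X0]
        try ring
    · have hX : HasFDerivAt (fun y : ℝ × ℝ => ev (X 1) y) (ContinuousLinearMap.snd ℝ ℝ ℝ) x := by
        have : (fun y : ℝ × ℝ => ev (X 1) y) = Prod.snd := by ext y; exact ev_X1 y
        rw [this]
        exact hasFDerivAt_snd
      refine (hP.mul hX).congr_fderiv ?_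
      ext
      · simp [ev_add, ev_mul, ev_X1]
        try ring
      · simp [ev_add, ev_mul, ev_X1]
        try ring

theorem ev_dx (P : MvPolynomial (Fin 2) ℝ) (x y : ℝ) :
    HasDerivAt (fun s => ev P (s, y)) (ev (pderiv 0 P) (x, y)) x := by
  have h := ev_fderiv P (x, y)
  have h2 : HasDerivAt (fun s : ℝ => (s, y)) ((1 : ℝ), (0 : ℝ)) x :=
    (hasDerivAt_id' x).prodMk (hasDerivAt_const x y)
  have := h.comp_hasDerivAt x h2
  refine HasDerivAt.congr_deriv (f' := _) this ?_
  simp

theorem ev_dy (P : MvPolynomial (Fin 2) ℝ) (x y : ℝ) :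
    HasDerivAt (fun s => ev P (x, s)) (ev (pderiv 1 P) (x, y)) y := by
  have h := ev_fderiv P (x, y)
  have h2 : HasDerivAt (fun s : ℝ => (x, s)) ((0 : ℝ), (1 : ℝ)) y :=
    (hasDerivAt_const y x).prodMk (hasDerivAt_id' y)
  have := h.comp_hasDerivAt y h2
  refine HasDerivAt.congr_deriv (f' := _) this ?_
  simp

theorem pderiv_comm' (P : MvPolynomial (Fin 2) ℝ) (i j : Fin 2) :
    pderiv i (pderiv j P) = pderiv j (pderiv i P) := by
  have h : ⁅pderiv (R := ℝ) i, pderiv (R := ℝ) j⁆ = 0 := by
    apply MvPolynomial.derivation_ext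
    intro l
    rw [Derivation.commutator_apply]
    simp only [pderiv_X]
    simp [Pi.single_apply, apply_ite]
  have h2 := congrArg (fun d : Derivation ℝ (MvPolynomial (Fin 2) ℝ) (MvPolynomial (Fin 2) ℝ) => d P) h
  simp only [Derivation.commutator_apply] at h2
  rw [← sub_eq_zero]
  exact h2

theorem totalDegree_pderiv_le {σ : Type} (p : MvPolynomial σ ℝ) (j : σ) :
    (pderiv j p).totalDegree ≤ p.totalDegree := by
  classical
  rw [totalDegree, Finset.sup_le_iff]
  intro m hm
  rw [mem_support_iff, coeff_pderiv] at hm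
  have h1 : m + Finsupp.single j 1 ∈ p.support := by
    rw [mem_support_iff]
    exact left_ne_zero_of_mul hm
  have h2 := le_totalDegree h1
  have h3 : ((m + Finsupp.single j 1).sum fun _ e => e) = (m.sum fun _ e => e) + 1 := by
    have : (m + Finsupp.single j 1).degree = m.degree + 1 := by
      rw [map_add, Finsupp.degree_single]
    exact this
  omega

theorem ev_slice (P : MvPolynomial (Fin 2) ℝ) {D : ℕ} (hP : P.totalDegree ≤ D) :
    SlicePoly D (ev P) := by
  constructor
  · intro y
    refine ⟨aeval ![Polynomial.X, Polynomial.C y] P, ?_, ?_⟩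
    · have := MvPolynomial.aeval_natDegree_le P hP ![Polynomial.X, Polynomial.C y] (n := 1) ?_
      · simpa using this
      · intro i
        fin_cases i
        · simp
        · simp
    · intro x
      unfold ev
      rw [aeval_def, Polynomial.algebraMap_eq]
      have h := MvPolynomial.hom_eval₂ P Polynomial.C (Polynomial.evalRingHom x)
        ![Polynomial.X, Polynomial.C y]
      rw [Polynomial.coe_evalRingHom] at h
      rw [h, MvPolynomial.eval, MvPolynomial.coe_eval₂Hom]
      congr 1
      · ext a; simp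
      · ext i
        fin_cases i <;> simp
  · intro x
    refine ⟨aeval ![Polynomial.C x, Polynomial.X] P, ?_, ?_⟩
    · have := MvPolynomial.aeval_natDegree_le P hP ![Polynomial.C x, Polynomial.X] (n := 1) ?_
      · simpa using this
      · intro i
        fin_cases i
        · simp
        · simp
    · intro y
      unfold ev
      rw [aeval_def, Polynomial.algebraMap_eq]
      have h := MvPolynomial.hom_eval₂ P Polynomial.C (Polynomial.evalRingHom y)
        ![Polynomial.C x, Polynomial.X]
      rw [Polynomial.coe_evalRingHom] at h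
      rw [h, MvPolynomial.eval, MvPolynomial.coe_eval₂Hom]
      congr 1
      · ext a; simp
      · ext i
        fin_cases i <;> simp

end basic

end Run7.h239.PP
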