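import Pool.Agent.Run7.h239.Cell
import Pool.Agent.Run7.h239.Poly
set_option autoImplicit false

/-!
The oscillatory integral with a polynomial phase over the part of a good dyadic square in a rectangle.
-/

namespace Run7.h239.PP

open MeasureTheory Set Complex
open scoped ENNReal

open MvPolynomial in
/-- the first derivatives -/
noncomputable def g1 (P : MvPolynomial (Fin 2) ℝ) : ℝ × ℝ → ℝ := ev (pderiv 0 P)

open MvPolynomial in
noncomputable def g2 (P : MvPolynomial (Fin 2) ℝ) : ℝ × ℝ → ℝ := ev (pderiv 1 P)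

open MvPolynomial in
/-- the second derivatives -/
noncomputable def hes (P : MvPolynomial (Fin 2) ℝ) (a : Fin 3) : ℝ × ℝ → ℝ :=
  match a with
  | 0 => ev (pderiv 0 (pderiv 0 P))
  | 1 => ev (pderiv 1 (pderiv 0 P))
  | 2 => ev (pderiv 1 (pderiv 1 P))

theorem hes_cont (P : MvPolynomial (Fin 2) ℝ) (a : Fin 3) : Continuous (hes P a) := by
  fin_cases a <;> exact ev_cont _

theorem g1_cont (P : MvPolynomial (Fin 2) ℝ) : Continuous (g1 P) := ev_cont _

theorem g2_cont (P : MvPolynomial (Fin 2) ℝ) : Continuous (g2 P) := ev_cont _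

theorem g1_dx (P : MvPolynomial (Fin 2) ℝ) (x y : ℝ) :
    HasDerivAt (fun s => g1 P (s, y)) (hes P 0 (x, y)) x := ev_dx _ x y

theorem g1_dy (P : MvPolynomial (Fin 2) ℝ) (x y : ℝ) :
    HasDerivAt (fun s => g1 P (x, s)) (hes P 1 (x, y)) y := ev_dy _ x y

theorem g2_dx (P : MvPolynomial (Fin 2) ℝ) (x y : ℝ) :
    HasDerivAt (fun s => g2 P (s, y)) (hes P 1 (x, y)) x := by
  have := ev_dx (MvPolynomial.pderiv 1 P) x y
  rw [pderiv_comm'] at this
  exact this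

theorem g2_dy (P : MvPolynomial (Fin 2) ℝ) (x y : ℝ) :
    HasDerivAt (fun s => g2 P (x, s)) (hes P 2 (x, y)) y := ev_dy _ x y

/-- the square is good for the Hessian `H` -/
def good (H : Fin 3 → ℝ × ℝ → ℝ) (k : ℕ) (i : ℤ × ℤ) : Prop :=
  ∀ y ∈ cube k i, ∀ a, |H a y| ≤ 4 ^ k

/-- a difference bound from a derivative bound on an interval -/
theorem diff_le {f f' : ℝ → ℝ} (hf : ∀ x, HasDerivAt f (f' x) x) {m M L : ℝ}
    (hb : ∀ x ∈ Icc m M, |f' x| ≤ L) {x y : ℝ} (hx : x ∈ Icc m M) (hy : y ∈ Icc m M) :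
    |f y - f x| ≤ L * |y - x| := by
  have := Convex.norm_image_sub_le_of_norm_hasDerivWithin_le (f := f) (f' := f') (s := Icc m M)
    (C := L) (x := x) (y := y) (fun z _ => (hf z).hasDerivWithinAt)
    (fun z hz => by rw [Real.norm_eq_abs]; exact hb z hz) (convex_Icc m M) hx hy
  simpa [Real.norm_eq_abs] using this

theorem cube_closed {k : ℕ} {i : ℤ × ℤ} {u : ℝ × ℝ → ℝ} (hu : Continuous u) {L : ℝ}
    (h : ∀ y ∈ cube k i, |u y| ≤ L) : ∀ x ∈ Icc ((i.1 : ℝ) / 2 ^ k) ((i.1 + 1) / 2 ^ k),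
    ∀ y ∈ Icc ((i.2 : ℝ) / 2 ^ k) ((i.2 + 1) / 2 ^ k), |u (x, y)| ≤ L := by
  intro x hx y hy
  have hk : (0 : ℝ) < 2 ^ k := by positivity
  have h1 : closure (cube k i) = Icc ((i.1 : ℝ) / 2 ^ k) ((i.1 + 1) / 2 ^ k) ×ˢ
      Icc ((i.2 : ℝ) / 2 ^ k) ((i.2 + 1) / 2 ^ k) := by
    rw [cube_eq, closure_prod_eq, closure_Ico, closure_Ico]
    · intro h
      have := (div_left_inj' hk.ne').1 h
      linarith
    · intro h
      have := (div_left_inj' hk.ne').1 h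
      linarith
  have h2 : closure (cube k i) ⊆ {y | |u y| ≤ L} :=
    closure_minimal h (isClosed_le hu.abs continuous_const)
  have h3 : (x, y) ∈ closure (cube k i) := by rw [h1]; exact ⟨hx, hy⟩
  exact h2 h3

/-- amplitudes: functions with derivatives `∂₁a`, `∂₂a`, `∂₂∂₁a`, all bounded by `1` -/
structure AmpD (a ax ay axy : ℝ × ℝ → ℂ) : Prop where
  c0 : Continuous a
  cx : Continuous ax
  cy : Continuous ay
  cxy : Continuous axy
  dx : ∀ x y, HasDerivAt (fun s => a (s, y)) (ax (x, y)) x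
  dy : ∀ x y, HasDerivAt (fun s => a (x, s)) (ay (x, y)) y
  dxy : ∀ x y, HasDerivAt (fun s => ax (x, s)) (axy (x, y)) y
  b0 : ∀ p, ‖a p‖ ≤ 1
  bx : ∀ p, ‖ax p‖ ≤ 1
  byy : ∀ p, ‖ay p‖ ≤ 1
  bxy : ∀ p, ‖axy p‖ ≤ 1

/-- amplitudes -/
def IsAmp (a : ℝ × ℝ → ℂ) : Prop := ∃ ax ay axy, AmpD a ax ay axy

theorem IsAmp.cont {a : ℝ × ℝ → ℂ} (h : IsAmp a) : Continuous a := by
  obtain ⟨_, _, _, h⟩ := h
  exact h.c0

theorem IsAmp.bound {a : ℝ × ℝ → ℂ} (h : IsAmp a) (p : ℝ × ℝ) : ‖a p‖ ≤ 1 := by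
  obtain ⟨_, _, _, h⟩ := h
  exact h.b0 p

/-- **Cell estimate.** -/
theorem cell (P : MvPolynomial (Fin 2) ℝ) (am : ℝ × ℝ → ℂ) (ham : IsAmp am) (k : ℕ) (i : ℤ × ℤ)
    (hg : good (hes P) k i)
    (S T : Set ℝ) (hS : S.OrdConnected) (hT : T.OrdConnected) (z : ℝ × ℝ) (hz : z ∈ cube k i) :
    ‖∫ x in (S ×ˢ T) ∩ cube k i, am x * cexp (I * (ev P x : ℂ))‖ ≤
      153 * (1 / 4) ^ k / ((1 + |g1 P z| / 2 ^ k) * (1 + |g2 P z| / 2 ^ k)) := by
  obtain ⟨amx, amy, amxy, hA⟩ := ham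
  have ca := hA.c0
  have cax := hA.cx
  have cay := hA.cy
  have caxy := hA.cxy
  have hk : (0 : ℝ) < 2 ^ k := by positivity
  set m₁ : ℝ := (i.1 : ℝ) / 2 ^ k with hm₁
  set M₁ : ℝ := ((i.1 : ℝ) + 1) / 2 ^ k with hM₁
  set m₂ : ℝ := (i.2 : ℝ) / 2 ^ k with hm₂
  set M₂ : ℝ := ((i.2 : ℝ) + 1) / 2 ^ k with hM₂
  set r : ℝ := 1 / 2 ^ k with hr
  have hr0 : 0 < r := by positivity
  have e1 : M₁ = m₁ + r := by rw [hm₁, hM₁, hr]; ring
  have e2 : M₂ = m₂ + r := by rw [hm₂, hM₂, hr]; ring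
  have hrk : (4 : ℝ) ^ k * r = 1 / r := by
    have : (4 : ℝ) ^ k = 2 ^ k * 2 ^ k := by rw [← mul_pow]; norm_num
    rw [hr, this]; field_simp
  have hr2 : (4 : ℝ) ^ k = 1 / r ^ 2 := by
    have : (4 : ℝ) ^ k = 2 ^ k * 2 ^ k := by rw [← mul_pow]; norm_num
    rw [hr, this]; field_simp
  obtain ⟨a, b, ha, hab, hb, hSe⟩ := ordc (S := S ∩ Ico m₁ M₁) (hS.inter ordConnected_Ico)
    (m := m₁) (M := M₁) (by linarith) (inter_subset_right.trans Ico_subset_Icc_self)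
  obtain ⟨c, d, hc, hcd, hd, hTe⟩ := ordc (S := T ∩ Ico m₂ M₂) (hT.inter ordConnected_Ico)
    (m := m₂) (M := M₂) (by linarith) (inter_subset_right.trans Ico_subset_Icc_self)
  have hset : ((S ×ˢ T) ∩ cube k i : Set (ℝ × ℝ)) =ᵐ[volume] (Ioc a b ×ˢ Ioc c d : Set (ℝ × ℝ)) := by
    rw [cube_eq, prod_inter_prod]
    exact Measure.set_prod_ae_eq hSe hTe
  have hzc : z.1 ∈ Icc m₁ M₁ ∧ z.2 ∈ Icc m₂ M₂ := by
    rw [cube_eq] at hz
    exact ⟨Ico_subset_Icc_self hz.1, Ico_subset_Icc_self hz.2⟩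
  have hH : ∀ a, ∀ x ∈ Icc m₁ M₁, ∀ y ∈ Icc m₂ M₂, |hes P a (x, y)| ≤ 4 ^ k := fun a =>
    cube_closed (hes_cont P a) fun y hy => hg y hy a
  have hd1 : ∀ x ∈ Icc m₁ M₁, ∀ y ∈ Icc m₂ M₂, |g1 P (x, y) - g1 P z| ≤ 2 / r := by
    intro x hx y hy
    have a1 := diff_le (f := fun s => g1 P (s, y)) (fun s => g1_dx P s y)
      (fun s hs => hH 0 s hs y hy) hzc.1 hx
    have a2 := diff_le (f := fun s => g1 P (z.1, s)) (fun s => g1_dy P z.1 s)
      (fun s hs => hH 1 z.1 hzc.1 s hs) hzc.2 hy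
    have b1 : |x - z.1| ≤ r := by
      rw [abs_le]; constructor <;> linarith [hx.1, hx.2, hzc.1.1, hzc.1.2]
    have b2 : |y - z.2| ≤ r := by
      rw [abs_le]; constructor <;> linarith [hy.1, hy.2, hzc.2.1, hzc.2.2]
    have c1 : (4 : ℝ) ^ k * |x - z.1| ≤ 1 / r := by
      rw [← hrk]; gcongr
    have c2 : (4 : ℝ) ^ k * |y - z.2| ≤ 1 / r := by
      rw [← hrk]; gcongr
    have : g1 P (x, y) - g1 P z = (g1 P (x, y) - g1 P (z.1, y)) + (g1 P (z.1, y) - g1 P (z.1, z.2)) := by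
      ring
    rw [this]
    refine (abs_add_le _ _).trans ?_
    have e : (2 : ℝ) / r = 1 / r + 1 / r := by ring
    rw [e]
    exact add_le_add (a1.trans c1) (a2.trans c2)
  have hd2 : ∀ x ∈ Icc m₁ M₁, ∀ y ∈ Icc m₂ M₂, |g2 P (x, y) - g2 P z| ≤ 2 / r := by
    intro x hx y hy
    have a1 := diff_le (f := fun s => g2 P (s, y)) (fun s => g2_dx P s y)
      (fun s hs => hH 1 s hs y hy) hzc.1 hx
    have a2 := diff_le (f := fun s => g2 P (z.1, s)) (fun s => g2_dy P z.1 s)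
      (fun s hs => hH 2 z.1 hzc.1 s hs) hzc.2 hy
    have b1 : |x - z.1| ≤ r := by
      rw [abs_le]; constructor <;> linarith [hx.1, hx.2, hzc.1.1, hzc.1.2]
    have b2 : |y - z.2| ≤ r := by
      rw [abs_le]; constructor <;> linarith [hy.1, hy.2, hzc.2.1, hzc.2.2]
    have c1 : (4 : ℝ) ^ k * |x - z.1| ≤ 1 / r := by
      rw [← hrk]; gcongr
    have c2 : (4 : ℝ) ^ k * |y - z.2| ≤ 1 / r := by
      rw [← hrk]; gcongr
    have : g2 P (x, y) - g2 P z = (g2 P (x, y) - g2 P (z.1, y)) + (g2 P (z.1, y) - g2 P (z.1, z.2)) := by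
      ring
    rw [this]
    refine (abs_add_le _ _).trans ?_
    have e : (2 : ℝ) / r = 1 / r + 1 / r := by ring
    rw [e]
    exact add_le_add (a1.trans c1) (a2.trans c2)
  set A := g1 P z with hAdef
  set B := g2 P z with hB
  have hr1 : r ≤ 1 := by
    rw [hr, div_le_one hk]
    exact one_le_pow₀ (by norm_num)
  have h1r : 1 ≤ 1 / r := by rw [le_div_iff₀ hr0]; linarith
  set g : ℝ × ℝ → ℂ := fun p => cexp (I * ((ev P p - A * p.1 - B * p.2 : ℝ) : ℂ)) with hgdef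
  set gx : ℝ × ℝ → ℂ := fun p => I * ((g1 P p - A : ℝ) : ℂ) * g p with hgx
  set gy : ℝ × ℝ → ℂ := fun p => I * ((g2 P p - B : ℝ) : ℂ) * g p with hgy
  set gxy : ℝ × ℝ → ℂ := fun p => I * ((hes P 1 p : ℝ) : ℂ) * g p +
    I * ((g1 P p - A : ℝ) : ℂ) * gy p with hgxy
  have hgc : Continuous g := by
    have := ev_cont P
    rw [hgdef]; fun_prop
  have c1 := g1_cont P
  have c2 := g2_cont P
  have c3 := hes_cont P 1
  have hgxc : Continuous gx := by rw [hgx]; fun_prop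
  have hgyc : Continuous gy := by rw [hgy]; fun_prop
  have hgxyc : Continuous gxy := by rw [hgxy]; fun_prop
  have hgn : ∀ p, ‖g p‖ = 1 := by
    intro p
    rw [hgdef]
    simp only
    rw [mul_comm, norm_exp_ofReal_mul_I]
  have dgx : ∀ x y, HasDerivAt (fun s => g (s, y)) (gx (x, y)) x := by
    intro x y
    have h1 : HasDerivAt (fun s => (ev P (s, y) - A * s - B * y : ℝ)) (g1 P (x, y) - A) x := by
      have := ((ev_dx P x y).sub ((hasDerivAt_id' x).const_mul A)).sub_const (B * y)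
      refine HasDerivAt.congr_deriv (f' := _) this ?_
      simp [g1]
    have h2 := (h1.ofReal_comp.const_mul I).cexp
    refine h2.congr_deriv ?_
    rw [hgx, hgdef]
    ring
  have dgy : ∀ x y, HasDerivAt (fun s => g (x, s)) (gy (x, y)) y := by
    intro x y
    have h1 : HasDerivAt (fun s => (ev P (x, s) - A * x - B * s : ℝ)) (g2 P (x, y) - B) y := by
      have := ((ev_dy P x y).sub_const (A * x)).sub ((hasDerivAt_id' y).const_mul B)
      refine HasDerivAt.congr_deriv (f' := _) this ?_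
      simp [g2]
    have h2 := (h1.ofReal_comp.const_mul I).cexp
    refine h2.congr_deriv ?_
    rw [hgy, hgdef]
    ring
  have dgxy : ∀ x y, HasDerivAt (fun s => gx (x, s)) (gxy (x, y)) y := by
    intro x y
    have h1 : HasDerivAt (fun s => ((g1 P (x, s) - A : ℝ) : ℂ)) ((hes P 1 (x, y) : ℝ) : ℂ) y :=
      ((g1_dy P x y).sub_const A).ofReal_comp
    have h2 := (h1.const_mul I).mul (dgy x y)
    exact h2
  have hsubS : ∀ x ∈ Icc a b, x ∈ Icc m₁ M₁ := fun x hx => ⟨ha.trans hx.1, hx.2.trans hb⟩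
  have hsubT : ∀ y ∈ Icc c d, y ∈ Icc m₂ M₂ := fun y hy => ⟨hc.trans hy.1, hy.2.trans hd⟩
  have bgx : ∀ x ∈ Icc a b, ∀ y ∈ Icc c d, ‖gx (x, y)‖ ≤ 2 / r := by
    intro x hx y hy
    rw [hgx]
    simp only
    rw [norm_mul, norm_mul, norm_I, hgn, one_mul, mul_one, norm_real, Real.norm_eq_abs]
    exact hd1 x (hsubS x hx) y (hsubT y hy)
  have bgy : ∀ x ∈ Icc a b, ∀ y ∈ Icc c d, ‖gy (x, y)‖ ≤ 2 / r := by
    intro x hx y hy
    rw [hgy]
    simp only
    rw [norm_mul, norm_mul, norm_I, hgn, one_mul, mul_one, norm_real, Real.norm_eq_abs]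
    exact hd2 x (hsubS x hx) y (hsubT y hy)
  have bgxy : ∀ x ∈ Icc a b, ∀ y ∈ Icc c d, ‖gxy (x, y)‖ ≤ 5 / r ^ 2 := by
    intro x hx y hy
    rw [hgxy]
    simp only
    refine (norm_add_le _ _).trans ?_
    rw [norm_mul, norm_mul, norm_mul, norm_mul, norm_I, hgn, one_mul, mul_one, one_mul, norm_real,
      norm_real, Real.norm_eq_abs, Real.norm_eq_abs]
    have a1 := hH 1 x (hsubS x hx) y (hsubT y hy)
    rw [hr2] at a1
    have a2 := hd1 x (hsubS x hx) y (hsubT y hy)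
    have a3 := bgy x hx y hy
    have a4 : |g1 P (x, y) - A| * ‖gy (x, y)‖ ≤ 2 / r * (2 / r) :=
      mul_le_mul a2 a3 (norm_nonneg _) (by positivity)
    have e : (5 : ℝ) / r ^ 2 = 1 / r ^ 2 + 2 / r * (2 / r) := by field_simp; norm_num
    rw [e]
    exact add_le_add a1 a4
  -- the amplitude is included
  set f : ℝ × ℝ → ℂ := fun p => am p * g p with hf
  set fx : ℝ × ℝ → ℂ := fun p => amx p * g p + am p * gx p with hfx
  set fy : ℝ × ℝ → ℂ := fun p => amy p * g p + am p * gy p with hfy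
  set fxy : ℝ × ℝ → ℂ := fun p => (amxy p * g p + amx p * gy p) + (amy p * gx p + am p * gxy p) with hfxy
  have dfx : ∀ x y, HasDerivAt (fun s => f (s, y)) (fx (x, y)) x := fun x y =>
    (hA.dx x y).mul (dgx x y)
  have dfy : ∀ x y, HasDerivAt (fun s => f (x, s)) (fy (x, y)) y := fun x y =>
    (hA.dy x y).mul (dgy x y)
  have dfxy : ∀ x y, HasDerivAt (fun s => fx (x, s)) (fxy (x, y)) y := fun x y =>
    ((hA.dxy x y).mul (dgy x y)).add ((hA.dy x y).mul (dgxy x y))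
  have hprod : ∀ (u v : ℂ) (L : ℝ), ‖u‖ ≤ 1 → ‖v‖ ≤ L → ‖u * v‖ ≤ L := by
    intro u v L h1 h2
    rw [norm_mul]
    calc ‖u‖ * ‖v‖ ≤ 1 * ‖v‖ := by gcongr
      _ ≤ L := by rw [one_mul]; exact h2
  have bf : ∀ x ∈ Icc a b, ∀ y ∈ Icc c d, ‖f (x, y)‖ ≤ 1 := fun x _ y _ =>
    hprod _ _ 1 (hA.b0 _) (hgn _).le
  have bfx : ∀ x ∈ Icc a b, ∀ y ∈ Icc c d, ‖fx (x, y)‖ ≤ 3 / r := by
    intro x hx y hy
    refine (norm_add_le _ _).trans ?_
    have h1 := hprod _ _ 1 (hA.bx (x, y)) (hgn (x, y)).le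
    have h2 := hprod _ _ _ (hA.b0 (x, y)) (bgx x hx y hy)
    have e : (3 : ℝ) / r = 1 / r + 2 / r := by ring
    rw [e]
    linarith
  have bfy : ∀ x ∈ Icc a b, ∀ y ∈ Icc c d, ‖fy (x, y)‖ ≤ 3 / r := by
    intro x hx y hy
    refine (norm_add_le _ _).trans ?_
    have h1 := hprod _ _ 1 (hA.byy (x, y)) (hgn (x, y)).le
    have h2 := hprod _ _ _ (hA.b0 (x, y)) (bgy x hx y hy)
    have e : (3 : ℝ) / r = 1 / r + 2 / r := by ring
    rw [e]
    linarith
  have bfxy : ∀ x ∈ Icc a b, ∀ y ∈ Icc c d, ‖fxy (x, y)‖ ≤ 10 / r ^ 2 := by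
    intro x hx y hy
    refine (norm_add_le _ _).trans (le_trans (add_le_add (norm_add_le _ _) (norm_add_le _ _)) ?_)
    have h1 := hprod _ _ 1 (hA.bxy (x, y)) (hgn (x, y)).le
    have h2 := hprod _ _ _ (hA.bx (x, y)) (bgy x hx y hy)
    have h3 := hprod _ _ _ (hA.byy (x, y)) (bgx x hx y hy)
    have h4 := hprod _ _ _ (hA.b0 (x, y)) (bgxy x hx y hy)
    have h5 : 1 / r ≤ 1 / r ^ 2 := by
      have : 1 / r ^ 2 = 1 / r * (1 / r) := by field_simp
      rw [this]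
      nlinarith
    have e1 : (10 : ℝ) / r ^ 2 = 10 * (1 / r ^ 2) := by ring
    have e2 : (2 : ℝ) / r = 2 * (1 / r) := by ring
    have e3 : (5 : ℝ) / r ^ 2 = 5 * (1 / r ^ 2) := by ring
    rw [e1]
    rw [e2] at h2 h3
    rw [e3] at h4
    linarith
  have key := osc2 A B r hr0 a b c d hab (by linarith) hcd (by linarith) f fx fy fxy
    (by rw [hf]; fun_prop) (by rw [hfx]; fun_prop) (by rw [hfy]; fun_prop) (by rw [hfxy]; fun_prop)
    dfx dfy dfxy bf bfx bfy bfxy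
  have hexp : ∀ x y : ℝ, am (x, y) * cexp (I * (ev P (x, y) : ℂ)) =
      cexp (I * ((A * x : ℝ) : ℂ)) * (cexp (I * ((B * y : ℝ) : ℂ)) * f (x, y)) := by
    intro x y
    have h1 : cexp (I * (ev P (x, y) : ℂ)) =
        cexp (I * ((A * x : ℝ) : ℂ)) * (cexp (I * ((B * y : ℝ) : ℂ)) * g (x, y)) := by
      rw [hgdef]
      simp only
      rw [← Complex.exp_add, ← Complex.exp_add]
      congr 1
      push_cast
      ring
    rw [h1, hf]
    simp only
    ring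
  have hint : ∫ x in (S ×ˢ T) ∩ cube k i, am x * cexp (I * (ev P x : ℂ)) =
      ∫ x in a..b, cexp (I * ((A * x : ℝ) : ℂ)) *
      ∫ y in c..d, cexp (I * ((B * y : ℝ) : ℂ)) * f (x, y) := by
    rw [setIntegral_congr_set hset, Measure.volume_eq_prod, setIntegral_prod]
    · rw [intervalIntegral.integral_of_le hab]
      refine setIntegral_congr_fun measurableSet_Ioc fun x _ => ?_
      rw [intervalIntegral.integral_of_le hcd, ← integral_const_mul]
      refine setIntegral_congr_fun measurableSet_Ioc fun y _ => ?_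
      exact hexp x y
    · have hc0 : Continuous fun x : ℝ × ℝ => am x * cexp (I * (ev P x : ℂ)) := by
        have := ev_cont P
        fun_prop
      refine IntegrableOn.mono_set (hc0.continuousOn.integrableOn_compact
        (isCompact_Icc.prod isCompact_Icc : IsCompact (Icc a b ×ˢ Icc c d))) ?_
      exact prod_mono Ioc_subset_Icc_self Ioc_subset_Icc_self
  rw [hint]
  refine key.trans (le_of_eq ?_)
  have e3 : r ^ 2 = (1 / 4) ^ k := by
    have : (4 : ℝ) ^ k = 2 ^ k * 2 ^ k := by rw [← mul_pow]; norm_num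
    rw [one_div, inv_pow, this, hr]
    field_simp
  rw [e3, hr]
  congr 1
  ring

end Run7.h239.PP
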