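import Mathlib
set_option autoImplicit false

/-!
Polynomials of bounded degree are controlled by their values on equispaced grids; a lower bound for the
measure of the set where a polynomial is not small.
-/

namespace Run7.h239.PP

open MeasureTheory Set Polynomial
open scoped ENNReal

/-- In one variable the values at `D + 1` equispaced points control a polynomial of degree at most `D`. -/
theorem lag1 (D : ℕ) (M : ℝ) : ∃ C : ℝ, 1 ≤ C ∧ ∀ (p : ℝ[X]), p.natDegree ≤ D → ∀ (x δ B : ℝ),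
    (∀ j ∈ Finset.range (D + 1), |p.eval (x + j * δ)| ≤ B) →
    ∀ s : ℝ, |s| ≤ M → |p.eval (x + s * δ)| ≤ C * B := by
  classical
  set v : ℕ → ℝ := fun j => (j : ℝ) with hv
  set S := Finset.range (D + 1) with hS
  have hinj : Set.InjOn v S := fun a _ b _ h => by simpa [hv] using h
  have hb : ∀ j, ∃ K : ℝ, 0 ≤ K ∧ ∀ s : ℝ, |s| ≤ M → |(Lagrange.basis S v j).eval s| ≤ K := by
    intro j
    have hc : Continuous fun s : ℝ => |(Lagrange.basis S v j).eval s| :=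
      (Polynomial.continuous _).abs
    obtain ⟨K, hK⟩ := (isCompact_Icc (a := -M) (b := M)).bddAbove_image hc.continuousOn
    refine ⟨max K 0, le_max_right _ _, fun s hs => ?_⟩
    refine le_trans ?_ (le_max_left _ _)
    exact hK ⟨s, abs_le.1 hs, rfl⟩
  choose K hK0 hK using hb
  refine ⟨1 + ∑ j ∈ S, K j, ?_, ?_⟩
  · have : 0 ≤ ∑ j ∈ S, K j := Finset.sum_nonneg fun j _ => hK0 j
    linarith
  intro p hp x δ B hB s hs
  have hB0 : 0 ≤ B := (abs_nonneg _).trans (hB 0 (by simp [hS]))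
  set r : ℝ[X] := p.comp (C x + C δ * X) with hr
  have hre : ∀ s, r.eval s = p.eval (x + s * δ) := by
    intro s
    rw [hr, eval_comp]
    congr 1
    simp only [eval_add, eval_mul, eval_C, eval_X]
    ring
  have hrd : r.natDegree ≤ D := by
    have h1 : r.natDegree ≤ p.natDegree * (C x + C δ * X : ℝ[X]).natDegree := natDegree_comp_le
    have h2 : (C x + C δ * X : ℝ[X]).natDegree ≤ 1 := by compute_degree
    calc r.natDegree ≤ _ := h1
      _ ≤ p.natDegree * 1 := Nat.mul_le_mul_left _ h2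
      _ ≤ D := by simpa using hp
  have hdeg : r.degree < S.card := by
    refine lt_of_le_of_lt degree_le_natDegree ?_
    rw [hS, Finset.card_range]
    exact_mod_cast Nat.lt_succ_of_le hrd
  have hint := Lagrange.eq_interpolate_of_eval_eq (s := S) (v := v) (fun j => r.eval (v j)) hinj hdeg
    (fun i _ => rfl)
  have e1 : r.eval s = ∑ j ∈ S, r.eval (v j) * (Lagrange.basis S v j).eval s := by
    conv_lhs => rw [hint]
    rw [Lagrange.interpolate_apply, eval_finsetSum]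
    refine Finset.sum_congr rfl fun j _ => ?_
    rw [eval_mul, eval_C]
  rw [← hre, e1]
  calc |∑ j ∈ S, r.eval (v j) * (Lagrange.basis S v j).eval s|
      ≤ ∑ j ∈ S, |r.eval (v j) * (Lagrange.basis S v j).eval s| := Finset.abs_sum_le_sum_abs _ _
    _ ≤ ∑ j ∈ S, B * K j := by
        refine Finset.sum_le_sum fun j hj => ?_
        rw [abs_mul]
        refine mul_le_mul ?_ (hK j s hs) (abs_nonneg _) hB0
        rw [hre]
        exact hB j hj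
    _ = (∑ j ∈ S, K j) * B := by rw [← Finset.mul_sum, mul_comm]
    _ ≤ (1 + ∑ j ∈ S, K j) * B := by nlinarith

/-- functions of two variables which are polynomials of degree at most `D` in each variable -/
def SlicePoly (D : ℕ) (u : ℝ × ℝ → ℝ) : Prop :=
  (∀ y, ∃ p : ℝ[X], p.natDegree ≤ D ∧ ∀ x, u (x, y) = p.eval x) ∧
  (∀ x, ∃ p : ℝ[X], p.natDegree ≤ D ∧ ∀ y, u (x, y) = p.eval y)

theorem lag2 (D : ℕ) (M : ℝ) : ∃ C : ℝ, 1 ≤ C ∧ ∀ (u : ℝ × ℝ → ℝ), SlicePoly D u →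
    ∀ (x : ℝ × ℝ) (δ B : ℝ),
    (∀ j ∈ Finset.range (D + 1), ∀ l ∈ Finset.range (D + 1),
      |u (x.1 + j * δ, x.2 + l * δ)| ≤ B) →
    ∀ s r : ℝ, |s| ≤ M → |r| ≤ M → |u (x.1 + s * δ, x.2 + r * δ)| ≤ C * B := by
  obtain ⟨C, hC1, hC⟩ := lag1 D M
  refine ⟨C * C, by nlinarith, ?_⟩
  intro u hu x δ B hB s r hs hr
  obtain ⟨p, hp, hpe⟩ := hu.1 (x.2 + r * δ)
  rw [hpe, mul_assoc]
  refine hC p hp x.1 δ (C * B) ?_ s hs
  intro j hj
  rw [← hpe]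
  obtain ⟨q, hq, hqe⟩ := hu.2 (x.1 + j * δ)
  rw [hqe]
  refine hC q hq x.2 δ B ?_ r hr
  intro l hl
  rw [← hqe]
  exact hB j hj l hl

/-- index of the dyadic square of side `2⁻ᵏ` which contains `x` -/
noncomputable def idx (k : ℕ) (x : ℝ × ℝ) : ℤ × ℤ := (⌊2 ^ k * x.1⌋, ⌊2 ^ k * x.2⌋)

/-- the dyadic square of side `2⁻ᵏ` with index `i` -/
def cube (k : ℕ) (i : ℤ × ℤ) : Set (ℝ × ℝ) := {x | idx k x = i}

theorem measurable_idx (k : ℕ) : Measurable (idx k) := by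
  unfold idx
  refine Measurable.prodMk ?_ ?_
  · exact Int.measurable_floor.comp (measurable_const.mul measurable_fst)
  · exact Int.measurable_floor.comp (measurable_const.mul measurable_snd)

theorem measurableSet_cube (k : ℕ) (i : ℤ × ℤ) : MeasurableSet (cube k i) :=
  measurable_idx k (measurableSet_singleton i)

theorem mem_cube {k : ℕ} {i : ℤ × ℤ} {x : ℝ × ℝ} : x ∈ cube k i ↔
    ((i.1 : ℝ) ≤ 2 ^ k * x.1 ∧ 2 ^ k * x.1 < i.1 + 1) ∧
    ((i.2 : ℝ) ≤ 2 ^ k * x.2 ∧ 2 ^ k * x.2 < i.2 + 1) := by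
  unfold cube idx
  rw [mem_ofPred_eq, Prod.ext_iff]
  simp only [Int.floor_eq_iff]

theorem cube_eq (k : ℕ) (i : ℤ × ℤ) : cube k i =
    Ico ((i.1 : ℝ) / 2 ^ k) ((i.1 + 1) / 2 ^ k) ×ˢ Ico ((i.2 : ℝ) / 2 ^ k) ((i.2 + 1) / 2 ^ k) := by
  have h : (0 : ℝ) < 2 ^ k := by positivity
  ext x
  rw [mem_cube, mem_prod, mem_Ico, mem_Ico, div_le_iff₀ h, lt_div_iff₀ h, div_le_iff₀ h,
    lt_div_iff₀ h, mul_comm (2 ^ k : ℝ) x.1, mul_comm (2 ^ k : ℝ) x.2]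

theorem volume_cube (k : ℕ) (i : ℤ × ℤ) : volume (cube k i) = ENNReal.ofReal ((1 / 4) ^ k) := by
  rw [cube_eq, Measure.volume_eq_prod, Measure.prod_prod, Real.volume_Ico, Real.volume_Ico,
    ← ENNReal.ofReal_mul (by rw [← sub_div]; simp)]
  congr 1
  rw [← sub_div, ← sub_div]
  have : ((4 : ℝ)) ^ k = 2 ^ k * 2 ^ k := by rw [← mul_pow]; norm_num
  rw [one_div, inv_pow, this]
  simp

/-- The values of `u` on the grid based at `x₀` with mesh `2⁻ᵏ/(D+1)` control `u` near the cube. -/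
theorem grid_aux (D : ℕ) : ∃ C : ℝ, 1 ≤ C ∧ ∀ u : ℝ × ℝ → ℝ, SlicePoly D u →
    ∀ (k : ℕ) (i : ℤ × ℤ) (x₀ z : ℝ × ℝ),
    |2 ^ k * x₀.1 - i.1| ≤ 1 → |2 ^ k * x₀.2 - i.2| ≤ 1 →
    |2 ^ k * z.1 - i.1| ≤ 2 → |2 ^ k * z.2 - i.2| ≤ 2 →
    ∃ j ∈ Finset.range (D + 1), ∃ l ∈ Finset.range (D + 1),
      |u z| ≤ C * |u (x₀.1 + j * ((1 / 2 ^ k) / (D + 1)), x₀.2 + l * ((1 / 2 ^ k) / (D + 1)))| := by
  obtain ⟨C, hC1, hC⟩ := lag2 D (3 * (D + 1))
  refine ⟨C, hC1, ?_⟩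
  intro u hu k i x₀ z hx1 hx2 hz1 hz2
  set δ : ℝ := (1 / 2 ^ k) / (D + 1) with hδ
  have hk : (0 : ℝ) < 2 ^ k := by positivity
  have hD : (0 : ℝ) < D + 1 := by positivity
  have hδ0 : 0 < δ := by positivity
  obtain ⟨⟨j, l⟩, hjl, hmax⟩ := Finset.exists_max_image
    (Finset.range (D + 1) ×ˢ Finset.range (D + 1))
    (fun q : ℕ × ℕ => |u (x₀.1 + q.1 * δ, x₀.2 + q.2 * δ)|) ⟨(0, 0), by simp⟩
  rw [Finset.mem_product] at hjl
  refine ⟨j, hjl.1, l, hjl.2, ?_⟩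
  have key := hC u hu x₀ δ _ (fun j' hj' l' hl' => hmax (j', l') (Finset.mem_product.2 ⟨hj', hl'⟩))
    ((z.1 - x₀.1) / δ) ((z.2 - x₀.2) / δ) ?_ ?_
  · rw [div_mul_cancel₀ _ hδ0.ne', div_mul_cancel₀ _ hδ0.ne'] at key
    simpa using key
  · rw [abs_div, abs_of_pos hδ0, div_le_iff₀ hδ0]
    have h1 : |2 ^ k * (z.1 - x₀.1)| ≤ 3 := by
      have : 2 ^ k * (z.1 - x₀.1) = (2 ^ k * z.1 - i.1) - (2 ^ k * x₀.1 - i.1) := by ring
      rw [this]
      exact (abs_sub _ _).trans (by linarith)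
    rw [abs_mul, abs_of_pos hk] at h1
    have h2 : 3 * ((D : ℝ) + 1) * δ = 3 / 2 ^ k := by
      rw [hδ]; field_simp
    rw [h2, le_div_iff₀ hk]
    linarith
  · rw [abs_div, abs_of_pos hδ0, div_le_iff₀ hδ0]
    have h1 : |2 ^ k * (z.2 - x₀.2)| ≤ 3 := by
      have : 2 ^ k * (z.2 - x₀.2) = (2 ^ k * z.2 - i.2) - (2 ^ k * x₀.2 - i.2) := by ring
      rw [this]
      exact (abs_sub _ _).trans (by linarith)
    rw [abs_mul, abs_of_pos hk] at h1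
    have h2 : 3 * ((D : ℝ) + 1) * δ = 3 / 2 ^ k := by
      rw [hδ]; field_simp
    rw [h2, le_div_iff₀ hk]
    linarith

/-- points of the grid in the cube `cube k i` -/
noncomputable def gp (D k : ℕ) (i : ℤ × ℤ) (j l : ℕ) : ℝ × ℝ :=
  ((i.1 : ℝ) / 2 ^ k + j * ((1 / 2 ^ k) / (D + 1)), (i.2 : ℝ) / 2 ^ k + l * ((1 / 2 ^ k) / (D + 1)))

theorem shift_mem_cube {D k : ℕ} {i : ℤ × ℤ} {j l : ℕ} (hj : j ∈ Finset.range (D + 1))
    (hl : l ∈ Finset.range (D + 1)) {x₀ : ℝ × ℝ}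
    (h1 : (i.1 : ℝ) ≤ 2 ^ k * x₀.1) (h1' : 2 ^ k * x₀.1 < i.1 + 1 / (D + 1))
    (h2 : (i.2 : ℝ) ≤ 2 ^ k * x₀.2) (h2' : 2 ^ k * x₀.2 < i.2 + 1 / (D + 1)) :
    (x₀.1 + j * ((1 / 2 ^ k) / (D + 1)), x₀.2 + l * ((1 / 2 ^ k) / (D + 1))) ∈ cube k i := by
  have hk : (0 : ℝ) < 2 ^ k := by positivity
  have hD : (0 : ℝ) < D + 1 := by positivity
  have e : ∀ (a : ℝ) (j : ℕ), 2 ^ k * (a + j * ((1 / 2 ^ k) / (D + 1))) = 2 ^ k * a + j / (D + 1) := by
    intro a j; field_simp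
  have hjD : ∀ j : ℕ, j ∈ Finset.range (D + 1) → (j : ℝ) / (D + 1) + 1 / (D + 1) ≤ 1 := by
    intro j hj
    rw [← add_div, div_le_one hD]
    have := Finset.mem_range.1 hj
    have : j ≤ D := by omega
    exact_mod_cast Nat.succ_le_succ this
  rw [mem_cube]
  simp only [e]
  have a1 := hjD j hj
  have a2 := hjD l hl
  have b1 : (0 : ℝ) ≤ (j : ℝ) / (D + 1) := by positivity
  have b2 : (0 : ℝ) ≤ (l : ℝ) / (D + 1) := by positivity
  refine ⟨⟨by linarith, by linarith⟩, ⟨by linarith, by linarith⟩⟩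

theorem gp_mem {D k : ℕ} {i : ℤ × ℤ} {j l : ℕ} (hj : j ∈ Finset.range (D + 1))
    (hl : l ∈ Finset.range (D + 1)) : gp D k i j l ∈ cube k i := by
  have hk : (0 : ℝ) < 2 ^ k := by positivity
  have hD : (0 : ℝ) < 1 / ((D : ℝ) + 1) := by positivity
  have e1 : (2 : ℝ) ^ k * ((i.1 : ℝ) / 2 ^ k) = i.1 := by field_simp
  have e2 : (2 : ℝ) ^ k * ((i.2 : ℝ) / 2 ^ k) = i.2 := by field_simp
  refine shift_mem_cube (x₀ := ((i.1 : ℝ) / 2 ^ k, (i.2 : ℝ) / 2 ^ k)) hj hl ?_ ?_ ?_ ?_ <;>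
    simp only [e1, e2] <;> linarith

/-- Norm equivalence: the grid in the cube controls the polynomial on a larger cube. -/
theorem grid (D : ℕ) : ∃ C : ℝ, 1 ≤ C ∧ ∀ u : ℝ × ℝ → ℝ, SlicePoly D u →
    ∀ (k : ℕ) (i : ℤ × ℤ) (z : ℝ × ℝ), |2 ^ k * z.1 - i.1| ≤ 2 → |2 ^ k * z.2 - i.2| ≤ 2 →
    ∃ j ∈ Finset.range (D + 1), ∃ l ∈ Finset.range (D + 1), |u z| ≤ C * |u (gp D k i j l)| := by
  obtain ⟨C, hC1, hC⟩ := grid_aux D
  refine ⟨C, hC1, ?_⟩
  intro u hu k i z h1 h2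
  have hk : (0 : ℝ) < 2 ^ k := by positivity
  have e1 : (2 : ℝ) ^ k * ((i.1 : ℝ) / 2 ^ k) = i.1 := by field_simp
  have e2 : (2 : ℝ) ^ k * ((i.2 : ℝ) / 2 ^ k) = i.2 := by field_simp
  exact hC u hu k i ((i.1 : ℝ) / 2 ^ k, (i.2 : ℝ) / 2 ^ k) z (by simp [e1]) (by simp [e2]) h1 h2

/-- A polynomial is not small on a large part of a cube. -/
theorem remez (D : ℕ) : ∃ C : ℝ, 1 ≤ C ∧ ∀ u : ℝ × ℝ → ℝ, SlicePoly D u →
    ∀ (k : ℕ) (i : ℤ × ℤ) (z : ℝ × ℝ), |2 ^ k * z.1 - i.1| ≤ 2 → |2 ^ k * z.2 - i.2| ≤ 2 →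
    volume (cube k i) ≤
      ENNReal.ofReal (((D : ℝ) + 1) ^ 4) * volume (cube k i ∩ {y | |u z| ≤ C * |u y|}) := by
  obtain ⟨C, hC1, hC⟩ := grid_aux D
  refine ⟨C, hC1, ?_⟩
  intro u hu k i z hz1 hz2
  set δ : ℝ := (1 / 2 ^ k) / (D + 1) with hδ
  have hk : (0 : ℝ) < 2 ^ k := by positivity
  have hD : (0 : ℝ) < D + 1 := by positivity
  have hδ0 : 0 < δ := by positivity
  set G := cube k i ∩ {y | |u z| ≤ C * |u y|} with hG
  set T : Set (ℝ × ℝ) := Ico ((i.1 : ℝ) / 2 ^ k) ((i.1 : ℝ) / 2 ^ k + δ) ×ˢ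
    Ico ((i.2 : ℝ) / 2 ^ k) ((i.2 : ℝ) / 2 ^ k + δ) with hT
  have hTv : volume T = ENNReal.ofReal (δ * δ) := by
    rw [hT, Measure.volume_eq_prod, Measure.prod_prod, Real.volume_Ico, Real.volume_Ico,
      ← ENNReal.ofReal_mul (by simpa using hδ0.le)]
    congr 1
    ring
  have hsub : T ⊆ ⋃ q ∈ Finset.range (D + 1) ×ˢ Finset.range (D + 1),
      (fun x : ℝ × ℝ => x + ((q.1 : ℝ) * δ, (q.2 : ℝ) * δ)) ⁻¹' G := by
    intro x hx
    obtain ⟨⟨a1, a2⟩, b1, b2⟩ := hx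
    have a1' : (i.1 : ℝ) ≤ 2 ^ k * x.1 := by
      rw [div_le_iff₀ hk] at a1; linarith
    have b1' : (i.2 : ℝ) ≤ 2 ^ k * x.2 := by
      rw [div_le_iff₀ hk] at b1; linarith
    have hδk : 2 ^ k * δ = 1 / (D + 1) := by rw [hδ]; field_simp
    have a2' : 2 ^ k * x.1 < i.1 + 1 / (D + 1) := by
      have := mul_lt_mul_of_pos_left a2 hk
      rw [mul_add, hδk, mul_div_cancel₀ _ hk.ne'] at this
      exact this
    have b2' : 2 ^ k * x.2 < i.2 + 1 / (D + 1) := by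
      have := mul_lt_mul_of_pos_left b2 hk
      rw [mul_add, hδk, mul_div_cancel₀ _ hk.ne'] at this
      exact this
    have hD1 : 1 / ((D : ℝ) + 1) ≤ 1 := by
      rw [div_le_one hD]; linarith [Nat.cast_nonneg (α := ℝ) D]
    obtain ⟨j, hj, l, hl, h⟩ := hC u hu k i x z
      (by rw [abs_le]; constructor <;> linarith) (by rw [abs_le]; constructor <;> linarith) hz1 hz2
    refine mem_iUnion₂.2 ⟨(j, l), Finset.mem_product.2 ⟨hj, hl⟩, ?_⟩
    refine ⟨?_, ?_⟩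
    · exact shift_mem_cube hj hl a1' a2' b1' b2'
    · exact h
  have h1 : volume T ≤ ∑ q ∈ Finset.range (D + 1) ×ˢ Finset.range (D + 1), volume G := by
    refine (measure_mono hsub).trans ((measure_biUnion_finset_le _ _).trans ?_)
    refine Finset.sum_le_sum fun q _ => ?_
    rw [measure_preimage_add_right]
  rw [Finset.sum_const, Finset.card_product, Finset.card_range, hTv, nsmul_eq_mul] at h1
  have h2 : volume (cube k i) = ENNReal.ofReal (((D : ℝ) + 1) ^ 2) * ENNReal.ofReal (δ * δ) := by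
    rw [volume_cube, ← ENNReal.ofReal_mul (by positivity)]
    congr 1
    have : ((4 : ℝ)) ^ k = 2 ^ k * 2 ^ k := by rw [← mul_pow]; norm_num
    rw [hδ, one_div, inv_pow, this]
    field_simp
  rw [h2]
  calc ENNReal.ofReal (((D : ℝ) + 1) ^ 2) * ENNReal.ofReal (δ * δ)
      ≤ ENNReal.ofReal (((D : ℝ) + 1) ^ 2) * ((((D + 1) * (D + 1) : ℕ) : ℝ≥0∞) * volume G) := by
        gcongr
    _ = ENNReal.ofReal (((D : ℝ) + 1) ^ 4) * volume G := by
        rw [← mul_assoc]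
        congr 1
        rw [← ENNReal.ofReal_natCast, ← ENNReal.ofReal_mul (by positivity)]
        congr 1
        push_cast
        ring

end Run7.h239.PP
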