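import Mathlib
import Pool.Agent.TH277.CP.P
set_option autoImplicit false

/-!
Level sets of the extension operator for functions built from tame pieces.
-/

namespace Run7.h239.PP

open MeasureTheory Set Complex
open scoped ENNReal

/-- the kernel of the extension operator -/
noncomputable def ker (t : ℝ) (ξ x : ℝ × ℝ) : ℂ :=
  cexp (-(I * ((x.1 * ξ.1 + x.2 * ξ.2 + t * (x.1 * x.1 + x.2 * x.2) : ℝ) : ℂ)))

/-- A piece `h 1_R`, `|h| ≤ 1`, is tame if for each `μ ≥ 1` the part of `R` off a set `X t` contributes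
`O(log³ μ / μ)`, uniformly, and the measure of `R ∩ X t`, integrated in `t`, is `O(μ |R|)`. -/
def Tame (K : ℝ) (R : Set (ℝ × ℝ)) (h : ℝ × ℝ → ℂ) : Prop :=
  MeasurableSet R ∧ (Measurable h ∧ ∀ x, ‖h x‖ ≤ 1) ∧
    ∀ μ : ℝ, 1 ≤ μ → ∃ X : Set (ℝ × (ℝ × ℝ)), MeasurableSet X ∧
    (∀ (t : ℝ) (ξ : ℝ × ℝ), ‖∫ x in R \ {x | (t, x) ∈ X}, h x * ker t ξ x‖ ≤
      K * (1 + Real.log μ) ^ 3 / μ) ∧
    ∫⁻ t, volume (R ∩ {x | (t, x) ∈ X}) ≤ ENNReal.ofReal (K * μ) * volume R

variable {ι : Type*} [Fintype ι]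

/-- the extension operator on a finite sum -/
noncomputable def Fs (c : ι → ℂ) (R : ι → Set (ℝ × ℝ)) (u : ι → ℝ × ℝ → ℂ)
    (p : ℝ × (ℝ × ℝ)) : ℂ :=
  ∑ j, c j * ∫ x in R j, u j x * ker p.1 p.2 x

theorem cexp_meas {u : ℝ × ℝ → ℂ} (hu : Measurable u) :
    Measurable fun q : (ℝ × (ℝ × ℝ)) × (ℝ × ℝ) => u q.2 * ker q.1.1 q.1.2 q.2 := by
  unfold ker
  fun_prop

theorem cexp_meas' {u : ℝ × ℝ → ℂ} (hu : Measurable u) (t : ℝ) (ξ : ℝ × ℝ) :
    Measurable fun x : ℝ × ℝ => u x * ker t ξ x := by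
  unfold ker
  fun_prop

theorem norm_ker (t : ℝ) (ξ x : ℝ × ℝ) : ‖ker t ξ x‖ = 1 := by
  unfold ker
  rw [← mul_neg, ← ofReal_neg, mul_comm, norm_exp_ofReal_mul_I]

theorem norm_hker {u : ℝ × ℝ → ℂ} (hu : ∀ x, ‖u x‖ ≤ 1) (t : ℝ) (ξ x : ℝ × ℝ) :
    ‖u x * ker t ξ x‖ ≤ 1 := by
  rw [norm_mul, norm_ker, mul_one]
  exact hu x

theorem piece_meas {R : Set (ℝ × ℝ)} {u : ℝ × ℝ → ℂ} (hu : Measurable u) :
    Measurable fun p : ℝ × (ℝ × ℝ) => ∫ x in R, u x * ker p.1 p.2 x := by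
  have h := (cexp_meas hu).stronglyMeasurable
  exact (h.integral_prod_right' (ν := (volume : Measure (ℝ × ℝ)).restrict R)).measurable

theorem Fs_meas {c : ι → ℂ} {R : ι → Set (ℝ × ℝ)} {u : ι → ℝ × ℝ → ℂ} (hu : ∀ j, Measurable (u j)) :
    Measurable (Fs c R u) := by
  unfold Fs
  exact Finset.measurable_sum _ fun j _ => (piece_meas (hu j)).const_mul (c j)

theorem cexp_integrable {R : Set (ℝ × ℝ)} (hfin : volume R ≠ ∞) {u : ℝ × ℝ → ℂ}
    (hu : Measurable u) (hb : ∀ x, ‖u x‖ ≤ 1) (t : ℝ) (ξ : ℝ × ℝ) :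
    IntegrableOn (fun x => u x * ker t ξ x) R := by
  have : IsFiniteMeasure (volume.restrict R) := ⟨by
    rw [Measure.restrict_apply_univ]; exact hfin.lt_top⟩
  refine Integrable.mono' (g := fun _ => (1 : ℝ)) (integrable_const _)
    (cexp_meas' hu t ξ).aestronglyMeasurable (Filter.Eventually.of_forall fun x => ?_)
  exact norm_hker hb t ξ x

/-- the level sets -/
theorem level (K : ℝ) (c : ι → ℂ) (R : ι → Set (ℝ × ℝ)) (u : ι → ℝ × ℝ → ℂ)
    (hT : ∀ j, Tame K (R j) (u j)) (hfin : ∀ j, volume (R j) ≠ ∞)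
    (hd : Pairwise (Function.onFun Disjoint R)) (μ : ι → ℝ) (hμ : ∀ j, 1 ≤ μ j) (lam : ℝ)
    (hlam : 0 < lam) (hsum : ∑ j, ‖c j‖ * (K * (1 + Real.log (μ j)) ^ 3 / μ j) ≤ lam / 2) :
    volume {p | lam < ‖Fs c R u p‖} ≤ ENNReal.ofReal (4 * (2 * Real.pi) ^ 2 / lam ^ 2) *
      ∑ j, ENNReal.ofReal (‖c j‖ ^ 2) * (ENNReal.ofReal (K * μ j) * volume (R j)) := by
  classical
  have hRm : ∀ j, MeasurableSet (R j) := fun j => (hT j).1
  have hum : ∀ j, Measurable (u j) := fun j => (hT j).2.1.1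
  have hub : ∀ j x, ‖u j x‖ ≤ 1 := fun j => (hT j).2.1.2
  have hX := fun j => (hT j).2.2 (μ j) (hμ j)
  choose X hXm hX1 hX2 using hX
  -- slices of the exceptional sets
  have hXt : ∀ j t, MeasurableSet {x | (t, x) ∈ X j} := fun j t => measurable_prodMk_left (hXm j)
  have hAm : ∀ j t, MeasurableSet (R j ∩ {x | (t, x) ∈ X j}) := fun j t => (hRm j).inter (hXt j t)
  -- the resonant function
  set G : ℝ → ℝ × ℝ → ℂ := fun t x => ∑ j, (R j ∩ {x | (t, x) ∈ X j}).indicator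
    (fun x => c j * (u j x * ker t 0 x)) x with hG
  have hterm : ∀ (p : ℝ≥0∞) t j, MemLp ((R j ∩ {x | (t, x) ∈ X j}).indicator
      (fun x => c j * (u j x * ker t 0 x))) p volume := by
    intro p t j
    have hfi : volume (R j ∩ {x | (t, x) ∈ X j}) ≠ ∞ :=
      ne_top_of_le_ne_top (hfin j) (measure_mono inter_subset_left)
    have : IsFiniteMeasure (volume.restrict (R j ∩ {x | (t, x) ∈ X j})) := ⟨by
      rw [Measure.restrict_apply_univ]; exact hfi.lt_top⟩
    rw [memLp_indicator_iff_restrict (hAm j t)]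
    refine MemLp.of_bound (C := ‖c j‖) ?_ (Filter.Eventually.of_forall fun x => ?_)
    · exact ((cexp_meas' (hum j) t 0).const_mul (c j)).aestronglyMeasurable
    · rw [norm_mul]
      exact mul_le_of_le_one_right (norm_nonneg _) (norm_hker (hub j) t 0 x)
  have hGm : ∀ (p : ℝ≥0∞) t, MemLp (G t) p volume := by
    intro p t
    rw [hG]
    exact memLp_finsetSum _ fun j _ => hterm p t j
  have hG2 : ∀ t, ∫⁻ x, ‖G t x‖ₑ ^ 2 ≤
      ∑ j, ENNReal.ofReal (‖c j‖ ^ 2) * volume (R j ∩ {x | (t, x) ∈ X j}) := by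
    intro t
    have hpt : ∀ x, ‖G t x‖ₑ ^ 2 ≤ ∑ j, (R j ∩ {x | (t, x) ∈ X j}).indicator
        (fun _ => ENNReal.ofReal (‖c j‖ ^ 2)) x := by
      intro x
      by_cases hx : ∃ j, x ∈ R j ∩ {x | (t, x) ∈ X j}
      · obtain ⟨j, hj⟩ := hx
        have h1 : G t x = c j * (u j x * ker t 0 x) := by
          rw [hG]
          simp only
          rw [Finset.sum_eq_single j]
          · rw [indicator_of_mem hj]
          · intro l _ hl
            refine indicator_of_notMem ?_ _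
            intro hx
            exact Set.disjoint_left.1 (hd hl) hx.1 hj.1
          · intro h; exact absurd (Finset.mem_univ j) h
        have h2 : ‖G t x‖ₑ ^ 2 ≤ ENNReal.ofReal (‖c j‖ ^ 2) := by
          rw [h1, ← ofReal_norm, norm_mul, ← ENNReal.ofReal_pow (by positivity)]
          refine ENNReal.ofReal_le_ofReal ?_
          have h3 : ‖c j‖ * ‖u j x * ker t 0 x‖ ≤ ‖c j‖ :=
            mul_le_of_le_one_right (norm_nonneg _) (norm_hker (hub j) t 0 x)
          gcongr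
        refine h2.trans ?_
        calc ENNReal.ofReal (‖c j‖ ^ 2) = (R j ∩ {x | (t, x) ∈ X j}).indicator
              (fun _ => ENNReal.ofReal (‖c j‖ ^ 2)) x := by rw [indicator_of_mem hj]
          _ ≤ _ := Finset.single_le_sum (f := fun j => (R j ∩ {x | (t, x) ∈ X j}).indicator
              (fun _ => ENNReal.ofReal (‖c j‖ ^ 2)) x) (fun _ _ => zero_le) (Finset.mem_univ j)
      · push Not at hx
        have h1 : G t x = 0 := by
          rw [hG]
          exact Finset.sum_eq_zero fun j _ => indicator_of_notMem (hx j) _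
        rw [h1]
        simp
    refine (lintegral_mono hpt).trans ?_
    rw [lintegral_finsetSum _ fun j _ => measurable_const.indicator (hAm j t)]
    refine Finset.sum_le_sum fun j _ => ?_
    rw [lintegral_indicator_const (hAm j t)]
  -- the split
  have hpsi : ∀ j t ξ x, (u j x * ker t ξ x) =
      cexp (-(I * ((x.1 * ξ.1 + x.2 * ξ.2 : ℝ) : ℂ))) * (u j x * ker t 0 x) := by
    intro j t ξ x
    have h1 : ker t ξ x = cexp (-(I * ((x.1 * ξ.1 + x.2 * ξ.2 : ℝ) : ℂ))) * ker t 0 x := by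
      unfold ker
      rw [← Complex.exp_add]
      congr 1
      push_cast
      simp only [Prod.fst_zero, Prod.snd_zero, ofReal_zero]
      ring
    rw [h1]
    ring
  have hsplit : ∀ t ξ, Fs c R u (t, ξ) =
      (∫ x, cexp (-(I * ((x.1 * ξ.1 + x.2 * ξ.2 : ℝ) : ℂ))) * G t x) +
      ∑ j, c j * ∫ x in R j \ {x | (t, x) ∈ X j}, (u j x * ker t ξ x) := by
    intro t ξ
    have hsum1 : (∫ x, cexp (-(I * ((x.1 * ξ.1 + x.2 * ξ.2 : ℝ) : ℂ))) * G t x) =
        ∑ j, c j * ∫ x in R j ∩ {x | (t, x) ∈ X j}, (u j x * ker t ξ x) := by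
      have e1 : ∀ x, cexp (-(I * ((x.1 * ξ.1 + x.2 * ξ.2 : ℝ) : ℂ))) * G t x =
          ∑ j, (R j ∩ {x | (t, x) ∈ X j}).indicator
            (fun x => c j * (u j x * ker t ξ x)) x := by
        intro x
        rw [hG]
        simp only
        rw [Finset.mul_sum]
        refine Finset.sum_congr rfl fun j _ => ?_
        by_cases hx : x ∈ R j ∩ {x | (t, x) ∈ X j}
        · rw [indicator_of_mem hx, indicator_of_mem hx, hpsi j t ξ x]
          ring
        · rw [indicator_of_notMem hx, indicator_of_notMem hx, mul_zero]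
      simp_rw [e1]
      rw [integral_finsetSum]
      · refine Finset.sum_congr rfl fun j _ => ?_
        rw [integral_indicator (hAm j t), integral_const_mul]
      · intro j _
        rw [integrable_indicator_iff (hAm j t)]
        exact ((cexp_integrable (hfin j) (hum j) (hub j) t ξ).mono_set inter_subset_left).const_mul _
    rw [hsum1, ← Finset.sum_add_distrib]
    unfold Fs
    refine Finset.sum_congr rfl fun j _ => ?_
    rw [← mul_add]
    congr 1
    have := integral_inter_add_sdiff (hXt j t) (cexp_integrable (hfin j) (hum j) (hub j) t ξ)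
    exact this.symm
  have hnr : ∀ t ξ, ‖∑ j, c j * ∫ x in R j \ {x | (t, x) ∈ X j},
      (u j x * ker t ξ x)‖ ≤ lam / 2 := by
    intro t ξ
    refine (norm_sum_le _ _).trans (le_trans (Finset.sum_le_sum fun j _ => ?_) hsum)
    rw [norm_mul]
    exact mul_le_mul_of_nonneg_left (hX1 j t ξ) (norm_nonneg _)
  -- one slice
  have hslice : ∀ t, volume {ξ : ℝ × ℝ | lam < ‖Fs c R u (t, ξ)‖} ≤
      ENNReal.ofReal (4 * (2 * Real.pi) ^ 2 / lam ^ 2) *
        ∑ j, ENNReal.ofReal (‖c j‖ ^ 2) * volume (R j ∩ {x | (t, x) ∈ X j}) := by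
    intro t
    have hpl := Pool.Agent.TH277.CP.plancherel2 (G t) (memLp_one_iff_integrable.1 (hGm 1 t)) (hGm 2 t)
    set Hh : ℝ × ℝ → ℂ := fun ξ => ∫ x, cexp (-(I * ((x.1 * ξ.1 + x.2 * ξ.2 : ℝ) : ℂ))) * G t x with hHh
    have hsub : {ξ : ℝ × ℝ | lam < ‖Fs c R u (t, ξ)‖} ⊆
        {ξ | ENNReal.ofReal ((lam / 2) ^ 2) ≤ ‖Hh ξ‖ₑ ^ 2} := by
      intro ξ hξ
      simp only [mem_ofPred_eq] at hξ ⊢
      rw [hsplit t ξ] at hξ
      have h1 := norm_add_le (Hh ξ) (∑ j, c j * ∫ x in R j \ {x | (t, x) ∈ X j},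
        (u j x * ker t ξ x))
      have h2 := hnr t ξ
      have h3 : lam / 2 ≤ ‖Hh ξ‖ := by
        have : lam < ‖Hh ξ‖ + lam / 2 := lt_of_lt_of_le hξ (h1.trans (by gcongr))
        linarith
      rw [← ofReal_norm, ← ENNReal.ofReal_pow (norm_nonneg _)]
      refine ENNReal.ofReal_le_ofReal ?_
      gcongr
    refine (measure_mono hsub).trans ?_
    have hHm : Measurable Hh := by
      have hc : Measurable (fun q : (ℝ × ℝ) × (ℝ × ℝ) =>
          cexp (-(I * ((q.2.1 * q.1.1 + q.2.2 * q.1.2 : ℝ) : ℂ)))) := by fun_prop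
      have hGmm : Measurable (G t) := by
        rw [hG]
        refine Finset.measurable_sum _ fun j _ => ?_
        exact ((cexp_meas' (hum j) t 0).const_mul (c j)).indicator (hAm j t)
      have h := (hc.mul (hGmm.comp measurable_snd)).stronglyMeasurable
      exact (h.integral_prod_right' (ν := (volume : Measure (ℝ × ℝ)))).measurable
    have hch := mul_meas_ge_le_lintegral (μ := (volume : Measure (ℝ × ℝ)))
      (f := fun ξ => ‖Hh ξ‖ₑ ^ 2) (hHm.enorm.pow_const 2) (ENNReal.ofReal ((lam / 2) ^ 2))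
    rw [hpl] at hch
    have hpos : ENNReal.ofReal ((lam / 2) ^ 2) ≠ 0 := by
      rw [Ne, ENNReal.ofReal_eq_zero, not_le]; positivity
    have h4 : volume {ξ | ENNReal.ofReal ((lam / 2) ^ 2) ≤ ‖Hh ξ‖ₑ ^ 2} ≤
        (ENNReal.ofReal ((lam / 2) ^ 2))⁻¹ * (ENNReal.ofReal ((2 * Real.pi) ^ 2) * ∫⁻ x, ‖G t x‖ₑ ^ 2) := by
      rw [← ENNReal.mul_le_iff_le_inv hpos ENNReal.ofReal_ne_top]
      exact hch
    refine h4.trans ?_
    rw [← mul_assoc]
    refine mul_le_mul' (le_of_eq ?_) (hG2 t)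
    rw [← ENNReal.ofReal_inv_of_pos (by positivity), ← ENNReal.ofReal_mul (by positivity)]
    congr 1
    field_simp
    ring
  -- integration in `t`
  have hAmeas : MeasurableSet {p : ℝ × (ℝ × ℝ) | lam < ‖Fs c R u p‖} :=
    measurableSet_lt measurable_const (Fs_meas hum).norm
  have hvol : volume {p : ℝ × (ℝ × ℝ) | lam < ‖Fs c R u p‖} =
      ∫⁻ t, volume {ξ : ℝ × ℝ | lam < ‖Fs c R u (t, ξ)‖} := by
    rw [Measure.volume_eq_prod, Measure.prod_apply hAmeas]
    rfl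
  rw [hvol]
  refine (lintegral_mono hslice).trans ?_
  have hvm : ∀ j, Measurable fun t => volume (R j ∩ {x | (t, x) ∈ X j}) := by
    intro j
    have h1 : MeasurableSet (X j ∩ (univ ×ˢ R j)) := (hXm j).inter (MeasurableSet.univ.prod (hRm j))
    have h2 := measurable_measure_prodMk_left (ν := (volume : Measure (ℝ × ℝ))) h1
    have h3 : (fun t => volume (Prod.mk t ⁻¹' (X j ∩ (univ ×ˢ R j)))) =
        fun t => volume (R j ∩ {x | (t, x) ∈ X j}) := by
      funext t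
      congr 1
      ext x
      simp [and_comm]
    rw [h3] at h2
    exact h2
  rw [lintegral_const_mul _ (Finset.measurable_sum _ fun j _ => (hvm j).const_mul _),
    lintegral_finsetSum _ fun j _ => (hvm j).const_mul _]
  refine mul_le_mul' le_rfl (Finset.sum_le_sum fun j _ => ?_)
  rw [lintegral_const_mul _ (hvm j)]
  exact mul_le_mul' le_rfl (hX2 j)

end Run7.h239.PP
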