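import Pool.Agent.Run7.h239.Level
set_option autoImplicit false

/-!
From level sets to `L^q` norms.
-/

namespace Run7.h239.PP

open MeasureTheory Set Complex
open scoped ENNReal

/-- the constant in the choice of the parameters -/
theorem exists_A (K : ℝ) : ∃ A : ℝ, 1 ≤ A ∧ K * (4 + Real.log A) ^ 3 ≤ 2 * A := by
  have h1 : Filter.Tendsto (fun x : ℝ => (4 + Real.log x) ^ 3 / x) Filter.atTop (nhds 0) := by
    have e : ∀ x : ℝ, (4 + Real.log x) ^ 3 / x = 64 * (Real.log x ^ 0 / (1 * x + 0)) +
        48 * (Real.log x ^ 1 / (1 * x + 0)) + 12 * (Real.log x ^ 2 / (1 * x + 0)) +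
        (Real.log x ^ 3 / (1 * x + 0)) := by
      intro x
      rw [one_mul, add_zero]
      ring
    simp_rw [e]
    have h := fun n => Real.tendsto_pow_log_div_mul_add_atTop 1 0 n one_ne_zero
    have := (((h 0).const_mul 64).add ((h 1).const_mul 48)).add ((h 2).const_mul 12) |>.add (h 3)
    simpa using this
  have hpos : (0 : ℝ) < 2 / (|K| + 1) := by positivity
  have h2 := (h1.eventually (gt_mem_nhds hpos)).and (Filter.eventually_ge_atTop (1 : ℝ))
  obtain ⟨A, hA, hA1⟩ := h2.exists
  refine ⟨A, hA1, ?_⟩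
  have hA0 : 0 < A := by linarith
  have hlog : 0 ≤ Real.log A := Real.log_nonneg hA1
  rw [div_lt_iff₀ hA0] at hA
  have hK : 0 < |K| + 1 := by positivity
  have h3 : (|K| + 1) * (4 + Real.log A) ^ 3 < 2 * A := by
    have := mul_lt_mul_of_pos_left hA hK
    calc _ < _ := this
      _ = 2 * A := by field_simp
  have h4 : K * (4 + Real.log A) ^ 3 ≤ (|K| + 1) * (4 + Real.log A) ^ 3 := by
    gcongr
    linarith [le_abs_self K]
  linarith

/-- the size of one piece of the level set estimate -/
noncomputable def lv (N : ℕ) (a lam : ℝ) : ℝ :=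
  if lam < 8 * a then a ^ 3 * (1 + Real.log (8 * N * a / lam)) ^ 3 else 0

theorem lv_nonneg (N : ℕ) (hN : 1 ≤ N) (a lam : ℝ) (hlam : 0 < lam) : 0 ≤ lv N a lam := by
  unfold lv
  split_ifs with h
  · have h0 : 0 < a := by nlinarith
    have hN1 : (1 : ℝ) ≤ N := by exact_mod_cast hN
    have h1 : 1 ≤ 8 * N * a / lam := by
      rw [le_div_iff₀ hlam]
      nlinarith
    have := Real.log_nonneg h1
    positivity
  · exact le_rfl

variable {ι : Type*} [Fintype ι]

/-- level sets, all levels -/
theorem levelN (K : ℝ) (hK : 1 ≤ K) : ∃ C : ℝ, 0 ≤ C ∧ ∀ (ι : Type) [Fintype ι] (c : ι → ℂ)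
    (R : ι → Set (ℝ × ℝ)) (u : ι → ℝ × ℝ → ℂ), 1 ≤ Fintype.card ι →
    (∀ j, Tame K (R j) (u j)) → (∀ j, R j ⊆ Ico (-1 : ℝ) 1 ×ˢ Ico (-1 : ℝ) 1) →
    Pairwise (Function.onFun Disjoint R) → ∀ lam : ℝ, 0 < lam →
    volume {p | lam < ‖Fs c R u p‖} ≤ ENNReal.ofReal (C * Fintype.card ι / lam ^ 3) *
      ∑ j, ENNReal.ofReal (lv (Fintype.card ι) ‖c j‖ lam) * volume (R j) := by
  classical
  obtain ⟨A, hA1, hA⟩ := exists_A K
  have hA0 : 0 < A := by linarith
  have hK0 : 0 < K := by linarith
  refine ⟨128 * (2 * Real.pi) ^ 2 * K * A, by positivity, ?_⟩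
  intro ι _ c R u hN hT hsub hd lam hlam
  set N : ℕ := Fintype.card ι with hNdef
  have hN1 : (1 : ℝ) ≤ N := by exact_mod_cast hN
  have hSv : volume (Ico (-1 : ℝ) 1 ×ˢ Ico (-1 : ℝ) 1) = 4 := by
    rw [Measure.volume_eq_prod, Measure.prod_prod, Real.volume_Ico,
      ← ENNReal.ofReal_mul (by norm_num)]
    norm_num
  have hfin : ∀ j, volume (R j) ≠ ∞ := fun j =>
    ne_top_of_le_ne_top (by rw [hSv]; norm_num) (measure_mono (hsub j))
  -- big and small pieces
  set c' : ι → ℂ := fun j => if lam < 8 * ‖c j‖ then c j else 0 with hc'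
  set v : ι → ℝ := fun j => 8 * N * ‖c j‖ / lam with hv
  set μ : ι → ℝ := fun j => if lam < 8 * ‖c j‖ then A * v j * (1 + Real.log (v j)) ^ 3 else 1 with hμ
  have hv1 : ∀ j, lam < 8 * ‖c j‖ → 1 ≤ v j := by
    intro j hj
    rw [hv]
    simp only
    rw [le_div_iff₀ hlam]
    nlinarith [norm_nonneg (c j)]
  have hL1 : ∀ j, lam < 8 * ‖c j‖ → 1 ≤ 1 + Real.log (v j) := by
    intro j hj
    have := Real.log_nonneg (hv1 j hj)
    linarith
  have hμ1 : ∀ j, 1 ≤ μ j := by
    intro j
    rw [hμ]
    simp only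
    split_ifs with hj
    · have h1 := hv1 j hj
      have h2 := hL1 j hj
      have h3 : 1 ≤ (1 + Real.log (v j)) ^ 3 := one_le_pow₀ h2
      calc (1 : ℝ) = 1 * 1 * 1 := by ring
        _ ≤ A * v j * (1 + Real.log (v j)) ^ 3 := by gcongr
    · exact le_rfl
  have hsum : ∑ j, ‖c' j‖ * (K * (1 + Real.log (μ j)) ^ 3 / μ j) ≤ lam / 2 / 2 := by
    have hone : ∀ j, ‖c' j‖ * (K * (1 + Real.log (μ j)) ^ 3 / μ j) ≤ lam / (4 * N) := by
      intro j
      by_cases hj : lam < 8 * ‖c j‖
      · have h1 := hv1 j hj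
        have h2 := hL1 j hj
        have hv0 : 0 < v j := by linarith
        have hL0 : 0 < 1 + Real.log (v j) := by linarith
        have hlA : 0 ≤ Real.log A := Real.log_nonneg hA1
        have hc0 : 0 < ‖c j‖ := by nlinarith
        rw [hc', hμ]
        simp only [if_pos hj]
        set L := 1 + Real.log (v j) with hL
        have h3 : 1 + Real.log (A * v j * L ^ 3) ≤ (4 + Real.log A) * L := by
          rw [Real.log_mul (by positivity) (by positivity), Real.log_mul (by positivity) (by positivity),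
            Real.log_pow]
          have h4 : Real.log L ≤ L := (Real.log_le_sub_one_of_pos hL0).trans (by linarith)
          have h5 : Real.log A ≤ Real.log A * L := by nlinarith
          push_cast
          linarith
        have h30 : 0 ≤ 1 + Real.log (A * v j * L ^ 3) := by
          have h6 := hμ1 j
          rw [hμ] at h6
          simp only [if_pos hj] at h6
          have := Real.log_nonneg h6
          linarith
        have h7 : (1 + Real.log (A * v j * L ^ 3)) ^ 3 ≤ ((4 + Real.log A) * L) ^ 3 := by gcongr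
        have hvc : ‖c j‖ = v j * lam / (8 * N) := by
          rw [hv]
          field_simp
        calc ‖c j‖ * (K * (1 + Real.log (A * v j * L ^ 3)) ^ 3 / (A * v j * L ^ 3))
            ≤ ‖c j‖ * (K * ((4 + Real.log A) * L) ^ 3 / (A * v j * L ^ 3)) := by gcongr
          _ = (K * (4 + Real.log A) ^ 3) * (lam / (8 * N * A)) := by
              rw [hvc]
              field_simp
          _ ≤ (2 * A) * (lam / (8 * N * A)) := by gcongr
          _ = lam / (4 * N) := by field_simp; ring
      · rw [hc']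
        simp only [if_neg hj]
        rw [norm_zero, zero_mul]
        positivity
    calc ∑ j, ‖c' j‖ * (K * (1 + Real.log (μ j)) ^ 3 / μ j) ≤ ∑ _j : ι, lam / (4 * N) :=
          Finset.sum_le_sum fun j _ => hone j
      _ = lam / 2 / 2 := by
          rw [Finset.sum_const, Finset.card_univ, ← hNdef, nsmul_eq_mul]
          field_simp
          ring
  have hlevel := level K c' R u hT hfin hd μ hμ1 (lam / 2) (by positivity) hsum
  -- the small pieces do not matter
  have hsmall : ∀ p, ‖Fs c R u p - Fs c' R u p‖ ≤ lam / 2 := by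
    intro p
    have e : Fs c R u p - Fs c' R u p =
        ∑ j, (c j - c' j) * ∫ x in R j, u j x * ker p.1 p.2 x := by
      unfold Fs
      rw [← Finset.sum_sub_distrib]
      refine Finset.sum_congr rfl fun j _ => ?_
      ring
    rw [e]
    have h1 : ∀ j, ‖∫ x in R j, u j x * ker p.1 p.2 x‖ ≤ (volume (R j)).toReal := by
      intro j
      have := norm_setIntegral_le_of_norm_le_const (μ := volume) (s := R j) (C := 1)
        (f := fun x => u j x * ker p.1 p.2 x) (hfin j).lt_top
        (fun x _ => norm_hker (hT j).2.1.2 _ _ x)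
      simpa [Measure.real] using this
    have h2 : ∀ j, ‖c j - c' j‖ ≤ lam / 8 := by
      intro j
      rw [hc']
      simp only
      split_ifs with hj
      · simp; positivity
      · push Not at hj
        simp
        linarith
    have h3 : ∑ j, (volume (R j)).toReal ≤ 4 := by
      rw [← ENNReal.toReal_sum fun j _ => hfin j]
      have h4 : ∑ j, volume (R j) ≤ 4 := by
        have := tsum_meas_le_meas_iUnion_of_disjoint₀ (volume : Measure (ℝ × ℝ)) (As := R)
          (fun j => ((hT j).1).nullMeasurableSet) (fun i j hij => (hd hij).aedisjoint)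
        rw [tsum_fintype] at this
        refine this.trans ((measure_mono (iUnion_subset hsub)).trans hSv.le)
      exact ENNReal.toReal_le_of_le_ofReal (by norm_num) (by simpa using h4)
    calc ‖∑ j, (c j - c' j) * ∫ x in R j, u j x * ker p.1 p.2 x‖
        ≤ ∑ j, ‖(c j - c' j) * ∫ x in R j, u j x * ker p.1 p.2 x‖ := norm_sum_le _ _
      _ ≤ ∑ j, lam / 8 * (volume (R j)).toReal := by
          refine Finset.sum_le_sum fun j _ => ?_
          rw [norm_mul]
          exact mul_le_mul (h2 j) (h1 j) (norm_nonneg _) (by positivity)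
      _ = lam / 8 * ∑ j, (volume (R j)).toReal := by rw [Finset.mul_sum]
      _ ≤ lam / 8 * 4 := by gcongr
      _ = lam / 2 := by ring
  have hsubset : {p | lam < ‖Fs c R u p‖} ⊆ {p | lam / 2 < ‖Fs c' R u p‖} := by
    intro p hp
    simp only [mem_ofPred_eq] at hp ⊢
    have h1 := hsmall p
    have h2 : ‖Fs c R u p‖ ≤ ‖Fs c R u p - Fs c' R u p‖ + ‖Fs c' R u p‖ := by
      have := norm_add_le (Fs c R u p - Fs c' R u p) (Fs c' R u p)
      simpa using this
    linarith
  refine (measure_mono hsubset).trans (hlevel.trans ?_)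
  rw [Finset.mul_sum, Finset.mul_sum]
  refine Finset.sum_le_sum fun j _ => ?_
  rw [← mul_assoc, ← mul_assoc, ← mul_assoc]
  refine mul_le_mul' ?_ le_rfl
  by_cases hj : lam < 8 * ‖c j‖
  · have h1 := hv1 j hj
    have h2 := hL1 j hj
    have hv0 : 0 < v j := by linarith
    have hL0 : 0 < 1 + Real.log (v j) := by linarith
    have hlv : lv N ‖c j‖ lam = ‖c j‖ ^ 3 * (1 + Real.log (v j)) ^ 3 := by
      unfold lv
      rw [if_pos hj]
    rw [hlv, ← ENNReal.ofReal_mul (by positivity), ← ENNReal.ofReal_mul (by positivity),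
      ← ENNReal.ofReal_mul (by positivity)]
    refine ENNReal.ofReal_le_ofReal (le_of_eq ?_)
    rw [hc', hμ]
    simp only [if_pos hj]
    have hvd : v j = 8 * N * ‖c j‖ / lam := rfl
    have : A * v j * (1 + Real.log (v j)) ^ 3 =
        A * (8 * N * ‖c j‖ / lam) * (1 + Real.log (v j)) ^ 3 := by rw [← hvd]
    rw [this]
    field_simp
    ring
  · rw [hc']
    simp only [if_neg hj]
    rw [norm_zero]
    simp

end Run7.h239.PP
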