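import Pool.Agent.Run7.h239.Lq
set_option autoImplicit false

/-!
The `L^q` bounds by the layer cake formula.
-/

namespace Run7.h239.PP

open MeasureTheory Set Complex
open scoped ENNReal

theorem rpow_int (b ε : ℝ) (hb : 0 ≤ b) (hε : 0 < ε) :
    ∫⁻ t in Ioc 0 b, ENNReal.ofReal (t ^ (ε - 1)) = ENNReal.ofReal (b ^ ε / ε) := by
  have hi : IntervalIntegrable (fun t : ℝ => t ^ (ε - 1)) volume 0 b :=
    intervalIntegral.intervalIntegrable_rpow' (by linarith)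
  rw [← ofReal_integral_eq_lintegral_ofReal]
  · rw [← intervalIntegral.integral_of_le hb, integral_rpow (Or.inl (by linarith))]
    congr 1
    rw [sub_add_cancel, Real.zero_rpow hε.ne', sub_zero]
  · exact hi.1
  · refine (ae_restrict_iff' measurableSet_Ioc).2 (Filter.Eventually.of_forall fun t ht => ?_)
    exact Real.rpow_nonneg ht.1.le _

theorem log_bound (ε : ℝ) (hε : 0 < ε) (y : ℝ) (hy : 1 ≤ y) :
    (1 + Real.log y) ^ 3 ≤ (1 + 3 / ε) ^ 3 * y ^ ε := by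
  have hy0 : 0 < y := by linarith
  have h1 : Real.log y ≤ y ^ (ε / 3) / (ε / 3) := Real.log_le_rpow_div hy0.le (by positivity)
  have h2 : 1 ≤ y ^ (ε / 3) := Real.one_le_rpow hy (by positivity)
  have h3 : 1 + Real.log y ≤ (1 + 3 / ε) * y ^ (ε / 3) := by
    have : y ^ (ε / 3) / (ε / 3) = 3 / ε * y ^ (ε / 3) := by field_simp
    rw [this] at h1
    linarith
  have h4 : 0 ≤ Real.log y := Real.log_nonneg hy
  have h5 : (y ^ (ε / 3)) ^ 3 = y ^ ε := by
    rw [← Real.rpow_natCast, ← Real.rpow_mul hy0.le]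
    congr 1
    push_cast
    ring
  calc (1 + Real.log y) ^ 3 ≤ ((1 + 3 / ε) * y ^ (ε / 3)) ^ 3 := by gcongr
    _ = (1 + 3 / ε) ^ 3 * y ^ ε := by rw [mul_pow, h5]

theorem enorm_rpow (z : ℂ) {q : ℝ} (hq : 0 ≤ q) : ‖z‖ₑ ^ q = ENNReal.ofReal (‖z‖ ^ q) := by
  rw [← ofReal_norm, ENNReal.ofReal_rpow_of_nonneg (norm_nonneg _) hq]

/-- the bound of `lv` by a power -/
theorem lv_le (N : ℕ) (hN : 1 ≤ N) (ε : ℝ) (hε : 0 < ε) (a t : ℝ) (ht : 0 < t) (h : t < 8 * a) :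
    lv N a t ≤ a ^ 3 * ((1 + Real.log N) ^ 3 * ((1 + 3 / ε) ^ 3 * (8 * a / t) ^ ε)) := by
  have ha : 0 < a := by nlinarith
  have hN1 : (1 : ℝ) ≤ N := by exact_mod_cast hN
  have hlN : 0 ≤ Real.log N := Real.log_nonneg hN1
  have hy : 1 ≤ 8 * a / t := by rw [le_div_iff₀ ht]; linarith
  have hly : 0 ≤ Real.log (8 * a / t) := Real.log_nonneg hy
  unfold lv
  rw [if_pos h]
  have e : 8 * N * a / t = N * (8 * a / t) := by ring
  rw [e, Real.log_mul (by positivity) (by positivity)]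
  have h1 : 1 + (Real.log N + Real.log (8 * a / t)) ≤ (1 + Real.log N) * (1 + Real.log (8 * a / t)) := by
    nlinarith [mul_nonneg hlN hly]
  have h2 := log_bound ε hε (8 * a / t) hy
  calc a ^ 3 * (1 + (Real.log N + Real.log (8 * a / t))) ^ 3
      ≤ a ^ 3 * ((1 + Real.log N) * (1 + Real.log (8 * a / t))) ^ 3 := by gcongr
    _ = a ^ 3 * ((1 + Real.log N) ^ 3 * (1 + Real.log (8 * a / t)) ^ 3) := by rw [mul_pow]
    _ ≤ _ := by gcongr

/-- **The `L^q` bound for `N` disjoint pieces.** -/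
theorem powA (K : ℝ) (hK : 1 ≤ K) (q : ℝ) (hq : 3 < q) : ∃ C : ℝ, 0 ≤ C ∧ ∀ (ι : Type) [Fintype ι]
    (c : ι → ℂ) (R : ι → Set (ℝ × ℝ)) (u : ι → ℝ × ℝ → ℂ), 1 ≤ Fintype.card ι →
    (∀ j, Tame K (R j) (u j)) → (∀ j, R j ⊆ Ico (-1 : ℝ) 1 ×ˢ Ico (-1 : ℝ) 1) →
    Pairwise (Function.onFun Disjoint R) →
    ∫⁻ p, ‖Fs c R u p‖ₑ ^ q ≤
      ENNReal.ofReal (C * Fintype.card ι * (1 + Real.log (Fintype.card ι)) ^ 3) *
        ∑ j, ENNReal.ofReal (‖c j‖ ^ q) * volume (R j) := by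
  obtain ⟨C, hC0, hC⟩ := levelN K hK
  set ε : ℝ := (q - 3) / 2 with hε
  have hε0 : 0 < ε := by rw [hε]; linarith
  have hq0 : 0 < q := by linarith
  set E : ℝ := (1 + 3 / ε) ^ 3 with hE
  have hE0 : 0 ≤ E := by positivity
  refine ⟨q * (C * E * 8 ^ (2 * ε) / ε), by positivity, ?_⟩
  intro ι _ c R u hN hT hsub hd
  set N : ℕ := Fintype.card ι with hNdef
  have hN1 : (1 : ℝ) ≤ N := by exact_mod_cast hN
  have hlN : 0 ≤ Real.log N := Real.log_nonneg hN1
  have hFm : Measurable (Fs c R u) := Fs_meas fun j => (hT j).2.1.1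
  have e1 : ∫⁻ p, ‖Fs c R u p‖ₑ ^ q = ∫⁻ p, ENNReal.ofReal (‖Fs c R u p‖ ^ q) :=
    lintegral_congr fun p => enorm_rpow _ hq0.le
  rw [e1, lintegral_rpow_eq_lintegral_meas_lt_mul _ (Filter.Eventually.of_forall fun p => norm_nonneg _)
    hFm.norm.aemeasurable hq0]
  set B : ℝ := C * N * (1 + Real.log N) ^ 3 * E with hB
  have hB0 : 0 ≤ B := by positivity
  have hpt : ∀ t ∈ Ioi (0 : ℝ), volume {p | t < ‖Fs c R u p‖} * ENNReal.ofReal (t ^ (q - 1)) ≤
      ∑ j, volume (R j) * (Ioc 0 (8 * ‖c j‖)).indicator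
        (fun t => ENNReal.ofReal (B * ‖c j‖ ^ 3 * (8 * ‖c j‖) ^ ε) * ENNReal.ofReal (t ^ (ε - 1))) t := by
    intro t ht
    have ht0 : 0 < t := ht
    refine (mul_le_mul' (hC ι c R u hN hT hsub hd t ht0) le_rfl).trans ?_
    rw [mul_comm, ← mul_assoc, Finset.mul_sum]
    refine Finset.sum_le_sum fun j _ => ?_
    by_cases hj : t < 8 * ‖c j‖
    · have hc0 : 0 < ‖c j‖ := by nlinarith
      rw [indicator_of_mem (s := Ioc 0 (8 * ‖c j‖)) ⟨ht0, hj.le⟩]
      rw [mul_comm (volume (R j)), ← mul_assoc]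
      refine mul_le_mul' ?_ le_rfl
      have hlv0 := lv_nonneg N hN ‖c j‖ t ht0
      have hlv := lv_le N hN ε hε0 ‖c j‖ t ht0 hj
      rw [← ENNReal.ofReal_mul (by positivity), ← ENNReal.ofReal_mul (by positivity),
        ← ENNReal.ofReal_mul (by positivity)]
      refine ENNReal.ofReal_le_ofReal ?_
      have e2 : (8 * ‖c j‖ / t) ^ ε = (8 * ‖c j‖) ^ ε * t ^ (-ε) := by
        rw [Real.div_rpow (by positivity) ht0.le, Real.rpow_neg ht0.le]
        rfl
      have e3 : t ^ (q - 1) / t ^ 3 * t ^ (-ε) = t ^ (ε - 1) := by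
        rw [← Real.rpow_natCast t 3, ← Real.rpow_sub ht0, ← Real.rpow_add ht0]
        congr 1
        push_cast
        rw [hε]
        ring
      calc t ^ (q - 1) * (C * N / t ^ 3) * lv N ‖c j‖ t
          ≤ t ^ (q - 1) * (C * N / t ^ 3) *
            (‖c j‖ ^ 3 * ((1 + Real.log N) ^ 3 * (E * (8 * ‖c j‖ / t) ^ ε))) := by gcongr
        _ = C * N * (1 + Real.log N) ^ 3 * E * ‖c j‖ ^ 3 * (8 * ‖c j‖) ^ ε *
            (t ^ (q - 1) / t ^ 3 * t ^ (-ε)) := by rw [e2]; ring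
        _ = B * ‖c j‖ ^ 3 * (8 * ‖c j‖) ^ ε * t ^ (ε - 1) := by rw [e3]
    · have h0 : lv N ‖c j‖ t = 0 := by unfold lv; rw [if_neg hj]
      rw [h0]
      simp
  refine (mul_le_mul' le_rfl (setLIntegral_mono' measurableSet_Ioi hpt)).trans ?_
  have hterm : ∀ j, ∫⁻ t in Ioi (0 : ℝ), volume (R j) * (Ioc 0 (8 * ‖c j‖)).indicator
        (fun t => ENNReal.ofReal (B * ‖c j‖ ^ 3 * (8 * ‖c j‖) ^ ε) * ENNReal.ofReal (t ^ (ε - 1))) t =
      volume (R j) * ENNReal.ofReal (B * ‖c j‖ ^ 3 * (8 * ‖c j‖) ^ ε * ((8 * ‖c j‖) ^ ε / ε)) := by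
    intro j
    rw [lintegral_const_mul]
    · congr 1
      rw [lintegral_indicator measurableSet_Ioc, Measure.restrict_restrict measurableSet_Ioc]
      have : Ioc (0 : ℝ) (8 * ‖c j‖) ∩ Ioi 0 = Ioc 0 (8 * ‖c j‖) := by
        ext t; simp only [mem_inter_iff, mem_Ioc, mem_Ioi]; tauto
      rw [this, lintegral_const_mul _ (by fun_prop), rpow_int _ _ (by positivity) hε0,
        ← ENNReal.ofReal_mul (by positivity)]
    · exact Measurable.indicator (by fun_prop) measurableSet_Ioc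
  rw [lintegral_finsetSum _ fun j _ => by
    exact (Measurable.indicator (by fun_prop) measurableSet_Ioc).const_mul _]
  simp_rw [hterm]
  rw [Finset.mul_sum, Finset.mul_sum]
  refine Finset.sum_le_sum fun j _ => ?_
  rw [mul_comm (volume (R j)), ← mul_assoc, ← mul_assoc]
  refine mul_le_mul' ?_ le_rfl
  rw [← ENNReal.ofReal_mul (by positivity), ← ENNReal.ofReal_mul (by positivity)]
  refine ENNReal.ofReal_le_ofReal (le_of_eq ?_)
  have e4 : (8 * ‖c j‖) ^ ε * (8 * ‖c j‖) ^ ε = 8 ^ (2 * ε) * ‖c j‖ ^ (2 * ε) := by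
    rw [Real.mul_rpow (by norm_num) (norm_nonneg _), two_mul, Real.rpow_add (by norm_num)]
    rcases (norm_nonneg (c j)).eq_or_lt with h | h
    · rw [← h, Real.zero_rpow hε0.ne', Real.zero_rpow (by linarith)]
      ring
    · rw [Real.rpow_add h]
      ring
  have e5 : ‖c j‖ ^ 3 * ‖c j‖ ^ (2 * ε) = ‖c j‖ ^ q := by
    rcases (norm_nonneg (c j)).eq_or_lt with h | h
    · rw [← h, Real.zero_rpow hq0.ne', Real.zero_rpow (by linarith)]
      ring
    · rw [← Real.rpow_natCast, ← Real.rpow_add h]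
      congr 1
      rw [hε]
      push_cast
      ring
  calc q * (B * ‖c j‖ ^ 3 * (8 * ‖c j‖) ^ ε * ((8 * ‖c j‖) ^ ε / ε))
      = q * B / ε * (‖c j‖ ^ 3 * ((8 * ‖c j‖) ^ ε * (8 * ‖c j‖) ^ ε)) := by ring
    _ = q * B / ε * 8 ^ (2 * ε) * (‖c j‖ ^ 3 * ‖c j‖ ^ (2 * ε)) := by rw [e4]; ring
    _ = _ := by rw [e5, hB]; ring

/-- **The `L^q` bound for one piece**, close to the scaling line. -/
theorem powB (K : ℝ) (hK : 1 ≤ K) (q : ℝ) (hq : 3 < q) (ε : ℝ) (hε0 : 0 < ε) (hεq : ε < q - 3) :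
    ∃ C : ℝ, 0 ≤ C ∧ ∀ (R : Set (ℝ × ℝ)) (u : ℝ × ℝ → ℂ),
    Tame K R u → R ⊆ Ico (-1 : ℝ) 1 ×ˢ Ico (-1 : ℝ) 1 →
    ∫⁻ p : ℝ × (ℝ × ℝ), ‖∫ x in R, u x * ker p.1 p.2 x‖ₑ ^ q ≤
      ENNReal.ofReal (C * (volume R).toReal ^ (q - 2 - ε)) := by
  obtain ⟨C, hC0, hC⟩ := levelN K hK
  have hq0 : 0 < q := by linarith
  set E : ℝ := (1 + 3 / ε) ^ 3 with hE
  have hE0 : 0 ≤ E := by positivity
  set η : ℝ := q - 3 - ε with hη
  have hη0 : 0 < η := by rw [hη]; linarith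
  refine ⟨q * (C * E * 8 ^ ε / η), by positivity, ?_⟩
  intro R u hT hsub
  have hSv : volume (Ico (-1 : ℝ) 1 ×ˢ Ico (-1 : ℝ) 1) = 4 := by
    rw [Measure.volume_eq_prod, Measure.prod_prod, Real.volume_Ico,
      ← ENNReal.ofReal_mul (by norm_num)]
    norm_num
  have hfin : volume R ≠ ∞ := ne_top_of_le_ne_top (by rw [hSv]; norm_num) (measure_mono hsub)
  set r : ℝ := (volume R).toReal with hr
  have hr0 : 0 ≤ r := ENNReal.toReal_nonneg
  have hr4 : r ≤ 4 := by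
    have : volume R ≤ 4 := (measure_mono hsub).trans hSv.le
    exact ENNReal.toReal_le_of_le_ofReal (by norm_num) (by simpa using this)
  have hvr : volume R = ENNReal.ofReal r := (ENNReal.ofReal_toReal hfin).symm
  have hF : ∀ p : ℝ × (ℝ × ℝ), Fs (ι := Unit) (fun _ => 1) (fun _ => R) (fun _ => u) p =
      ∫ x in R, u x * ker p.1 p.2 x := by
    intro p
    simp [Fs]
  simp_rw [← hF]
  set F : ℝ × (ℝ × ℝ) → ℂ := Fs (ι := Unit) (fun _ => 1) (fun _ => R) (fun _ => u) with hFdef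
  have hFm : Measurable F := Fs_meas fun j => hT.2.1.1
  have hFb : ∀ p, ‖F p‖ ≤ r := by
    intro p
    rw [hF]
    have := norm_setIntegral_le_of_norm_le_const (μ := volume) (s := R) (C := 1)
      (f := fun x => u x * ker p.1 p.2 x) hfin.lt_top
      (fun x _ => norm_hker hT.2.1.2 _ _ x)
    simpa [Measure.real] using this
  have e1 : ∫⁻ p, ‖F p‖ₑ ^ q = ∫⁻ p, ENNReal.ofReal (‖F p‖ ^ q) :=
    lintegral_congr fun p => enorm_rpow _ hq0.le
  rw [e1, lintegral_rpow_eq_lintegral_meas_lt_mul _ (Filter.Eventually.of_forall fun p => norm_nonneg _)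
    hFm.norm.aemeasurable hq0]
  have hpt : ∀ t ∈ Ioi (0 : ℝ), volume {p | t < ‖F p‖} * ENNReal.ofReal (t ^ (q - 1)) ≤
      (Ioc 0 r).indicator (fun t => ENNReal.ofReal (C * E * 8 ^ ε * r) *
        ENNReal.ofReal (t ^ (η - 1))) t := by
    intro t ht
    have ht0 : 0 < t := ht
    by_cases htr : t < r
    · rw [indicator_of_mem (s := Ioc 0 r) ⟨ht0, htr.le⟩]
      have h1 := hC Unit (fun _ => 1) (fun _ => R) (fun _ => u) (by simp) (fun _ => hT) (fun _ => hsub)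
        (fun i j hij => absurd (Subsingleton.elim i j) hij) t ht0
      simp only [Fintype.card_unit, Finset.univ_unique, Finset.sum_singleton, norm_one,
        Nat.cast_one, mul_one] at h1
      refine (mul_le_mul' h1 le_rfl).trans ?_
      have h8 : t < 8 * 1 := by linarith
      have hlv0 := lv_nonneg 1 le_rfl 1 t ht0
      have hlv := lv_le 1 le_rfl ε hε0 1 t ht0 h8
      rw [hvr, ← ENNReal.ofReal_mul (by positivity), ← ENNReal.ofReal_mul (by positivity),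
        ← ENNReal.ofReal_mul (by positivity), ← ENNReal.ofReal_mul (by positivity)]
      refine ENNReal.ofReal_le_ofReal ?_
      have e2 : (8 * 1 / t) ^ ε = 8 ^ ε * t ^ (-ε) := by
        rw [mul_one, Real.div_rpow (by positivity) ht0.le, Real.rpow_neg ht0.le]
        rfl
      have e3 : t ^ (q - 1) / t ^ 3 * t ^ (-ε) = t ^ (η - 1) := by
        rw [← Real.rpow_natCast t 3, ← Real.rpow_sub ht0, ← Real.rpow_add ht0]
        congr 1
        push_cast
        rw [hη]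
        ring
      calc C / t ^ 3 * (lv 1 1 t * r) * t ^ (q - 1)
          ≤ C / t ^ 3 * ((1 ^ 3 * ((1 + Real.log (1 : ℕ)) ^ 3 * (E * (8 * 1 / t) ^ ε))) * r) *
            t ^ (q - 1) := by gcongr
        _ = C * E * 8 ^ ε * r * (t ^ (q - 1) / t ^ 3 * t ^ (-ε)) := by
            rw [e2, Nat.cast_one, Real.log_one]; ring
        _ = _ := by rw [e3]
    · have h0 : {p | t < ‖F p‖} = ∅ := by
        ext p
        simp only [mem_ofPred_eq, mem_empty_iff_false, iff_false, not_lt]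
        exact (hFb p).trans (not_lt.1 htr)
      rw [h0]
      simp
  refine (mul_le_mul' le_rfl (setLIntegral_mono' measurableSet_Ioi hpt)).trans ?_
  rw [lintegral_indicator measurableSet_Ioc, Measure.restrict_restrict measurableSet_Ioc]
  have h5 : Ioc (0 : ℝ) r ∩ Ioi 0 = Ioc 0 r := by
    ext t; simp only [mem_inter_iff, mem_Ioc, mem_Ioi]; tauto
  rw [h5, lintegral_const_mul _ (by fun_prop), rpow_int _ _ hr0 hη0,
    ← ENNReal.ofReal_mul (by positivity), ← ENNReal.ofReal_mul (by positivity)]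
  refine ENNReal.ofReal_le_ofReal (le_of_eq ?_)
  have e6 : r * r ^ η = r ^ (q - 2 - ε) := by
    rcases hr0.eq_or_lt with h | h
    · rw [← h, Real.zero_rpow hη0.ne', Real.zero_rpow (by linarith)]
      ring
    · have : q - 2 - ε = 1 + η := by rw [hη]; ring
      rw [this, Real.rpow_add h, Real.rpow_one]
  rw [← e6]
  ring

end Run7.h239.PP
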