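import Pool.Agent.Run7.h239.Area
set_option autoImplicit false

/-!
Integrals of the weights of the cell estimate.
-/

namespace Run7.h239.PP

open MeasureTheory Set
open scoped ENNReal

/-- the root square -/
def Sq : Set (ℝ × ℝ) := Ico (-1 : ℝ) 1 ×ˢ Ico (-1 : ℝ) 1

theorem measurableSet_Sq : MeasurableSet Sq := measurableSet_Ico.prod measurableSet_Ico

theorem volume_Sq : volume Sq = 4 := by
  rw [Sq, Measure.volume_eq_prod, Measure.prod_prod, Real.volume_Ico,
    ← ENNReal.ofReal_mul (by norm_num)]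
  norm_num

/-- the weight in the cell estimate -/
noncomputable def wgt (P : MvPolynomial (Fin 2) ℝ) (k : ℕ) (y : ℝ × ℝ) : ℝ≥0∞ :=
  ENNReal.ofReal (1 / ((1 + |g1 P y| / 2 ^ k) * (1 + |g2 P y| / 2 ^ k)))

theorem wgt_meas (P : MvPolynomial (Fin 2) ℝ) (k : ℕ) : Measurable (wgt P k) := by
  unfold wgt
  have := (g1_cont P).measurable
  have := (g2_cont P).measurable
  fun_prop

/-- one factor of the weight, cut off -/
noncomputable def om (k : ℕ) (M : ℝ) (u : ℝ) : ℝ≥0∞ :=
  (Icc (-M) M).indicator (fun u => ENNReal.ofReal (1 / (1 + |u| / 2 ^ k))) u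

theorem om_meas (k : ℕ) (M : ℝ) : Measurable (om k M) := by
  unfold om
  exact Measurable.indicator (by fun_prop) measurableSet_Icc

theorem om_int (k : ℕ) (M : ℝ) (hM : 0 ≤ M) :
    ∫⁻ u, om k M u ≤ ENNReal.ofReal (2 * 2 ^ k * Real.log (1 + M / 2 ^ k)) := by
  unfold om
  rw [lintegral_indicator measurableSet_Icc]
  exact lintW (2 ^ k) M (by positivity) hM

theorem one_le_mul_aux {m d : ℝ} (hm : 0 < m) (hd : m ≤ |d|) :
    1 ≤ ENNReal.ofReal (1 / m) * ENNReal.ofReal |d| := by
  rw [← ENNReal.ofReal_mul (by positivity), ENNReal.one_le_ofReal, one_div, inv_mul_eq_div,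
    le_div_iff₀ hm]
  linarith

/-- the integral of the weight over the set where the determinant is large -/
theorem B1 (P : MvPolynomial (Fin 2) ℝ) {D : ℕ} (hD : 1 ≤ D) (hP : P.totalDegree ≤ D) (k : ℕ)
    (m μ : ℝ) (hm : 0 < m) (hμ : 0 < μ) :
    ∫⁻ y in Sq ∩ {y | m ≤ |dt (hes P) y|}, wgt P k y ≤
      ENNReal.ofReal (1 / m) * (((((1 + 2 * D) ^ 2) ^ 2 : ℕ) : ℝ≥0∞) *
        (ENNReal.ofReal (2 * 2 ^ k * Real.log (1 + μ)) * ENNReal.ofReal (2 * 2 ^ k * Real.log (1 + μ))))
      + ENNReal.ofReal (1 / μ) * 4 := by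
  have hk : (0 : ℝ) < 2 ^ k := by positivity
  set M : ℝ := 2 ^ k * μ with hM
  have hM0 : 0 < M := by positivity
  have hMk : M / 2 ^ k = μ := by rw [hM]; field_simp
  set W : ℝ × ℝ → ℝ≥0∞ := fun u => om k M u.1 * om k M u.2 with hW
  have hWm : Measurable W := ((om_meas k M).comp measurable_fst).mul ((om_meas k M).comp measurable_snd)
  have hdc : Continuous (dt (hes P)) := dt_cont (hes_cont P)
  have hG : MeasurableSet (Sq ∩ {y | m ≤ |dt (hes P) y|}) :=
    measurableSet_Sq.inter (measurableSet_le measurable_const hdc.abs.measurable)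
  have hpt : ∀ y ∈ Sq ∩ {y | m ≤ |dt (hes P) y|}, wgt P k y ≤
      ENNReal.ofReal (1 / m) * (W (g1 P y, g2 P y) * ENNReal.ofReal |dt (hes P) y|) +
        ENNReal.ofReal (1 / μ) := by
    rintro y ⟨-, hy⟩
    have h1 : (0 : ℝ) < 1 + |g1 P y| / 2 ^ k := by positivity
    have h2 : (0 : ℝ) < 1 + |g2 P y| / 2 ^ k := by positivity
    by_cases hb : |g1 P y| ≤ M ∧ |g2 P y| ≤ M
    · refine le_trans ?_ le_self_add
      have e : W (g1 P y, g2 P y) = wgt P k y := by
        rw [hW]
        simp only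
        unfold om wgt
        rw [indicator_of_mem (s := Icc (-M) M) (abs_le.1 hb.1),
          indicator_of_mem (s := Icc (-M) M) (abs_le.1 hb.2),
          ← ENNReal.ofReal_mul (by positivity)]
        congr 1
        field_simp
      rw [e]
      calc wgt P k y = wgt P k y * 1 := (mul_one _).symm
        _ ≤ wgt P k y * (ENNReal.ofReal (1 / m) * ENNReal.ofReal |dt (hes P) y|) := by
            gcongr
            exact one_le_mul_aux hm hy
        _ = _ := by ring
    · refine le_trans ?_ le_add_self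
      unfold wgt
      refine ENNReal.ofReal_le_ofReal ?_
      rw [not_and_or] at hb
      refine one_div_le_one_div_of_le hμ ?_
      rcases hb with hb | hb
      · push Not at hb
        have : μ ≤ |g1 P y| / 2 ^ k := by
          rw [← hMk]; gcongr
        have h3 : (1 : ℝ) ≤ 1 + |g2 P y| / 2 ^ k := by
          have : 0 ≤ |g2 P y| / 2 ^ k := by positivity
          linarith
        nlinarith
      · push Not at hb
        have : μ ≤ |g2 P y| / 2 ^ k := by
          rw [← hMk]; gcongr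
        have h3 : (1 : ℝ) ≤ 1 + |g1 P y| / 2 ^ k := by
          have : 0 ≤ |g1 P y| / 2 ^ k := by positivity
          linarith
        nlinarith
  have hWi : ∫⁻ u, W u ≤
      ENNReal.ofReal (2 * 2 ^ k * Real.log (1 + μ)) * ENNReal.ofReal (2 * 2 ^ k * Real.log (1 + μ)) := by
    rw [hW, Measure.volume_eq_prod, lintegral_prod_mul (om_meas k M).aemeasurable
      (om_meas k M).aemeasurable]
    have := om_int k M hM0.le
    rw [hMk] at this
    exact mul_le_mul' this this
  calc ∫⁻ y in Sq ∩ {y | m ≤ |dt (hes P) y|}, wgt P k y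
      ≤ ∫⁻ y in Sq ∩ {y | m ≤ |dt (hes P) y|},
          (ENNReal.ofReal (1 / m) * (W (g1 P y, g2 P y) * ENNReal.ofReal |dt (hes P) y|) +
          ENNReal.ofReal (1 / μ)) := setLIntegral_mono' hG hpt
    _ = ENNReal.ofReal (1 / m) * (∫⁻ y in Sq ∩ {y | m ≤ |dt (hes P) y|},
          W (g1 P y, g2 P y) * ENNReal.ofReal |dt (hes P) y|) +
          ENNReal.ofReal (1 / μ) * volume (Sq ∩ {y | m ≤ |dt (hes P) y|}) := by
        rw [lintegral_add_right _ measurable_const, lintegral_const, Measure.restrict_apply_univ,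
          lintegral_const_mul]
        have := hWm.comp ((g1_cont P).measurable.prodMk (g2_cont P).measurable)
        exact this.mul hdc.abs.measurable.ennreal_ofReal
    _ ≤ _ := by
        gcongr
        · exact (area2 P hD hP hG hWm).trans (by gcongr)
        · exact (measure_mono inter_subset_left).trans volume_Sq.le

/-- the one variable estimate -/
theorem B3one (p : Polynomial ℝ) {D : ℕ} (hp : p.natDegree ≤ D) (k : ℕ) (m : ℝ) (hm : 0 < m) :
    ∫⁻ x in Ico (-1 : ℝ) 1 ∩ {x | m ≤ |p.derivative.eval x|},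
      ENNReal.ofReal (1 / (1 + |p.eval x| / 2 ^ k)) ≤
      ENNReal.ofReal (1 / m) * ((D : ℝ≥0∞) * ENNReal.ofReal (2 * 2 ^ k * Real.log (1 + 2 ^ k))) +
      ENNReal.ofReal (1 / 2 ^ k) * 2 := by
  have hk : (0 : ℝ) < 2 ^ k := by positivity
  set M : ℝ := 2 ^ k * 2 ^ k with hM
  have hM0 : 0 < M := by positivity
  have hMk : M / 2 ^ k = 2 ^ k := by rw [hM]; field_simp
  have hdc : Continuous fun x => p.derivative.eval x := Polynomial.continuous _
  have hG : MeasurableSet (Ico (-1 : ℝ) 1 ∩ {x | m ≤ |p.derivative.eval x|}) :=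
    measurableSet_Ico.inter (measurableSet_le measurable_const hdc.abs.measurable)
  have hpt : ∀ x ∈ Ico (-1 : ℝ) 1 ∩ {x | m ≤ |p.derivative.eval x|},
      ENNReal.ofReal (1 / (1 + |p.eval x| / 2 ^ k)) ≤
      ENNReal.ofReal (1 / m) * (om k M (p.eval x) * ENNReal.ofReal |p.derivative.eval x|) +
        ENNReal.ofReal (1 / 2 ^ k) := by
    rintro x ⟨-, hx⟩
    by_cases hb : |p.eval x| ≤ M
    · refine le_trans ?_ le_self_add
      have e : om k M (p.eval x) = ENNReal.ofReal (1 / (1 + |p.eval x| / 2 ^ k)) := by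
        unfold om
        rw [indicator_of_mem (s := Icc (-M) M) (abs_le.1 hb)]
      rw [e]
      calc ENNReal.ofReal (1 / (1 + |p.eval x| / 2 ^ k))
          = ENNReal.ofReal (1 / (1 + |p.eval x| / 2 ^ k)) * 1 := (mul_one _).symm
        _ ≤ ENNReal.ofReal (1 / (1 + |p.eval x| / 2 ^ k)) *
              (ENNReal.ofReal (1 / m) * ENNReal.ofReal |p.derivative.eval x|) := by
            gcongr
            exact one_le_mul_aux hm hx
        _ = _ := by ring
    · refine le_trans ?_ le_add_self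
      refine ENNReal.ofReal_le_ofReal ?_
      push Not at hb
      refine one_div_le_one_div_of_le hk ?_
      have : (2 : ℝ) ^ k ≤ |p.eval x| / 2 ^ k := by
        conv_lhs => rw [← hMk]
        gcongr
      linarith
  calc ∫⁻ x in Ico (-1 : ℝ) 1 ∩ {x | m ≤ |p.derivative.eval x|},
        ENNReal.ofReal (1 / (1 + |p.eval x| / 2 ^ k))
      ≤ ∫⁻ x in Ico (-1 : ℝ) 1 ∩ {x | m ≤ |p.derivative.eval x|},
          (ENNReal.ofReal (1 / m) * (om k M (p.eval x) * ENNReal.ofReal |p.derivative.eval x|) +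
          ENNReal.ofReal (1 / 2 ^ k)) := setLIntegral_mono' hG hpt
    _ = ENNReal.ofReal (1 / m) * (∫⁻ x in Ico (-1 : ℝ) 1 ∩ {x | m ≤ |p.derivative.eval x|},
          om k M (p.eval x) * ENNReal.ofReal |p.derivative.eval x|) +
          ENNReal.ofReal (1 / 2 ^ k) * volume (Ico (-1 : ℝ) 1 ∩ {x | m ≤ |p.derivative.eval x|}) := by
        rw [lintegral_add_right _ measurable_const, lintegral_const, Measure.restrict_apply_univ,
          lintegral_const_mul]
        exact ((om_meas k M).comp (Polynomial.continuous p).measurable).mul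
          hdc.abs.measurable.ennreal_ofReal
    _ ≤ _ := by
        gcongr
        · refine (area1 p hp hG (om_meas k M)).trans ?_
          gcongr
          have := om_int k M hM0.le
          rw [hMk] at this
          exact this
        · refine (measure_mono inter_subset_left).trans ?_
          rw [Real.volume_Ico]
          norm_num

/-- the two variable version, derivative in the first variable -/
theorem B3x (g h : ℝ × ℝ → ℝ) (hg : Continuous g) (hh : Continuous h) {D : ℕ}
    (hs : ∀ y, ∃ p : Polynomial ℝ, p.natDegree ≤ D ∧ ∀ x, g (x, y) = p.eval x)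
    (hd : ∀ x y, HasDerivAt (fun s => g (s, y)) (h (x, y)) x) (k : ℕ) (m : ℝ) (hm : 0 < m) :
    ∫⁻ y in Sq ∩ {y | m ≤ |h y|}, ENNReal.ofReal (1 / (1 + |g y| / 2 ^ k)) ≤
      (ENNReal.ofReal (1 / m) * ((D : ℝ≥0∞) * ENNReal.ofReal (2 * 2 ^ k * Real.log (1 + 2 ^ k))) +
      ENNReal.ofReal (1 / 2 ^ k) * 2) * 2 := by
  have hG : MeasurableSet {y | m ≤ |h y|} := measurableSet_le measurable_const hh.abs.measurable
  have hf : Measurable fun y => ENNReal.ofReal (1 / (1 + |g y| / 2 ^ k)) := by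
    have := hg.measurable
    fun_prop
  rw [inter_comm, ← Measure.restrict_restrict hG, ← lintegral_indicator hG, Sq,
    Measure.volume_eq_prod, ← Measure.prod_restrict, lintegral_prod_symm _
      (hf.indicator hG).aemeasurable]
  have hinner : ∀ y : ℝ, ∫⁻ x in Ico (-1 : ℝ) 1, {y | m ≤ |h y|}.indicator
      (fun y => ENNReal.ofReal (1 / (1 + |g y| / 2 ^ k))) (x, y) ≤
      ENNReal.ofReal (1 / m) * ((D : ℝ≥0∞) * ENNReal.ofReal (2 * 2 ^ k * Real.log (1 + 2 ^ k))) +
      ENNReal.ofReal (1 / 2 ^ k) * 2 := by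
    intro y
    obtain ⟨p, hp, hpe⟩ := hs y
    have hder : ∀ x, h (x, y) = p.derivative.eval x := by
      intro x
      have h1 := hd x y
      have h2 : (fun s => g (s, y)) = fun s => p.eval s := by ext s; exact hpe s
      rw [h2] at h1
      exact h1.unique (p.hasDerivAt x)
    have hG' : MeasurableSet {x : ℝ | m ≤ |p.derivative.eval x|} :=
      measurableSet_le measurable_const (Polynomial.continuous _).abs.measurable
    refine le_trans (le_of_eq ?_) (B3one p hp k m hm)
    rw [inter_comm, ← Measure.restrict_restrict hG', ← lintegral_indicator hG']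
    refine lintegral_congr fun x => ?_
    by_cases hx : m ≤ |p.derivative.eval x|
    · rw [indicator_of_mem (s := {x : ℝ | m ≤ |p.derivative.eval x|}) hx,
        indicator_of_mem (s := {y | m ≤ |h y|}) (by simpa [hder] using hx), hpe]
    · rw [indicator_of_notMem (s := {x : ℝ | m ≤ |p.derivative.eval x|}) hx,
        indicator_of_notMem (s := {y | m ≤ |h y|}) (by simpa [hder] using hx)]
  refine (lintegral_mono hinner).trans ?_
  rw [lintegral_const, Measure.restrict_apply_univ, Real.volume_Ico]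
  gcongr
  norm_num

/-- the two variable version, derivative in the second variable -/
theorem B3y (g h : ℝ × ℝ → ℝ) (hg : Continuous g) (hh : Continuous h) {D : ℕ}
    (hs : ∀ x, ∃ p : Polynomial ℝ, p.natDegree ≤ D ∧ ∀ y, g (x, y) = p.eval y)
    (hd : ∀ x y, HasDerivAt (fun s => g (x, s)) (h (x, y)) y) (k : ℕ) (m : ℝ) (hm : 0 < m) :
    ∫⁻ y in Sq ∩ {y | m ≤ |h y|}, ENNReal.ofReal (1 / (1 + |g y| / 2 ^ k)) ≤
      (ENNReal.ofReal (1 / m) * ((D : ℝ≥0∞) * ENNReal.ofReal (2 * 2 ^ k * Real.log (1 + 2 ^ k))) +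
      ENNReal.ofReal (1 / 2 ^ k) * 2) * 2 := by
  have hG : MeasurableSet {y | m ≤ |h y|} := measurableSet_le measurable_const hh.abs.measurable
  have hf : Measurable fun y => ENNReal.ofReal (1 / (1 + |g y| / 2 ^ k)) := by
    have := hg.measurable
    fun_prop
  rw [inter_comm, ← Measure.restrict_restrict hG, ← lintegral_indicator hG, Sq,
    Measure.volume_eq_prod, ← Measure.prod_restrict, lintegral_prod _
      (hf.indicator hG).aemeasurable]
  have hinner : ∀ x : ℝ, ∫⁻ y in Ico (-1 : ℝ) 1, {y | m ≤ |h y|}.indicator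
      (fun y => ENNReal.ofReal (1 / (1 + |g y| / 2 ^ k))) (x, y) ≤
      ENNReal.ofReal (1 / m) * ((D : ℝ≥0∞) * ENNReal.ofReal (2 * 2 ^ k * Real.log (1 + 2 ^ k))) +
      ENNReal.ofReal (1 / 2 ^ k) * 2 := by
    intro x
    obtain ⟨p, hp, hpe⟩ := hs x
    have hder : ∀ y, h (x, y) = p.derivative.eval y := by
      intro y
      have h1 := hd x y
      have h2 : (fun s => g (x, s)) = fun s => p.eval s := by ext s; exact hpe s
      rw [h2] at h1
      exact h1.unique (p.hasDerivAt y)
    have hG' : MeasurableSet {x : ℝ | m ≤ |p.derivative.eval x|} :=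
      measurableSet_le measurable_const (Polynomial.continuous _).abs.measurable
    refine le_trans (le_of_eq ?_) (B3one p hp k m hm)
    rw [inter_comm, ← Measure.restrict_restrict hG', ← lintegral_indicator hG']
    refine lintegral_congr fun y => ?_
    by_cases hx : m ≤ |p.derivative.eval y|
    · rw [indicator_of_mem (s := {x : ℝ | m ≤ |p.derivative.eval x|}) hx,
        indicator_of_mem (s := {y | m ≤ |h y|}) (by simpa [hder] using hx), hpe]
    · rw [indicator_of_notMem (s := {x : ℝ | m ≤ |p.derivative.eval x|}) hx,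
        indicator_of_notMem (s := {y | m ≤ |h y|}) (by simpa [hder] using hx)]
  refine (lintegral_mono hinner).trans ?_
  rw [lintegral_const, Measure.restrict_apply_univ, Real.volume_Ico]
  gcongr
  norm_num

/-- the integral of the weight over the set where the Hessian is large -/
theorem B3 (P : MvPolynomial (Fin 2) ℝ) {D : ℕ} (hP : P.totalDegree ≤ D) (k : ℕ)
    (m : ℝ) (hm : 0 < m) :
    ∫⁻ y in Sq ∩ {y | ∃ a, m ≤ |hes P a y|}, wgt P k y ≤
      3 * ((ENNReal.ofReal (1 / m) *
        ((D : ℝ≥0∞) * ENNReal.ofReal (2 * 2 ^ k * Real.log (1 + 2 ^ k))) +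
      ENNReal.ofReal (1 / 2 ^ k) * 2) * 2) := by
  have hsub : Sq ∩ {y | ∃ a, m ≤ |hes P a y|} ⊆
      (Sq ∩ {y | m ≤ |hes P 0 y|}) ∪ ((Sq ∩ {y | m ≤ |hes P 1 y|}) ∪ (Sq ∩ {y | m ≤ |hes P 2 y|})) := by
    rintro y ⟨hy, a, ha⟩
    fin_cases a
    · exact Or.inl ⟨hy, ha⟩
    · exact Or.inr (Or.inl ⟨hy, ha⟩)
    · exact Or.inr (Or.inr ⟨hy, ha⟩)
  have hw1 : ∀ y, wgt P k y ≤ ENNReal.ofReal (1 / (1 + |g1 P y| / 2 ^ k)) := by
    intro y
    unfold wgt
    refine ENNReal.ofReal_le_ofReal ?_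
    have h1 : (0 : ℝ) < 1 + |g1 P y| / 2 ^ k := by positivity
    refine one_div_le_one_div_of_le h1 ?_
    have : 0 ≤ |g2 P y| / 2 ^ k := by positivity
    nlinarith
  have hw2 : ∀ y, wgt P k y ≤ ENNReal.ofReal (1 / (1 + |g2 P y| / 2 ^ k)) := by
    intro y
    unfold wgt
    refine ENNReal.ofReal_le_ofReal ?_
    have h1 : (0 : ℝ) < 1 + |g2 P y| / 2 ^ k := by positivity
    refine one_div_le_one_div_of_le h1 ?_
    have : 0 ≤ |g1 P y| / 2 ^ k := by positivity
    nlinarith
  have s1 := ev_slice (MvPolynomial.pderiv 0 P) ((totalDegree_pderiv_le P 0).trans hP)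
  have s2 := ev_slice (MvPolynomial.pderiv 1 P) ((totalDegree_pderiv_le P 1).trans hP)
  have t0 := B3x (g1 P) (hes P 0) (g1_cont P) (hes_cont P 0) s1.1 (g1_dx P) k m hm
  have t1 := B3y (g1 P) (hes P 1) (g1_cont P) (hes_cont P 1) s1.2 (g1_dy P) k m hm
  have t2 := B3y (g2 P) (hes P 2) (g2_cont P) (hes_cont P 2) s2.2 (g2_dy P) k m hm
  calc ∫⁻ y in Sq ∩ {y | ∃ a, m ≤ |hes P a y|}, wgt P k y
      ≤ ∫⁻ y in (Sq ∩ {y | m ≤ |hes P 0 y|}) ∪
          ((Sq ∩ {y | m ≤ |hes P 1 y|}) ∪ (Sq ∩ {y | m ≤ |hes P 2 y|})), wgt P k y :=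
        lintegral_mono_set hsub
    _ ≤ (∫⁻ y in Sq ∩ {y | m ≤ |hes P 0 y|}, wgt P k y) +
        ((∫⁻ y in Sq ∩ {y | m ≤ |hes P 1 y|}, wgt P k y) +
          ∫⁻ y in Sq ∩ {y | m ≤ |hes P 2 y|}, wgt P k y) :=
        (lintegral_union_le _ _ _).trans (add_le_add_right (lintegral_union_le _ _ _) _)
    _ ≤ _ := by
        have e3 : ∀ X : ℝ≥0∞, 3 * X = X + (X + X) := fun X => by ring
        rw [e3]
        exact add_le_add ((lintegral_mono hw1).trans t0)
          (add_le_add ((lintegral_mono hw1).trans t1) ((lintegral_mono hw2).trans t2))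

end Run7.h239.PP
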