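import Pool.Agent.Run7.h239.NonA
set_option autoImplicit false

/-!
The nonresonant part: bounds on one square and the stopping time decomposition.
-/

namespace Run7.h239.PP

open MeasureTheory Set Complex
open scoped ENNReal

/-- averaging over the good part of a square -/
theorem cubeavg {q G : Set (ℝ × ℝ)} (hq : MeasurableSet q) (hG : MeasurableSet G)
    {A K L : ℝ≥0∞} {w : ℝ × ℝ → ℝ≥0∞} (hw : Measurable w)
    (h0 : volume q ≠ 0) (h1 : volume q ≠ ∞)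
    (hA : ∀ y ∈ q ∩ G, A ≤ K * volume q * w y) (hv : volume q ≤ L * volume (q ∩ G)) :
    A ≤ K * L * ∫⁻ y in q ∩ G, w y := by
  have hv0 : volume (q ∩ G) ≠ 0 := by
    intro h
    rw [h, mul_zero] at hv
    exact h0 (le_antisymm hv zero_le)
  have hv1 : volume (q ∩ G) ≠ ∞ := ne_top_of_le_ne_top h1 (measure_mono inter_subset_left)
  rw [← ENNReal.mul_le_mul_iff_left hv0 hv1]
  calc A * volume (q ∩ G) = ∫⁻ y in q ∩ G, A := by rw [setLIntegral_const]
    _ ≤ ∫⁻ y in q ∩ G, K * volume q * w y := setLIntegral_mono' (hq.inter hG) hA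
    _ = K * volume q * ∫⁻ y in q ∩ G, w y := lintegral_const_mul _ hw
    _ ≤ K * (L * volume (q ∩ G)) * ∫⁻ y in q ∩ G, w y := by gcongr
    _ = K * L * (∫⁻ y in q ∩ G, w y) * volume (q ∩ G) := by ring

open MvPolynomial in
/-- the determinant of the Hessian as a polynomial -/
noncomputable def dtP (P : MvPolynomial (Fin 2) ℝ) : MvPolynomial (Fin 2) ℝ :=
  pderiv 0 (pderiv 0 P) * pderiv 1 (pderiv 1 P) - pderiv 1 (pderiv 0 P) * pderiv 1 (pderiv 0 P)

theorem ev_dtP (P : MvPolynomial (Fin 2) ℝ) : ev (dtP P) = dt (hes P) := by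
  ext y
  unfold dtP dt
  rw [ev_sub, ev_mul, ev_mul]
  simp only [hes]
  ring

theorem dtP_deg (P : MvPolynomial (Fin 2) ℝ) {D : ℕ} (hP : P.totalDegree ≤ D) :
    (dtP P).totalDegree ≤ 2 * D := by
  have h : ∀ a b : Fin 2, (MvPolynomial.pderiv a (MvPolynomial.pderiv b P)).totalDegree ≤ D :=
    fun a b => (totalDegree_pderiv_le _ _).trans ((totalDegree_pderiv_le _ _).trans hP)
  unfold dtP
  refine (MvPolynomial.totalDegree_sub _ _).trans (max_le ?_ ?_)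
  · refine (MvPolynomial.totalDegree_mul _ _).trans ?_
    have := h 0 0
    have := h 1 1
    omega
  · refine (MvPolynomial.totalDegree_mul _ _).trans ?_
    have := h 1 0
    omega

theorem hes_slice (P : MvPolynomial (Fin 2) ℝ) {D : ℕ} (hP : P.totalDegree ≤ D) (a : Fin 3) :
    SlicePoly D (hes P a) := by
  have h : ∀ a b : Fin 2, (MvPolynomial.pderiv a (MvPolynomial.pderiv b P)).totalDegree ≤ D :=
    fun a b => (totalDegree_pderiv_le _ _).trans ((totalDegree_pderiv_le _ _).trans hP)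
  fin_cases a
  · exact ev_slice _ (h 0 0)
  · exact ev_slice _ (h 1 0)
  · exact ev_slice _ (h 1 1)

theorem vol_cube_ne (k : ℕ) (i : ℤ × ℤ) : volume (cube k i) ≠ 0 ∧ volume (cube k i) ≠ ∞ := by
  rw [volume_cube]
  refine ⟨?_, ENNReal.ofReal_ne_top⟩
  rw [Ne, ENNReal.ofReal_eq_zero, not_le]
  positivity

/-- the cell estimate in the form used for the averaging -/
theorem cell_e (P : MvPolynomial (Fin 2) ℝ) (am : ℝ × ℝ → ℂ) (ham : IsAmp am) (k : ℕ) (i : ℤ × ℤ) (hg : good (hes P) k i)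
    (S T : Set ℝ) (hS : S.OrdConnected) (hT : T.OrdConnected) (y : ℝ × ℝ) (hy : y ∈ cube k i) :
    ‖∫ x in (S ×ˢ T) ∩ cube k i, am x * cexp (I * (ev P x : ℂ))‖ₑ ≤
      ENNReal.ofReal 153 * volume (cube k i) * wgt P k y := by
  have h := cell P am ham k i hg S T hS hT y hy
  rw [volume_cube, wgt, ← ENNReal.ofReal_mul (by norm_num), ← ENNReal.ofReal_mul (by positivity),
    ← ofReal_norm]
  refine ENNReal.ofReal_le_ofReal (h.trans (le_of_eq ?_))
  ring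

theorem near_self {k : ℕ} {i : ℤ × ℤ} {z : ℝ × ℝ} (hz : z ∈ cube k i) :
    |2 ^ k * z.1 - i.1| ≤ 2 ∧ |2 ^ k * z.2 - i.2| ≤ 2 := by
  rw [mem_cube] at hz
  constructor <;> rw [abs_le] <;> constructor <;> linarith [hz.1.1, hz.1.2, hz.2.1, hz.2.2]

/-- parent index -/
def par (i : ℤ × ℤ) : ℤ × ℤ := (i.1 / 2, i.2 / 2)

theorem near_par {k : ℕ} {i : ℤ × ℤ} {z : ℝ × ℝ} (hz : z ∈ cube k (par i)) :
    |2 ^ (k + 1) * z.1 - i.1| ≤ 2 ∧ |2 ^ (k + 1) * z.2 - i.2| ≤ 2 := by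
  rw [mem_cube] at hz
  have h : ∀ n : ℤ, (2 : ℝ) * ((n / 2 : ℤ) : ℝ) ≤ n ∧ (n : ℝ) ≤ 2 * ((n / 2 : ℤ) : ℝ) + 1 := by
    intro n
    have h1 : 2 * (n / 2) ≤ n := by omega
    have h2 : n ≤ 2 * (n / 2) + 1 := by omega
    exact ⟨by exact_mod_cast h1, by exact_mod_cast h2⟩
  have a := h i.1
  have b := h i.2
  obtain ⟨⟨c1, c2⟩, c3, c4⟩ := hz
  simp only [par] at c1 c2 c3 c4
  have e : ∀ t : ℝ, (2 : ℝ) ^ (k + 1) * t = 2 * (2 ^ k * t) := fun t => by ring
  rw [e, e]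
  constructor <;> rw [abs_le] <;> constructor <;> linarith

theorem idx_par (k : ℕ) (x : ℝ × ℝ) : idx k x = par (idx (k + 1) x) := by
  have h : ∀ t : ℝ, ⌊2 ^ k * t⌋ = ⌊2 ^ (k + 1) * t⌋ / 2 := by
    intro t
    have e : (2 : ℝ) ^ (k + 1) * t = 2 * (2 ^ k * t) := by ring
    rw [e]
    set s := 2 ^ k * t with hs
    set n := ⌊2 * s⌋ with hn
    have h1 : (n : ℝ) ≤ 2 * s := Int.floor_le _
    have h2 : 2 * s < n + 1 := Int.lt_floor_add_one _
    rw [Int.floor_eq_iff]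
    have h3 : 2 * (n / 2) ≤ n := by omega
    have h4 : n + 1 ≤ 2 * (n / 2) + 2 := by omega
    have h3' : (2 : ℝ) * ((n / 2 : ℤ) : ℝ) ≤ n := by exact_mod_cast h3
    have h4' : (n : ℝ) + 1 ≤ 2 * ((n / 2 : ℤ) : ℝ) + 2 := by exact_mod_cast h4
    constructor <;> linarith
  unfold idx par
  rw [h, h]

/-- squares on which the determinant is somewhere large -/
theorem cube_b1 {D : ℕ} : ∃ C : ℝ, 1 ≤ C ∧ ∀ P : MvPolynomial (Fin 2) ℝ,
    P.totalDegree ≤ D → ∀ am : ℝ × ℝ → ℂ, IsAmp am → ∀ (k : ℕ) (i : ℤ × ℤ), good (hes P) k i →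
    ∀ S T : Set ℝ,
    S.OrdConnected → T.OrdConnected → ∀ m : ℝ, 0 < m → (∃ z ∈ cube k i, m < |dt (hes P) z|) →
    ‖∫ x in (S ×ˢ T) ∩ cube k i, am x * cexp (I * (ev P x : ℂ))‖ₑ ≤
      ENNReal.ofReal C * ∫⁻ y in cube k i ∩ {y | m / C ≤ |dt (hes P) y|}, wgt P k y := by
  obtain ⟨C1, hC1, h1⟩ := remez (2 * D)
  set L : ℝ := ((2 * D : ℕ) + 1) ^ 4 with hL
  have hL0 : 0 ≤ L := by positivity
  refine ⟨max C1 (153 * L), le_max_of_le_left hC1, ?_⟩
  intro P hP am ham k i hg S T hS hT m hm ⟨z, hz, hzm⟩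
  have hu : SlicePoly (2 * D) (dt (hes P)) := by
    rw [← ev_dtP]
    exact ev_slice _ (dtP_deg P hP)
  have hr := h1 (dt (hes P)) hu k i z (near_self hz).1 (near_self hz).2
  have hdc : Continuous (dt (hes P)) := dt_cont (hes_cont P)
  have hC0 : 0 < max C1 (153 * L) := lt_of_lt_of_le one_pos (le_max_of_le_left hC1)
  have hG : MeasurableSet {y | m / max C1 (153 * L) ≤ |dt (hes P) y|} :=
    measurableSet_le measurable_const hdc.abs.measurable
  have hsub : cube k i ∩ {y | |dt (hes P) z| ≤ C1 * |dt (hes P) y|} ⊆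
      cube k i ∩ {y | m / max C1 (153 * L) ≤ |dt (hes P) y|} := by
    rintro y ⟨hy, hy2⟩
    refine ⟨hy, ?_⟩
    simp only [mem_ofPred_eq] at hy2 ⊢
    rw [div_le_iff₀ hC0]
    have h3 : C1 * |dt (hes P) y| ≤ |dt (hes P) y| * max C1 (153 * L) := by
      rw [mul_comm]
      exact mul_le_mul_of_nonneg_left (le_max_left _ _) (abs_nonneg _)
    linarith
  refine (cubeavg (K := ENNReal.ofReal 153) (L := ENNReal.ofReal L) (measurableSet_cube k i) hG
    (wgt_meas P k) (vol_cube_ne k i).1 (vol_cube_ne k i).2 (fun y hy => cell_e P am ham k i hg S T hS hT y hy.1)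
    (hr.trans (by gcongr))).trans ?_
  rw [← ENNReal.ofReal_mul (by norm_num)]
  gcongr
  exact le_max_right _ _

/-- squares whose parent is not good -/
theorem cube_b3 {D : ℕ} : ∃ C : ℝ, 1 ≤ C ∧ ∀ P : MvPolynomial (Fin 2) ℝ,
    P.totalDegree ≤ D → ∀ am : ℝ × ℝ → ℂ, IsAmp am → ∀ (k : ℕ) (i : ℤ × ℤ),
    good (hes P) (k + 1) i → ∀ S T : Set ℝ,
    S.OrdConnected → T.OrdConnected → ¬ good (hes P) k (par i) →
    ‖∫ x in (S ×ˢ T) ∩ cube (k + 1) i, am x * cexp (I * (ev P x : ℂ))‖ₑ ≤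
      ENNReal.ofReal C * ∫⁻ y in cube (k + 1) i ∩ {y | ∃ a, 4 ^ k / C ≤ |hes P a y|}, wgt P (k + 1) y := by
  obtain ⟨C1, hC1, h1⟩ := remez D
  set L : ℝ := (D + 1) ^ 4 with hL
  have hL0 : 0 ≤ L := by positivity
  refine ⟨max C1 (153 * L), le_max_of_le_left hC1, ?_⟩
  intro P hP am ham k i hg S T hS hT hng
  have hC0 : 0 < max C1 (153 * L) := lt_of_lt_of_le one_pos (le_max_of_le_left hC1)
  unfold good at hng
  push Not at hng
  obtain ⟨z, hz, a, hza⟩ := hng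
  have hr := h1 (hes P a) (hes_slice P hP a) (k + 1) i z (near_par hz).1 (near_par hz).2
  have hG : MeasurableSet {y | ∃ a, 4 ^ k / max C1 (153 * L) ≤ |hes P a y|} := by
    have : {y | ∃ a, 4 ^ k / max C1 (153 * L) ≤ |hes P a y|} =
        ⋃ a, {y | 4 ^ k / max C1 (153 * L) ≤ |hes P a y|} := by ext y; simp
    rw [this]
    exact MeasurableSet.iUnion fun a => measurableSet_le measurable_const (hes_cont P a).abs.measurable
  have hsub : cube (k + 1) i ∩ {y | |hes P a z| ≤ C1 * |hes P a y|} ⊆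
      cube (k + 1) i ∩ {y | ∃ a, 4 ^ k / max C1 (153 * L) ≤ |hes P a y|} := by
    rintro y ⟨hy, hy2⟩
    refine ⟨hy, a, ?_⟩
    simp only [mem_ofPred_eq] at hy2 ⊢
    rw [div_le_iff₀ hC0]
    have h3 : C1 * |hes P a y| ≤ |hes P a y| * max C1 (153 * L) := by
      rw [mul_comm]
      exact mul_le_mul_of_nonneg_left (le_max_left _ _) (abs_nonneg _)
    linarith
  refine (cubeavg (K := ENNReal.ofReal 153) (L := ENNReal.ofReal L) (measurableSet_cube (k + 1) i) hG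
    (wgt_meas P (k + 1)) (vol_cube_ne (k + 1) i).1 (vol_cube_ne (k + 1) i).2
    (fun y hy => cell_e P am ham (k + 1) i hg S T hS hT y hy.1)
    (hr.trans (by gcongr))).trans ?_
  rw [← ENNReal.ofReal_mul (by norm_num)]
  gcongr
  exact le_max_right _ _

/-- nonresonant stopping squares of generation `k + 1` -/
def nr (H : Fin 3 → ℝ × ℝ → ℝ) (μ : ℝ) (k : ℕ) : Set (ℤ × ℤ) :=
  {i | good H (k + 1) i ∧ ¬ good H k (par i) ∧ ∃ z ∈ cube (k + 1) i, μ * 4 ^ (k + 1) < |dt H z|}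

/-- the nonresonant region of generation `k + 1` -/
def NRk (H : Fin 3 → ℝ × ℝ → ℝ) (μ : ℝ) (k : ℕ) : Set (ℝ × ℝ) :=
  {x | x ∈ Sq ∧ idx (k + 1) x ∈ nr H μ k}

/-- the nonresonant region -/
def NR (H : Fin 3 → ℝ × ℝ → ℝ) (μ : ℝ) : Set (ℝ × ℝ) := ⋃ k, NRk H μ k

theorem measurableSet_NRk (H : Fin 3 → ℝ × ℝ → ℝ) (μ : ℝ) (k : ℕ) : MeasurableSet (NRk H μ k) := by
  have h : MeasurableSet (idx (k + 1) ⁻¹' nr H μ k) :=
    measurable_idx (k + 1) (Set.to_countable _).measurableSet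
  exact measurableSet_Sq.inter h

theorem measurableSet_NR (H : Fin 3 → ℝ × ℝ → ℝ) (μ : ℝ) : MeasurableSet (NR H μ) :=
  MeasurableSet.iUnion fun k => measurableSet_NRk H μ k

theorem good_succ {H : Fin 3 → ℝ × ℝ → ℝ} {k : ℕ} {x : ℝ × ℝ} (h : good H k (idx k x)) :
    good H (k + 1) (idx (k + 1) x) := by
  intro y hy a
  have h1 : y ∈ cube k (idx k x) := by
    change idx k y = idx k x
    rw [idx_par, idx_par k x]
    congr 1
  refine (h y h1 a).trans ?_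
  exact pow_le_pow_right₀ (by norm_num) (Nat.le_succ k)

theorem good_mono {H : Fin 3 → ℝ × ℝ → ℝ} {k l : ℕ} (hkl : k ≤ l) {x : ℝ × ℝ}
    (h : good H k (idx k x)) : good H l (idx l x) := by
  induction l, hkl using Nat.le_induction with
  | base => exact h
  | succ l _ ih => exact good_succ ih

theorem NRk_disj (H : Fin 3 → ℝ × ℝ → ℝ) (μ : ℝ) : Pairwise (Function.onFun Disjoint (NRk H μ)) := by
  have key : ∀ k l, k < l → Disjoint (NRk H μ k) (NRk H μ l) := by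
    intro k l hkl
    rw [Set.disjoint_left]
    rintro x ⟨_, hx⟩ ⟨_, hx'⟩
    have h1 := hx.1
    have h2 := hx'.2.1
    rw [← idx_par] at h2
    exact h2 (good_mono hkl h1)
  intro k l hkl
  rcases lt_or_gt_of_ne hkl with h | h
  · exact key k l h
  · exact (key l k h).symm

/-- countable decomposition of an integral -/
theorem enorm_int_le {ι : Type*} [Countable ι] {s : ι → Set (ℝ × ℝ)} {f : ℝ × ℝ → ℂ}
    (hm : ∀ i, MeasurableSet (s i)) (hd : Pairwise (Function.onFun Disjoint s))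
    (hf : IntegrableOn f (⋃ i, s i)) :
    ‖∫ x in ⋃ i, s i, f x‖ₑ ≤ ∑' i, ‖∫ x in s i, f x‖ₑ := by
  have h := hasSum_integral_iUnion hm hd hf
  rw [← h.tsum_eq]
  exact enorm_tsum_le_tsum_enorm

theorem cube_cover (k : ℕ) (A : Set (ℝ × ℝ)) : A = ⋃ i, cube k i ∩ A := by
  ext x
  simp [cube]

theorem cube_disj (k : ℕ) (A : Set (ℝ × ℝ)) :
    Pairwise (Function.onFun Disjoint fun i => cube k i ∩ A) := by
  intro i j hij
  refine Set.disjoint_left.2 ?_
  rintro x ⟨h1, _⟩ ⟨h2, _⟩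
  exact hij (h1.symm.trans h2)

theorem sub_Sq {k : ℕ} {x : ℝ × ℝ} (hx : x ∈ Sq) : cube k (idx k x) ⊆ Sq := by
  intro y hy
  have h0 : ∀ k, idx k y = idx k x → idx 0 y = idx 0 x := by
    intro k
    induction k with
    | zero => exact id
    | succ k ih =>
      intro h
      apply ih
      rw [idx_par, idx_par k x, h]
  have h1 : idx 0 y = idx 0 x := h0 k hy
  unfold idx at h1
  simp only [pow_zero, one_mul] at h1
  rw [Prod.ext_iff] at h1
  obtain ⟨a1, a2⟩ := h1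
  simp only at a1 a2
  obtain ⟨⟨b1, b2⟩, b3, b4⟩ := hx
  have c : ∀ s t : ℝ, ⌊s⌋ = ⌊t⌋ → -1 ≤ t → t < 1 → -1 ≤ s ∧ s < 1 := by
    intro s t h h1 h2
    have h3 : (-1 : ℤ) ≤ ⌊t⌋ := Int.le_floor.2 (by exact_mod_cast h1)
    have h4 : ⌊t⌋ < 1 := Int.floor_lt.2 (by exact_mod_cast h2)
    rw [← h] at h3 h4
    refine ⟨?_, ?_⟩
    · exact_mod_cast Int.le_floor.1 h3
    · exact_mod_cast Int.floor_lt.1 h4
  exact ⟨c _ _ a1 b1 b2, c _ _ a2 b3 b4⟩

/-- summation over the squares of one generation -/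
theorem gen_sum (P : MvPolynomial (Fin 2) ℝ) (am : ℝ × ℝ → ℂ) (ham : IsAmp am) (μ : ℝ) (k : ℕ) (S T : Set ℝ) (hS : S.OrdConnected)
    (hT : T.OrdConnected) (K : ℝ≥0∞) (G : Set (ℝ × ℝ)) (hG : MeasurableSet G)
    (hb : ∀ i ∈ nr (hes P) μ k, ‖∫ x in (S ×ˢ T) ∩ cube (k + 1) i, am x * cexp (I * (ev P x : ℂ))‖ₑ ≤
      K * ∫⁻ y in cube (k + 1) i ∩ G, wgt P (k + 1) y) :
    ‖∫ x in (S ×ˢ T) ∩ NRk (hes P) μ k, am x * cexp (I * (ev P x : ℂ))‖ₑ ≤
      K * ∫⁻ y in Sq ∩ G, wgt P (k + 1) y := by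
  classical
  have hSm : MeasurableSet (S ×ˢ T) := hS.measurableSet.prod hT.measurableSet
  have hAm : MeasurableSet ((S ×ˢ T) ∩ NRk (hes P) μ k) := hSm.inter (measurableSet_NRk _ _ _)
  have hfc : Continuous fun x : ℝ × ℝ => am x * cexp (I * (ev P x : ℂ)) := by
    have := ev_cont P
    have := ham.cont
    fun_prop
  have hfi : IntegrableOn (fun x : ℝ × ℝ => am x * cexp (I * (ev P x : ℂ))) Sq := by
    refine IntegrableOn.mono_set (hfc.continuousOn.integrableOn_compact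
      (isCompact_Icc.prod isCompact_Icc : IsCompact (Icc (-1 : ℝ) 1 ×ˢ Icc (-1 : ℝ) 1))) ?_
    exact prod_mono Ico_subset_Icc_self Ico_subset_Icc_self
  have hAs : (S ×ˢ T) ∩ NRk (hes P) μ k ⊆ Sq := fun x hx => hx.2.1
  have h1 := enorm_int_le (s := fun i => cube (k + 1) i ∩ ((S ×ˢ T) ∩ NRk (hes P) μ k))
    (f := fun x : ℝ × ℝ => am x * cexp (I * (ev P x : ℂ)))
    (fun i => (measurableSet_cube _ _).inter hAm) (cube_disj _ _)
    (by rw [← cube_cover]; exact hfi.mono_set hAs)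
  rw [← cube_cover] at h1
  refine h1.trans ?_
  have h2 : ∫⁻ y in Sq ∩ G, wgt P (k + 1) y = ∑' i, ∫⁻ y in cube (k + 1) i ∩ (Sq ∩ G), wgt P (k + 1) y := by
    rw [← lintegral_iUnion (fun i => (measurableSet_cube _ _).inter (measurableSet_Sq.inter hG))
      (cube_disj _ _), ← cube_cover]
  rw [h2, ← ENNReal.tsum_mul_left]
  refine ENNReal.tsum_le_tsum fun i => ?_
  by_cases hi : (cube (k + 1) i ∩ ((S ×ˢ T) ∩ NRk (hes P) μ k)).Nonempty
  · obtain ⟨x, hx1, hx2, hx3, hx4⟩ := hi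
    have hxi : idx (k + 1) x = i := hx1
    rw [hxi] at hx4
    have hcs : cube (k + 1) i ⊆ Sq := by
      rw [← hxi]
      exact sub_Sq hx3
    have e1 : cube (k + 1) i ∩ ((S ×ˢ T) ∩ NRk (hes P) μ k) = (S ×ˢ T) ∩ cube (k + 1) i := by
      ext y
      constructor
      · rintro ⟨a, b, _⟩; exact ⟨b, a⟩
      · rintro ⟨b, a⟩
        refine ⟨a, b, hcs a, ?_⟩
        have : idx (k + 1) y = i := a
        rw [this]
        exact hx4
    have e2 : cube (k + 1) i ∩ (Sq ∩ G) = cube (k + 1) i ∩ G := by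
      ext y
      constructor
      · rintro ⟨a, _, b⟩; exact ⟨a, b⟩
      · rintro ⟨a, b⟩; exact ⟨a, hcs a, b⟩
    rw [e1, e2]
    exact hb i hx4
  · rw [not_nonempty_iff_eq_empty] at hi
    rw [hi]
    simp

end Run7.h239.PP
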