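import Pool.Agent.Run7.h239.NonB
set_option autoImplicit false

/-!
The bound for the nonresonant part.
-/

namespace Run7.h239.PP

open MeasureTheory Set Complex
open scoped ENNReal

theorem log_one_add_le {μ : ℝ} (hμ : 1 ≤ μ) : Real.log (1 + μ) ≤ 1 + Real.log μ := by
  have h1 : Real.log (1 + μ) ≤ Real.log (2 * μ) := Real.log_le_log (by linarith) (by linarith)
  rw [Real.log_mul (by norm_num) (by linarith)] at h1
  have := Real.log_two_lt_d9
  linarith

theorem log_two_pow_le (k : ℕ) : Real.log (1 + 2 ^ (k + 1)) ≤ k + 2 := by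
  have h0 : (1 : ℝ) ≤ 2 ^ (k + 1) := one_le_pow₀ (by norm_num)
  have h1 : Real.log (1 + 2 ^ (k + 1)) ≤ Real.log (2 ^ (k + 2)) := by
    apply Real.log_le_log (by positivity)
    have : (2 : ℝ) ^ (k + 2) = 2 * 2 ^ (k + 1) := by ring
    rw [this]; linarith
  rw [Real.log_pow] at h1
  have := Real.log_two_lt_d9
  have h2 : ((k + 2 : ℕ) : ℝ) * Real.log 2 ≤ ((k + 2 : ℕ) : ℝ) * 1 := by
    apply mul_le_mul_of_nonneg_left _ (by positivity)
    linarith
  push_cast at h1 h2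
  linarith

/-- one generation, first bound -/
theorem genA (D : ℕ) (hD : 1 ≤ D) : ∃ K : ℝ, 1 ≤ K ∧ ∀ P : MvPolynomial (Fin 2) ℝ,
    P.totalDegree ≤ D → ∀ am : ℝ × ℝ → ℂ, IsAmp am → ∀ μ : ℝ, 1 ≤ μ → ∀ S T : Set ℝ,
    S.OrdConnected → T.OrdConnected → ∀ k : ℕ,
    ‖∫ x in (S ×ˢ T) ∩ NRk (hes P) μ k, am x * cexp (I * (ev P x : ℂ))‖ₑ ≤
      ENNReal.ofReal (K * (1 + Real.log μ) ^ 2 / μ) := by
  obtain ⟨C, hC1, hC⟩ := cube_b1 (D := D)
  have hC0 : 0 < C := by linarith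
  set N : ℝ := ((((1 + 2 * D) ^ 2) ^ 2 : ℕ) : ℝ) with hN
  have hN0 : 0 ≤ N := by positivity
  refine ⟨C * (4 * C * N + 4), by nlinarith [mul_nonneg hC0.le hN0], ?_⟩
  intro P hP am ham μ hμ S T hS hT k
  have hμ0 : 0 < μ := by linarith
  have hlog0 : 0 ≤ Real.log μ := Real.log_nonneg hμ
  have hk : (0 : ℝ) < 2 ^ (k + 1) := by positivity
  have h4 : (4 : ℝ) ^ (k + 1) = 2 ^ (k + 1) * 2 ^ (k + 1) := by rw [← mul_pow]; norm_num
  set m : ℝ := μ * 4 ^ (k + 1) with hm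
  have hm0 : 0 < m := by positivity
  have hdc : Continuous (dt (hes P)) := dt_cont (hes_cont P)
  have h1 := gen_sum P am ham μ k S T hS hT (ENNReal.ofReal C) {y | m / C ≤ |dt (hes P) y|}
    (measurableSet_le measurable_const hdc.abs.measurable)
    (fun i hi => hC P hP am ham (k + 1) i hi.1 S T hS hT m hm0 hi.2.2)
  refine h1.trans ?_
  have h2 := B1 P hD hP (k + 1) (m / C) μ (by positivity) hμ0
  refine (mul_le_mul_right h2 _).trans ?_
  have hlog : 0 ≤ Real.log (1 + μ) := Real.log_nonneg (by linarith)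
  rw [← ENNReal.ofReal_natCast, ← ENNReal.ofReal_mul (by positivity),
    ← ENNReal.ofReal_mul (by positivity), ← ENNReal.ofReal_mul (by positivity),
    show (4 : ℝ≥0∞) = ENNReal.ofReal 4 by norm_num, ← ENNReal.ofReal_mul (by positivity),
    ← ENNReal.ofReal_add (by positivity) (by positivity), ← ENNReal.ofReal_mul (by positivity)]
  refine ENNReal.ofReal_le_ofReal ?_
  rw [← hN]
  have e1 : C * (1 / (m / C) * (N * (2 * 2 ^ (k + 1) * Real.log (1 + μ) *
      (2 * 2 ^ (k + 1) * Real.log (1 + μ)))) + 1 / μ * 4) =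
      C * (4 * C * N * Real.log (1 + μ) ^ 2 + 4) / μ := by
    rw [hm, h4]
    field_simp
    ring
  rw [e1, div_le_div_iff_of_pos_right hμ0, mul_assoc C]
  refine mul_le_mul_of_nonneg_left ?_ hC0.le
  have h3 : Real.log (1 + μ) ^ 2 ≤ (1 + Real.log μ) ^ 2 := by
    gcongr
    exact log_one_add_le hμ
  have h5 : (1 : ℝ) ≤ (1 + Real.log μ) ^ 2 := by nlinarith
  have h6 : 4 * C * N * Real.log (1 + μ) ^ 2 ≤ 4 * C * N * (1 + Real.log μ) ^ 2 := by gcongr
  nlinarith [mul_nonneg hC0.le hN0]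

/-- one generation, second bound -/
theorem genB (D : ℕ) : ∃ K : ℝ, 1 ≤ K ∧ ∀ P : MvPolynomial (Fin 2) ℝ,
    P.totalDegree ≤ D → ∀ am : ℝ × ℝ → ℂ, IsAmp am → ∀ μ : ℝ, ∀ S T : Set ℝ,
    S.OrdConnected → T.OrdConnected → ∀ k : ℕ,
    ‖∫ x in (S ×ˢ T) ∩ NRk (hes P) μ k, am x * cexp (I * (ev P x : ℂ))‖ₑ ≤
      ENNReal.ofReal (K * (k + 1) / 2 ^ k) := by
  obtain ⟨C, hC1, hC⟩ := cube_b3 (D := D)
  have hC0 : 0 < C := by linarith
  have hD0 : (0 : ℝ) ≤ D := Nat.cast_nonneg D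
  refine ⟨C * (6 * (8 * C * D + 1)), by nlinarith [mul_nonneg hC0.le hD0], ?_⟩
  intro P hP am ham μ S T hS hT k
  have h4 : (4 : ℝ) ^ k = 2 ^ k * 2 ^ k := by rw [← mul_pow]; norm_num
  have hG : MeasurableSet {y | ∃ a, 4 ^ k / C ≤ |hes P a y|} := by
    have : {y | ∃ a, 4 ^ k / C ≤ |hes P a y|} = ⋃ a, {y | 4 ^ k / C ≤ |hes P a y|} := by ext y; simp
    rw [this]
    exact MeasurableSet.iUnion fun a => measurableSet_le measurable_const (hes_cont P a).abs.measurable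
  have h1 := gen_sum P am ham μ k S T hS hT (ENNReal.ofReal C) {y | ∃ a, 4 ^ k / C ≤ |hes P a y|} hG
    (fun i hi => hC P hP am ham k i hi.1 S T hS hT hi.2.1)
  refine h1.trans ?_
  have h2 := B3 P hP (k + 1) (4 ^ k / C) (by positivity)
  refine (mul_le_mul_right h2 _).trans ?_
  have hlog : 0 ≤ Real.log (1 + 2 ^ (k + 1)) := Real.log_nonneg (by
    have : (0 : ℝ) < 2 ^ (k + 1) := by positivity
    linarith)
  rw [← ENNReal.ofReal_natCast, ← ENNReal.ofReal_mul (by positivity),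
    ← ENNReal.ofReal_mul (by positivity),
    show (3 : ℝ≥0∞) = ENNReal.ofReal 3 by norm_num, show (2 : ℝ≥0∞) = ENNReal.ofReal 2 by norm_num,
    ← ENNReal.ofReal_mul (by positivity), ← ENNReal.ofReal_add (by positivity) (by positivity),
    ← ENNReal.ofReal_mul (by positivity), ← ENNReal.ofReal_mul (by positivity),
    ← ENNReal.ofReal_mul (by positivity)]
  refine ENNReal.ofReal_le_ofReal ?_
  have e1 : C * (3 * ((1 / (4 ^ k / C) * (D * (2 * 2 ^ (k + 1) * Real.log (1 + 2 ^ (k + 1)))) +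
      1 / 2 ^ (k + 1) * 2) * 2)) = C * (6 * (4 * C * D * Real.log (1 + 2 ^ (k + 1)) + 1)) / 2 ^ k := by
    rw [h4, pow_succ]
    field_simp
    ring
  rw [e1, div_le_div_iff_of_pos_right (by positivity)]
  have h3 := log_two_pow_le k
  have h5 : 4 * C * D * Real.log (1 + 2 ^ (k + 1)) ≤ 4 * C * D * (k + 2) := by gcongr
  have h6 : 0 ≤ C * D := by positivity
  have h7 : (0 : ℝ) ≤ k := Nat.cast_nonneg k
  have h9 : 4 * C * D * Real.log (1 + 2 ^ (k + 1)) + 1 ≤ (8 * C * D + 1) * (k + 1) := by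
    nlinarith [mul_nonneg h6 h7]
  calc C * (6 * (4 * C * D * Real.log (1 + 2 ^ (k + 1)) + 1))
      ≤ C * (6 * ((8 * C * D + 1) * (k + 1))) := by gcongr
    _ = C * (6 * (8 * C * D + 1)) * (k + 1) := by ring

theorem succ_le_geom (j : ℕ) : (j : ℝ) + 1 ≤ 2 * (3 / 2) ^ j := by
  induction j with
  | zero => norm_num
  | succ j ih =>
    push_cast
    rw [pow_succ]
    have : (1 : ℝ) ≤ (3 / 2) ^ j := one_le_pow₀ (by norm_num)
    linarith

/-- **The nonresonant part.** -/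
theorem nonres (D : ℕ) (hD : 1 ≤ D) : ∃ C : ℝ, 1 ≤ C ∧ ∀ P : MvPolynomial (Fin 2) ℝ,
    P.totalDegree ≤ D → ∀ am : ℝ × ℝ → ℂ, IsAmp am → ∀ μ : ℝ, 1 ≤ μ → ∀ S T : Set ℝ,
    S.OrdConnected → T.OrdConnected →
    ‖∫ x in (S ×ˢ T) ∩ NR (hes P) μ, am x * cexp (I * (ev P x : ℂ))‖ₑ ≤
      ENNReal.ofReal (C * (1 + Real.log μ) ^ 3 / μ) := by
  obtain ⟨K1, hK1, h1⟩ := genA D hD
  obtain ⟨K2, hK2, h2⟩ := genB D
  refine ⟨2 * K1 + 32 * K2, by linarith, ?_⟩
  intro P hP am ham μ hμ S T hS hT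
  have hμ0 : 0 < μ := by linarith
  have hlog0 : 0 ≤ Real.log μ := Real.log_nonneg hμ
  set f : ℝ × ℝ → ℂ := fun x => am x * cexp (I * (ev P x : ℂ)) with hf
  have hSm : MeasurableSet (S ×ˢ T) := hS.measurableSet.prod hT.measurableSet
  have hfc : Continuous f := by
    have := ev_cont P
    have := ham.cont
    rw [hf]
    fun_prop
  have hfi : IntegrableOn f Sq := by
    refine IntegrableOn.mono_set (hfc.continuousOn.integrableOn_compact
      (isCompact_Icc.prod isCompact_Icc : IsCompact (Icc (-1 : ℝ) 1 ×ˢ Icc (-1 : ℝ) 1))) ?_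
    exact prod_mono Ico_subset_Icc_self Ico_subset_Icc_self
  have hU : (S ×ˢ T) ∩ NR (hes P) μ = ⋃ k, (S ×ˢ T) ∩ NRk (hes P) μ k := by
    rw [NR, inter_iUnion]
  have hle : ‖∫ x in (S ×ˢ T) ∩ NR (hes P) μ, f x‖ₑ ≤
      ∑' k, ‖∫ x in (S ×ˢ T) ∩ NRk (hes P) μ k, f x‖ₑ := by
    rw [hU]
    refine enorm_int_le (fun k => hSm.inter (measurableSet_NRk _ _ _)) ?_ ?_
    · intro k l hkl
      exact (NRk_disj (hes P) μ hkl).mono inter_subset_right inter_subset_right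
    · refine hfi.mono_set ?_
      refine iUnion_subset fun k => ?_
      exact fun x hx => hx.2.1
  refine hle.trans ?_
  set a : ℕ → ℝ≥0∞ := fun k => ‖∫ x in (S ×ˢ T) ∩ NRk (hes P) μ k, f x‖ₑ with ha
  set n : ℕ := ⌈Real.logb 2 μ⌉₊ with hn
  have hlb0 : 0 ≤ Real.logb 2 μ := Real.logb_nonneg (by norm_num) hμ
  have hn1 : μ ≤ 2 ^ n := by
    have h3 : Real.logb 2 μ ≤ n := Nat.le_ceil _
    have h4 := (Real.logb_le_iff_le_rpow (b := 2) (by norm_num) hμ0).1 h3
    rwa [Real.rpow_natCast] at h4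
  have hn2 : (n : ℝ) ≤ 2 * Real.log μ + 1 := by
    have h3 : (n : ℝ) < Real.logb 2 μ + 1 := Nat.ceil_lt_add_one hlb0
    have h4 : Real.logb 2 μ ≤ 2 * Real.log μ := by
      unfold Real.logb
      rw [div_le_iff₀ (Real.log_pos (by norm_num))]
      have := Real.log_two_gt_d9
      nlinarith
    linarith
  have hsplit : ∑' k, a k = ∑ k ∈ Finset.range n, a k + ∑' j, a (j + n) :=
    (Summable.sum_add_tsum_nat_add' (f := a) (k := n) ENNReal.summable).symm
  have hA : ∑ k ∈ Finset.range n, a k ≤ ENNReal.ofReal (n * (K1 * (1 + Real.log μ) ^ 2 / μ)) := by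
    calc ∑ k ∈ Finset.range n, a k ≤ ∑ k ∈ Finset.range n, ENNReal.ofReal (K1 * (1 + Real.log μ) ^ 2 / μ) :=
          Finset.sum_le_sum fun k _ => h1 P hP am ham μ hμ S T hS hT k
      _ = _ := by
          rw [Finset.sum_const, Finset.card_range, nsmul_eq_mul, ← ENNReal.ofReal_natCast,
            ← ENNReal.ofReal_mul (by positivity)]
  have hB : ∑' j, a (j + n) ≤ ENNReal.ofReal (8 * (K2 * (n + 1) / 2 ^ n)) := by
    calc ∑' j, a (j + n) ≤ ∑' j : ℕ, ENNReal.ofReal (K2 * (n + 1) / 2 ^ n * (2 * (3 / 4) ^ j)) := by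
          refine ENNReal.tsum_le_tsum fun j => ?_
          refine (h2 P hP am ham μ S T hS hT (j + n)).trans (ENNReal.ofReal_le_ofReal ?_)
          have h3 := succ_le_geom j
          have h4 : ((j + n : ℕ) : ℝ) + 1 ≤ (n + 1) * (j + 1) := by
            push_cast
            have : (0 : ℝ) ≤ (n : ℝ) * j := by positivity
            nlinarith
          have e : K2 * (n + 1) / 2 ^ n * (2 * (3 / 4 : ℝ) ^ j) =
              K2 * ((n + 1) * (2 * (3 / 2) ^ j)) / 2 ^ (j + n) := by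
            have : (3 / 4 : ℝ) ^ j = (3 / 2) ^ j / 2 ^ j := by
              rw [← div_pow]; norm_num
            rw [this, pow_add]
            field_simp
          rw [e]
          gcongr
          refine h4.trans ?_
          gcongr
      _ = ENNReal.ofReal (∑' j : ℕ, K2 * (n + 1) / 2 ^ n * (2 * (3 / 4) ^ j)) := by
          rw [ENNReal.ofReal_tsum_of_nonneg]
          · intro j; positivity
          · exact ((summable_geometric_of_lt_one (by norm_num) (by norm_num)).mul_left _).mul_left _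
      _ = _ := by
          rw [tsum_mul_left, tsum_mul_left, tsum_geometric_of_lt_one (by norm_num) (by norm_num)]
          congr 1
          ring
  rw [hsplit]
  refine (add_le_add hA hB).trans ?_
  rw [← ENNReal.ofReal_add (by positivity) (by positivity)]
  refine ENNReal.ofReal_le_ofReal ?_
  have h5 : K2 * (n + 1) / 2 ^ n ≤ K2 * (n + 1) / μ := by gcongr
  have h6 : K2 * ((n : ℝ) + 1) / μ ≤ K2 * (2 * (1 + Real.log μ)) / μ := by
    gcongr
    linarith
  have h7 : (n : ℝ) * (K1 * (1 + Real.log μ) ^ 2 / μ) ≤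
      (2 * (1 + Real.log μ)) * (K1 * (1 + Real.log μ) ^ 2 / μ) := by
    gcongr
    linarith
  have h8 : (1 + Real.log μ) ≤ (1 + Real.log μ) ^ 3 := by
    have : (1 : ℝ) ≤ 1 + Real.log μ := by linarith
    nlinarith [mul_self_nonneg (Real.log μ), mul_nonneg hlog0 hlog0,
      mul_nonneg hlog0 (mul_nonneg hlog0 hlog0)]
  calc (n : ℝ) * (K1 * (1 + Real.log μ) ^ 2 / μ) + 8 * (K2 * (n + 1) / 2 ^ n)
      ≤ (2 * (1 + Real.log μ)) * (K1 * (1 + Real.log μ) ^ 2 / μ) +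
        8 * (K2 * (2 * (1 + Real.log μ)) / μ) := by linarith
    _ = (2 * K1 * (1 + Real.log μ) ^ 3 + 16 * K2 * (1 + Real.log μ)) / μ := by ring
    _ ≤ (2 * K1 * (1 + Real.log μ) ^ 3 + 16 * K2 * (1 + Real.log μ) ^ 3) / μ := by gcongr
    _ ≤ (2 * K1 + 32 * K2) * (1 + Real.log μ) ^ 3 / μ := by
        gcongr
        have : 0 ≤ K2 * (1 + Real.log μ) ^ 3 := by positivity
        nlinarith

end Run7.h239.PP
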