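import Pool.Agent.Run7.h239.NonB
set_option autoImplicit false

/-!
The resonant part: for every point `x` the set of the times `t` at which `x` is resonant is small.
-/

namespace Run7.h239.PP

open MeasureTheory Set
open scoped ENNReal

/-- the Hessian of `P - t |x|²` -/
noncomputable def Ht (P : MvPolynomial (Fin 2) ℝ) (t : ℝ) (a : Fin 3) (y : ℝ × ℝ) : ℝ :=
  match a with
  | 0 => hes P 0 y - 2 * t
  | 1 => hes P 1 y
  | 2 => hes P 2 y - 2 * t

open MvPolynomial in
/-- the phase `P - ξ·x - t |x|²` -/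
noncomputable def phs (P : MvPolynomial (Fin 2) ℝ) (ξ : ℝ × ℝ) (t : ℝ) : MvPolynomial (Fin 2) ℝ :=
  P - C ξ.1 * X 0 - C ξ.2 * X 1 - C t * (X 0 * X 0 + X 1 * X 1)

theorem ev_phs (P : MvPolynomial (Fin 2) ℝ) (ξ : ℝ × ℝ) (t : ℝ) (x : ℝ × ℝ) :
    ev (phs P ξ t) x = ev P x - ξ.1 * x.1 - ξ.2 * x.2 - t * (x.1 * x.1 + x.2 * x.2) := by
  unfold phs
  simp only [ev_sub, ev_mul, ev_add, ev_C, ev_X0, ev_X1]

theorem phs_deg (P : MvPolynomial (Fin 2) ℝ) {D : ℕ} (hD : 2 ≤ D) (hP : P.totalDegree ≤ D)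
    (ξ : ℝ × ℝ) (t : ℝ) : (phs P ξ t).totalDegree ≤ D := by
  have hX : ∀ i : Fin 2, (MvPolynomial.X (R := ℝ) i).totalDegree = 1 := fun i =>
    MvPolynomial.totalDegree_X i
  have hC : ∀ a : ℝ, (MvPolynomial.C (σ := Fin 2) a).totalDegree = 0 := fun a =>
    MvPolynomial.totalDegree_C a
  have hXX : ∀ i : Fin 2, (MvPolynomial.X (R := ℝ) i * MvPolynomial.X i).totalDegree ≤ 2 := by
    intro i
    have := MvPolynomial.totalDegree_mul (MvPolynomial.X (R := ℝ) i) (MvPolynomial.X i)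
    rw [hX] at this
    exact this
  have h1 : ∀ (a : ℝ) (i : Fin 2), (MvPolynomial.C a * MvPolynomial.X (R := ℝ) i).totalDegree ≤ D := by
    intro a i
    have := MvPolynomial.totalDegree_mul (MvPolynomial.C a) (MvPolynomial.X (R := ℝ) i)
    rw [hX, hC] at this
    omega
  unfold phs
  refine (MvPolynomial.totalDegree_sub _ _).trans (max_le ?_ ?_)
  · refine (MvPolynomial.totalDegree_sub _ _).trans (max_le ?_ (h1 _ _))
    exact (MvPolynomial.totalDegree_sub _ _).trans (max_le hP (h1 _ _))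
  · refine (MvPolynomial.totalDegree_mul _ _).trans ?_
    rw [hC, zero_add]
    refine (MvPolynomial.totalDegree_add _ _).trans (max_le ?_ ?_)
    · exact (hXX 0).trans hD
    · exact (hXX 1).trans hD

theorem hes_phs (P : MvPolynomial (Fin 2) ℝ) (ξ : ℝ × ℝ) (t : ℝ) : hes (phs P ξ t) = Ht P t := by
  ext a y
  have h01 : MvPolynomial.pderiv (R := ℝ) (0 : Fin 2) (MvPolynomial.X 1) = 0 :=
    MvPolynomial.pderiv_X_of_ne (by decide)
  have h10 : MvPolynomial.pderiv (R := ℝ) (1 : Fin 2) (MvPolynomial.X 0) = 0 :=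
    MvPolynomial.pderiv_X_of_ne (by decide)
  have e1 : ev 1 y = 1 := by simp [ev]
  fin_cases a
  · simp only [hes, phs, Ht]
    simp only [map_sub, map_add, MvPolynomial.pderiv_mul, MvPolynomial.pderiv_C,
      MvPolynomial.pderiv_X_self, h01, h10, mul_zero, zero_mul, zero_add, add_zero, mul_one,
      one_mul, sub_zero, map_one, MvPolynomial.pderiv_one]
    simp only [ev_sub, ev_mul, ev_add, ev_C, ev_X0, ev_X1, e1]
    ring
  · simp only [hes, phs, Ht]
    simp only [map_sub, map_add, MvPolynomial.pderiv_mul, MvPolynomial.pderiv_C,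
      MvPolynomial.pderiv_X_self, h01, h10, mul_zero, zero_mul, zero_add, add_zero, mul_one,
      one_mul, sub_zero, map_one, MvPolynomial.pderiv_one]
  · simp only [hes, phs, Ht]
    simp only [map_sub, map_add, MvPolynomial.pderiv_mul, MvPolynomial.pderiv_C,
      MvPolynomial.pderiv_X_self, h01, h10, mul_zero, zero_mul, zero_add, add_zero, mul_one,
      one_mul, sub_zero, map_one, MvPolynomial.pderiv_one]
    simp only [ev_sub, ev_mul, ev_add, ev_C, ev_X0, ev_X1, e1]
    ring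

theorem Ht_cont (P : MvPolynomial (Fin 2) ℝ) (t : ℝ) (a : Fin 3) : Continuous (Ht P t a) := by
  rw [← hes_phs P 0 t]
  exact hes_cont _ a

theorem Ht_cont_t (P : MvPolynomial (Fin 2) ℝ) (a : Fin 3) (y : ℝ × ℝ) :
    Continuous fun t => Ht P t a y := by
  fin_cases a
  · simp only [Ht]; fun_prop
  · simp only [Ht]; fun_prop
  · simp only [Ht]; fun_prop

theorem dt_cont_t (P : MvPolynomial (Fin 2) ℝ) (y : ℝ × ℝ) : Continuous fun t => dt (Ht P t) y := by
  unfold dt
  have := Ht_cont_t P 0 y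
  have := Ht_cont_t P 1 y
  have := Ht_cont_t P 2 y
  fun_prop

theorem vol_abs (p c : ℝ) : volume {t : ℝ | |p - 2 * t| ≤ c} = ENNReal.ofReal c := by
  have : {t : ℝ | |p - 2 * t| ≤ c} = Icc ((p - c) / 2) ((p + c) / 2) := by
    ext t
    rw [mem_ofPred_eq, abs_le, mem_Icc, div_le_iff₀ (by norm_num), le_div_iff₀ (by norm_num)]
    constructor
    · rintro ⟨h1, h2⟩; constructor <;> linarith
    · rintro ⟨h1, h2⟩; constructor <;> linarith
  rw [this, Real.volume_Icc]
  congr 1
  ring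

/-- the measure of the set of the shifts for which the determinant is small and the matrix is not -/
theorem eig (p q r m s : ℝ) (hm : 0 < m) (hs : 0 ≤ s) :
    volume {t : ℝ | (m ≤ |p - 2 * t| ∨ m ≤ |q| ∨ m ≤ |r - 2 * t|) ∧
      |(p - 2 * t) * (r - 2 * t) - q ^ 2| ≤ s} ≤ ENNReal.ofReal (2 * s / m) := by
  set ρ : ℝ := Real.sqrt (((p - r) / 2) ^ 2 + q ^ 2) with hρ
  have hρ0 : 0 ≤ ρ := Real.sqrt_nonneg _
  have hρ2 : ρ ^ 2 = ((p - r) / 2) ^ 2 + q ^ 2 := Real.sq_sqrt (by positivity)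
  have hsub : {t : ℝ | (m ≤ |p - 2 * t| ∨ m ≤ |q| ∨ m ≤ |r - 2 * t|) ∧
      |(p - 2 * t) * (r - 2 * t) - q ^ 2| ≤ s} ⊆
      {t | |((p + r) / 2 - ρ) - 2 * t| ≤ s / m} ∪ {t | |((p + r) / 2 + ρ) - 2 * t| ≤ s / m} := by
    rintro t ⟨h1, h2⟩
    set σ : ℝ := (p + r) / 2 - 2 * t with hσ
    have e : (p - 2 * t) * (r - 2 * t) - q ^ 2 = (|σ| - ρ) * (|σ| + ρ) := by
      have : (|σ| - ρ) * (|σ| + ρ) = |σ| ^ 2 - ρ ^ 2 := by ring
      rw [this, sq_abs, hρ2, hσ]
      ring
    have hq : |q| ≤ ρ := by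
      rw [← Real.sqrt_sq_eq_abs]
      exact Real.sqrt_le_sqrt (by nlinarith [sq_nonneg ((p - r) / 2)])
    have hpr : |(p - r) / 2| ≤ ρ := by
      rw [← Real.sqrt_sq_eq_abs]
      exact Real.sqrt_le_sqrt (by nlinarith [sq_nonneg q])
    have hbig : m ≤ |σ| + ρ := by
      rcases h1 with h1 | h1 | h1
      · have : p - 2 * t = σ + (p - r) / 2 := by rw [hσ]; ring
        rw [this] at h1
        exact h1.trans ((abs_add_le _ _).trans (by linarith))
      · have := abs_nonneg σ
        linarith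
      · have : r - 2 * t = σ - (p - r) / 2 := by rw [hσ]; ring
        rw [this] at h1
        exact h1.trans ((abs_sub _ _).trans (by linarith))
    have hsmall : |(|σ| - ρ)| ≤ s / m := by
      rw [le_div_iff₀ hm]
      rw [e, abs_mul] at h2
      have h3 : |(|σ| + ρ)| = |σ| + ρ := abs_of_nonneg (by positivity)
      rw [h3] at h2
      exact (mul_le_mul_of_nonneg_left hbig (abs_nonneg _)).trans h2
    rcases le_total 0 σ with hσ0 | hσ0
    · left
      rw [abs_of_nonneg hσ0] at hsmall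
      have : (p + r) / 2 - ρ - 2 * t = σ - ρ := by rw [hσ]; ring
      rw [mem_ofPred_eq, this]
      exact hsmall
    · right
      rw [abs_of_nonpos hσ0] at hsmall
      have : (p + r) / 2 + ρ - 2 * t = -(-σ - ρ) := by rw [hσ]; ring
      rw [mem_ofPred_eq, this, abs_neg]
      exact hsmall
  refine (measure_mono hsub).trans ((measure_union_le _ _).trans ?_)
  rw [vol_abs, vol_abs, ← ENNReal.ofReal_add (by positivity) (by positivity)]
  refine ENNReal.ofReal_le_ofReal (le_of_eq ?_)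
  ring

/-- the times at which the square of generation `k + 1` of `x` is a resonant stopping square -/
def Tk (P : MvPolynomial (Fin 2) ℝ) (μ : ℝ) (x : ℝ × ℝ) (k : ℕ) : Set ℝ :=
  {t | good (Ht P t) (k + 1) (idx (k + 1) x) ∧ ¬ good (Ht P t) k (par (idx (k + 1) x)) ∧
    ∀ z ∈ cube (k + 1) (idx (k + 1) x), |dt (Ht P t) z| ≤ μ * 4 ^ (k + 1)}

theorem exists_good (P : MvPolynomial (Fin 2) ℝ) (t : ℝ) {x : ℝ × ℝ} (hx : x ∈ Sq) :
    ∃ k, good (Ht P t) k (idx k x) := by
  have hcomp : IsCompact (Icc (-1 : ℝ) 1 ×ˢ Icc (-1 : ℝ) 1) := isCompact_Icc.prod isCompact_Icc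
  have hB : ∀ a, ∃ B : ℝ, ∀ y ∈ Sq, |Ht P t a y| ≤ B := by
    intro a
    obtain ⟨B, hB⟩ := hcomp.bddAbove_image (f := fun y => |Ht P t a y|) (Ht_cont P t a).abs.continuousOn
    exact ⟨B, fun y hy => hB ⟨y, prod_mono Ico_subset_Icc_self Ico_subset_Icc_self hy, rfl⟩⟩
  choose B hB using hB
  obtain ⟨k, hk⟩ := pow_unbounded_of_one_lt (|B 0| + |B 1| + |B 2|) (by norm_num : (1 : ℝ) < 4)
  refine ⟨k, ?_⟩
  intro y hy a
  have h1 := hB a y (sub_Sq hx hy)
  have h2 : B a ≤ |B 0| + |B 1| + |B 2| := by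
    have n0 := abs_nonneg (B 0)
    have n1 := abs_nonneg (B 1)
    have n2 := abs_nonneg (B 2)
    have := le_abs_self (B a)
    fin_cases a
    · simp only [Fin.zero_eta] at *; linarith
    · simp only [Fin.mk_one] at *; linarith
    · simp only [Fin.reduceFinMk] at *; linarith
  linarith

/-- the resonant times are covered by the sets `Tk` -/
theorem cover_Tk (P : MvPolynomial (Fin 2) ℝ) (μ : ℝ) {x : ℝ × ℝ} (hx : x ∈ Sq) {t : ℝ}
    (ht : x ∉ NR (Ht P t) μ) : |hes P 0 x - 2 * t| ≤ 1 ∨ ∃ k, t ∈ Tk P μ x k := by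
  classical
  have hex := exists_good P t hx
  rcases hk : Nat.find hex with _ | k
  · left
    have h := Nat.find_spec hex
    rw [hk] at h
    have := h x rfl 0
    simpa [Ht] using this
  · right
    have h := Nat.find_spec hex
    rw [hk] at h
    have h2 : ¬ good (Ht P t) k (idx k x) := Nat.find_min hex (by omega)
    refine ⟨k, h, ?_, ?_⟩
    · rw [← idx_par]
      exact h2
    · intro z hz
      by_contra hcon
      push Not at hcon
      apply ht
      refine mem_iUnion.2 ⟨k, hx, h, ?_, z, hz, hcon⟩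
      rw [← idx_par]
      exact h2

theorem Ht_slice (P : MvPolynomial (Fin 2) ℝ) {D : ℕ} (hD : 2 ≤ D) (hP : P.totalDegree ≤ D) (t : ℝ)
    (a : Fin 3) : SlicePoly D (Ht P t a) := by
  rw [← hes_phs P 0 t]
  exact hes_slice _ (phs_deg P hD hP 0 t) a

/-- **The resonant times of a point.** -/
theorem res_times (D : ℕ) (hD : 2 ≤ D) : ∃ C : ℝ, 1 ≤ C ∧ ∀ P : MvPolynomial (Fin 2) ℝ,
    P.totalDegree ≤ D → ∀ μ : ℝ, 1 ≤ μ → ∀ x ∈ Sq,
    volume {t | x ∉ NR (Ht P t) μ} ≤ ENNReal.ofReal (C * μ) := by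
  classical
  obtain ⟨G, hG1, hG⟩ := grid D
  have hG0 : 0 < G := by linarith
  obtain ⟨M, hM⟩ := pow_unbounded_of_one_lt (16 * G) (by norm_num : (1 : ℝ) < 4)
  refine ⟨64 * G ^ 2 + M * ((D + 1) ^ 2 * (8 * G)), ?_, ?_⟩
  · have : (0 : ℝ) ≤ M * ((D + 1) ^ 2 * (8 * G)) := by positivity
    nlinarith
  intro P hP μ hμ x hx
  have hμ0 : 0 < μ := by linarith
  -- a grid point of the square where the Hessian is large
  have hgrid : ∀ k, ∀ t ∈ Tk P μ x k, ∃ j ∈ Finset.range (D + 1), ∃ l ∈ Finset.range (D + 1), ∃ a,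
      4 ^ k / G ≤ |Ht P t a (gp D (k + 1) (idx (k + 1) x) j l)| := by
    rintro k t ⟨-, h2, -⟩
    unfold good at h2
    push Not at h2
    obtain ⟨z, hz, a, hza⟩ := h2
    obtain ⟨j, hj, l, hl, h⟩ := hG (Ht P t a) (Ht_slice P hD hP t a) (k + 1) (idx (k + 1) x) z
      (near_par hz).1 (near_par hz).2
    refine ⟨j, hj, l, hl, a, ?_⟩
    rw [div_le_iff₀ hG0]
    linarith
  -- the measure of one of the sets
  have hTk : ∀ k, volume (Tk P μ x k) ≤ ENNReal.ofReal (((D : ℝ) + 1) ^ 2 * (8 * G) * μ) := by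
    intro k
    set Y : ℕ × ℕ → ℝ × ℝ := fun q => gp D (k + 1) (idx (k + 1) x) q.1 q.2 with hY
    have hsub : Tk P μ x k ⊆ ⋃ q ∈ Finset.range (D + 1) ×ˢ Finset.range (D + 1),
        {t : ℝ | (4 ^ k / G ≤ |hes P 0 (Y q) - 2 * t| ∨ 4 ^ k / G ≤ |hes P 1 (Y q)| ∨
          4 ^ k / G ≤ |hes P 2 (Y q) - 2 * t|) ∧
          |(hes P 0 (Y q) - 2 * t) * (hes P 2 (Y q) - 2 * t) - hes P 1 (Y q) ^ 2| ≤
            μ * 4 ^ (k + 1)} := by
      intro t ht
      obtain ⟨j, hj, l, hl, a, ha⟩ := hgrid k t ht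
      refine mem_iUnion₂.2 ⟨(j, l), Finset.mem_product.2 ⟨hj, hl⟩, ?_, ?_⟩
      · fin_cases a
        · exact Or.inl ha
        · exact Or.inr (Or.inl ha)
        · exact Or.inr (Or.inr ha)
      · exact ht.2.2 _ (gp_mem hj hl)
    refine (measure_mono hsub).trans ((measure_biUnion_finset_le _ _).trans ?_)
    calc _ ≤ ∑ q ∈ Finset.range (D + 1) ×ˢ Finset.range (D + 1),
          ENNReal.ofReal (2 * (μ * 4 ^ (k + 1)) / (4 ^ k / G)) :=
          Finset.sum_le_sum fun q _ => eig _ _ _ _ _ (by positivity) (by positivity)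
      _ = ENNReal.ofReal (((D : ℝ) + 1) ^ 2 * (8 * G) * μ) := by
          rw [Finset.sum_const, Finset.card_product, Finset.card_range, nsmul_eq_mul,
            ← ENNReal.ofReal_natCast, ← ENNReal.ofReal_mul (by positivity)]
          congr 1
          push_cast
          rw [pow_succ]
          field_simp
          ring
  -- the large generations
  set A : ℝ := 16 * G ^ 2 * μ with hA
  have hA1 : 1 ≤ A := by
    have : 1 ≤ G ^ 2 := one_le_pow₀ hG1
    nlinarith
  have hlow : ∀ k, A < 4 ^ k → (Tk P μ x k).Nonempty → ∃ y ∈ cube (k + 1) (idx (k + 1) x),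
      4 ^ k / (2 * G) ≤ |hes P 0 y - hes P 2 y| ∨ 4 ^ k / (2 * G) ≤ |hes P 1 y| := by
    rintro k hk ⟨t, ht⟩
    obtain ⟨j, hj, l, hl, a, ha⟩ := hgrid k t ht
    set y := gp D (k + 1) (idx (k + 1) x) j l with hy
    have hyc : y ∈ cube (k + 1) (idx (k + 1) x) := gp_mem hj hl
    refine ⟨y, hyc, ?_⟩
    by_contra hcon
    push Not at hcon
    obtain ⟨c1, c2⟩ := hcon
    have hdt := ht.2.2 y hyc
    set h : ℝ := 4 ^ k / (2 * G) with hh
    have hh0 : 0 < h := by positivity
    have e2 : (4 : ℝ) ^ k / G = 2 * h := by rw [hh]; field_simp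
    have e3 : (4 : ℝ) ^ k = 2 * G * h := by rw [hh]; field_simp
    rw [e2] at ha
    have hkey : ∀ u v : ℝ, 2 * h ≤ |u| → |u - v| < h → h ^ 2 ≤ |u * v - hes P 1 y ^ 2| := by
      intro u v h1 h2
      have h3 : h ≤ |v| := by
        have : |u| ≤ |u - v| + |v| := by
          have := abs_add_le (u - v) v
          simpa using this
        linarith
      have h4 : 2 * h ^ 2 ≤ |u * v| := by
        rw [abs_mul]
        nlinarith [abs_nonneg u, abs_nonneg v]
      have h5 : hes P 1 y ^ 2 ≤ h ^ 2 := by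
        rw [← sq_abs]
        nlinarith [abs_nonneg (hes P 1 y)]
      have h6 : |u * v| ≤ |u * v - hes P 1 y ^ 2| + |hes P 1 y ^ 2| := by
        have := abs_add_le (u * v - hes P 1 y ^ 2) (hes P 1 y ^ 2)
        simpa using this
      rw [abs_of_nonneg (sq_nonneg (hes P 1 y))] at h6
      linarith
    have hbig : h ^ 2 ≤ μ * 4 ^ (k + 1) := by
      refine le_trans ?_ hdt
      fin_cases a
      · refine hkey (hes P 0 y - 2 * t) (hes P 2 y - 2 * t) ha ?_
        have : hes P 0 y - 2 * t - (hes P 2 y - 2 * t) = hes P 0 y - hes P 2 y := by ring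
        rw [this]; exact c1
      · exfalso
        have : 2 * h ≤ |hes P 1 y| := ha
        linarith
      · have h7 := hkey (hes P 2 y - 2 * t) (hes P 0 y - 2 * t) ha (by
          have : hes P 2 y - 2 * t - (hes P 0 y - 2 * t) = -(hes P 0 y - hes P 2 y) := by ring
          rw [this, abs_neg]; exact c1)
        rw [mul_comm] at h7
        exact h7
    have h8 : μ * 4 ^ (k + 1) = 8 * G * μ * h := by rw [pow_succ, e3]; ring
    rw [h8, pow_two] at hbig
    have h9 : h ≤ 8 * G * μ := le_of_mul_le_mul_right hbig hh0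
    have h10 : (4 : ℝ) ^ k ≤ A := by
      rw [e3, hA]
      nlinarith
    linarith
  have hup : ∀ k, (Tk P μ x k).Nonempty → ∀ y ∈ cube (k + 1) (idx (k + 1) x),
      |hes P 0 y - hes P 2 y| ≤ 8 * 4 ^ k ∧ |hes P 1 y| ≤ 8 * 4 ^ k := by
    rintro k ⟨t, ht⟩ y hy
    have a0 := ht.1 y hy 0
    have a1 := ht.1 y hy 1
    have a2 := ht.1 y hy 2
    simp only [Ht] at a0 a1 a2
    have e : (4 : ℝ) ^ (k + 1) = 4 * 4 ^ k := by ring
    have h4 : (0 : ℝ) < 4 ^ k := by positivity
    rw [e] at a0 a1 a2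
    constructor
    · have : hes P 0 y - hes P 2 y = (hes P 0 y - 2 * t) - (hes P 2 y - 2 * t) := by ring
      rw [this]
      exact (abs_sub _ _).trans (by linarith)
    · linarith
  have hgap : ∀ k l, k < l → A < 4 ^ k → (Tk P μ x k).Nonempty → (Tk P μ x l).Nonempty → l < k + M := by
    intro k l hkl hk hnk hnl
    have hl : A < 4 ^ l := hk.trans_le (pow_le_pow_right₀ (by norm_num) hkl.le)
    obtain ⟨y, hy, hyy⟩ := hlow l hl hnl
    have hyk : y ∈ cube (k + 1) (idx (k + 1) x) := by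
      have : ∀ n, idx (k + 1 + n) y = idx (k + 1 + n) x → idx (k + 1) y = idx (k + 1) x := by
        intro n
        induction n with
        | zero => exact id
        | succ n ih =>
          intro h
          apply ih
          rw [idx_par, idx_par (k + 1 + n) x]
          exact congrArg par h
      have h2 : idx (k + 1 + (l - k)) y = idx (k + 1 + (l - k)) x := by
        have : k + 1 + (l - k) = l + 1 := by omega
        rw [this]
        exact hy
      exact this (l - k) h2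
    obtain ⟨u1, u2⟩ := hup k hnk y hyk
    have h3 : (4 : ℝ) ^ l / (2 * G) ≤ 8 * 4 ^ k := by
      rcases hyy with h | h
      · exact h.trans u1
      · exact h.trans u2
    rw [div_le_iff₀ (by positivity)] at h3
    by_contra hcon
    push Not at hcon
    have h4 : (4 : ℝ) ^ (k + M) ≤ 4 ^ l := pow_le_pow_right₀ (by norm_num) hcon
    rw [pow_add] at h4
    have h5 : (0 : ℝ) < 4 ^ k := by positivity
    nlinarith
  -- the covering
  have hcov : ∃ k₁ : ℕ, {t | x ∉ NR (Ht P t) μ} ⊆ {t : ℝ | |hes P 0 x - 2 * t| ≤ 4 * A} ∪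
      ⋃ k ∈ Finset.Ico k₁ (k₁ + M), Tk P μ x k := by
    have hsmall : ∀ k, 4 ^ k ≤ A → ∀ t ∈ Tk P μ x k, |hes P 0 x - 2 * t| ≤ 4 * A := by
      intro k hk t ht
      have a0 := ht.1 x rfl 0
      simp only [Ht] at a0
      rw [pow_succ] at a0
      linarith
    by_cases hne : ∃ k, A < 4 ^ k ∧ (Tk P μ x k).Nonempty
    · refine ⟨Nat.find hne, ?_⟩
      obtain ⟨f1, f2⟩ := Nat.find_spec hne
      intro t ht
      rcases cover_Tk P μ hx ht with h | ⟨k, hk⟩
      · left
        rw [mem_ofPred_eq]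
        linarith
      · rcases le_or_gt (4 ^ k) A with h4 | h4
        · left
          exact hsmall k h4 t hk
        · right
          have h5 : Nat.find hne ≤ k := Nat.find_min' hne ⟨h4, t, hk⟩
          refine mem_iUnion₂.2 ⟨k, Finset.mem_Ico.2 ⟨h5, ?_⟩, hk⟩
          rcases h5.eq_or_lt with h6 | h6
          · rw [h6]
            have : M ≠ 0 := by
              rintro rfl
              rw [pow_zero] at hM
              linarith
            omega
          · exact hgap _ _ h6 f1 f2 ⟨t, hk⟩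
    · refine ⟨0, ?_⟩
      push Not at hne
      intro t ht
      left
      rcases cover_Tk P μ hx ht with h | ⟨k, hk⟩
      · rw [mem_ofPred_eq]
        linarith
      · rcases le_or_gt (4 ^ k) A with h4 | h4
        · exact hsmall k h4 t hk
        · exfalso
          have := hne k h4
          rw [this] at hk
          exact hk
  obtain ⟨k₁, hcov⟩ := hcov
  refine (measure_mono hcov).trans ((measure_union_le _ _).trans ?_)
  rw [vol_abs]
  refine (add_le_add le_rfl (measure_biUnion_finset_le _ _)).trans ?_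
  refine (add_le_add le_rfl (Finset.sum_le_sum fun k _ => hTk k)).trans ?_
  rw [Finset.sum_const, Nat.card_Ico, nsmul_eq_mul, ← ENNReal.ofReal_natCast,
    ← ENNReal.ofReal_mul (by positivity), ← ENNReal.ofReal_add (by positivity) (by positivity)]
  refine ENNReal.ofReal_le_ofReal (le_of_eq ?_)
  have : ((k₁ + M - k₁ : ℕ) : ℝ) = M := by
    congr 1
    omega
  rw [this, hA]
  ring

end Run7.h239.PP
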