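import Pool.Agent.Run7.h239.NonC
import Pool.Agent.Run7.h239.Res
import Pool.Agent.Run7.h239.Level
set_option autoImplicit false

/-!
Rectangles with polynomial phases are tame.
-/

namespace Run7.h239.PP

open MeasureTheory Set Complex
open scoped ENNReal

theorem measurableSet_good (P : MvPolynomial (Fin 2) ℝ) (k : ℕ) (i : ℤ × ℤ) :
    MeasurableSet {t | good (Ht P t) k i} := by
  have : {t | good (Ht P t) k i} = ⋂ y ∈ cube k i, ⋂ a, {t | |Ht P t a y| ≤ 4 ^ k} := by
    ext t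
    simp [good]
  rw [this]
  exact (isClosed_biInter fun y _ => isClosed_iInter fun a =>
    isClosed_le (Ht_cont_t P a y).abs continuous_const).measurableSet

theorem measurableSet_nr (P : MvPolynomial (Fin 2) ℝ) (μ : ℝ) (k : ℕ) (i : ℤ × ℤ) :
    MeasurableSet {t | i ∈ nr (Ht P t) μ k} := by
  have h3 : MeasurableSet {t | ∃ z ∈ cube (k + 1) i, μ * 4 ^ (k + 1) < |dt (Ht P t) z|} := by
    have : {t | ∃ z ∈ cube (k + 1) i, μ * 4 ^ (k + 1) < |dt (Ht P t) z|} =
        ⋃ z ∈ cube (k + 1) i, {t | μ * 4 ^ (k + 1) < |dt (Ht P t) z|} := by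
      ext t
      simp
    rw [this]
    exact (isOpen_biUnion fun z _ => isOpen_lt continuous_const (dt_cont_t P z).abs).measurableSet
  exact (measurableSet_good P (k + 1) i).inter ((measurableSet_good P k (par i)).compl.inter h3)

theorem measurableSet_NRt (P : MvPolynomial (Fin 2) ℝ) (μ : ℝ) :
    MeasurableSet {p : ℝ × (ℝ × ℝ) | p.2 ∈ NR (Ht P p.1) μ} := by
  have : {p : ℝ × (ℝ × ℝ) | p.2 ∈ NR (Ht P p.1) μ} = ⋃ (k : ℕ) (i : ℤ × ℤ),
      {t | i ∈ nr (Ht P t) μ k} ×ˢ (Sq ∩ cube (k + 1) i) := by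
    ext ⟨t, x⟩
    simp only [mem_ofPred_eq, mem_iUnion, mem_prod, mem_inter_iff, NR, NRk]
    constructor
    · rintro ⟨k, h1, h2⟩
      exact ⟨k, idx (k + 1) x, h2, h1, rfl⟩
    · rintro ⟨k, i, h1, h2, h3⟩
      refine ⟨k, h2, ?_⟩
      have : idx (k + 1) x = i := h3
      rw [this]
      exact h1
  rw [this]
  exact MeasurableSet.iUnion fun k => MeasurableSet.iUnion fun i =>
    (measurableSet_nr P μ k i).prod (measurableSet_Sq.inter (measurableSet_cube _ _))

/-- **Rectangles with polynomial phases are tame.** -/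
theorem tame_rect (D : ℕ) (hD : 2 ≤ D) : ∃ K : ℝ, 1 ≤ K ∧ ∀ P : MvPolynomial (Fin 2) ℝ,
    P.totalDegree ≤ D → ∀ am : ℝ × ℝ → ℂ, IsAmp am → ∀ S T : Set ℝ, S.OrdConnected →
    T.OrdConnected → S ×ˢ T ⊆ Sq →
    Tame K (S ×ˢ T) (fun x => am x * cexp (I * (ev P x : ℂ))) := by
  obtain ⟨C1, hC1, h1⟩ := nonres D (by omega)
  obtain ⟨C2, hC2, h2⟩ := res_times D hD
  refine ⟨max C1 C2, le_max_of_le_left hC1, ?_⟩
  intro P hP am ham S T hS hT hsub
  have hRm : MeasurableSet (S ×ˢ T) := hS.measurableSet.prod hT.measurableSet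
  have hec := ev_cont P
  have hac := ham.cont
  refine ⟨hRm, ⟨Continuous.measurable (by fun_prop), fun x => ?_⟩, ?_⟩
  · rw [norm_mul, mul_comm I, norm_exp_ofReal_mul_I, mul_one]
    exact ham.bound x
  intro μ hμ
  have hμ0 : 0 < μ := by linarith
  have hlog0 : 0 ≤ Real.log μ := Real.log_nonneg hμ
  set X : Set (ℝ × (ℝ × ℝ)) := {p | p.2 ∈ NR (Ht P p.1) μ}ᶜ with hX
  have hXm : MeasurableSet X := (measurableSet_NRt P μ).compl
  refine ⟨X, hXm, ?_, ?_⟩
  · intro t ξ
    have e1 : (S ×ˢ T) \ {x | (t, x) ∈ X} = (S ×ˢ T) ∩ NR (hes (phs P ξ t)) μ := by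
      rw [hes_phs]
      ext x
      simp [hX]
    have e2 : ∀ x, am x * cexp (I * (ev P x : ℂ)) * ker t ξ x =
        am x * cexp (I * (ev (phs P ξ t) x : ℂ)) := by
      intro x
      rw [mul_assoc]
      congr 1
      unfold ker
      rw [ev_phs, ← Complex.exp_add]
      congr 1
      push_cast
      ring
    rw [e1]
    simp_rw [e2]
    have h3 := h1 (phs P ξ t) (phs_deg P hD hP ξ t) am ham μ hμ S T hS hT
    rw [← ofReal_norm, ENNReal.ofReal_le_ofReal_iff (by positivity)] at h3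
    refine h3.trans ?_
    gcongr
    exact le_max_left _ _
  · have hm : MeasurableSet (X ∩ (univ ×ˢ (S ×ˢ T))) := hXm.inter (MeasurableSet.univ.prod hRm)
    have e1 : ∀ t, volume ((S ×ˢ T) ∩ {x | (t, x) ∈ X}) =
        volume (Prod.mk t ⁻¹' (X ∩ (univ ×ˢ (S ×ˢ T)))) := by
      intro t
      congr 1
      ext x
      simp only [mem_inter_iff, mem_ofPred_eq, mem_preimage, mem_prod, mem_univ, true_and]
      tauto
    have e2 : ∫⁻ t, volume ((S ×ˢ T) ∩ {x | (t, x) ∈ X}) =
        ∫⁻ x, volume ((fun t => (t, x)) ⁻¹' (X ∩ (univ ×ˢ (S ×ˢ T)))) := by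
      simp_rw [e1]
      rw [← Measure.prod_apply hm, Measure.prod_apply_symm hm]
    rw [e2]
    have e3 : ∀ x, volume ((fun t => (t, x)) ⁻¹' (X ∩ (univ ×ˢ (S ×ˢ T)))) ≤
        (S ×ˢ T).indicator (fun _ => ENNReal.ofReal (max C1 C2 * μ)) x := by
      intro x
      by_cases hx : x ∈ S ×ˢ T
      · rw [indicator_of_mem hx]
        have h3 := h2 P hP μ hμ x (hsub hx)
        refine (measure_mono ?_).trans (h3.trans (ENNReal.ofReal_le_ofReal ?_))
        · intro t ht
          exact ht.1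
        · gcongr
          exact le_max_right _ _
      · rw [indicator_of_notMem hx]
        have : (fun t => (t, x)) ⁻¹' (X ∩ (univ ×ˢ (S ×ˢ T))) = ∅ := by
          ext t
          simp only [mem_preimage, mem_inter_iff, mem_empty_iff_false, iff_false]
          rintro ⟨_, _, h⟩
          exact hx h
        rw [this]
        simp
    refine (lintegral_mono e3).trans ?_
    rw [lintegral_indicator_const hRm]

end Run7.h239.PP
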