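import Pool.Agent.Run7.h239.Tm
import Pool.Agent.Run7.h239.LqB
set_option autoImplicit false

/-!
Rotations, amplitudes on the Euclidean plane, and the extension operator on `EuclideanSpace`.
-/

namespace Run7.h239.PP

open MeasureTheory Set Complex Metric
open scoped ENNReal NNReal RealInnerProductSpace

abbrev E (n : ℕ) := EuclideanSpace ℝ (Fin n)

/-- the coordinates in an orthonormal frame -/
noncomputable def fr (e : OrthonormalBasis (Fin 2) ℝ (E 2)) : E 2 ≃ᵐ ℝ × ℝ :=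
  e.repr.toHomeomorph.toMeasurableEquiv.trans toP

theorem fr_apply (e : OrthonormalBasis (Fin 2) ℝ (E 2)) (x : E 2) : fr e x = (⟪e 0, x⟫, ⟪e 1, x⟫) := by
  rw [← e.repr_apply_apply, ← e.repr_apply_apply]
  rfl

theorem fr_mp (e : OrthonormalBasis (Fin 2) ℝ (E 2)) : MeasurePreserving (fr e) :=
  toP_mp.comp e.measurePreserving_repr

/-- the change of coordinates as a map of `ℝ × ℝ` -/
noncomputable def rho (e : OrthonormalBasis (Fin 2) ℝ (E 2)) : ℝ × ℝ ≃ᵐ ℝ × ℝ := toP.symm.trans (fr e)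

theorem rho_mp (e : OrthonormalBasis (Fin 2) ℝ (E 2)) : MeasurePreserving (rho e) :=
  (fr_mp e).comp (toP_mp.symm toP)

theorem rho_apply (e : OrthonormalBasis (Fin 2) ℝ (E 2)) (x : ℝ × ℝ) :
    rho e x = (⟪e 0, toP.symm x⟫, ⟪e 1, toP.symm x⟫) := fr_apply e _

theorem inner2 (x y : E 2) : ⟪x, y⟫ = x 0 * y 0 + x 1 * y 1 := by
  rw [PiLp.inner_apply, Fin.sum_univ_two]
  simp [mul_comm]

theorem toP_symm0 (x : ℝ × ℝ) : (toP.symm x) 0 = x.1 := by
  have := toP_apply (toP.symm x)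
  rw [MeasurableEquiv.apply_symm_apply] at this
  exact (congrArg Prod.fst this).symm

theorem toP_symm1 (x : ℝ × ℝ) : (toP.symm x) 1 = x.2 := by
  have := toP_apply (toP.symm x)
  rw [MeasurableEquiv.apply_symm_apply] at this
  exact (congrArg Prod.snd this).symm

theorem rho_inner (e : OrthonormalBasis (Fin 2) ℝ (E 2)) (x y : ℝ × ℝ) :
    (rho e x).1 * (rho e y).1 + (rho e x).2 * (rho e y).2 = x.1 * y.1 + x.2 * y.2 := by
  have h1 : ⟪e.repr (toP.symm x), e.repr (toP.symm y)⟫ = ⟪toP.symm x, toP.symm y⟫ :=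
    e.repr.inner_map_map _ _
  rw [inner2, inner2, toP_symm0, toP_symm1, toP_symm0, toP_symm1] at h1
  exact h1

theorem ker_rho (e : OrthonormalBasis (Fin 2) ℝ (E 2)) (t : ℝ) (ξ x : ℝ × ℝ) :
    ker t (rho e ξ) (rho e x) = ker t ξ x := by
  unfold ker
  rw [rho_inner e x ξ, rho_inner e x x]

/-- tameness is invariant under rotations and reflections -/
theorem tame_rot (e : OrthonormalBasis (Fin 2) ℝ (E 2)) {K : ℝ} {R : Set (ℝ × ℝ)}
    {h : ℝ × ℝ → ℂ} (hT : Tame K R h) : Tame K (rho e ⁻¹' R) (fun x => h (rho e x)) := by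
  obtain ⟨hR, ⟨hm, hb⟩, hX⟩ := hT
  refine ⟨(rho e).measurable hR, ⟨hm.comp (rho e).measurable, fun x => hb _⟩, ?_⟩
  intro μ hμ
  obtain ⟨X, hXm, h1, h2⟩ := hX μ hμ
  have hemb : MeasurableEmbedding (rho e) := (rho e).measurableEmbedding
  refine ⟨(fun p : ℝ × (ℝ × ℝ) => (p.1, rho e p.2)) ⁻¹' X, ?_, ?_, ?_⟩
  · exact (measurable_fst.prodMk ((rho e).measurable.comp measurable_snd)) hXm
  · intro t ξ
    have e1 : (rho e ⁻¹' R) \ {x | (t, x) ∈ (fun p : ℝ × (ℝ × ℝ) => (p.1, rho e p.2)) ⁻¹' X} =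
        rho e ⁻¹' (R \ {x | (t, x) ∈ X}) := rfl
    have e2 : ∀ x, h (rho e x) * ker t ξ x = h (rho e x) * ker t (rho e ξ) (rho e x) := by
      intro x
      rw [ker_rho]
    rw [e1]
    simp_rw [e2]
    rw [(rho_mp e).setIntegral_preimage_emb hemb (fun y => h y * ker t (rho e ξ) y)]
    exact h1 t _
  · have e1 : ∀ t, volume ((rho e ⁻¹' R) ∩ {x | (t, x) ∈ (fun p : ℝ × (ℝ × ℝ) => (p.1, rho e p.2)) ⁻¹' X}) =
        volume (R ∩ {x | (t, x) ∈ X}) := by
      intro t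
      have : (rho e ⁻¹' R) ∩ {x | (t, x) ∈ (fun p : ℝ × (ℝ × ℝ) => (p.1, rho e p.2)) ⁻¹' X} =
        rho e ⁻¹' (R ∩ {x | (t, x) ∈ X}) := rfl
      rw [this]
      exact (rho_mp e).measure_preimage_emb hemb _
    simp_rw [e1]
    rw [(rho_mp e).measure_preimage_emb hemb]
    exact h2

open MvPolynomial in
/-- linear substitution -/
noncomputable def sbs (e : OrthonormalBasis (Fin 2) ℝ (E 2)) (P : MvPolynomial (Fin 2) ℝ) :
    MvPolynomial (Fin 2) ℝ :=
  aeval (fun i : Fin 2 => C (e 0 i) * X 0 + C (e 1 i) * X 1) P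

open MvPolynomial in
theorem ev_sbs' (e : OrthonormalBasis (Fin 2) ℝ (E 2)) (P : MvPolynomial (Fin 2) ℝ) (y : ℝ × ℝ) :
    ev (sbs e P) y = eval (fun i => e 0 i * y.1 + e 1 i * y.2) P := by
  unfold sbs ev
  induction P using MvPolynomial.induction_on with
  | C a => simp
  | add P Q hP hQ => simp only [map_add, hP, hQ]
  | mul_X P i hP =>
    simp only [map_mul, hP, aeval_X, eval_X, map_add, eval_C]
    simp

theorem expand (e : OrthonormalBasis (Fin 2) ℝ (E 2)) (x : E 2) :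
    ⟪e 0, x⟫ • e 0 + ⟪e 1, x⟫ • e 1 = x := by
  have := e.sum_repr x
  rw [Fin.sum_univ_two, e.repr_apply_apply, e.repr_apply_apply] at this
  exact this

theorem ev_sbs (e : OrthonormalBasis (Fin 2) ℝ (E 2)) (P : MvPolynomial (Fin 2) ℝ) (x : ℝ × ℝ) :
    ev (sbs e P) (rho e x) = ev P x := by
  rw [ev_sbs', rho_apply]
  unfold ev
  have hfun : (fun i : Fin 2 => e 0 i * (⟪e 0, toP.symm x⟫, ⟪e 1, toP.symm x⟫).1 +
      e 1 i * (⟪e 0, toP.symm x⟫, ⟪e 1, toP.symm x⟫).2) = ![x.1, x.2] := by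
    funext i
    have h := congrArg (fun v : E 2 => v i) (expand e (toP.symm x))
    simp only [PiLp.add_apply, PiLp.smul_apply, smul_eq_mul] at h
    have h2 : (toP.symm x) i = ![x.1, x.2] i := by
      obtain rfl | rfl : i = 0 ∨ i = 1 := by fin_cases i <;> simp
      · rw [toP_symm0]; rfl
      · rw [toP_symm1]; rfl
    rw [← h2, ← h]
    ring
  rw [hfun]

open MvPolynomial in
theorem sbs_deg (e : OrthonormalBasis (Fin 2) ℝ (E 2)) (P : MvPolynomial (Fin 2) ℝ) :
    (sbs e P).totalDegree ≤ P.totalDegree := by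
  have hX : ∀ i : Fin 2, (C (e 0 i) * X 0 + C (e 1 i) * X 1 : MvPolynomial (Fin 2) ℝ).totalDegree ≤ 1 := by
    intro i
    refine (totalDegree_add _ _).trans (max_le ?_ ?_)
    · refine (totalDegree_mul _ _).trans ?_
      rw [totalDegree_C, totalDegree_X]
    · refine (totalDegree_mul _ _).trans ?_
      rw [totalDegree_C, totalDegree_X]
  unfold sbs
  rw [aeval_def, eval₂_eq']
  refine totalDegree_finsetSum_le fun m hm => ?_
  refine (totalDegree_mul _ _).trans ?_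
  rw [MvPolynomial.algebraMap_eq, totalDegree_C, zero_add, Fin.prod_univ_two]
  refine (totalDegree_mul _ _).trans ?_
  have h1 := (totalDegree_pow (C (e 0 0) * X 0 + C (e 1 0) * X 1 : MvPolynomial (Fin 2) ℝ) (m 0)).trans
    (Nat.mul_le_mul_left _ (hX 0))
  have h2 := (totalDegree_pow (C (e 0 1) * X 0 + C (e 1 1) * X 1 : MvPolynomial (Fin 2) ℝ) (m 1)).trans
    (Nat.mul_le_mul_left _ (hX 1))
  have h3 : m 0 + m 1 = m.sum fun _ e => e := by
    rw [Finsupp.sum_fintype _ _ (fun _ => rfl), Fin.sum_univ_two]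
  have h4 := le_totalDegree hm
  omega

/-- the point with given coordinates in the frame -/
noncomputable def al (e : OrthonormalBasis (Fin 2) ℝ (E 2)) (y : ℝ × ℝ) : E 2 := y.1 • e 0 + y.2 • e 1

theorem fr_al (e : OrthonormalBasis (Fin 2) ℝ (E 2)) (y : ℝ × ℝ) : fr e (al e y) = y := by
  rw [fr_apply, al]
  have h00 : ⟪e 0, e 0⟫ = 1 := by simp
  have h11 : ⟪e 1, e 1⟫ = 1 := by simp
  have h01 : ⟪e 0, e 1⟫ = 0 := e.orthonormal.2 (by decide)
  have h10 : ⟪e 1, e 0⟫ = 0 := e.orthonormal.2 (by decide)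
  simp [inner_add_right, inner_smul_right, h01, h10]

theorem al_fr (e : OrthonormalBasis (Fin 2) ℝ (E 2)) (x : E 2) : al e (fr e x) = x := by
  rw [fr_apply, al]
  exact expand e x

theorem al_rho (e : OrthonormalBasis (Fin 2) ℝ (E 2)) (x : ℝ × ℝ) : al e (rho e x) = toP.symm x :=
  al_fr e _

/-- amplitudes: twice continuously differentiable functions, all derivatives bounded by `1` -/
def IsAmplitude (a : E 2 → ℂ) : Prop :=
  ContDiff ℝ 2 a ∧ ∀ x, ‖a x‖ ≤ 1 ∧ ‖fderiv ℝ a x‖ ≤ 1 ∧ ‖fderiv ℝ (fderiv ℝ a) x‖ ≤ 1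

theorem amp_frame (e : OrthonormalBasis (Fin 2) ℝ (E 2)) {a : E 2 → ℂ} (ha : IsAmplitude a) :
    IsAmp (fun y => a (al e y)) := by
  obtain ⟨hc, hb⟩ := ha
  have hc1 : ContDiff ℝ 1 (fderiv ℝ a) := hc.fderiv_right (by norm_num)
  have hda : ∀ x, HasFDerivAt a (fderiv ℝ a x) x := fun x =>
    (hc.differentiable (by norm_num) x).hasFDerivAt
  have hdda : ∀ x, HasFDerivAt (fderiv ℝ a) (fderiv ℝ (fderiv ℝ a) x) x := fun x =>
    (hc1.differentiable (by norm_num) x).hasFDerivAt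
  have hal : Continuous (al e) := by unfold al; fun_prop
  have hn : ∀ i, ‖e i‖ = 1 := e.orthonormal.1
  have hx : ∀ x y : ℝ, HasDerivAt (fun s => al e (s, y)) (e 0) x := by
    intro x y
    unfold al
    have := ((hasDerivAt_id' x).smul_const (e 0)).add_const (y • e 1)
    simpa using this
  have hy : ∀ x y : ℝ, HasDerivAt (fun s => al e (x, s)) (e 1) y := by
    intro x y
    unfold al
    have := ((hasDerivAt_id' y).smul_const (e 1)).const_add (x • e 0)
    simpa using this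
  refine ⟨fun y => fderiv ℝ a (al e y) (e 0), fun y => fderiv ℝ a (al e y) (e 1),
    fun y => fderiv ℝ (fderiv ℝ a) (al e y) (e 1) (e 0), ?_⟩
  have c2 : Continuous (fderiv ℝ (fderiv ℝ a)) := hc1.continuous_fderiv (by norm_num)
  refine ⟨hc.continuous.comp hal, ?_, ?_, ?_, ?_, ?_, ?_, ?_, ?_, ?_, ?_⟩
  · exact (hc1.continuous.comp hal).clm_apply continuous_const
  · exact (hc1.continuous.comp hal).clm_apply continuous_const
  · exact ((c2.comp hal).clm_apply continuous_const).clm_apply continuous_const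
  · intro x y
    exact (hda _).comp_hasDerivAt x (hx x y)
  · intro x y
    exact (hda _).comp_hasDerivAt y (hy x y)
  · intro x y
    have h1 := (hdda (al e (x, y))).comp_hasDerivAt y (hy x y)
    have h2 := h1.clm_apply (hasDerivAt_const y (e 0))
    simpa using h2
  · intro p
    exact (hb _).1
  · intro p
    refine (ContinuousLinearMap.le_opNorm _ _).trans ?_
    rw [hn, mul_one]
    exact (hb _).2.1
  · intro p
    refine (ContinuousLinearMap.le_opNorm _ _).trans ?_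
    rw [hn, mul_one]
    exact (hb _).2.1
  · intro p
    refine (ContinuousLinearMap.le_opNorm _ _).trans ?_
    rw [hn, mul_one]
    refine (ContinuousLinearMap.le_opNorm _ _).trans ?_
    rw [hn, mul_one]
    exact (hb _).2.2

/-- rectangles of arbitrary position and orientation -/
def IsRectangle (R : Set (E 2)) : Prop :=
  ∃ (e : OrthonormalBasis (Fin 2) ℝ (E 2)) (S T : Set ℝ), S.OrdConnected ∧ T.OrdConnected ∧
    R = {x | ⟪e 0, x⟫ ∈ S ∧ ⟪e 1, x⟫ ∈ T}

/-- `e^{iP}` -/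
noncomputable def chirp (P : MvPolynomial (Fin 2) ℝ) (x : E 2) : ℂ :=
  Complex.exp (((MvPolynomial.eval (fun i => x i) P : ℝ) : ℂ) * I)

theorem ev_toP (P : MvPolynomial (Fin 2) ℝ) (x : ℝ × ℝ) :
    ev P x = MvPolynomial.eval (fun i => (toP.symm x) i) P := by
  unfold ev
  congr 1

/-- all the pieces are tame -/
theorem tame_piece (D : ℕ) : ∃ K : ℝ, 1 ≤ K ∧ ∀ P : MvPolynomial (Fin 2) ℝ,
    P.totalDegree ≤ D → ∀ a : E 2 → ℂ, IsAmplitude a → ∀ R : Set (E 2), IsRectangle R →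
    R ⊆ ball 0 (1 / 2) →
    Tame K (toP.symm ⁻¹' R) (fun x => a (toP.symm x) * chirp P (toP.symm x)) := by
  obtain ⟨K, hK, h⟩ := tame_rect (max D 2) (le_max_right _ _)
  refine ⟨K, hK, ?_⟩
  rintro P hP a ha R ⟨e, S, T, hS, hT, rfl⟩ hsub
  have hdeg : (sbs e P).totalDegree ≤ max D 2 := (sbs_deg e P).trans (hP.trans (le_max_left _ _))
  have hST : S ×ˢ T ⊆ Sq := by
    rintro ⟨s, τ⟩ ⟨hs, ht⟩
    have h1 := fr_al e (s, τ)
    rw [fr_apply] at h1
    have h2 : al e (s, τ) ∈ ball (0 : E 2) (1 / 2) := by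
      apply hsub
      rw [Prod.ext_iff] at h1
      simp only at h1
      simp only [mem_ofPred_eq]
      rw [h1.1, h1.2]
      exact ⟨hs, ht⟩
    rw [mem_ball_zero_iff] at h2
    rw [Prod.ext_iff] at h1
    simp only at h1
    have h3 : |s| ≤ ‖al e (s, τ)‖ := by
      rw [← h1.1]
      refine (abs_real_inner_le_norm _ _).trans ?_
      rw [e.orthonormal.1 0, one_mul, h1.1]
    have h4 : |τ| ≤ ‖al e (s, τ)‖ := by
      rw [← h1.2]
      refine (abs_real_inner_le_norm _ _).trans ?_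
      rw [e.orthonormal.1 1, one_mul, h1.2]
    have h5 := abs_le.1 (h3.trans h2.le)
    have h6 := abs_le.1 (h4.trans h2.le)
    refine ⟨⟨by linarith, by linarith⟩, ⟨by linarith, by linarith⟩⟩
  have h1 := tame_rot e (h (sbs e P) hdeg _ (amp_frame e ha) S T hS hT hST)
  have e1 : rho e ⁻¹' (S ×ˢ T) = toP.symm ⁻¹' {x : E 2 | ⟪e 0, x⟫ ∈ S ∧ ⟪e 1, x⟫ ∈ T} := by
    ext x
    simp only [mem_preimage, rho_apply, mem_prod, mem_ofPred_eq]
  have e2 : (fun x => a (al e (rho e x)) * cexp (I * (ev (sbs e P) (rho e x) : ℂ))) =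
      fun x => a (toP.symm x) * chirp P (toP.symm x) := by
    ext x
    rw [al_rho, ev_sbs, ev_toP, chirp, mul_comm I]
  rw [e1, e2] at h1
  exact h1

/-- the point `(ξ₃, (ξ₁, ξ₂))` -/
noncomputable def xi3 : E 3 ≃ᵐ ℝ × (ℝ × ℝ) :=
  (MeasurableEquiv.toLp 2 (Fin 3 → ℝ)).symm.trans
    ((MeasurableEquiv.piFinSuccAbove (fun _ => ℝ) 2).trans
      ((MeasurableEquiv.refl ℝ).prodCongr MeasurableEquiv.finTwoArrow))

theorem xi3_apply (ξ : E 3) : xi3 ξ = (ξ 2, (ξ 0, ξ 1)) := rfl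

theorem xi3_mp : MeasurePreserving xi3 := by
  have h1 := EuclideanSpace.volume_preserving_symm_measurableEquiv_toLp (Fin 3)
  have h2 := volume_preserving_piFinSuccAbove (fun _ : Fin 3 => ℝ) 2
  have h3 : MeasurePreserving ((MeasurableEquiv.refl ℝ).prodCongr (MeasurableEquiv.finTwoArrow (α := ℝ))) :=
    (MeasurePreserving.id (volume : Measure ℝ)).prod (volume_preserving_finTwoArrow ℝ)
  exact h3.comp (h2.comp h1)

/-- the paraboloid `x ↦ (x_1, x_2, x_1^2 + x_2^2)` -/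
noncomputable def Phi (x : E 2) : E 3 := !₂[x 0, x 1, x 0 ^ 2 + x 1 ^ 2]

/-- the Fourier extension operator of the paraboloid over `U` -/
noncomputable def ext (U : Set (E 2)) (f : E 2 → ℂ) (ξ : E 3) : ℂ :=
  ∫ x in U, Complex.exp (-((⟪Phi x, ξ⟫ : ℝ) : ℂ) * I) * f x

theorem exp_ker (x : E 2) (ξ : E 3) :
    Complex.exp (-((⟪Phi x, ξ⟫ : ℝ) : ℂ) * I) = ker (xi3 ξ).1 (xi3 ξ).2 (toP x) := by
  unfold ker Phi
  rw [xi3_apply, toP_apply]
  congr 1
  rw [PiLp.inner_apply, Fin.sum_univ_three]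
  simp
  ring

theorem ext_eq {ι : Type*} [Fintype ι] (U : Set (E 2)) (hU : MeasurableSet U) (R : ι → Set (E 2))
    (hR : ∀ j, MeasurableSet (R j)) (hRU : ∀ j, R j ⊆ U) (hfin : ∀ j, volume (R j) ≠ ∞)
    (c : ι → ℂ) (h : ι → E 2 → ℂ) (hm : ∀ j, Measurable (h j)) (hb : ∀ j x, ‖h j x‖ ≤ 1)
    (f : E 2 → ℂ) (hf : ∀ x ∈ U, f x = ∑ j, (R j).indicator (fun x => c j * h j x) x) (ξ : E 3) :
    ext U f ξ = Fs c (fun j => toP.symm ⁻¹' (R j)) (fun j x => h j (toP.symm x)) (xi3 ξ) := by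
  classical
  have hterm : ∀ j, ∫ x in U, (R j).indicator (fun x => Complex.exp (-((⟪Phi x, ξ⟫ : ℝ) : ℂ) * I) *
      (c j * h j x)) x = c j * ∫ x in toP.symm ⁻¹' (R j), h j (toP.symm x) *
        ker (xi3 ξ).1 (xi3 ξ).2 x := by
    intro j
    rw [setIntegral_indicator (hR j), inter_eq_self_of_subset_right (hRU j)]
    have h1 := toP_mp.setIntegral_preimage_emb toP.measurableEmbedding
      (fun x => h j (toP.symm x) * ker (xi3 ξ).1 (xi3 ξ).2 x) (toP.symm ⁻¹' (R j))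
    have h2 : toP ⁻¹' (toP.symm ⁻¹' (R j)) = R j := by
      ext x; simp
    rw [h2] at h1
    rw [← h1, ← integral_const_mul]
    refine setIntegral_congr_fun (hR j) fun x _ => ?_
    simp only [MeasurableEquiv.symm_apply_apply]
    rw [exp_ker]
    ring
  unfold ext Fs
  have e1 : ∫ x in U, Complex.exp (-((⟪Phi x, ξ⟫ : ℝ) : ℂ) * I) * f x =
      ∫ x in U, ∑ j, (R j).indicator (fun x => Complex.exp (-((⟪Phi x, ξ⟫ : ℝ) : ℂ) * I) *
      (c j * h j x)) x := by
    refine setIntegral_congr_fun hU fun x hx => ?_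
    rw [hf x hx, Finset.mul_sum]
    refine Finset.sum_congr rfl fun j _ => ?_
    by_cases hx : x ∈ R j
    · rw [indicator_of_mem hx, indicator_of_mem hx]
    · rw [indicator_of_notMem hx, indicator_of_notMem hx, mul_zero]
  rw [e1, integral_finsetSum]
  · exact Finset.sum_congr rfl fun j _ => hterm j
  · intro j _
    have hfj : IsFiniteMeasure (volume.restrict (R j)) := ⟨by
      rw [Measure.restrict_apply_univ]; exact (hfin j).lt_top⟩
    have h3 : IntegrableOn (fun x => Complex.exp (-((⟪Phi x, ξ⟫ : ℝ) : ℂ) * I) * (c j * h j x)) (R j) := by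
      refine Integrable.mono' (g := fun _ => ‖c j‖) (integrable_const _) ?_
        (Filter.Eventually.of_forall fun x => ?_)
      · have h4 : Measurable fun x : E 2 => ker (xi3 ξ).1 (xi3 ξ).2 (toP x) := by
          have : Measurable fun x : ℝ × ℝ => ker (xi3 ξ).1 (xi3 ξ).2 x := by unfold ker; fun_prop
          exact this.comp toP.measurable
        have h5 : (fun x => Complex.exp (-((⟪Phi x, ξ⟫ : ℝ) : ℂ) * I) * (c j * h j x)) =
            fun x => ker (xi3 ξ).1 (xi3 ξ).2 (toP x) * (c j * h j x) := by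
          ext x; rw [exp_ker]
        rw [h5]
        exact (h4.mul ((hm j).const_mul (c j))).aestronglyMeasurable
      · rw [exp_ker, norm_mul, norm_ker, one_mul, norm_mul]
        exact mul_le_of_le_one_right (norm_nonneg _) (hb j x)
    exact ((integrable_indicator_iff (hR j)).2 h3).integrableOn

theorem rect_meas {R : Set (E 2)} (hR : IsRectangle R) : MeasurableSet R := by
  obtain ⟨e, S, T, hS, hT, rfl⟩ := hR
  have : {x : E 2 | ⟪e 0, x⟫ ∈ S ∧ ⟪e 1, x⟫ ∈ T} = fr e ⁻¹' (S ×ˢ T) := by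
    ext x
    simp [fr_apply]
  rw [this]
  exact (fr e).measurable (hS.measurableSet.prod hT.measurableSet)

theorem ball_sub : toP.symm ⁻¹' (ball (0 : E 2) (1 / 2)) ⊆
    Ioo (-1 / 2 : ℝ) (1 / 2) ×ˢ Ioo (-1 / 2 : ℝ) (1 / 2) := by
  intro x hx
  rw [mem_preimage, mem_ball_zero_iff] at hx
  have h : ∀ i, |(toP.symm x) i| < 1 / 2 := by
    intro i
    have := PiLp.norm_apply_le (toP.symm x) i
    rw [Real.norm_eq_abs] at this
    linarith
  have h0 := abs_lt.1 (h 0)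
  have h1 := abs_lt.1 (h 1)
  rw [toP_symm0] at h0
  rw [toP_symm1] at h1
  refine ⟨⟨by linarith [h0.1], h0.2⟩, ⟨by linarith [h1.1], h1.2⟩⟩

theorem ball_vol : volume (toP.symm ⁻¹' (ball (0 : E 2) (1 / 2))) ≤ 1 := by
  refine (measure_mono ball_sub).trans ?_
  rw [Measure.volume_eq_prod, Measure.prod_prod, Real.volume_Ioo]
  norm_num

theorem vol_toP (R : Set (E 2)) : volume (toP.symm ⁻¹' R) = volume R :=
  (toP_mp.symm toP).measure_preimage_emb toP.symm.measurableEmbedding R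

end Run7.h239.PP
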